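import Pool.Agent.PLG.Targets

set_option autoImplicit false

/-!
# Polynomials in the functions are combinations of hyperlogarithms
-/

namespace Pool.Agent.PLG.LIN_

open Finset
open scoped BigOperators

variable {ι : Type}

/-- the span of the hyperlogarithms of admissible words of length at most `n` -/
noncomputable def A (c : ι → ℕ) (n : ℕ) : Submodule ℚ (PowerSeries ℚ) :=
  Submodule.span ℚ {f | ∃ w : List (Option ι), ok w ∧ w.length ≤ n ∧ f = L c w}

/-- the same for nonempty words -/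
noncomputable def Ap (c : ι → ℕ) (n : ℕ) : Submodule ℚ (PowerSeries ℚ) :=
  Submodule.span ℚ {f | ∃ w : List (Option ι), ok w ∧ w ≠ [] ∧ w.length ≤ n ∧ f = L c w}

theorem A_mono (c : ι → ℕ) {m n : ℕ} (h : m ≤ n) : A c m ≤ A c n := by
  apply Submodule.span_mono
  rintro f ⟨w, h1, h2, h3⟩
  exact ⟨w, h1, h2.trans h, h3⟩

theorem Ap_le_A (c : ι → ℕ) (n : ℕ) : Ap c n ≤ A c n := by
  apply Submodule.span_mono
  rintro f ⟨w, h1, _, h2, h3⟩
  exact ⟨w, h1, h2, h3⟩

theorem Ap_mono (c : ι → ℕ) {m n : ℕ} (h : m ≤ n) : Ap c m ≤ Ap c n := by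
  apply Submodule.span_mono
  rintro f ⟨w, h1, h0, h2, h3⟩
  exact ⟨w, h1, h0, h2.trans h, h3⟩

theorem one_mem (c : ι → ℕ) (n : ℕ) : (1 : PowerSeries ℚ) ∈ A c n :=
  Submodule.subset_span ⟨[], trivial, Nat.zero_le _, rfl⟩

theorem mul_mem [Fintype ι] [DecidableEq ι] (h : T_SHUF) (c : ι → ℕ) {m n : ℕ}
    {f g : PowerSeries ℚ} (hf : f ∈ A c m) (hg : g ∈ A c n) : f * g ∈ A c (m + n) := by
  have h1 : A c m * A c n ≤ A c (m + n) := by
    unfold A
    rw [Submodule.span_mul_span, Submodule.span_le]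
    rintro _ ⟨_, ⟨u, hu1, hu2, rfl⟩, _, ⟨v, hv1, hv2, rfl⟩, rfl⟩
    have h2 := h ι c u v hu1 hv1
    refine Submodule.span_mono ?_ h2
    rintro f ⟨w, h3, h4, h5⟩
    exact ⟨w, h3, by omega, h5⟩
  exact h1 (Submodule.mul_mem_mul hf hg)

theorem pow_mem [Fintype ι] [DecidableEq ι] (h : T_SHUF) (c : ι → ℕ) {m : ℕ}
    {f : PowerSeries ℚ} (hf : f ∈ A c m) (k : ℕ) : f ^ k ∈ A c (k * m) := by
  induction k with
  | zero =>
    rw [pow_zero]
    exact one_mem c _
  | succ k ih =>
    rw [pow_succ, Nat.succ_mul]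
    exact mul_mem h c ih hf

theorem prod_mem [Fintype ι] [DecidableEq ι] (h : T_SHUF) (c : ι → ℕ) {κ : Type} (s : Finset κ)
    (f : κ → PowerSeries ℚ) (n : κ → ℕ) (hf : ∀ i ∈ s, f i ∈ A c (n i)) :
    ∏ i ∈ s, f i ∈ A c (∑ i ∈ s, n i) := by
  classical
  induction s using Finset.induction_on with
  | empty =>
    rw [Finset.prod_empty]
    exact one_mem c _
  | insert a s ha ih =>
    rw [Finset.prod_insert ha, Finset.sum_insert ha]
    exact mul_mem h c (hf a (Finset.mem_insert_self _ _))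
      (ih fun i hi => hf i (Finset.mem_insert_of_mem hi))

/-- the primitive as a linear map -/
noncomputable def InL (c : ι → ℕ) (x : Option ι) : PowerSeries ℚ →ₗ[ℚ] PowerSeries ℚ where
  toFun := In c x
  map_add' f g := by
    cases x with
    | none =>
      ext n
      simp only [In, map_add, PowerSeries.coeff_mk, add_div]
    | some i =>
      ext n
      simp only [In, map_add, PowerSeries.coeff_mk, add_mul, Finset.sum_add_distrib, add_div]
  map_smul' a f := by
    cases x with
    | none =>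
      ext n
      simp only [In, PowerSeries.coeff_mk, PowerSeries.coeff_smul, smul_eq_mul, RingHom.id_apply,
        mul_div_assoc]
    | some i =>
      ext n
      simp only [In, PowerSeries.coeff_mk, PowerSeries.coeff_smul, smul_eq_mul, RingHom.id_apply,
        mul_assoc, ← Finset.mul_sum, mul_div_assoc]

theorem In_mem (c : ι → ℕ) (x : Option ι) {n : ℕ} {f : PowerSeries ℚ} (hf : f ∈ Ap c n) :
    In c x f ∈ Ap c (n + 1) := by
  have h1 : Ap c n ≤ (Ap c (n + 1)).comap (InL c x) := by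
    unfold Ap
    rw [Submodule.span_le]
    rintro _ ⟨w, h1, h0, h2, rfl⟩
    change InL c x (L c w) ∈ Submodule.span ℚ _
    apply Submodule.subset_span
    refine ⟨x :: w, ?_, by simp, by simpa using h2, rfl⟩
    cases w with
    | nil => exact absurd rfl h0
    | cons y l => exact h1
  exact h1 hf

theorem yy_mem {r g : ℕ} (c : Lt r g → ℕ) (i : Fin r) (l : Fin g) (j : ℕ) :
    yy c i l j ∈ Ap c (j + 1) := by
  induction j with
  | zero =>
    rw [yy]
    apply Submodule.sub_mem
    · exact Submodule.subset_span ⟨[some (i, none)], by simp [ok], by simp, by simp, rfl⟩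
    · exact Submodule.subset_span ⟨[some (i, some l)], by simp [ok], by simp, by simp, rfl⟩
  | succ j ih =>
    rw [yy]
    exact Submodule.sub_mem _ (In_mem c _ ih) (In_mem c _ ih)

/-- the weights -/
def wt {r g s : ℕ} : Fx r g s → ℕ
  | (_, none) => 1
  | (_, some _) => s

theorem fn_mem {r g s : ℕ} (c : Lt r g → ℕ) (v : Fx r g s) : fn c v ∈ A c (wt v) := by
  rcases v with ⟨i, _ | ⟨l, j⟩⟩
  · exact Submodule.subset_span ⟨[some (i, none)], by simp [ok], by simp [wt], rfl⟩
  · have h1 := Ap_le_A c _ (yy_mem c i l (j : ℕ))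
    exact A_mono c (by have := j.isLt; simp only [wt]; omega) h1

theorem sum_wt (r g s : ℕ) : ∑ v : Fx r g s, wt v = r * (1 + g * (s * s)) := by
  rw [Fintype.sum_prod_type]
  simp only [Fintype.sum_option, wt, Finset.sum_const, Finset.card_univ, Fintype.card_prod,
    Fintype.card_fin, smul_eq_mul]
  ring

end Pool.Agent.PLG.LIN_

namespace Pool.Agent.PLG

open LIN_ Finset

theorem p_LIN (h1 : T_SHUF) : T_LIN := by
  intro r g s B W c hW Q hQ
  have key : MvPolynomial.aeval (fn c) Q ∈ A c W := by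
    rw [MvPolynomial.aeval_def, MvPolynomial.eval₂_eq']
    apply Submodule.sum_mem
    intro e he
    have h2 : ∏ v : Fx r g s, fn c v ^ e v ∈ A c (∑ v : Fx r g s, e v * wt v) :=
      prod_mem h1 c univ _ _ fun v _ => pow_mem h1 c (fn_mem c v) _
    have h3 : ∑ v : Fx r g s, e v * wt v ≤ W := by
      refine le_trans ?_ hW
      rw [← sum_wt, Finset.mul_sum]
      apply Finset.sum_le_sum
      intro v _
      apply Nat.mul_le_mul_right
      exact (MvPolynomial.degreeOf_le_iff.1 (hQ v)) e he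
    have h4 := Submodule.smul_mem _ (MvPolynomial.coeff e Q) (A_mono c h3 h2)
    rw [Algebra.smul_def] at h4
    exact h4
  have hspan : A c W = Submodule.span ℚ (Set.range fun w : Wd (Lt r g) W => L c w.1) := by
    unfold A
    congr 1
    ext f
    constructor
    · rintro ⟨w, h2, h3, rfl⟩
      exact ⟨⟨w, h3, h2⟩, rfl⟩
    · rintro ⟨w, rfl⟩
      exact ⟨w.1, w.2.2, w.2.1, rfl⟩
  rw [hspan, Submodule.mem_span_range_iff_exists_fun] at key
  obtain ⟨lam, hlam⟩ := key
  exact ⟨lam, hlam.symm⟩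

end Pool.Agent.PLG
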