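import Pool.Agent.PLG.Targets

set_option autoImplicit false

/-!
# PLG-ABS: stable submodules without elements supported at the empty word are zero
-/

open Finset Polynomial
open scoped BigOperators

namespace Pool.Agent.PLG

namespace ABS_

variable {ι : Type} [Fintype ι] [DecidableEq ι] {W : ℕ}

/-- the length of a word -/
def sz (J : Wd ι W) : ℕ := J.1.length

/-- the measure -/
noncomputable def mu (F : Wd ι W → ℚ[X]) : ℕ := by
  classical
  exact ∑ J ∈ Finset.univ.filter (fun J => F J ≠ 0), (Fintype.card (Wd ι W) + 1) ^ sz J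

theorem dl_top (c : ι → ℕ) (F : Wd ι W → ℚ[X]) (d : ℕ) (hd : ∀ J, d < sz J → F J = 0)
    (I : Wd ι W) (hI : d ≤ sz I) : dl c F I = TT c * derivative (F I) := by
  unfold dl
  rw [add_eq_left]
  refine Finset.sum_eq_zero fun x _ => ?_
  have : ex F (x :: I.1) = 0 := by
    unfold ex
    split_ifs with h
    · apply hd
      unfold sz at hI ⊢
      simp only [List.length_cons]
      omega
    · rfl
  rw [this, mul_zero]

omit [DecidableEq ι] in
theorem mu_lt (F G : Wd ι W → ℚ[X]) (Js : Wd ι W) (hJs : F Js ≠ 0) (h1 : 1 ≤ sz Js)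
    (hG1 : ∀ J, sz Js < sz J → G J = 0) (hG2 : ∀ J, sz J = sz Js → F J = 0 → G J = 0)
    (hG3 : G Js = 0) : mu G < mu F := by
  classical
  unfold mu
  set M := Fintype.card (Wd ι W) with hM
  set d := sz Js with hd
  have hsub : Finset.univ.filter (fun J => G J ≠ 0) ⊆
      ((Finset.univ.filter (fun J => F J ≠ 0)).filter (fun J => sz J = d)).erase Js ∪
        Finset.univ.filter (fun J => sz J < d) := by
    intro J hJ
    rw [Finset.mem_filter] at hJ
    rw [Finset.mem_union, Finset.mem_erase, Finset.mem_filter, Finset.mem_filter, Finset.mem_filter]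
    rcases lt_trichotomy (sz J) d with h | h | h
    · right; exact ⟨Finset.mem_univ _, h⟩
    · left
      refine ⟨fun e => hJ.2 (by rw [e]; exact hG3), ⟨Finset.mem_univ _, fun e => hJ.2 (hG2 J h e)⟩, h⟩
    · exact absurd (hG1 J h) hJ.2
  have hlow : ∑ J ∈ Finset.univ.filter (fun J : Wd ι W => sz J < d), (M + 1) ^ sz J < (M + 1) ^ d := by
    calc ∑ J ∈ Finset.univ.filter (fun J : Wd ι W => sz J < d), (M + 1) ^ sz J
        ≤ ∑ J ∈ Finset.univ.filter (fun J : Wd ι W => sz J < d), (M + 1) ^ (d - 1) := by
          refine Finset.sum_le_sum fun J hJ => ?_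
          rw [Finset.mem_filter] at hJ
          exact Nat.pow_le_pow_right (by omega) (by omega)
      _ = (Finset.univ.filter (fun J : Wd ι W => sz J < d)).card * (M + 1) ^ (d - 1) := by
          rw [Finset.sum_const, smul_eq_mul]
      _ ≤ M * (M + 1) ^ (d - 1) := by
          refine Nat.mul_le_mul_right _ ?_
          rw [hM]
          exact Finset.card_le_univ _
      _ < (M + 1) * (M + 1) ^ (d - 1) := Nat.mul_lt_mul_of_pos_right (by omega) (by positivity)
      _ = (M + 1) ^ d := by
          rw [← pow_succ']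
          congr 1
          omega
  have hmem : Js ∈ (Finset.univ.filter (fun J => F J ≠ 0)).filter (fun J => sz J = d) := by
    simp [hJs, hd]
  calc ∑ J ∈ Finset.univ.filter (fun J => G J ≠ 0), (M + 1) ^ sz J
      ≤ ∑ J ∈ ((Finset.univ.filter (fun J => F J ≠ 0)).filter (fun J => sz J = d)).erase Js ∪
        Finset.univ.filter (fun J => sz J < d), (M + 1) ^ sz J := Finset.sum_le_sum_of_subset hsub
    _ ≤ ∑ J ∈ ((Finset.univ.filter (fun J => F J ≠ 0)).filter (fun J => sz J = d)).erase Js,
          (M + 1) ^ sz J + ∑ J ∈ Finset.univ.filter (fun J : Wd ι W => sz J < d), (M + 1) ^ sz J := by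
        rw [← Finset.sum_union_inter]
        exact Nat.le_add_right _ _
    _ < ∑ J ∈ ((Finset.univ.filter (fun J => F J ≠ 0)).filter (fun J => sz J = d)).erase Js,
          (M + 1) ^ sz J + (M + 1) ^ sz Js := Nat.add_lt_add_left hlow _
    _ = ∑ J ∈ (Finset.univ.filter (fun J => F J ≠ 0)).filter (fun J => sz J = d),
          (M + 1) ^ sz J := Finset.sum_erase_add _ _ hmem
    _ ≤ ∑ J ∈ Finset.univ.filter (fun J => F J ≠ 0), (M + 1) ^ sz J :=
        Finset.sum_le_sum_of_subset (Finset.filter_subset _ _)

/-- nonzero solutions have equal degrees -/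
theorem deg_eq (V H : ℚ[X]) (hV : V ≠ 0) (hH : H ≠ 0) (h : V * derivative H = derivative V * H) :
    H.natDegree = V.natDegree := by
  obtain ⟨n, hn⟩ : ∃ n, n = V.natDegree := ⟨_, rfl⟩
  obtain ⟨m, hm⟩ : ∃ m, m = H.natDegree := ⟨_, rfl⟩
  rw [← hn, ← hm]
  have hVn : V.coeff n ≠ 0 := by rw [hn]; exact leadingCoeff_ne_zero.2 hV
  have hHm : H.coeff m ≠ 0 := by rw [hm]; exact leadingCoeff_ne_zero.2 hH
  rcases Nat.eq_zero_or_pos m with h0 | h0
  · have hd : derivative H = 0 := by
      rw [Polynomial.eq_C_of_natDegree_eq_zero (by omega : H.natDegree = 0), derivative_C]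
    rw [hd, mul_zero] at h
    have hd2 : derivative V = 0 := (mul_eq_zero.1 h.symm).resolve_right hH
    have := Polynomial.derivative_eq_zero.1 hd2
    omega
  · rcases Nat.eq_zero_or_pos n with h1 | h1
    · have hd : derivative V = 0 := by
        rw [Polynomial.eq_C_of_natDegree_eq_zero (by omega : V.natDegree = 0), derivative_C]
      rw [hd, zero_mul] at h
      have hd2 : derivative H = 0 := (mul_eq_zero.1 h).resolve_left hV
      have := Polynomial.derivative_eq_zero.1 hd2
      omega
    · obtain ⟨m', rfl⟩ : ∃ m', m = m' + 1 := ⟨m - 1, by omega⟩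
      obtain ⟨n', rfl⟩ : ∃ n', n = n' + 1 := ⟨n - 1, by omega⟩
      have e1 : (V * derivative H).coeff ((n' + 1) + m') = V.coeff (n' + 1) *
          (derivative H).coeff m' := by
        refine coeff_mul_add_eq_of_natDegree_le (by omega) ?_
        have := natDegree_derivative_le H
        omega
      have e2 : (derivative V * H).coeff (n' + (m' + 1)) = (derivative V).coeff n' *
          H.coeff (m' + 1) := by
        refine coeff_mul_add_eq_of_natDegree_le ?_ (by omega)
        have := natDegree_derivative_le V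
        omega
      rw [show (n' + 1) + m' = n' + (m' + 1) by ring, h, e2, coeff_derivative,
        coeff_derivative] at e1
      have e3 : V.coeff (n' + 1) * H.coeff (m' + 1) * ((n' : ℚ) - m') = 0 := by
        linear_combination e1
      have e4 := (mul_eq_zero.1 e3).resolve_left (mul_ne_zero hVn hHm)
      have e5 : (n' : ℚ) = m' := by linarith
      have e6 : n' = m' := by exact_mod_cast e5
      omega

theorem ratio (V F : ℚ[X]) (hV : V ≠ 0) (h : V * derivative F = derivative V * F) :
    ∃ e : ℚ, F = C e * V := by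
  by_cases hF : F = 0
  · exact ⟨0, by rw [hF]; simp⟩
  refine ⟨F.leadingCoeff / V.leadingCoeff, ?_⟩
  set e := F.leadingCoeff / V.leadingCoeff with he
  by_contra hne
  have hH : F - C e * V ≠ 0 := sub_ne_zero.2 hne
  have h1 : V * derivative (F - C e * V) = derivative V * (F - C e * V) := by
    simp only [derivative_sub, derivative_mul, derivative_C, zero_mul, zero_add]
    linear_combination h
  have d1 := deg_eq V _ hV hH h1
  have d2 := deg_eq V F hV hF h
  have h2 : (F - C e * V).coeff V.natDegree = 0 := by
    rw [coeff_sub, coeff_C_mul, ← d2]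
    change F.leadingCoeff - e * V.coeff F.natDegree = 0
    rw [d2]
    change F.leadingCoeff - e * V.leadingCoeff = 0
    rw [he, div_mul_cancel₀ _ (leadingCoeff_ne_zero.2 hV), sub_self]
  rw [← d1] at h2
  exact hH (leadingCoeff_eq_zero.1 h2)

omit [Fintype ι] [DecidableEq ι] in
theorem ok_tail {x : Option ι} {w : List (Option ι)} (h : ok (x :: w)) : ok w := by
  cases w with
  | nil => trivial
  | cons y l => exact h

/-- the core -/
theorem core (hres : T_RES) (c : ι → ℕ) (hc : Function.Injective c) (hc1 : ∀ i, 1 ≤ c i)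
    (N : Submodule ℚ[X] (Wd ι W → ℚ[X])) (hdl : ∀ F ∈ N, dl c F ∈ N)
    (hP : ∀ F ∈ N, (∀ w : Wd ι W, w.1 ≠ [] → F w = 0) → F = 0) :
    ∀ (m : ℕ) (F : Wd ι W → ℚ[X]), mu F = m → F ∈ N → F = 0 := by
  classical
  intro m
  induction m using Nat.strong_induction_on with
  | _ m ih =>
  intro F hm hF
  by_contra hne
  have hex : (Finset.univ.filter (fun J => F J ≠ 0)).Nonempty := by
    by_contra hh
    apply hne
    funext J
    by_contra hJ
    exact hh ⟨J, by simp only [Finset.mem_filter, Finset.mem_univ, true_and]; exact hJ⟩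
  obtain ⟨Js, hJs, hmax⟩ := Finset.exists_max_image _ sz hex
  rw [Finset.mem_filter] at hJs
  have hVne := hJs.2
  have hmax' : ∀ J, sz Js < sz J → F J = 0 := by
    intro J hJ
    by_contra h
    have := hmax J (by simp [h])
    omega
  rcases Nat.eq_zero_or_pos (sz Js) with h0 | h1
  · apply hne
    refine hP F hF fun w hw => ?_
    apply hmax'
    rw [h0]
    unfold sz
    exact List.length_pos_iff.2 hw
  · have hG : (F Js • dl c F + (-(TT c * derivative (F Js))) • F) ∈ N :=
      N.add_mem (N.smul_mem _ (hdl F hF)) (N.smul_mem _ hF)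
    have htop := dl_top c F (sz Js) hmax'
    have hlt : mu (F Js • dl c F + (-(TT c * derivative (F Js))) • F) < mu F := by
      refine mu_lt F _ Js hVne h1 ?_ ?_ ?_
      · intro J hJ
        simp only [Pi.add_apply, Pi.smul_apply, smul_eq_mul]
        rw [htop J hJ.le, hmax' J hJ]
        simp
      · intro J hJ hFJ
        simp only [Pi.add_apply, Pi.smul_apply, smul_eq_mul]
        rw [htop J hJ.ge, hFJ]
        simp
      · simp only [Pi.add_apply, Pi.smul_apply, smul_eq_mul]
        rw [htop Js le_rfl]
        ring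
    have hG0 := ih _ (by rw [← hm]; exact hlt) _ rfl hG
    have hEq : ∀ I, F Js * dl c F I = TT c * derivative (F Js) * F I := by
      intro I
      have := congrFun hG0 I
      simp only [Pi.add_apply, Pi.smul_apply, smul_eq_mul, Pi.zero_apply] at this
      linear_combination this
    have hT0 : TT c ≠ 0 := by
      unfold TT
      refine mul_ne_zero X_ne_zero (Finset.prod_ne_zero_iff.2 fun i _ => ?_)
      intro h
      have := congrArg (eval 0) h
      simp at this
    have hrat : ∀ J, sz J = sz Js → ∃ e : ℚ, F J = C e * F Js := by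
      intro J hJ
      refine ratio (F Js) (F J) hVne ?_
      have := hEq J
      rw [htop J hJ.ge] at this
      refine mul_left_cancel₀ hT0 ?_
      linear_combination this
    choose! e he using hrat
    obtain ⟨x0, w1, hw1⟩ : ∃ x0 w1, Js.1 = x0 :: w1 := by
      cases hcs : Js.1 with
      | nil => unfold sz at h1; rw [hcs] at h1; simp at h1
      | cons x0 w1 => exact ⟨x0, w1, rfl⟩
    have hJ2 := Js.2
    rw [hw1] at hJ2
    have hlen : Js.1.length = w1.length + 1 := by rw [hw1]; rfl
    have hI2 : w1.length ≤ W ∧ ok w1 := by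
      refine ⟨?_, ok_tail hJ2.2⟩
      have := hJ2.1
      simp only [List.length_cons] at this
      omega
    -- the coefficients
    obtain ⟨e', he'⟩ : ∃ e' : Option ι → ℚ, ∀ x, ex F (x :: w1) = C (e' x) * F Js := by
      refine ⟨fun x => if h : (x :: w1).length ≤ W ∧ ok (x :: w1) then e ⟨x :: w1, h⟩ else 0,
        fun x => ?_⟩
      unfold ex
      by_cases h : (x :: w1).length ≤ W ∧ ok (x :: w1)
      · have hz : sz (⟨x :: w1, h⟩ : Wd ι W) = sz Js := by
          unfold sz
          rw [hlen]
          rfl
        have h5 := he ⟨x :: w1, h⟩ hz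
        simp only [h, and_self, dif_pos]
        exact h5
      · simp only [h, dif_neg, not_false_eq_true]
        simp
    have hfin := hEq ⟨w1, hI2⟩
    unfold dl at hfin
    simp only [he'] at hfin
    have hr := hres ι c hc hc1 (F Js) (F ⟨w1, hI2⟩) (fun x => - e' x) hVne (by
      have s1 : (F Js) ^ 2 * ∑ x, C (- e' x) * Tx c x =
          - (F Js * ∑ x, Tx c x * (C (e' x) * F Js)) := by
        rw [Finset.mul_sum, Finset.mul_sum, ← Finset.sum_neg_distrib]
        refine Finset.sum_congr rfl fun x _ => ?_
        rw [C_neg]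
        ring
      rw [s1]
      linear_combination hfin)
    have hx0 := he' x0
    have h3 : ex F (x0 :: w1) = F Js := by
      unfold ex
      rw [dif_pos hJ2]
      congr 1
      exact Subtype.ext hw1.symm
    have h4 : e' x0 = 0 := by
      have := congrFun hr x0
      simpa using this
    rw [h3, h4] at hx0
    apply hVne
    rw [hx0]
    simp

end ABS_

open ABS_

theorem p_ABS (h1 : T_RES) : T_ABS := by
  intro ι _ _ c W hc hc1 N hdl hP F hF
  exact core h1 c hc hc1 N hdl hP _ F rfl hF

end Pool.Agent.PLG
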