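import Pool.Agent.PLG.Targets

set_option autoImplicit false

/-! VAL: the functions are the polylogarithms -/

namespace Pool.Agent.PLG

open Finset
open scoped BigOperators

namespace VAL_

/-- coefficients bounded by `B M^n` -/
def Bdd (f : PowerSeries ℚ) (B M : ℝ) : Prop :=
  ∀ n, |((PowerSeries.coeff n f : ℚ) : ℝ)| ≤ B * M ^ n

lemma summ {f : PowerSeries ℚ} {B M x : ℝ} (hf : Bdd f B M) (hM : 0 < M) (hx : |x| * M < 1) :
    Summable fun n => ((PowerSeries.coeff n f : ℚ) : ℝ) * x ^ n := by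
  have hg : Summable fun n : ℕ => B * (|x| * M) ^ n :=
    (summable_geometric_of_lt_one (by positivity) hx).mul_left B
  refine Summable.of_norm_bounded hg fun n => ?_
  rw [norm_mul, norm_pow, Real.norm_eq_abs, Real.norm_eq_abs, mul_pow]
  calc |((PowerSeries.coeff n f : ℚ) : ℝ)| * |x| ^ n ≤ (B * M ^ n) * |x| ^ n :=
        mul_le_mul_of_nonneg_right (hf n) (by positivity)
    _ = B * (|x| ^ n * M ^ n) := by ring

/-- the derivative -/
noncomputable def dv (f : PowerSeries ℚ) (x : ℝ) : ℝ :=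
  ∑' n : ℕ, (n : ℝ) * ((PowerSeries.coeff n f : ℚ) : ℝ) * x ^ (n - 1)

lemma deriv_summ {f : PowerSeries ℚ} {B M x : ℝ} (hf : Bdd f B M) (hM : 0 < M)
    (hx : |x| * M < 1) :
    Summable (fun n : ℕ => (n : ℝ) * ((PowerSeries.coeff n f : ℚ) : ℝ) * x ^ (n - 1)) ∧
    HasDerivAt (val f) (dv f x) x := by
  have hB : 0 ≤ B := by
    have := (abs_nonneg _).trans (hf 0)
    simpa using this
  have hx1 : |x| < 1 / M := by rw [lt_div_iff₀ hM]; exact hx
  obtain ⟨ρ, h1, h2⟩ := exists_between hx1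
  have hρ : 0 < ρ := (abs_nonneg x).trans_lt h1
  have hρM : M * ρ < 1 := by
    rw [lt_div_iff₀ hM] at h2
    linarith
  have hu : Summable fun n : ℕ => (B / ρ) * ((n : ℝ) ^ 1 * (M * ρ) ^ n) := by
    refine Summable.mul_left _ ?_
    refine summable_pow_mul_geometric_of_norm_lt_one 1 ?_
    rw [Real.norm_eq_abs, abs_of_pos (by positivity)]
    exact hρM
  have hbd : ∀ (n : ℕ) (y : ℝ), y ∈ Set.Ioo (-ρ) ρ →
      ‖(n : ℝ) * ((PowerSeries.coeff n f : ℚ) : ℝ) * y ^ (n - 1)‖ ≤
        (B / ρ) * ((n : ℝ) ^ 1 * (M * ρ) ^ n) := by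
    intro n y hy
    have hy' : |y| ≤ ρ := abs_le.2 ⟨hy.1.le, hy.2.le⟩
    rcases Nat.eq_zero_or_pos n with h | h
    · subst h
      simp
    · obtain ⟨k, rfl⟩ : ∃ k, n = k + 1 := ⟨n - 1, by omega⟩
      rw [norm_mul, norm_mul, norm_pow, Real.norm_eq_abs, Real.norm_eq_abs, Real.norm_eq_abs,
        Nat.add_sub_cancel, abs_of_nonneg (by positivity : (0 : ℝ) ≤ ((k + 1 : ℕ) : ℝ))]
      calc ((k + 1 : ℕ) : ℝ) * |((PowerSeries.coeff (k + 1) f : ℚ) : ℝ)| * |y| ^ k
          ≤ ((k + 1 : ℕ) : ℝ) * (B * M ^ (k + 1)) * ρ ^ k := by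
            gcongr
            exact hf _
        _ = (B / ρ) * (((k + 1 : ℕ) : ℝ) ^ 1 * (M * ρ) ^ (k + 1)) := by
            rw [mul_pow, pow_succ ρ k, pow_one]
            field_simp
  have hxt : x ∈ Set.Ioo (-ρ) ρ := abs_lt.1 h1
  refine ⟨Summable.of_norm_bounded hu fun n => hbd n x hxt, ?_⟩
  have key := hasDerivAt_tsum_of_isPreconnected (𝕜 := ℝ) (F := ℝ)
    (g := fun (n : ℕ) (y : ℝ) => ((PowerSeries.coeff n f : ℚ) : ℝ) * y ^ n)
    (g' := fun (n : ℕ) (y : ℝ) => (n : ℝ) * ((PowerSeries.coeff n f : ℚ) : ℝ) * y ^ (n - 1))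
    hu isOpen_Ioo isPreconnected_Ioo (fun n y hy => by
      have := (hasDerivAt_pow n y).const_mul ((PowerSeries.coeff n f : ℚ) : ℝ)
      refine this.congr_deriv ?_
      ring) hbd hxt (summ hf hM hx) hxt
  exact key

lemma bdd_none {ι : Type} (c : ι → ℕ) {f : PowerSeries ℚ} {B M : ℝ} (hf : Bdd f B M)
    (hM : 0 < M) : Bdd (In c none f) B M := by
  intro n
  have hB : 0 ≤ B := by
    have := (abs_nonneg _).trans (hf 0)
    simpa using this
  simp only [In, PowerSeries.coeff_mk]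
  push_cast
  rw [abs_div]
  rcases Nat.eq_zero_or_pos n with h | h
  · subst h
    simp only [Nat.cast_zero, abs_zero, div_zero]
    positivity
  · have h1 : (1 : ℝ) ≤ |(n : ℝ)| := by
      rw [abs_of_nonneg (by positivity)]
      exact_mod_cast h
    exact (div_le_self (abs_nonneg _) h1).trans (hf n)

lemma bdd_some {ι : Type} (c : ι → ℕ) {f : PowerSeries ℚ} {B M : ℝ} (hf : Bdd f B M)
    (hM : 0 < M) (i : ι) (hc : (c i : ℝ) ≤ M) : Bdd (In c (some i) f) B M := by
  intro n
  have hB : 0 ≤ B := by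
    have := (abs_nonneg _).trans (hf 0)
    simpa using this
  simp only [In, PowerSeries.coeff_mk]
  push_cast
  rw [abs_div]
  rcases Nat.eq_zero_or_pos n with h | h
  · subst h
    simp only [Nat.cast_zero, abs_zero, div_zero]
    positivity
  · have h1 : (0 : ℝ) < |(n : ℝ)| := by
      rw [abs_of_nonneg (by positivity)]
      exact_mod_cast h
    rw [div_le_iff₀ h1, abs_of_nonneg (by positivity : (0 : ℝ) ≤ (n : ℝ))]
    calc |∑ j ∈ range n, ((PowerSeries.coeff j f : ℚ) : ℝ) * ((c i : ℝ) * (-(c i : ℝ)) ^ (n - 1 - j))|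
        ≤ ∑ j ∈ range n,
          |((PowerSeries.coeff j f : ℚ) : ℝ) * ((c i : ℝ) * (-(c i : ℝ)) ^ (n - 1 - j))| :=
          abs_sum_le_sum_abs _ _
      _ ≤ ∑ _j ∈ range n, B * M ^ n := by
          refine sum_le_sum fun j hj => ?_
          have hj' := mem_range.1 hj
          rw [abs_mul, abs_mul, abs_pow, abs_neg, abs_of_nonneg (by positivity : (0:ℝ) ≤ (c i : ℝ))]
          calc |((PowerSeries.coeff j f : ℚ) : ℝ)| * ((c i : ℝ) * (c i : ℝ) ^ (n - 1 - j))
              ≤ (B * M ^ j) * (M * M ^ (n - 1 - j)) := by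
                gcongr
                exact hf j
            _ = B * M ^ n := by
                have : M ^ n = M ^ j * (M * M ^ (n - 1 - j)) := by
                  rw [← pow_succ', ← pow_add]
                  congr 1
                  omega
                rw [this]
                ring
      _ = B * M ^ n * n := by
          rw [sum_const, card_range, nsmul_eq_mul]
          ring

/-- `x (In f)' = f` -/
lemma eq_none {ι : Type} (c : ι → ℕ) {f : PowerSeries ℚ} {B M x : ℝ} (_hf : Bdd f B M)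
    (_hM : 0 < M) (_hx : |x| * M < 1) (h0 : PowerSeries.coeff 0 f = 0) :
    x * dv (In c none f) x = val f x := by
  unfold dv val
  rw [← tsum_mul_left]
  refine tsum_congr fun n => ?_
  simp only [In, PowerSeries.coeff_mk]
  push_cast
  rcases Nat.eq_zero_or_pos n with h | h
  · subst h
    simp [h0]
  · obtain ⟨k, rfl⟩ : ∃ k, n = k + 1 := ⟨n - 1, by omega⟩
    have hk : ((k + 1 : ℕ) : ℝ) ≠ 0 := by positivity
    rw [Nat.add_sub_cancel, mul_div_cancel₀ _ hk, pow_succ]
    ring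

/-- `(1 + c x) (In f)' = c f` -/
lemma eq_some {ι : Type} (c : ι → ℕ) {f : PowerSeries ℚ} {B M x : ℝ} (hf : Bdd f B M)
    (hM : 0 < M) (hx : |x| * M < 1) (i : ι) (hc : (c i : ℝ) ≤ M) :
    (1 + c i * x) * dv (In c (some i) f) x = c i * val f x := by
  have hs := (deriv_summ (bdd_some c hf hM i hc) hM hx).1
  set S : ℕ → ℝ := fun n => ∑ j ∈ range n,
    ((PowerSeries.coeff j f : ℚ) : ℝ) * ((c i : ℝ) * (-(c i : ℝ)) ^ (n - 1 - j)) with hS
  have hterm : ∀ n : ℕ, (n : ℝ) * ((PowerSeries.coeff n (In c (some i) f) : ℚ) : ℝ) * x ^ (n - 1) =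
      S n * x ^ (n - 1) := by
    intro n
    simp only [In, PowerSeries.coeff_mk]
    push_cast
    rcases Nat.eq_zero_or_pos n with h | h
    · subst h
      simp [hS]
    · have hk : (n : ℝ) ≠ 0 := by
        have : (0 : ℝ) < n := by exact_mod_cast h
        exact this.ne'
      rw [mul_div_cancel₀ _ hk]
  have hrec : ∀ n, S (n + 1) + c i * S n = c i * ((PowerSeries.coeff n f : ℚ) : ℝ) := by
    intro n
    simp only [hS]
    rw [sum_range_succ, mul_sum]
    have h1 : ∑ j ∈ range n, ((PowerSeries.coeff j f : ℚ) : ℝ) *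
        ((c i : ℝ) * (-(c i : ℝ)) ^ (n + 1 - 1 - j)) = - ∑ j ∈ range n, (c i : ℝ) *
        (((PowerSeries.coeff j f : ℚ) : ℝ) * ((c i : ℝ) * (-(c i : ℝ)) ^ (n - 1 - j))) := by
      rw [← sum_neg_distrib]
      refine sum_congr rfl fun j hj => ?_
      have hj' := mem_range.1 hj
      have : n + 1 - 1 - j = (n - 1 - j) + 1 := by omega
      rw [this, pow_succ]
      ring
    rw [h1]
    have h2 : n + 1 - 1 - n = 0 := by omega
    rw [h2, pow_zero]
    ring
  have hS0 : S 0 = 0 := by simp [hS]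
  simp_rw [hterm] at hs
  have hs1 : Summable fun n : ℕ => S (n + 1) * x ^ n := by
    have := (summable_nat_add_iff 1).2 hs
    simpa using this
  have hD : dv (In c (some i) f) x = ∑' n : ℕ, S (n + 1) * x ^ n := by
    unfold dv
    simp_rw [hterm]
    rw [hs.tsum_eq_zero_add]
    simp [hS0]
  have hs2 : Summable fun n : ℕ => S n * x ^ n := by
    rw [← summable_nat_add_iff 1]
    have := hs1.mul_right x
    refine this.congr fun n => ?_
    rw [pow_succ]
    ring
  have hxD : x * ∑' n : ℕ, S (n + 1) * x ^ n = ∑' n : ℕ, S n * x ^ n := by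
    rw [hs2.tsum_eq_zero_add, hS0, zero_mul, zero_add, ← tsum_mul_left]
    refine tsum_congr fun n => ?_
    rw [pow_succ]
    ring
  rw [hD]
  calc (1 + c i * x) * ∑' n : ℕ, S (n + 1) * x ^ n
      = ∑' n : ℕ, S (n + 1) * x ^ n + c i * (x * ∑' n : ℕ, S (n + 1) * x ^ n) := by ring
    _ = ∑' n : ℕ, S (n + 1) * x ^ n + ∑' n : ℕ, c i * (S n * x ^ n) := by
        rw [hxD, tsum_mul_left]
    _ = ∑' n : ℕ, (S (n + 1) * x ^ n + c i * (S n * x ^ n)) :=
        (hs1.tsum_add (hs2.mul_left _)).symm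
    _ = ∑' n : ℕ, c i * (((PowerSeries.coeff n f : ℚ) : ℝ) * x ^ n) := by
        refine tsum_congr fun n => ?_
        rw [← mul_assoc, ← add_mul, hrec, mul_assoc]
    _ = c i * val f x := by
        rw [tsum_mul_left]
        rfl

lemma val_zero {f : PowerSeries ℚ} (h0 : PowerSeries.coeff 0 f = 0) : val f 0 = 0 := by
  unfold val
  rw [tsum_eq_single 0]
  · simp [h0]
  · intro n hn
    simp [hn]

lemma val_sub {f g : PowerSeries ℚ} {B M B' x : ℝ} (hf : Bdd f B M) (hg : Bdd g B' M)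
    (hM : 0 < M) (hx : |x| * M < 1) : val (f - g) x = val f x - val g x := by
  unfold val
  rw [← (summ hf hM hx).tsum_sub (summ hg hM hx)]
  refine tsum_congr fun n => ?_
  rw [map_sub]
  push_cast
  ring

lemma bdd_sub {f g : PowerSeries ℚ} {B M B' : ℝ} (hf : Bdd f B M) (hg : Bdd g B' M) :
    Bdd (f - g) (B + B') M := by
  intro n
  rw [map_sub]
  push_cast
  refine (abs_sub _ _).trans ?_
  rw [add_mul]
  exact add_le_add (hf n) (hg n)

lemma bdd_one {M : ℝ} (hM : 0 < M) : Bdd (1 : PowerSeries ℚ) 1 M := by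
  intro n
  rw [PowerSeries.coeff_one]
  split_ifs with h
  · subst h
    simp
  · simp only [Rat.cast_zero, abs_zero, one_mul]
    positivity

/-- the logarithm -/
lemma val_log {ι : Type} (c : ι → ℕ) (i : ι) {x : ℝ} (hx : |x| * c i < 1) :
    val (L c [some i]) x = Real.log (1 + c i * x) := by
  have h1 : |-(c i * x)| < 1 := by
    rw [abs_neg, abs_mul, abs_of_nonneg (by positivity : (0 : ℝ) ≤ (c i : ℝ)), mul_comm]
    exact hx
  have h2 := Real.hasSum_pow_div_log_of_abs_lt_one h1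
  have h3 : HasSum (fun n : ℕ => -((-(c i * x)) ^ (n + 1) / ((n : ℝ) + 1)))
      (Real.log (1 + c i * x)) := by
    have := h2.neg
    simpa using this
  have h4 : ∀ n : ℕ, ((PowerSeries.coeff (n + 1) (L c [some i]) : ℚ) : ℝ) * x ^ (n + 1) =
      -((-(c i * x)) ^ (n + 1) / ((n : ℝ) + 1)) := by
    intro n
    simp only [L, In, PowerSeries.coeff_mk, PowerSeries.coeff_one]
    rw [sum_eq_single 0 (by
      intro j _ hj
      simp [hj]) (by
      intro h
      exact absurd (mem_range.2 (Nat.succ_pos n)) h)]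
    simp only [if_true, one_mul, Nat.sub_zero, Nat.add_sub_cancel]
    push_cast
    rw [show (-(c i * x) : ℝ) = (-(c i : ℝ)) * x by ring, mul_pow, pow_succ (-(c i : ℝ))]
    ring
  have h0 : ((PowerSeries.coeff 0 (L c [some i]) : ℚ) : ℝ) * x ^ 0 = 0 := by
    simp [L, In]
  have h5 : HasSum (fun n : ℕ => ((PowerSeries.coeff n (L c [some i]) : ℚ) : ℝ) * x ^ n)
      (Real.log (1 + c i * x)) := by
    rw [← hasSum_nat_add_iff' 1]
    simp only [range_one, sum_singleton, h0, sub_zero]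
    simp_rw [h4]
    exact h3
  exact h5.tsum_eq

/-- the polylogarithm as a power series -/
noncomputable def LiS (k : ℕ) : PowerSeries ℚ := PowerSeries.mk fun n => 1 / (n : ℚ) ^ k

lemma LiS_bdd (k : ℕ) (hk : 1 ≤ k) : Bdd (LiS k) 1 1 := by
  intro n
  simp only [LiS, PowerSeries.coeff_mk]
  push_cast
  rw [abs_div, abs_one, one_pow, mul_one]
  rcases Nat.eq_zero_or_pos n with h | h
  · subst h
    rw [Nat.cast_zero, zero_pow (by omega), abs_zero, div_zero]
    norm_num
  · have h1 : (1 : ℝ) ≤ |(n : ℝ) ^ k| := by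
      rw [abs_of_nonneg (by positivity)]
      exact one_le_pow₀ (by exact_mod_cast h)
    exact div_le_self zero_le_one h1

lemma LiS_zero (k : ℕ) (hk : 1 ≤ k) : PowerSeries.coeff 0 (LiS k) = 0 := by
  simp only [LiS, PowerSeries.coeff_mk]
  rw [Nat.cast_zero, zero_pow (by omega), div_zero]

lemma LiS_succ {ι : Type} (c : ι → ℕ) (k : ℕ) : In c none (LiS k) = LiS (k + 1) := by
  ext n
  simp only [In, LiS, PowerSeries.coeff_mk]
  rw [div_div, pow_succ]

lemma LiS_val (k : ℕ) (hk : 1 ≤ k) {x : ℝ} (hx : |x| < 1) : val (LiS k) x = Li k x := by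
  unfold val Li
  rw [(summ (LiS_bdd k hk) one_pos (by rwa [mul_one])).tsum_eq_zero_add, LiS_zero k hk]
  simp only [Rat.cast_zero, zero_mul, zero_add]
  refine tsum_congr fun n => ?_
  simp only [LiS, PowerSeries.coeff_mk]
  push_cast
  ring

lemma bdd_L {ι : Type} (c : ι → ℕ) {M : ℝ} (hM : 0 < M) (i : ι) (hc : (c i : ℝ) ≤ M) :
    Bdd (L c [some i]) 1 M := bdd_some c (bdd_one hM) hM i hc

lemma L_zero {ι : Type} (c : ι → ℕ) (i : ι) : PowerSeries.coeff 0 (L c [some i]) = 0 := by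
  simp [L, In]

lemma yy_bdd {r g : ℕ} (c : Lt r g → ℕ) {M : ℝ} (hM : 0 < M) (hc : ∀ x, (c x : ℝ) ≤ M)
    (i : Fin r) (l : Fin g) : ∀ j, ∃ B, Bdd (yy c i l j) B M
  | 0 => ⟨1 + 1, bdd_sub (bdd_L c hM _ (hc _)) (bdd_L c hM _ (hc _))⟩
  | (j + 1) => by
      obtain ⟨B, hB⟩ := yy_bdd c hM hc i l j
      exact ⟨B + B, bdd_sub (bdd_none c hB hM) (bdd_some c hB hM _ (hc _))⟩

lemma yy_zero {r g : ℕ} (c : Lt r g → ℕ) (i : Fin r) (l : Fin g) :
    ∀ j, PowerSeries.coeff 0 (yy c i l j) = 0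
  | 0 => by
      simp only [yy]
      rw [map_sub, L_zero, L_zero, sub_zero]
  | (j + 1) => by
      simp only [yy]
      rw [map_sub]
      simp [In]

/-- the main identity -/
lemma main {r g : ℕ} (c : Lt r g → ℕ) {M X R a : ℝ} (hM : 1 ≤ M) (hc : ∀ x, (c x : ℝ) ≤ M)
    (i : Fin r) (l : Fin g) (ha : (c (i, none) : ℝ) = a) (hR : (c (i, some l) : ℝ) = a - R)
    (hR0 : R ≠ 0) (ha0 : 0 ≤ a) (haR : 0 ≤ a - R) (hRM : |R| ≤ M) (hX : X * M < 1) :
    ∀ j, ∀ z, 0 ≤ z → z ≤ X → val (yy c i l j) z = Li (j + 1) (R * z / (1 + a * z)) := by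
  have hM0 : 0 < M := by linarith
  have hzM : ∀ z, 0 ≤ z → z ≤ X → |z| * M < 1 := by
    intro z h0 h1
    rw [abs_of_nonneg h0]
    exact (mul_le_mul_of_nonneg_right h1 hM0.le).trans_lt hX
  have hu : ∀ z, 0 ≤ z → z ≤ X → |R * z / (1 + a * z)| < 1 := by
    intro z h0 h1
    have h2 : 1 ≤ 1 + a * z := by nlinarith [mul_nonneg ha0 h0]
    rw [abs_div, abs_of_nonneg (by linarith : (0 : ℝ) ≤ 1 + a * z), div_lt_one (by linarith),
      abs_mul]
    calc |R| * |z| ≤ M * |z| := mul_le_mul_of_nonneg_right hRM (abs_nonneg _)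
      _ = |z| * M := mul_comm _ _
      _ < 1 := hzM z h0 h1
      _ ≤ _ := h2
  intro j
  induction j with
  | zero =>
    intro z h0 h1
    have h2 : 1 ≤ 1 + a * z := by nlinarith [mul_nonneg ha0 h0]
    have h3 : 1 ≤ 1 + (a - R) * z := by nlinarith [mul_nonneg haR h0]
    have hz := hzM z h0 h1
    have hlt : ∀ x, |z| * c x < 1 := fun x =>
      (mul_le_mul_of_nonneg_left (hc x) (abs_nonneg z)).trans_lt hz
    simp only [yy]
    rw [val_sub (bdd_L c hM0 _ (hc _)) (bdd_L c hM0 _ (hc _)) hM0 hz, val_log c _ (hlt _),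
      val_log c _ (hlt _), ha, hR]
    have h4 := (Real.hasSum_pow_div_log_of_abs_lt_one (hu z h0 h1)).tsum_eq
    have h5 : Li (0 + 1) (R * z / (1 + a * z)) = -Real.log (1 - R * z / (1 + a * z)) := by
      rw [← h4]
      unfold Li
      refine tsum_congr fun n => ?_
      rw [zero_add, pow_one]
    rw [h5]
    have h6 : 1 - R * z / (1 + a * z) = (1 + (a - R) * z) / (1 + a * z) := by
      field_simp
      ring
    rw [h6, Real.log_div (by linarith) (by linarith)]
    ring
  | succ j ih =>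
    intro z h0 h1
    obtain ⟨B, hB⟩ := yy_bdd c hM0 hc i l j
    have hy0 := yy_zero c i l j
    have hb1 := bdd_none c hB hM0
    have hb2 := bdd_some c hB hM0 (i, none) (hc _)
    have hz := hzM z h0 h1
    have hrw : ∀ t, 0 ≤ t → t ≤ X → val (yy c i l (j + 1)) t =
        val (In c none (yy c i l j)) t - val (In c (some (i, none)) (yy c i l j)) t := by
      intro t ht0 ht1
      simp only [yy]
      exact val_sub hb1 hb2 hM0 (hzM t ht0 ht1)
    rw [← LiS_val (j + 1 + 1) (by omega) (hu z h0 h1), hrw z h0 h1]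
    rcases h0.eq_or_lt with h | hpos
    · subst h
      rw [val_zero (by simp [In]), val_zero (by simp [In]), mul_zero, zero_div,
        val_zero (LiS_zero _ (by omega)), sub_zero]
    set D : ℝ → ℝ := fun t => val (In c none (yy c i l j)) t -
      val (In c (some (i, none)) (yy c i l j)) t -
      val (LiS (j + 1 + 1)) (R * t / (1 + a * t)) with hD
    have hder : ∀ t, 0 ≤ t → t ≤ X → HasDerivAt D (dv (In c none (yy c i l j)) t -
        dv (In c (some (i, none)) (yy c i l j)) t -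
        dv (LiS (j + 1 + 1)) (R * t / (1 + a * t)) * (R / (1 + a * t) ^ 2)) t := by
      intro t ht0 ht1
      have h2 : 1 ≤ 1 + a * t := by nlinarith [mul_nonneg ha0 ht0]
      have e1 := (deriv_summ hb1 hM0 (hzM t ht0 ht1)).2
      have e2 := (deriv_summ hb2 hM0 (hzM t ht0 ht1)).2
      have e3 := (deriv_summ (LiS_bdd (j + 1 + 1) (by omega)) one_pos
        (by rw [mul_one]; exact hu t ht0 ht1)).2
      have e4 : HasDerivAt (fun t : ℝ => R * t / (1 + a * t)) (R / (1 + a * t) ^ 2) t := by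
        have f1 : HasDerivAt (fun t : ℝ => R * t) R t := by
          simpa using (hasDerivAt_id t).const_mul R
        have f2 : HasDerivAt (fun t : ℝ => 1 + a * t) a t := by
          simpa using ((hasDerivAt_id t).const_mul a).const_add 1
        refine (f1.div f2 (by linarith)).congr_deriv ?_
        congr 1
        ring
      have e5 : HasDerivAt (fun t => val (LiS (j + 1 + 1)) (R * t / (1 + a * t)))
          (dv (LiS (j + 1 + 1)) (R * t / (1 + a * t)) * (R / (1 + a * t) ^ 2)) t :=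
        HasDerivAt.comp (h₂ := val (LiS (j + 1 + 1))) (h := fun t => R * t / (1 + a * t)) t e3 e4
      exact (e1.sub e2).sub e5
    have hder0 : ∀ t, 0 < t → t ≤ X → HasDerivAt D 0 t := by
      intro t ht0 ht1
      refine (hder t ht0.le ht1).congr_deriv ?_
      have h2 : 1 ≤ 1 + a * t := by nlinarith [mul_nonneg ha0 ht0.le]
      have h2' : 1 + a * t ≠ 0 := by linarith
      have e1 := eq_none c hB hM0 (hzM t ht0.le ht1) hy0
      have e2 := eq_some c hB hM0 (hzM t ht0.le ht1) (i, none) (hc _)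
      have e3 := eq_none c (LiS_bdd (j + 1) (by omega)) one_pos
        (by rw [mul_one]; exact hu t ht0.le ht1) (LiS_zero (j + 1) (by omega))
      rw [LiS_succ, LiS_val (j + 1) (by omega) (hu t ht0.le ht1), ← ih t ht0.le ht1] at e3
      rw [ha] at e2
      set V := val (yy c i l j) t
      set d1 := dv (In c none (yy c i l j)) t
      set d2 := dv (In c (some (i, none)) (yy c i l j)) t
      set d3 := dv (LiS (j + 1 + 1)) (R * t / (1 + a * t))
      have g1 : d1 = V / t := by rw [← e1]; field_simp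
      have g2 : d2 = a * V / (1 + a * t) := by rw [← e2]; field_simp
      have g3 : d3 = V * (1 + a * t) / (R * t) := by
        rw [← e3]; field_simp
      rw [g1, g2, g3]
      field_simp
      ring
    have hcont : ContinuousOn D (Set.Icc 0 z) := fun t ht =>
      (hder t ht.1 (ht.2.trans h1)).continuousAt.continuousWithinAt
    obtain ⟨t, ht, hts⟩ := exists_hasDerivAt_eq_slope D (fun _ => 0) hpos hcont
      (fun t ht => hder0 t ht.1 (ht.2.le.trans h1))
    have hD0 : D 0 = 0 := by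
      simp only [hD]
      rw [val_zero (by simp [In]), val_zero (by simp [In]), mul_zero, zero_div,
        val_zero (LiS_zero _ (by omega)), sub_zero, sub_zero]
    rw [hD0, sub_zero, sub_zero, eq_comm, div_eq_zero_iff] at hts
    rcases hts with h | h
    · simp only [hD] at h
      linarith
    · exact absurd h hpos.ne'

end VAL_

theorem p_VAL : T_VAL := by
  intro r g A R0 N a ρ hρ ha hN i
  have hai := ha i
  have hA : 1 ≤ A := by omega
  have hAr : (1 : ℝ) ≤ A := by exact_mod_cast hA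
  have hR0r : (0 : ℝ) ≤ R0 := by positivity
  have hNr : 4 * ((A : ℝ) + R0) ≤ N := by exact_mod_cast hN
  have hN0 : (0 : ℝ) < N := by linarith
  have hX : (1 / (N : ℝ)) * ((A : ℝ) + R0) < 1 := by
    rw [one_div_mul_eq_div, div_lt_one hN0]
    linarith
  have hX0 : (0 : ℝ) ≤ 1 / (N : ℝ) := by positivity
  have hc0 : ∀ i' l', ((cc a ρ (i', some l') : ℕ) : ℝ) = a i' - ρ l' := by
    intro i' l'
    have h1 := ha i'
    have h2 := (hρ l').2
    have h3 : (0 : ℤ) ≤ (a i' : ℤ) - ρ l' := by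
      have := le_abs_self (ρ l')
      omega
    simp only [cc]
    have h4 : ((((a i' : ℤ) - ρ l').toNat : ℤ) : ℝ) = (((a i' : ℤ) - ρ l' : ℤ) : ℝ) := by
      rw [Int.toNat_of_nonneg h3]
    rw [Int.cast_natCast] at h4
    rw [h4]
    push_cast
    ring
  have hρr : ∀ l', |(ρ l' : ℝ)| ≤ R0 := by
    intro l'
    have := (hρ l').2
    exact_mod_cast this
  have hc : ∀ x : Lt r g, ((cc a ρ x : ℕ) : ℝ) ≤ (A : ℝ) + R0 := by
    rintro ⟨i', _ | l'⟩
    · have h1 : ((a i' : ℕ) : ℝ) ≤ A := by exact_mod_cast (ha i').2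
      simp only [cc]
      linarith
    · rw [hc0]
      have h1 : ((a i' : ℕ) : ℝ) ≤ A := by exact_mod_cast (ha i').2
      have h2 := neg_abs_le (ρ l' : ℝ)
      have h3 := hρr l'
      linarith
  refine ⟨?_, fun l j => ?_⟩
  · rw [VAL_.val_log]
    · simp only [cc]
      congr 1
      ring
    · rw [abs_of_nonneg hX0]
      exact (mul_le_mul_of_nonneg_left (hc _) hX0).trans_lt hX
  · have hal : (R0 : ℝ) < a i := by exact_mod_cast hai.1
    have h3 := hρr l
    have h4 := le_abs_self (ρ l : ℝ)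
    rw [VAL_.main (cc a ρ) (M := (A : ℝ) + R0) (X := 1 / (N : ℝ)) (R := (ρ l : ℝ))
      (a := (a i : ℝ)) (by linarith) hc i l (by simp only [cc]) (hc0 i l)
      (by exact_mod_cast (hρ l).1) (by positivity) (by linarith) (by linarith) hX j
      (1 / (N : ℝ)) hX0 le_rfl]
    congr 1
    field_simp

end Pool.Agent.PLG
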