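import Pool.Agent.PLG.Targets

set_option autoImplicit false

/-!
# Smallness of the remainders in the gauge at `1/N`
-/

namespace Pool.Agent.PLG.AN_

open Finset Filter
open scoped BigOperators Topology

/-! ### Taylor expansion of convergent power series -/

/-- `g` is the Taylor expansion of `f` at `z` -/
def Ts (z : ℝ) (f g : PowerSeries ℝ) : Prop :=
  ∀ j, HasSum (fun s : ℕ => ((s + j).choose j : ℝ) * PowerSeries.coeff (s + j) f * z ^ s)
    (PowerSeries.coeff j g)

variable {z : ℝ} {f g f' g' : PowerSeries ℝ}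

theorem hs_congr {F G : ℕ → ℝ} {a b : ℝ} (h : HasSum F a) (h1 : ∀ s, G s = F s) (h2 : b = a) :
    HasSum G b := by
  rw [h2, show G = F from funext h1]
  exact h

theorem Ts.unique (h : Ts z f g) (h' : Ts z f g') : g = g' := by
  ext j
  exact (h j).unique (h' j)

theorem Ts.add (h : Ts z f g) (h' : Ts z f' g') : Ts z (f + f') (g + g') := by
  intro j
  refine hs_congr ((h j).add (h' j)) (fun s => ?_) (map_add _ _ _)
  rw [map_add]
  ring

theorem Ts.C_mul (h : Ts z f g) (a : ℝ) : Ts z (PowerSeries.C a * f) (PowerSeries.C a * g) := by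
  intro j
  refine hs_congr ((h j).mul_left a) (fun s => ?_) (PowerSeries.coeff_C_mul _ _ _)
  rw [PowerSeries.coeff_C_mul]
  ring

theorem Ts.sub (h : Ts z f g) (h' : Ts z f' g') : Ts z (f - f') (g - g') := by
  have h1 := h.add (h'.C_mul (-1))
  have e : ∀ p q : PowerSeries ℝ, p + PowerSeries.C (-1 : ℝ) * q = p - q := by
    intro p q
    rw [map_neg, map_one]
    ring
  rwa [e, e] at h1

theorem Ts.one : Ts z 1 1 := by
  intro j
  have h := hasSum_single (f := fun s : ℕ => ((s + j).choose j : ℝ) *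
    PowerSeries.coeff (s + j) (1 : PowerSeries ℝ) * z ^ s) 0 (fun s hs => by
      rw [PowerSeries.coeff_one, if_neg (by omega)]
      simp)
  simpa using h

theorem Ts.X_mul (h : Ts z f g) : Ts z (PowerSeries.X * f)
    ((PowerSeries.X + PowerSeries.C z) * g) := by
  intro j
  rw [add_mul, map_add, PowerSeries.coeff_C_mul]
  cases j with
  | zero =>
    rw [PowerSeries.coeff_zero_X_mul, zero_add, ← hasSum_nat_add_iff' 1]
    refine hs_congr ((h 0).mul_left z) (fun s => ?_) ?_
    · simp only [Nat.add_zero, PowerSeries.coeff_succ_X_mul, Nat.choose_zero_right, pow_succ]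
      ring
    · rw [Finset.sum_range_one]
      simp
  | succ j =>
    rw [PowerSeries.coeff_succ_X_mul]
    have h1 := h j
    have h2 : HasSum (fun s : ℕ => ((s + j).choose (j + 1) : ℝ) * PowerSeries.coeff (s + j) f *
        z ^ s) (z * PowerSeries.coeff (j + 1) g) := by
      rw [← hasSum_nat_add_iff' 1]
      refine hs_congr ((h (j + 1)).mul_left z) (fun s => ?_) ?_
      · rw [show s + 1 + j = s + (j + 1) by omega, pow_succ]
        ring
      · rw [Finset.sum_range_one]
        simp
    refine hs_congr (h1.add h2) (fun s => ?_) rfl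
    rw [← Nat.add_assoc, PowerSeries.coeff_succ_X_mul, Nat.choose_succ_succ]
    push_cast
    ring

theorem Ts.X_pow_mul (h : Ts z f g) (n : ℕ) : Ts z (PowerSeries.X ^ n * f)
    ((PowerSeries.X + PowerSeries.C z) ^ n * g) := by
  induction n with
  | zero => simpa using h
  | succ n ih =>
    have h1 := ih.X_mul
    rw [← mul_assoc, ← mul_assoc, ← pow_succ', ← pow_succ'] at h1
    exact h1

theorem Ts.poly (h : Ts z f g) (p : Polynomial ℝ) : Ts z ((p : PowerSeries ℝ) * f)
    (((Polynomial.taylor z p : Polynomial ℝ) : PowerSeries ℝ) * g) := by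
  induction p using Polynomial.induction_on' with
  | add p q hp hq =>
    rw [Polynomial.coe_add, map_add, Polynomial.coe_add, add_mul, add_mul]
    exact hp.add hq
  | monomial n a =>
    rw [Polynomial.taylor_monomial, ← Polynomial.C_mul_X_pow_eq_monomial, Polynomial.coe_mul,
      Polynomial.coe_mul, Polynomial.coe_pow, Polynomial.coe_pow, Polynomial.coe_add,
      Polynomial.coe_X, Polynomial.coe_C, Polynomial.coe_C, mul_assoc, mul_assoc]
    exact (h.X_pow_mul n).C_mul a

theorem Ts.deriv (h : Ts z f g) : Ts z (PowerSeries.derivative ℝ f)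
    (PowerSeries.derivative ℝ g) := by
  intro j
  rw [PowerSeries.coeff_derivative]
  refine hs_congr ((h (j + 1)).mul_right ((j : ℝ) + 1)) (fun s => ?_) rfl
  rw [PowerSeries.coeff_derivative, ← Nat.add_assoc]
  have h2 : ((s + j : ℕ) + 1 : ℝ) * ((s + j).choose j : ℝ) =
      ((s + j + 1).choose (j + 1) : ℝ) * ((j : ℝ) + 1) := by
    exact_mod_cast Nat.add_one_mul_choose_eq (s + j) j
  linear_combination PowerSeries.coeff (s + j + 1) f * z ^ s * h2

theorem term_le {A B : ℝ} (_hA : 0 ≤ A) (hz : 0 ≤ z) (_hB : 0 ≤ B) {s j : ℕ} {x : ℝ}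
    (hx : |x| ≤ B * A ^ (s + j)) :
    ‖((s + j).choose j : ℝ) * x * z ^ s‖ ≤ B * (2 * A) ^ j * (2 * A * z) ^ s := by
  rw [Real.norm_eq_abs, abs_mul, abs_mul, abs_of_nonneg (by positivity : (0 : ℝ) ≤ z ^ s),
    abs_of_nonneg (by positivity : (0 : ℝ) ≤ ((s + j).choose j : ℝ))]
  have h1 : ((s + j).choose j : ℝ) ≤ 2 ^ (s + j) := by
    exact_mod_cast Nat.choose_le_two_pow (s + j) j
  calc ((s + j).choose j : ℝ) * |x| * z ^ s ≤ 2 ^ (s + j) * (B * A ^ (s + j)) * z ^ s := by
        gcongr
    _ = _ := by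
        rw [mul_pow, mul_pow, mul_pow, pow_add, pow_add]
        ring

theorem Ts.exists {A B : ℝ} (hA : 0 ≤ A) (hz : 0 ≤ z) (hB : 0 ≤ B) (hAz : 2 * A * z < 1)
    (hf : ∀ s, |PowerSeries.coeff s f| ≤ B * A ^ s) : ∃ g, Ts z f g := by
  refine ⟨PowerSeries.mk fun j => ∑' s : ℕ, ((s + j).choose j : ℝ) *
    PowerSeries.coeff (s + j) f * z ^ s, fun j => ?_⟩
  rw [PowerSeries.coeff_mk]
  apply Summable.hasSum
  refine Summable.of_norm_bounded (g := fun s => B * (2 * A) ^ j * (2 * A * z) ^ s) ?_
    (fun s => term_le hA hz hB (hf _))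
  exact (summable_geometric_of_lt_one (by positivity) hAz).mul_left _

theorem Ts.bound (h : Ts z f g) {A B : ℝ} {σ : ℕ} (hA : 0 ≤ A) (hz : 0 < z) (hB : 0 ≤ B)
    (hAz : 2 * A * z ≤ 1 / 2)
    (hf : ∀ s, |PowerSeries.coeff s f| ≤ if s < σ then 0 else B * A ^ s) (j : ℕ) :
    |PowerSeries.coeff j g| ≤ 2 * B * (1 / z) ^ j * (2 * A * z) ^ σ := by
  set q : ℝ := 2 * A * z with hq
  have hq0 : 0 ≤ q := by positivity
  set s0 : ℕ := σ - j with hs0
  set M : ℝ := B * (2 * A) ^ j with hM
  have hM0 : 0 ≤ M := by positivity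
  have hg : HasSum (fun s => if s < s0 then 0 else M * q ^ s) (M * q ^ s0 * (1 - q)⁻¹) := by
    have h3 : HasSum (fun s => M * q ^ s0 * q ^ s) (M * q ^ s0 * (1 - q)⁻¹) :=
      (hasSum_geometric_of_lt_one hq0 (by linarith)).mul_left _
    rw [← hasSum_nat_add_iff' s0]
    have h4 : ∑ i ∈ Finset.range s0, (if i < s0 then 0 else M * q ^ i) = 0 := by
      apply Finset.sum_eq_zero
      intro i hi
      rw [if_pos (Finset.mem_range.1 hi)]
    rw [h4, sub_zero]
    have h5 : (fun k : ℕ => if k + s0 < s0 then 0 else M * q ^ (k + s0)) =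
        fun k : ℕ => M * q ^ s0 * q ^ k := by
      funext k
      rw [if_neg (by omega), pow_add]
      ring
    rw [h5]
    exact h3
  have hle : ∀ s, ‖((s + j).choose j : ℝ) * PowerSeries.coeff (s + j) f * z ^ s‖ ≤
      if s < s0 then 0 else M * q ^ s := by
    intro s
    have h6 := hf (s + j)
    split_ifs with hs
    · rw [if_pos (by omega)] at h6
      have h7 : PowerSeries.coeff (s + j) f = 0 := abs_nonpos_iff.1 h6
      rw [h7]
      simp
    · rcases lt_or_ge (s + j) σ with h8 | h8
      · omega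
      · rw [if_neg (by omega)] at h6
        exact term_le hA hz.le hB h6
  have h9 : ‖∑' s : ℕ, ((s + j).choose j : ℝ) * PowerSeries.coeff (s + j) f * z ^ s‖ ≤
      M * q ^ s0 * (1 - q)⁻¹ := tsum_of_norm_bounded hg hle
  rw [(h j).tsum_eq, Real.norm_eq_abs] at h9
  have h10 : (1 - q)⁻¹ ≤ 2 := by
    rw [inv_le_comm₀ (by linarith) two_pos]
    linarith
  have h11 : (2 * A) ^ j * q ^ s0 = (1 / z) ^ j * q ^ (s0 + j) := by
    rw [pow_add, hq, mul_pow (2 * A) z j, one_div, inv_pow]
    field_simp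
  have h12 : q ^ (s0 + j) ≤ q ^ σ := pow_le_pow_of_le_one hq0 (by linarith) (by omega)
  calc |PowerSeries.coeff j g| ≤ M * q ^ s0 * (1 - q)⁻¹ := h9
    _ ≤ M * q ^ s0 * 2 := by gcongr
    _ = 2 * B * ((2 * A) ^ j * q ^ s0) := by rw [hM]; ring
    _ = 2 * B * ((1 / z) ^ j * q ^ (s0 + j)) := by rw [h11]
    _ ≤ 2 * B * ((1 / z) ^ j * q ^ σ) := by gcongr
    _ = _ := by ring

theorem Ts.coeff_zero (h : Ts z f g) : PowerSeries.coeff 0 g =
    ∑' s, PowerSeries.coeff s f * z ^ s := by
  rw [← (h 0).tsum_eq]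
  refine tsum_congr fun s => ?_
  simp

/-! ### The gauge -/

section

variable {ι : Type} {K : Type} [Field K]

theorem Sg_coeff_zero (b : Option ι → K) (x : Option ι) (l : List (Option ι)) :
    PowerSeries.coeff 0 (Sg b (x :: l)) = 0 := by
  simp [Sg, Im]

theorem c0_mul (f g : PowerSeries K) :
    PowerSeries.coeff 0 (f * g) = PowerSeries.coeff 0 f * PowerSeries.coeff 0 g := by
  simp

theorem gg_coeff_zero_cons (b : Option ι → K) (V : List (Option ι) → PowerSeries K) :
    ∀ (w : List (Option ι)) (x : Option ι) (l : List (Option ι)),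
      PowerSeries.coeff 0 (gg b V (x :: l) w) = 0 := by
  intro w
  induction w with
  | nil =>
    intro x l
    rw [gg, c0_mul, Sg_coeff_zero, zero_mul]
  | cons y w ih =>
    intro x l
    rw [gg, map_add, c0_mul, Sg_coeff_zero, zero_mul, zero_add, ih]

theorem gg_coeff_zero (b : Option ι → K) (V : List (Option ι) → PowerSeries K)
    (w : List (Option ι)) : PowerSeries.coeff 0 (gg b V [] w) = PowerSeries.coeff 0 (V w) := by
  cases w with
  | nil => simp [gg, Sg]
  | cons y w => rw [gg, map_add, gg_coeff_zero_cons, Sg, one_mul, add_zero]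

theorem gg_zero (b : Option ι → K) (U : List (Option ι) → PowerSeries K) :
    ∀ (w l : List (Option ι)), (∀ v, v <:+ w → U v = 0) → gg b U l w = 0 := by
  intro w
  induction w with
  | nil =>
    intro l h
    rw [gg, h [] (List.suffix_refl _), mul_zero]
  | cons y w ih =>
    intro l h
    rw [gg, h _ (List.suffix_refl _), mul_zero, zero_add]
    exact ih _ fun v hv => h v (hv.trans (List.suffix_cons _ _))

theorem gg_lin (b : Option ι → K) (p : PowerSeries K) (V U : List (Option ι) → PowerSeries K) :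
    ∀ (w l : List (Option ι)),
      gg b (fun v => p * V v - U v) l w = p * gg b V l w - gg b U l w := by
  intro w
  induction w with
  | nil =>
    intro l
    simp only [gg]
    ring
  | cons y w ih =>
    intro l
    simp only [gg]
    rw [ih]
    ring

theorem Im_map {K' : Type} [Field K'] (φ : K →+* K') (b : K) (f : PowerSeries K) :
    PowerSeries.map φ (Im b f) = Im (φ b) (PowerSeries.map φ f) := by
  ext n
  simp only [Im, PowerSeries.coeff_map, PowerSeries.coeff_mk]
  simp only [map_div₀, map_neg, map_sum, map_mul, map_pow, map_natCast]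

theorem Sg_map {K' : Type} [Field K'] (φ : K →+* K') (b : Option ι → K) (l : List (Option ι)) :
    PowerSeries.map φ (Sg b l) = Sg (fun x => φ (b x)) l := by
  induction l with
  | nil => simp [Sg]
  | cons x l ih => rw [Sg, Im_map, ih, Sg]

theorem gg_map {K' : Type} [Field K'] (φ : K →+* K') (b : Option ι → K)
    (V : List (Option ι) → PowerSeries K) : ∀ (w l : List (Option ι)),
      PowerSeries.map φ (gg b V l w) =
        gg (fun x => φ (b x)) (fun v => PowerSeries.map φ (V v)) l w := by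
  intro w
  induction w with
  | nil => intro l; rw [gg, gg, map_mul, Sg_map]
  | cons y w ih => intro l; rw [gg, gg, map_add, map_mul, Sg_map, ih]

theorem ok_tail {x : Option ι} {v : List (Option ι)} (h : ok (x :: v)) : ok v := by
  cases v with
  | nil => trivial
  | cons y v => exact h

theorem ok_suffix {w v : List (Option ι)} (h : ok w) (hv : v <:+ w) : ok v := by
  induction w with
  | nil =>
    rw [List.suffix_nil] at hv
    rw [hv]
    trivial
  | cons x w ih =>
    rcases List.suffix_cons_iff.1 hv with h1 | h1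
    · rw [h1]; exact h
    · exact ih (ok_tail h) h1

end

section

variable {ι : Type} {b : Option ι → ℝ} {N : ℝ}

theorem Sg_bound (hN : 0 ≤ N) (hb : ∀ x, |b x| ≤ N) (l : List (Option ι)) :
    ∀ n, |PowerSeries.coeff n (Sg b l)| ≤ N ^ n := by
  induction l with
  | nil =>
    intro n
    rw [Sg, PowerSeries.coeff_one]
    split_ifs with h
    · rw [h]; simp
    · simpa using pow_nonneg hN n
  | cons x l ih =>
    intro n
    rw [Sg, Im, PowerSeries.coeff_mk, abs_div, abs_neg, Nat.abs_cast]
    have h1 : |∑ j ∈ range n, PowerSeries.coeff j (Sg b l) * (b x * (-b x) ^ (n - 1 - j))| ≤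
        n * N ^ n := by
      refine (Finset.abs_sum_le_sum_abs _ _).trans ?_
      have h2 : ∀ j ∈ range n, |PowerSeries.coeff j (Sg b l) * (b x * (-b x) ^ (n - 1 - j))| ≤
          N ^ n := by
        intro j hj
        have hj' := Finset.mem_range.1 hj
        rw [abs_mul, abs_mul, abs_pow, abs_neg, ← pow_succ']
        calc |PowerSeries.coeff j (Sg b l)| * |b x| ^ (n - 1 - j + 1) ≤
              N ^ j * N ^ (n - 1 - j + 1) := by
              gcongr
              · exact ih j
              · exact hb x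
          _ = N ^ n := by
              rw [← pow_add]
              congr 1
              omega
      refine (Finset.sum_le_sum h2).trans ?_
      rw [Finset.sum_const, Finset.card_range, nsmul_eq_mul]
    rcases Nat.eq_zero_or_pos n with h0 | h0
    · subst h0
      simp
    · rw [div_le_iff₀ (by exact_mod_cast h0)]
      linarith

theorem mul_bound {M : ℝ} (hN : 0 ≤ N) {S U : PowerSeries ℝ}
    (hS : ∀ n, |PowerSeries.coeff n S| ≤ N ^ n) (hU : ∀ n, |PowerSeries.coeff n U| ≤ M * N ^ n)
    (k : ℕ) : |PowerSeries.coeff k (S * U)| ≤ (k + 1) * M * N ^ k := by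
  rw [PowerSeries.coeff_mul]
  refine (Finset.abs_sum_le_sum_abs _ _).trans ?_
  have h2 : ∀ p ∈ Finset.HasAntidiagonal.antidiagonal k,
      |PowerSeries.coeff p.1 S * PowerSeries.coeff p.2 U| ≤ M * N ^ k := by
    intro p hp
    have hp' : p.1 + p.2 = k := Finset.HasAntidiagonal.mem_antidiagonal.1 hp
    rw [abs_mul]
    calc |PowerSeries.coeff p.1 S| * |PowerSeries.coeff p.2 U| ≤ N ^ p.1 * (M * N ^ p.2) := by
          apply mul_le_mul (hS _) (hU _) (abs_nonneg _) (by positivity)
      _ = M * N ^ k := by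
          rw [← hp', pow_add]
          ring
  refine (Finset.sum_le_sum h2).trans ?_
  rw [Finset.sum_const, Finset.Nat.card_antidiagonal, nsmul_eq_mul]
  push_cast
  linarith

theorem gg_bound {M : ℝ} (hN : 0 ≤ N) (hb : ∀ x, |b x| ≤ N)
    (U : List (Option ι) → PowerSeries ℝ) (k : ℕ) : ∀ (w l : List (Option ι)),
    (∀ v, v <:+ w → ∀ n, |PowerSeries.coeff n (U v)| ≤ M * N ^ n) →
    |PowerSeries.coeff k (gg b U l w)| ≤ (w.length + 1) * ((k + 1) * M * N ^ k) := by
  intro w
  induction w with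
  | nil =>
    intro l h
    rw [gg]
    have h1 := mul_bound hN (Sg_bound hN hb l) (h [] (List.suffix_refl _)) k
    simpa using h1
  | cons y w ih =>
    intro l h
    rw [gg, map_add]
    have h1 := mul_bound hN (Sg_bound hN hb l) (h _ (List.suffix_refl _)) k
    have h2 := ih (y :: l) fun v hv => h v (hv.trans (List.suffix_cons _ _))
    refine (abs_add_le _ _).trans ?_
    rw [List.length_cons]
    push_cast
    linarith

end

/-! ### Casts -/

/-- the embedding of rational power series -/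
noncomputable abbrev mp : PowerSeries ℚ →+* PowerSeries ℝ := PowerSeries.map (algebraMap ℚ ℝ)

theorem coeff_mp (f : PowerSeries ℚ) (n : ℕ) :
    PowerSeries.coeff n (mp f) = ((PowerSeries.coeff n f : ℚ) : ℝ) := by
  rw [PowerSeries.coeff_map]
  rfl

theorem mp_deriv (f : PowerSeries ℚ) :
    mp (PowerSeries.derivative ℚ f) = PowerSeries.derivative ℝ (mp f) := by
  ext n
  rw [coeff_mp, PowerSeries.coeff_derivative, PowerSeries.coeff_derivative, coeff_mp]
  push_cast
  ring

theorem mp_coe (p : Polynomial ℚ) : mp (p : PowerSeries ℚ) =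
    ((p.map (algebraMap ℚ ℝ) : Polynomial ℝ) : PowerSeries ℝ) :=
  (Polynomial.polynomial_map_coe).symm

theorem map_taylor (z0 : ℚ) (p : Polynomial ℚ) :
    (Polynomial.taylor z0 p).map (algebraMap ℚ ℝ) =
      Polynomial.taylor (z0 : ℝ) (p.map (algebraMap ℚ ℝ)) := by
  rw [Polynomial.taylor_apply, Polynomial.taylor_apply, Polynomial.map_comp]
  simp

theorem Ts.polyQ {z0 : ℚ} (h : Ts (z0 : ℝ) f g) (p : Polynomial ℚ) :
    Ts (z0 : ℝ) (mp (p : PowerSeries ℚ) * f) (mp (ty z0 p) * g) := by
  rw [ty, mp_coe, mp_coe, map_taylor]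
  exact h.poly _

section

variable {ι : Type} [Fintype ι] [DecidableEq ι]

theorem ty_one (z0 : ℚ) : ty z0 1 = 1 := by
  rw [ty, Polynomial.taylor_one, map_one, Polynomial.coe_one]

theorem ty_mul (z0 : ℚ) (p q : Polynomial ℚ) : ty z0 (p * q) = ty z0 p * ty z0 q := by
  rw [ty, Polynomial.taylor_mul, Polynomial.coe_mul]
  rfl

theorem ty_X (z0 : ℚ) : ty z0 Polynomial.X = PowerSeries.X + PowerSeries.C z0 := by
  rw [ty, Polynomial.taylor_X, Polynomial.coe_add, Polynomial.coe_X, Polynomial.coe_C]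

theorem ty_C (z0 a : ℚ) : ty z0 (Polynomial.C a) = PowerSeries.C a := by
  rw [ty, Polynomial.taylor_C, Polynomial.coe_C]

theorem ty_lin (z0 a : ℚ) : ty z0 (1 + Polynomial.C a * Polynomial.X) =
    PowerSeries.C (1 + a * z0) + PowerSeries.C a * PowerSeries.X := by
  rw [ty, map_add, Polynomial.taylor_one, Polynomial.taylor_mul, Polynomial.taylor_C,
    Polynomial.taylor_X, map_one, Polynomial.coe_add, Polynomial.coe_mul, Polynomial.coe_add,
    Polynomial.coe_X, Polynomial.coe_C, Polynomial.coe_C, Polynomial.coe_one, map_add, map_one,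
    map_mul]
  ring

/-- the forms at `z0` -/
theorem form (c : ι → ℕ) {z0 : ℚ} (hz : 0 < z0) (x : Option ι) :
    ty z0 (Tx c x) * (1 + PowerSeries.C (bb c z0 x) * PowerSeries.X) =
      PowerSeries.C (bb c z0 x) * ty z0 (TT c) := by
  cases x with
  | none =>
    rw [Tx, TT, ty_mul, ty_X, bb]
    have h1 : PowerSeries.C (1 / z0) * PowerSeries.C z0 = 1 := by
      rw [← map_mul, one_div, inv_mul_cancel₀ hz.ne', map_one]
    linear_combination -ty z0 (∏ i, (1 + Polynomial.C (c i : ℚ) * Polynomial.X)) * h1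
  | some i =>
    rw [Tx, TT, ty_mul, ty_mul, ty_mul, ty_X, ty_C, bb,
      ← Finset.mul_prod_erase univ _ (Finset.mem_univ i), ty_mul, ty_lin]
    have h0 : (1 + (c i : ℚ) * z0) ≠ 0 := by positivity
    have h1 : PowerSeries.C ((c i : ℚ) / (1 + c i * z0)) * PowerSeries.C (1 + c i * z0) =
        PowerSeries.C (c i : ℚ) := by
      rw [← map_mul, div_mul_cancel₀ _ h0]
    linear_combination -(PowerSeries.X + PowerSeries.C z0) *
      ty z0 (∏ l ∈ univ.erase i, (1 + Polynomial.C (c l : ℚ) * Polynomial.X)) * h1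

omit [Fintype ι] [DecidableEq ι] in
theorem In_zero (c : ι → ℕ) (x : Option ι) (f : PowerSeries ℚ) :
    PowerSeries.coeff 0 (In c x f) = 0 := by
  cases x <;> simp [In]

/-- size of the coefficients of the remainder -/
theorem coeff_bound (h : T_COEF) {W A m σ : ℕ} {H : ℝ} {c : ι → ℕ}
    {P : List (Option ι) → Polynomial ℚ} (hA : 1 ≤ A) (hc : ∀ i, c i ≤ A)
    (hP : Pade c W m σ P) (hm : m < σ) (hH : ∀ s, |((P []).coeff s : ℝ)| ≤ H)
    (w : List (Option ι)) (hw : w.length ≤ W) (hok : ok w) (k : ℕ) :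
    |((PowerSeries.coeff k ((P [] : PowerSeries ℚ) * L c w - (P w : PowerSeries ℚ)) : ℚ) : ℝ)| ≤
      if k < σ then 0 else (m + 1) * H * (A : ℝ) ^ k := by
  split_ifs with hk
  · have h1 := PowerSeries.X_pow_dvd_iff.1 (hP.ord w hw hok) k hk
    rw [h1]
    simp
  · push Not at hk
    have hH0 : 0 ≤ H := (abs_nonneg _).trans (hH 0)
    have hA' : (1 : ℝ) ≤ A := by exact_mod_cast hA
    have h1 : PowerSeries.coeff k (P w : PowerSeries ℚ) = 0 := by
      rw [Polynomial.coeff_coe]
      apply Polynomial.coeff_eq_zero_of_natDegree_lt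
      exact lt_of_le_of_lt (hP.deg w hw hok) (by omega)
    have h2 : PowerSeries.coeff k ((P [] : PowerSeries ℚ) * L c w) =
        ∑ i ∈ Finset.range (m + 1), (P []).coeff i * PowerSeries.coeff (k - i) (L c w) := by
      rw [PowerSeries.coeff_mul,
        Finset.Nat.sum_antidiagonal_eq_sum_range_succ_mk]
      have hsub : Finset.range (m + 1) ⊆ Finset.range k.succ := by
        intro j hj
        rw [Finset.mem_range] at hj ⊢
        omega
      rw [← Finset.sum_subset hsub]
      · apply Finset.sum_congr rfl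
        intro i _
        rw [Polynomial.coeff_coe]
      · intro i _ hi
        rw [Finset.mem_range, not_lt] at hi
        rw [Polynomial.coeff_coe, Polynomial.coeff_eq_zero_of_natDegree_lt, zero_mul]
        exact lt_of_le_of_lt (hP.deg [] (Nat.zero_le _) trivial) (by omega)
    rw [map_sub, h1, sub_zero, h2]
    push_cast
    refine (Finset.abs_sum_le_sum_abs _ _).trans ?_
    have h3 : ∀ i ∈ Finset.range (m + 1),
        |((P []).coeff i : ℝ) * ((PowerSeries.coeff (k - i) (L c w) : ℚ) : ℝ)| ≤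
          H * (A : ℝ) ^ k := by
      intro i _
      rw [abs_mul]
      apply mul_le_mul (hH i) _ (abs_nonneg _) hH0
      have h4 := (h ι c A hA hc w).1 (k - i)
      have h5 : |((PowerSeries.coeff (k - i) (L c w) : ℚ) : ℝ)| ≤ (A : ℝ) ^ (k - i) := by
        exact_mod_cast h4
      exact h5.trans (pow_le_pow_right₀ hA' (Nat.sub_le _ _))
    refine (Finset.sum_le_sum h3).trans ?_
    rw [Finset.sum_const, Finset.card_range, nsmul_eq_mul]
    push_cast
    linarith

theorem bb_nonneg (c : ι → ℕ) {z0 : ℚ} (hz : 0 < z0) (x : Option ι) : 0 ≤ bb c z0 x := by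
  cases x <;> · unfold bb; positivity

theorem bb_le (c : ι → ℕ) {A N : ℕ} (hc : ∀ i, c i ≤ A) (hN : A ≤ N) (x : Option ι) :
    bb c (1 / (N : ℚ)) x ≤ N := by
  cases x with
  | none => simp [bb]
  | some i =>
    unfold bb
    have h1 : (c i : ℚ) ≤ N := by exact_mod_cast (hc i).trans hN
    refine le_trans (div_le_self (by positivity) ?_) h1
    have : (0 : ℚ) ≤ c i * (1 / (N : ℚ)) := by positivity
    linarith

/-- the gauge of the hyperlogarithms is constant -/
theorem gg_const (h1 : T_GAU) (h2 : T_IN) (c : ι → ℕ) {z0 : ℚ} (hz : 0 < z0)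
    (V : List (Option ι) → PowerSeries ℝ) (hV : ∀ v, Ts (z0 : ℝ) (mp (L c v)) (V v))
    (w : List (Option ι)) (hok : ok w) :
    gg (fun x => ((bb c z0 x : ℚ) : ℝ)) V [] w = PowerSeries.C (val (L c w) z0) := by
  set b : Option ι → ℝ := fun x => ((bb c z0 x : ℚ) : ℝ) with hb
  set t : PowerSeries ℝ := mp (ty z0 (TT c)) with ht
  set tx : Option ι → PowerSeries ℝ := fun x => mp (ty z0 (Tx c x)) with htx
  have hyp : ∀ x, tx x * (1 + PowerSeries.C (b x) * PowerSeries.X) =
      PowerSeries.C (b x) * t := by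
    intro x
    have h3 := congrArg mp (form c hz x)
    rw [map_mul, map_add, map_mul, map_mul, map_one, PowerSeries.map_C, PowerSeries.map_X] at h3
    exact h3
  have hG := h1 ℝ ι b t tx hyp V w
  have hnil : V [] = 1 := by
    refine (hV []).unique ?_
    rw [L, map_one]
    exact Ts.one
  have hn : ∀ v, ok v → nbs t tx V v = 0 := by
    intro v hv
    cases v with
    | nil => rw [nbs, hnil, PowerSeries.derivative_one, mul_zero]
    | cons x v =>
      rw [nbs]
      have h4 := (h2 ι c x (L c v) (fun hx => by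
        cases v with
        | nil => exact absurd hx hv
        | cons y v => exact In_zero c y _)).2
      have h5 := congrArg mp h4
      rw [map_mul, map_mul, mp_deriv] at h5
      have h6 := (hV (x :: v)).deriv.polyQ (TT c)
      have h7 := (hV v).polyQ (Tx c x)
      rw [L] at h6
      rw [h5] at h6
      rw [h6.unique h7, sub_self]
  rw [gg_zero b (nbs t tx V) w [] fun v hv => hn v (ok_suffix hok hv)] at hG
  have ht0 : t ≠ 0 := by
    intro h0
    have h8 : PowerSeries.coeff 0 t = 0 := by rw [h0, map_zero]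
    rw [ht, coeff_mp, ty, Polynomial.coeff_coe, Polynomial.taylor_coeff_zero, TT,
      Polynomial.eval_mul, Polynomial.eval_X, Polynomial.eval_prod] at h8
    have h9 : z0 * ∏ i, Polynomial.eval z0 (1 + Polynomial.C (c i : ℚ) * Polynomial.X) ≠ 0 := by
      apply mul_ne_zero hz.ne'
      apply Finset.prod_ne_zero_iff.2
      intro i _
      simp only [Polynomial.eval_add, Polynomial.eval_one, Polynomial.eval_mul,
        Polynomial.eval_C, Polynomial.eval_X]
      positivity
    exact h9 (by exact_mod_cast h8)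
  have hd : PowerSeries.derivative ℝ (gg b V [] w) = 0 :=
    (mul_eq_zero.1 hG).resolve_left ht0
  ext n
  cases n with
  | zero =>
    rw [gg_coeff_zero, (hV w).coeff_zero, PowerSeries.coeff_zero_C, val]
    refine tsum_congr fun s => ?_
    rw [coeff_mp]
  | succ n =>
    have h10 := congrArg (PowerSeries.coeff n) hd
    rw [PowerSeries.coeff_derivative, map_zero] at h10
    rw [PowerSeries.coeff_C, if_neg (by omega)]
    exact (mul_eq_zero.1 h10).resolve_right (by positivity)

end

end Pool.Agent.PLG.AN_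

namespace Pool.Agent.PLG

open AN_

theorem p_AN (h1 : T_GAU) (h2 : T_IN) (h3 : T_COEF) : T_AN := by
  intro ι _ _ c W A N m σ H P hA hc hN hP hm hH k w hw hok
  have hA0 : (1 : ℝ) ≤ A := by exact_mod_cast hA
  have hNn : 0 < N := by omega
  have hN0 : (0 : ℝ) < N := by exact_mod_cast hNn
  have hN4 : 4 * (A : ℝ) ≤ N := by exact_mod_cast hN
  have hH0 : 0 ≤ H := (abs_nonneg _).trans (hH 0)
  have hz : (0 : ℚ) < 1 / (N : ℚ) := by
    have : (0 : ℚ) < N := by exact_mod_cast hNn
    positivity
  have hzr : (((1 / (N : ℚ) : ℚ)) : ℝ) = 1 / (N : ℝ) := by push_cast; rfl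
  have hz0 : (0 : ℝ) < 1 / (N : ℝ) := by positivity
  have hq : 2 * (A : ℝ) * (1 / (N : ℝ)) ≤ 1 / 2 := by
    rw [mul_one_div, div_le_div_iff₀ hN0 two_pos]
    linarith
  have hex : ∀ v, ∃ g, Ts (((1 / (N : ℚ) : ℚ)) : ℝ) (mp (L c v)) g := by
    intro v
    rw [hzr]
    refine Ts.exists (A := A) (B := 1) (by positivity) hz0.le zero_le_one (by linarith)
      fun s => ?_
    rw [coeff_mp, one_mul]
    exact_mod_cast (h3 ι c A hA hc v).1 s
  choose V hV using hex
  have hconst := gg_const h1 h2 c hz V hV w hok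
  set b : Option ι → ℝ := fun x => ((bb c (1 / (N : ℚ)) x : ℚ) : ℝ) with hb
  have hbN : ∀ x, |b x| ≤ N := by
    intro x
    rw [hb]
    have h4 := bb_nonneg c hz x
    have h5 := bb_le c hc (by omega : A ≤ N) x
    have h4' : (0 : ℝ) ≤ ((bb c (1 / (N : ℚ)) x : ℚ) : ℝ) := by exact_mod_cast h4
    show |((bb c (1 / (N : ℚ)) x : ℚ) : ℝ)| ≤ N
    rw [abs_of_nonneg h4']
    exact_mod_cast h5
  set U : List (Option ι) → PowerSeries ℝ := fun v =>
    mp (ty (1 / (N : ℚ)) (P [])) * V v - mp (ty (1 / (N : ℚ)) (P v)) with hU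
  have hUb : ∀ v, v <:+ w → ∀ n, |PowerSeries.coeff n (U v)| ≤
      (2 * ((m + 1) * H) * (2 * (A : ℝ) / N) ^ σ) * (N : ℝ) ^ n := by
    intro v hv n
    have hvW : v.length ≤ W := hv.length_le.trans hw
    have hvok : ok v := ok_suffix hok hv
    have h6 : Ts (((1 / (N : ℚ) : ℚ)) : ℝ)
        (mp ((P [] : PowerSeries ℚ) * L c v - (P v : PowerSeries ℚ))) (U v) := by
      rw [map_sub, map_mul]
      refine ((hV v).polyQ (P [])).sub ?_
      have h7 := (Ts.one (z := (((1 / (N : ℚ) : ℚ)) : ℝ))).polyQ (P v)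
      rwa [mul_one, mul_one] at h7
    rw [hzr] at h6
    have h8 := h6.bound (A := A) (B := (m + 1) * H) (σ := σ) (by positivity) hz0
      (by positivity) hq (fun s => by
        rw [coeff_mp]
        exact coeff_bound h3 hA hc hP hm hH v hvW hvok s) n
    refine h8.trans (le_of_eq ?_)
    rw [one_div_one_div, mul_one_div]
    ring
  have hfin := gg_bound hN0.le hbN U k w [] hUb
  have hlin := gg_lin b (mp (ty (1 / (N : ℚ)) (P []))) V
    (fun v => mp (ty (1 / (N : ℚ)) (P v))) w []
  have hmap : mp (g0 c (1 / (N : ℚ)) P w) = gg b (fun v => mp (ty (1 / (N : ℚ)) (P v))) [] w :=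
    gg_map _ _ _ _ _
  rw [hconst, ← hmap] at hlin
  have hval : PowerSeries.coeff k (gg b U [] w) =
      ((Polynomial.taylor (1 / (N : ℚ)) (P [])).coeff k : ℝ) * val (L c w) (1 / (N : ℝ)) -
      (pk c (1 / (N : ℚ)) P k w : ℝ) := by
    rw [hU, hlin, map_sub, mul_comm, PowerSeries.coeff_C_mul, coeff_mp, coeff_mp, ty,
      Polynomial.coeff_coe, pk, hzr]
    ring
  rw [hval] at hfin
  refine hfin.trans ?_
  have hwl : ((w.length : ℝ) + 1) ≤ W + 1 := by
    have : (w.length : ℝ) ≤ W := by exact_mod_cast hw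
    linarith
  calc ((w.length : ℝ) + 1) * ((k + 1) * (2 * ((m + 1) * H) * (2 * (A : ℝ) / N) ^ σ) *
        (N : ℝ) ^ k) ≤ (W + 1) * ((k + 1) * (2 * ((m + 1) * H) * (2 * (A : ℝ) / N) ^ σ) *
        (N : ℝ) ^ k) := by
        apply mul_le_mul_of_nonneg_right hwl
        positivity
    _ = _ := by ring

end Pool.Agent.PLG

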