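import Pool.Agent.PLG.Targets

set_option autoImplicit false

/-!
# Target COEF: coefficients of the hyperlogarithms
-/

namespace Pool.Agent.PLG

open Finset
open scoped BigOperators

namespace COEF_

theorem coeff_in_none {ι : Type} (c : ι → ℕ) (f : PowerSeries ℚ) (n : ℕ) :
    PowerSeries.coeff n (In c none f) = PowerSeries.coeff n f / (n : ℚ) := by
  simp [In]

theorem coeff_in_some {ι : Type} (c : ι → ℕ) (i : ι) (f : PowerSeries ℚ) (n : ℕ) :
    PowerSeries.coeff n (In c (some i) f) =
      (∑ j ∈ range n, PowerSeries.coeff j f * ((c i : ℚ) * (-(c i : ℚ)) ^ (n - 1 - j))) /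
        (n : ℚ) := by
  simp [In]

/-- size -/
theorem size {ι : Type} (c : ι → ℕ) (A : ℕ) (hA : 1 ≤ A) (hc : ∀ i, c i ≤ A)
    (w : List (Option ι)) : ∀ s, |PowerSeries.coeff s (L c w)| ≤ (A : ℚ) ^ s := by
  have hA' : (1 : ℚ) ≤ A := by exact_mod_cast hA
  induction w with
  | nil =>
    intro s
    simp only [L, PowerSeries.coeff_one]
    split_ifs with h
    · simp [h]
    · simp
  | cons x w ih =>
    intro s
    rcases Nat.eq_zero_or_pos s with rfl | hs
    · cases x with
      | none => simp [L, coeff_in_none]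
      | some i => simp [L, coeff_in_some]
    have hs' : (1 : ℚ) ≤ s := by exact_mod_cast hs
    have hs0 : (0 : ℚ) < s := by linarith
    cases x with
    | none =>
      simp only [L, coeff_in_none]
      rw [abs_div, abs_of_pos hs0, div_le_iff₀ hs0]
      have h1 := ih s
      have h2 : (0 : ℚ) ≤ (A : ℚ) ^ s := by positivity
      nlinarith
    | some i =>
      simp only [L, coeff_in_some]
      rw [abs_div, abs_of_pos hs0, div_le_iff₀ hs0]
      have hb : ∀ j ∈ range s, |PowerSeries.coeff j (L c w) *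
          ((c i : ℚ) * (-(c i : ℚ)) ^ (s - 1 - j))| ≤ (A : ℚ) ^ s := by
        intro j hj
        have hj' : j < s := Finset.mem_range.1 hj
        rw [abs_mul, abs_mul, abs_pow, abs_neg]
        have hci : |(c i : ℚ)| ≤ A := by
          rw [abs_of_nonneg (Nat.cast_nonneg _)]
          exact_mod_cast hc i
        have e : (A : ℚ) ^ s = (A : ℚ) ^ j * ((A : ℚ) * (A : ℚ) ^ (s - 1 - j)) := by
          rw [← pow_succ', ← pow_add]
          congr 1
          omega
        rw [e]
        gcongr
        exact ih j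
      calc |∑ j ∈ range s, PowerSeries.coeff j (L c w) *
            ((c i : ℚ) * (-(c i : ℚ)) ^ (s - 1 - j))|
          ≤ ∑ j ∈ range s, |PowerSeries.coeff j (L c w) *
            ((c i : ℚ) * (-(c i : ℚ)) ^ (s - 1 - j))| := Finset.abs_sum_le_sum_abs _ _
        _ ≤ ∑ _j ∈ range s, (A : ℚ) ^ s := Finset.sum_le_sum hb
        _ = (A : ℚ) ^ s * s := by simp [mul_comm]

theorem dvd_lcm' (S s : ℕ) (h1 : 1 ≤ s) (h2 : s ≤ S) : s ∣ Nat.lcmUpto S := by
  unfold Nat.lcmUpto
  exact Finset.dvd_lcm (f := id) (Finset.mem_Icc.2 ⟨h1, h2⟩)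

/-- denominators -/
theorem den {ι : Type} (c : ι → ℕ) (S : ℕ) (w : List (Option ι)) :
    ∀ s, s ≤ S → ∃ x : ℤ, (Nat.lcmUpto S : ℚ) ^ w.length * PowerSeries.coeff s (L c w) = x := by
  induction w with
  | nil =>
    intro s _
    simp only [L, PowerSeries.coeff_one]
    split_ifs with h
    · exact ⟨1, by simp⟩
    · exact ⟨0, by simp⟩
  | cons x w ih =>
    intro s hs
    rcases Nat.eq_zero_or_pos s with rfl | hs1
    · cases x with
      | none => exact ⟨0, by simp [L, coeff_in_none]⟩
      | some i => exact ⟨0, by simp [L, coeff_in_some]⟩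
    obtain ⟨d, hd⟩ := dvd_lcm' S s hs1 hs
    have hd' : (Nat.lcmUpto S : ℚ) = s * d := by exact_mod_cast hd
    have hs0 : (s : ℚ) ≠ 0 := by
      have : s ≠ 0 := by omega
      exact_mod_cast this
    cases x with
    | none =>
      obtain ⟨y, hy⟩ := ih s hs
      refine ⟨d * y, ?_⟩
      simp only [L, coeff_in_none, List.length_cons]
      rw [pow_succ]
      push_cast
      rw [← hy]
      nth_rewrite 2 [hd']
      field_simp
    | some i =>
      have hz : ∀ j ∈ range s, ∃ y : ℤ, (Nat.lcmUpto S : ℚ) ^ w.length *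
          (PowerSeries.coeff j (L c w) * ((c i : ℚ) * (-(c i : ℚ)) ^ (s - 1 - j))) = y := by
        intro j hj
        obtain ⟨y, hy⟩ := ih j ((Finset.mem_range.1 hj).le.trans hs)
        refine ⟨y * ((c i : ℤ) * (-(c i : ℤ)) ^ (s - 1 - j)), ?_⟩
        push_cast
        rw [← hy]
        ring
      choose! y hy using hz
      refine ⟨d * ∑ j ∈ range s, y j, ?_⟩
      simp only [L, coeff_in_some, List.length_cons]
      rw [pow_succ]
      push_cast
      rw [← Finset.sum_congr rfl hy, ← Finset.mul_sum]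
      nth_rewrite 2 [hd']
      generalize (∑ j ∈ range s, PowerSeries.coeff j (L c w) *
        ((c i : ℚ) * (-(c i : ℚ)) ^ (s - 1 - j))) = Z
      field_simp

end COEF_

theorem p_COEF : T_COEF := by
  intro ι c A hA hc w
  refine ⟨COEF_.size c A hA hc w, ?_⟩
  intro W S s hw hs
  obtain ⟨x, hx⟩ := COEF_.den c S w s hs
  refine ⟨(Nat.lcmUpto S : ℤ) ^ (W - w.length) * x, ?_⟩
  push_cast
  rw [← hx, ← mul_assoc, ← pow_add]
  congr 2
  omega

end Pool.Agent.PLG
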