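import Pool.Agent.PLG.Targets

set_option autoImplicit false

/-!
# PLG: degree of the determinant
-/

namespace Pool.Agent.PLG

open Finset Polynomial
open scoped BigOperators

namespace DEG_

variable {ι : Type} [Fintype ι] [DecidableEq ι]

lemma lin_deg (b : ℚ) : (1 + C b * X : Polynomial ℚ).natDegree ≤ 1 := by
  refine (natDegree_add_le _ _).trans ?_
  rw [natDegree_one]
  exact max_le (Nat.zero_le _) ((natDegree_C_mul_le _ _).trans natDegree_X_le)

lemma prod_deg (c : ι → ℕ) (s : Finset ι) :
    (∏ i ∈ s, (1 + C (c i : ℚ) * X) : Polynomial ℚ).natDegree ≤ Fintype.card ι := by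
  refine (natDegree_prod_le _ _).trans ?_
  refine (sum_le_sum fun i _ => lin_deg (c i : ℚ)).trans ?_
  simp only [sum_const, smul_eq_mul, mul_one]
  exact card_le_univ s

lemma TT_deg (c : ι → ℕ) : (TT c).natDegree ≤ Fintype.card ι + 1 := by
  unfold TT
  refine natDegree_mul_le.trans ?_
  have h := prod_deg c univ
  have hX : (X : Polynomial ℚ).natDegree ≤ 1 := natDegree_X_le
  omega

lemma Tx_deg (c : ι → ℕ) (x : Option ι) : (Tx c x).natDegree ≤ Fintype.card ι + 1 := by
  cases x with
  | none =>
    have h := prod_deg c univ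
    show (∏ i, (1 + C (c i : ℚ) * X) : Polynomial ℚ).natDegree ≤ _
    omega
  | some i =>
    show (X * (C (c i : ℚ) * ∏ l ∈ univ.erase i, (1 + C (c l : ℚ) * X)) :
      Polynomial ℚ).natDegree ≤ _
    refine natDegree_mul_le.trans ?_
    have h := (natDegree_C_mul_le (c i : ℚ)
      (∏ l ∈ univ.erase i, (1 + C (c l : ℚ) * X))).trans (prod_deg c (univ.erase i))
    have hX : (X : Polynomial ℚ).natDegree ≤ 1 := natDegree_X_le
    omega

lemma ok_tail (x : Option ι) (w : List (Option ι)) (h : ok (x :: w)) : ok w := by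
  cases w with
  | nil => trivial
  | cons y l => exact h

lemma VV_deg {W m : ℕ} (c : ι → ℕ) (P : List (Option ι) → Polynomial ℚ)
    (hP : ∀ w, w.length ≤ W → ok w → (P w).natDegree ≤ m) (k : ℕ) :
    ∀ w, w.length ≤ W → ok w → (VV c P k w).natDegree ≤ m + k * (Fintype.card ι + 1) := by
  induction k with
  | zero =>
    intro w h1 h2
    simpa [VV] using hP w h1 h2
  | succ k ih =>
    intro w h1 h2
    have hT := TT_deg c
    have h3 : (k + 1) * (Fintype.card ι + 1) = k * (Fintype.card ι + 1) +
      (Fintype.card ι + 1) := by ring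
    have t1 : (TT c * derivative (VV c P k w)).natDegree ≤
        m + (k + 1) * (Fintype.card ι + 1) := by
      refine natDegree_mul_le.trans ?_
      have h4 := natDegree_derivative_le (VV c P k w)
      have h5 := ih w h1 h2
      omega
    cases w with
    | nil => exact t1
    | cons x w =>
      show (TT c * derivative (VV c P k (x :: w)) - Tx c x * VV c P k w).natDegree ≤ _
      refine (natDegree_sub_le _ _).trans (max_le t1 ?_)
      refine natDegree_mul_le.trans ?_
      have h4 := Tx_deg c x
      have h5 := ih w (by simp only [List.length_cons] at h1; omega) (ok_tail x w h2)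
      omega

end DEG_

open DEG_ in
theorem p_DEG : T_DEG := by
  intro ι _ _ c W m P hP
  set M := Fintype.card (Wd ι W) with hM
  have e : WW W c P = ∑ σ : Equiv.Perm (Wd ι W), Equiv.Perm.sign σ •
      ∏ i, VV c P (num (σ i)) i.1 := by
    unfold WW
    exact Matrix.det_apply _
  rw [e]
  refine natDegree_sum_le_of_forall_le _ _ fun σ _ => ?_
  refine (natDegree_smul_le _ _).trans ?_
  refine (natDegree_prod_le _ _).trans ?_
  have hnum : ∀ K : Wd ι W, num K ≤ M := by
    intro K
    exact (Fintype.equivFin (Wd ι W) K).isLt.le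
  have h1 : ∀ K : Wd ι W, (VV c P (num (σ K)) K.1).natDegree ≤
      m + M * (Fintype.card ι + 1) := by
    intro K
    refine (VV_deg c P hP _ K.1 K.2.1 K.2.2).trans ?_
    exact Nat.add_le_add_left (Nat.mul_le_mul_right _ (hnum _)) _
  refine (sum_le_sum fun K _ => h1 K).trans ?_
  rw [sum_const, card_univ, smul_eq_mul]
  apply le_of_eq
  rw [← hM]
  ring

end Pool.Agent.PLG
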