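import Pool.Agent.PLG.Targets

set_option autoImplicit false

/-!
# PLG, entry DEN: denominators
-/

namespace Pool.Agent.PLG

open Finset
open scoped BigOperators

namespace DEN_

/-- integrality of the coefficients up to `k` -/
def Den (k : ℕ) (D W : ℤ) (E : ℕ) (c : ℚ) (F : PowerSeries ℚ) : Prop :=
  ∀ j ≤ k, ∃ x : ℤ, (D : ℚ) ^ E * (W : ℚ) ^ j * PowerSeries.coeff j F * c = x

variable {k : ℕ} {D W : ℤ}

theorem Den.mul {E1 E2 : ℕ} {c1 c2 : ℚ} {F1 F2 : PowerSeries ℚ} (h1 : Den k D W E1 c1 F1)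
    (h2 : Den k D W E2 c2 F2) : Den k D W (E1 + E2) (c1 * c2) (F1 * F2) := by
  intro j hj
  have h : ∀ p : ℕ × ℕ, ∃ x : ℤ, p ∈ antidiagonal j →
      (D : ℚ) ^ (E1 + E2) * (W : ℚ) ^ j * (PowerSeries.coeff p.1 F1 * PowerSeries.coeff p.2 F2) *
        (c1 * c2) = x := by
    intro p
    by_cases hp : p ∈ antidiagonal j
    · have hp' := mem_antidiagonal.1 hp
      obtain ⟨x, hx⟩ := h1 p.1 (by omega)
      obtain ⟨y, hy⟩ := h2 p.2 (by omega)
      refine ⟨x * y, fun _ => ?_⟩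
      push_cast
      rw [← hx, ← hy, ← hp']
      ring
    · exact ⟨0, fun h => absurd h hp⟩
  choose x hx using h
  refine ⟨∑ p ∈ antidiagonal j, x p, ?_⟩
  rw [PowerSeries.coeff_mul, mul_sum, sum_mul]
  push_cast
  exact sum_congr rfl hx

theorem Den.mono {E1 E2 : ℕ} {c : ℚ} {F : PowerSeries ℚ} (h : Den k D W E1 c F) (hE : E1 ≤ E2) :
    Den k D W E2 c F := by
  intro j hj
  obtain ⟨x, hx⟩ := h j hj
  refine ⟨D ^ (E2 - E1) * x, ?_⟩
  push_cast
  rw [← hx]
  have : (D : ℚ) ^ E2 = (D : ℚ) ^ (E2 - E1) * (D : ℚ) ^ E1 := by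
    rw [← pow_add]; congr 1; omega
  rw [this]
  ring

theorem Den.add {E : ℕ} {c : ℚ} {F1 F2 : PowerSeries ℚ} (h1 : Den k D W E c F1)
    (h2 : Den k D W E c F2) : Den k D W E c (F1 + F2) := by
  intro j hj
  obtain ⟨x, hx⟩ := h1 j hj
  obtain ⟨y, hy⟩ := h2 j hj
  refine ⟨x + y, ?_⟩
  rw [map_add]
  push_cast
  rw [← hx, ← hy]
  ring

theorem Den.one : Den k D W 0 1 1 := by
  intro j hj
  refine ⟨if j = 0 then 1 else 0, ?_⟩
  rw [PowerSeries.coeff_one]
  by_cases h : j = 0 <;> simp [h]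

/-- the primitives -/
theorem den_Im {b : ℚ} {y : ℤ} (hb : (W : ℚ) * b = y) {E : ℕ} {f : PowerSeries ℚ}
    (hf : Den k (Nat.lcmUpto k : ℤ) W E 1 f) :
    Den k (Nat.lcmUpto k : ℤ) W (E + 1) 1 (Im b f) := by
  intro n hn
  rcases Nat.eq_zero_or_pos n with rfl | hn0
  · exact ⟨0, by simp [Im]⟩
  · have hd : n ∣ Nat.lcmUpto k := by
      unfold Nat.lcmUpto
      exact Finset.dvd_lcm (f := id) (mem_Icc.2 ⟨hn0, hn⟩)
    obtain ⟨q, hq⟩ := hd
    have h' : ∀ j, ∃ x : ℤ, j ∈ range n →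
        ((Nat.lcmUpto k : ℤ) : ℚ) ^ E * (W : ℚ) ^ j * PowerSeries.coeff j f = x := by
      intro j
      by_cases hj : j ∈ range n
      · obtain ⟨x, hx⟩ := hf j (by have := mem_range.1 hj; omega)
        exact ⟨x, fun _ => by rw [← hx, mul_one]⟩
      · exact ⟨0, fun h => absurd h hj⟩
    choose x hx using h'
    have hn' : (n : ℚ) ≠ 0 := by exact_mod_cast hn0.ne'
    refine ⟨-(q * ∑ j ∈ range n, x j * (y * (-y) ^ (n - 1 - j))), ?_⟩
    rw [Im, PowerSeries.coeff_mk]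
    have e1 : ((Nat.lcmUpto k : ℤ) : ℚ) ^ (E + 1) * (W : ℚ) ^ n *
        (-(∑ j ∈ range n, PowerSeries.coeff j f * (b * (-b) ^ (n - 1 - j))) / (n : ℚ)) * 1 =
        -((q : ℚ) * ∑ j ∈ range n, (((Nat.lcmUpto k : ℤ) : ℚ) ^ E * (W : ℚ) ^ j *
          PowerSeries.coeff j f) * ((W : ℚ) ^ (n - j) * (b * (-b) ^ (n - 1 - j)))) := by
      have e2 : ((Nat.lcmUpto k : ℤ) : ℚ) = n * q := by rw [hq]; push_cast; ring
      have e3 : ∑ j ∈ range n, (((Nat.lcmUpto k : ℤ) : ℚ) ^ E * (W : ℚ) ^ j *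
          PowerSeries.coeff j f) * ((W : ℚ) ^ (n - j) * (b * (-b) ^ (n - 1 - j))) =
          ((Nat.lcmUpto k : ℤ) : ℚ) ^ E * (W : ℚ) ^ n *
            ∑ j ∈ range n, PowerSeries.coeff j f * (b * (-b) ^ (n - 1 - j)) := by
        rw [mul_sum]
        refine sum_congr rfl fun j hj => ?_
        have : (W : ℚ) ^ n = (W : ℚ) ^ j * (W : ℚ) ^ (n - j) := by
          rw [← pow_add]; congr 1; have := mem_range.1 hj; omega
        rw [this]
        ring
      have e5 : ((Nat.lcmUpto k : ℤ) : ℚ) ^ (E + 1) =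
          ((Nat.lcmUpto k : ℤ) : ℚ) ^ E * (n * q) := by
        rw [pow_succ]; congr 1
      rw [e3, e5]
      generalize ∑ j ∈ range n, PowerSeries.coeff j f * (b * (-b) ^ (n - 1 - j)) = S
      generalize ((Nat.lcmUpto k : ℤ) : ℚ) ^ E = A
      field_simp
    rw [e1]
    push_cast
    congr 2
    refine sum_congr rfl fun j hj => ?_
    rw [← hx j hj]
    have e4 : (W : ℚ) ^ (n - j) * (b * (-b) ^ (n - 1 - j)) = (y : ℚ) * (-(y : ℚ)) ^ (n - 1 - j) := by
      rw [← hb]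
      have : n - j = (n - 1 - j) + 1 := by have := mem_range.1 hj; omega
      rw [this, pow_succ]
      have h5 : (-((W : ℚ) * b)) ^ (n - 1 - j) = (W : ℚ) ^ (n - 1 - j) * (-b) ^ (n - 1 - j) := by
        rw [← mul_pow]; congr 1; ring
      rw [h5]
      ring
    push_cast at e4 ⊢
    rw [e4]

/-- the Taylor polynomials -/
theorem den_ty {m N : ℕ} {c : ℚ} (hN : 1 ≤ N) {p : Polynomial ℚ} (hp : p.natDegree ≤ m)
    (hc : ∀ s, ∃ x : ℤ, c * p.coeff s = x) :
    Den k D W 0 ((N : ℚ) ^ m * c) (ty (1 / (N : ℚ)) p) := by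
  intro j hj
  choose x hx using hc
  have hN' : (N : ℚ) ≠ 0 := by exact_mod_cast (by omega : N ≠ 0)
  rw [ty, Polynomial.coeff_coe, Polynomial.taylor_coeff, Polynomial.hasseDeriv_apply,
    Polynomial.sum_def, Polynomial.eval_finsetSum]
  refine ⟨∑ s ∈ p.support, W ^ j * (s.choose j) * x s * (N : ℤ) ^ (m - (s - j)), ?_⟩
  rw [pow_zero, one_mul, mul_sum, sum_mul]
  push_cast
  refine sum_congr rfl fun s hs => ?_
  have hsm : s ≤ m := (Polynomial.le_natDegree_of_mem_supp s hs).trans hp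
  rw [Polynomial.eval_monomial, ← hx]
  have h1 : (N : ℚ) ^ m = (N : ℚ) ^ (m - (s - j)) * (N : ℚ) ^ (s - j) := by
    rw [← pow_add]; congr 1; omega
  rw [h1, one_div, inv_pow]
  field_simp

theorem den_Sg {ι : Type} {b : Option ι → ℚ} (hb : ∀ x, ∃ y : ℤ, (W : ℚ) * b x = y)
    (l : List (Option ι)) : Den k (Nat.lcmUpto k : ℤ) W l.length 1 (Sg b l) := by
  induction l with
  | nil => exact Den.one
  | cons x l ih =>
    obtain ⟨y, hy⟩ := hb x
    rw [Sg, List.length_cons]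
    exact den_Im hy ih

theorem ok_tail {ι : Type} {x : Option ι} {w : List (Option ι)} (h : ok (x :: w)) : ok w := by
  cases w with
  | nil => trivial
  | cons y l => exact h

theorem den_gg {ι : Type} {b : Option ι → ℚ} (hb : ∀ x, ∃ y : ℤ, (W : ℚ) * b x = y) {C : ℚ}
    {B : ℕ} {V : List (Option ι) → PowerSeries ℚ}
    (hV : ∀ v, v.length ≤ B → ok v → Den k (Nat.lcmUpto k : ℤ) W 0 C (V v)) :
    ∀ (w l : List (Option ι)), w.length + l.length ≤ B → ok w →
      Den k (Nat.lcmUpto k : ℤ) W B C (gg b V l w) := by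
  intro w
  induction w with
  | nil =>
    intro l hl _
    rw [gg]
    have h1 := (den_Sg (k := k) hb l).mul (hV [] (Nat.zero_le _) trivial)
    rw [one_mul, add_zero] at h1
    exact h1.mono (by simpa using hl)
  | cons x w ih =>
    intro l hl hok
    rw [gg]
    rw [List.length_cons] at hl
    have h1 := (den_Sg (k := k) hb l).mul (hV (x :: w) (by rw [List.length_cons]; omega) hok)
    rw [one_mul, add_zero] at h1
    exact (h1.mono (by omega)).add (ih (x :: l) (by rw [List.length_cons]; omega) (ok_tail hok))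

end DEN_

open DEN_

theorem p_DEN : T_DEN := by
  intro ι _ _ c W m k N P hN hdeg hint w hw hok
  set Z : ℤ := ∏ i, ((N : ℤ) + c i) with hZ
  have hZq : (Z : ℚ) = ∏ i, ((N : ℚ) + c i) := by
    rw [hZ]; push_cast; rfl
  have h1 : (N : ℚ) ≠ 0 := by exact_mod_cast (by omega : N ≠ 0)
  have hb : ∀ x, ∃ y : ℤ, (Z : ℚ) * bb c (1 / (N : ℚ)) x = y := by
    intro x
    cases x with
    | none =>
      refine ⟨Z * N, ?_⟩
      rw [bb]
      push_cast
      field_simp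
    | some i =>
      refine ⟨c i * N * ∏ l ∈ univ.erase i, ((N : ℤ) + c l), ?_⟩
      rw [hZq, ← mul_prod_erase univ _ (mem_univ i), bb]
      have h2 : (N : ℚ) + c i ≠ 0 := by positivity
      have h3 : (1 : ℚ) + c i * (1 / N) ≠ 0 := by positivity
      push_cast
      field_simp
  have hg := den_gg (k := k) (W := Z) (b := bb c (1 / (N : ℚ))) hb
    (C := (N : ℚ) ^ m * (Nat.lcmUpto m : ℚ) ^ W) (B := W)
    (V := fun v => ty (1 / (N : ℚ)) (P v))
    (fun v hv hvok => den_ty hN (hdeg v hv hvok) (hint v hv hvok)) w [] (by simpa using hw) hok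
  obtain ⟨x, hx⟩ := hg k le_rfl
  refine ⟨x, ?_⟩
  rw [← hx, pk, g0, hZq]
  push_cast
  ring

end Pool.Agent.PLG
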