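import Pool.Agent.PLG.Targets

set_option autoImplicit false

/-!
# ELIM: elimination by a dimension count
-/

namespace Pool.Agent.PLG

open Finset
open scoped BigOperators

namespace ELIM_

variable {S : Type} [Fintype S]

/-- span of the monomials with exponents at most `e` -/
noncomputable def Mo (z : S → ℂ) (e : S → ℕ) : Submodule ℚ ℂ :=
  Submodule.span ℚ {w | ∃ α : S → ℕ, (∀ v, α v ≤ e v) ∧ w = ∏ v, z v ^ α v}

variable {z : S → ℂ}

theorem mono_mem {e α : S → ℕ} (h : ∀ v, α v ≤ e v) : ∏ v, z v ^ α v ∈ Mo z e :=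
  Submodule.subset_span ⟨α, h, rfl⟩

theorem Mo_mono {e f : S → ℕ} (h : ∀ v, e v ≤ f v) : Mo z e ≤ Mo z f := by
  apply Submodule.span_mono
  rintro w ⟨α, hα, rfl⟩
  exact ⟨α, fun v => (hα v).trans (h v), rfl⟩

theorem Mo_mul (e f : S → ℕ) : Mo z e * Mo z f ≤ Mo z (fun v => e v + f v) := by
  unfold Mo
  rw [Submodule.span_mul_span]
  apply Submodule.span_mono
  rintro _ ⟨_, ⟨α, hα, rfl⟩, _, ⟨β, hβ, rfl⟩, rfl⟩
  refine ⟨fun v => α v + β v, fun v => add_le_add (hα v) (hβ v), ?_⟩
  simp only [pow_add, Finset.prod_mul_distrib]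

theorem one_mem (e : S → ℕ) : (1 : ℂ) ∈ Mo z e := by
  have h := mono_mem (z := z) (e := e) (α := fun _ => 0) (fun v => Nat.zero_le _)
  simpa using h

theorem mul_mem {e f : S → ℕ} {u v : ℂ} (hu : u ∈ Mo z e) (hv : v ∈ Mo z f) :
    u * v ∈ Mo z (fun v => e v + f v) :=
  Mo_mul e f (Submodule.mul_mem_mul hu hv)

theorem pow_mem {e : S → ℕ} {u : ℂ} (hu : u ∈ Mo z e) (n : ℕ) :
    u ^ n ∈ Mo z (fun v => n * e v) := by
  induction n with
  | zero => rw [pow_zero]; exact one_mem _
  | succ n ih =>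
    rw [pow_succ]
    refine Mo_mono (fun v => ?_) (mul_mem ih hu)
    exact le_of_eq (by ring)

theorem prod_mem {ι : Type} (t : Finset ι) (e : ι → S → ℕ) (w : ι → ℂ)
    (h : ∀ i ∈ t, w i ∈ Mo z (e i)) : ∏ i ∈ t, w i ∈ Mo z (fun v => ∑ i ∈ t, e i v) := by
  classical
  induction t using Finset.induction_on with
  | empty => rw [Finset.prod_empty]; exact one_mem _
  | insert a t ha ih =>
    rw [Finset.prod_insert ha]
    refine Mo_mono (fun v => ?_) (mul_mem (h a (Finset.mem_insert_self a t))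
      (ih fun i hi => h i (Finset.mem_insert_of_mem hi)))
    rw [Finset.sum_insert ha]

theorem mm {P P' R R' : Submodule ℚ ℂ} (h : P ≤ P') (h' : R ≤ R') {w : ℂ} (hw : w ∈ P * R) :
    w ∈ P' * R' :=
  (mul_le_mul' h h' : P * R ≤ P' * R') hw

theorem single_mem [DecidableEq S] (v : S) (n : ℕ) :
    z v ^ n ∈ Mo z (fun w => if w = v then n else 0) := by
  have h4 := mono_mem (z := z) (e := fun w => if w = v then n else 0)
    (α := fun w => if w = v then n else 0) (fun _ => le_rfl)
  have h5 : ∏ w, z w ^ (if w = v then n else 0) = z v ^ n := by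
    rw [Finset.prod_eq_single v]
    · rw [if_pos rfl]
    · intro b _ hb; rw [if_neg hb, pow_zero]
    · intro h; exact absurd (Finset.mem_univ v) h
  rw [h5] at h4
  exact h4

/-- powers of the leading coefficient -/
theorem pow_red {d : ℕ} {a : S → ℕ} {y : ℂ} {A : ℕ → ℂ} (hd : 1 ≤ d)
    (hA : ∀ j, A j ∈ Mo z a) (hrel : A d * y ^ d = - ∑ j ∈ range d, A j * y ^ j)
    (e : ℕ) : A d ^ e * y ^ e ∈
      Mo z (fun v => e * a v) * Submodule.span ℚ {w : ℂ | ∃ β < d, w = y ^ β} := by
  set Y : Submodule ℚ ℂ := Submodule.span ℚ {w : ℂ | ∃ β < d, w = y ^ β} with hY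
  have hy : ∀ β, β < d → y ^ β ∈ Y := fun β hβ => Submodule.subset_span ⟨β, hβ, rfl⟩
  have step : ∀ u ∈ Y, (A d * y) * u ∈ Mo z a * Y := by
    intro u hu
    rw [hY] at hu
    induction hu using Submodule.span_induction with
    | mem w hw =>
      obtain ⟨β, hβ, rfl⟩ := hw
      by_cases h1 : β + 1 < d
      · have : A d * y * y ^ β = A d * y ^ (β + 1) := by ring
        rw [this]
        exact Submodule.mul_mem_mul (hA d) (hy _ h1)
      · have h2 : β + 1 = d := by omega
        have : A d * y * y ^ β = A d * y ^ d := by rw [← h2]; ring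
        rw [this, hrel]
        refine Submodule.neg_mem _ (Submodule.sum_mem _ fun j hj => ?_)
        exact Submodule.mul_mem_mul (hA j) (hy j (Finset.mem_range.1 hj))
    | zero => rw [mul_zero]; exact Submodule.zero_mem _
    | add w w' _ _ h1 h2 => rw [mul_add]; exact Submodule.add_mem _ h1 h2
    | smul r w _ h1 =>
      rw [mul_smul_comm]
      exact Submodule.smul_mem _ r h1
  induction e with
  | zero =>
    rw [pow_zero, pow_zero]
    exact Submodule.mul_mem_mul (one_mem _) (by simpa using hy 0 hd)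
  | succ e ih =>
    have key : ∀ w ∈ Mo z (fun v => e * a v) * Y,
        (A d * y) * w ∈ Mo z (fun v => (e + 1) * a v) * Y := by
      intro w hw
      induction hw using Submodule.mul_induction_on' with
      | mem_mul_mem m hm n hn =>
        have h1 : (A d * y) * (m * n) = m * ((A d * y) * n) := by ring
        rw [h1]
        have h2 := Submodule.mul_mem_mul hm (step n hn)
        rw [← mul_assoc] at h2
        refine mm ?_ le_rfl h2
        refine (Mo_mul _ _).trans (Mo_mono fun v => ?_)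
        exact le_of_eq (by ring)
      | add m _ n _ h1 h2 => rw [mul_add]; exact Submodule.add_mem _ h1 h2
    have h3 := key _ ih
    have h4 : A d ^ (e + 1) * y ^ (e + 1) = A d * y * (A d ^ e * y ^ e) := by ring
    rw [h4]
    exact h3

theorem pow_red' [DecidableEq S] {D d q e : ℕ} {a : S → ℕ} {v0 : S} {A : ℕ → ℂ}
    (hd : 1 ≤ d) (hdD : d ≤ D) (hA : ∀ j, A j ∈ Mo z a)
    (hrel : A d * z v0 ^ d = - ∑ j ∈ range d, A j * z v0 ^ j) (he : e ≤ q) :
    A d ^ q * z v0 ^ e ∈ Mo z (fun v => q * a v + if v = v0 then D else 0) := by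
  have h1 := pow_red hd hA hrel e
  have h2 : A d ^ q * z v0 ^ e = A d ^ (q - e) * (A d ^ e * z v0 ^ e) := by
    rw [← mul_assoc, ← pow_add, Nat.sub_add_cancel he]
  rw [h2]
  have h3 := Submodule.mul_mem_mul (pow_mem (hA d) (q - e)) h1
  rw [← mul_assoc] at h3
  refine Mo_mul _ _ (mm ?_ ?_ h3)
  · refine (Mo_mul _ _).trans (Mo_mono fun v => ?_)
    rw [← add_mul, Nat.sub_add_cancel he]
  · rw [Submodule.span_le]
    rintro _ ⟨β, hβ, rfl⟩
    refine Mo_mono (fun v => ?_) (single_mem (z := z) v0 β)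
    split_ifs <;> omega

/-- the finite dimensional space -/
theorem fin_span (e : S → ℕ) : Mo z e ≤ Submodule.span ℚ (Set.range
      (fun p : (v : S) → Fin (e v + 1) => ∏ v, z v ^ (p v : ℕ))) := by
  apply Submodule.span_mono
  rintro _ ⟨α, hα, rfl⟩
  exact ⟨fun v => ⟨α v, Nat.lt_succ_iff.2 (hα v)⟩, rfl⟩

/-- the count -/
theorem count {k s r D : ℕ} (hk : k < r) (hs : 1 ≤ s) :
    let B := (D + 1) ^ (r * s) * (r * D + 1) ^ k
    (r * (B * D) + 1) ^ k * ((D + 1) * (B * D + B + 1) ^ (s - 1)) ^ r < (B + 1) ^ (r * s) := by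
  intro B
  have h1 : r * (B * D) + 1 ≤ (r * D + 1) * (B + 1) := by
    have : (r * D + 1) * (B + 1) = r * (B * D) + 1 + (r * D + B) := by ring
    omega
  have h2 : B * D + B + 1 ≤ (D + 1) * (B + 1) := by
    have : (D + 1) * (B + 1) = B * D + B + 1 + D := by ring
    omega
  have h3 : (r * (B * D) + 1) ^ k * ((D + 1) * (B * D + B + 1) ^ (s - 1)) ^ r ≤
      ((r * D + 1) * (B + 1)) ^ k * ((D + 1) * ((D + 1) * (B + 1)) ^ (s - 1)) ^ r := by
    gcongr
  have h4 : ((r * D + 1) * (B + 1)) ^ k * ((D + 1) * ((D + 1) * (B + 1)) ^ (s - 1)) ^ r =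
      B * (B + 1) ^ (k + (s - 1) * r) := by
    have h5 : (D + 1) * ((D + 1) * (B + 1)) ^ (s - 1) = (D + 1) ^ s * (B + 1) ^ (s - 1) := by
      rw [mul_pow, ← mul_assoc, ← pow_succ', Nat.sub_add_cancel hs]
    rw [h5, mul_pow, mul_pow, ← pow_mul, ← pow_mul, pow_add]
    have h6 : s * r = r * s := mul_comm _ _
    rw [h6]
    simp only [B]
    ring
  rw [h4] at h3
  have h7 : k + (s - 1) * r + 1 ≤ r * s := by
    obtain ⟨s', rfl⟩ : ∃ s', s = s' + 1 := ⟨s - 1, by omega⟩
    rw [Nat.add_sub_cancel]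
    have : r * (s' + 1) = s' * r + r := by ring
    omega
  calc _ ≤ B * (B + 1) ^ (k + (s - 1) * r) := h3
    _ < (B + 1) * (B + 1) ^ (k + (s - 1) * r) :=
        Nat.mul_lt_mul_of_pos_right (Nat.lt_succ_self B) (by positivity)
    _ = (B + 1) ^ (k + (s - 1) * r + 1) := by ring
    _ ≤ (B + 1) ^ (r * s) := Nat.pow_le_pow_right (by omega) h7

/-- the exponents of the coefficients of the `i`-th relation -/
def ea {κ σ : Type} [DecidableEq σ] {r : ℕ} (D : ℕ) (i : Fin r) (j : σ) : κ ⊕ (Fin r × σ) → ℕ :=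
  Sum.elim (fun _ => D) (fun p => if p.1 = i then (if p.2 = j then 0 else D) else 0)

theorem coef_mem {κ σ : Type} [Fintype κ] [Fintype σ] [DecidableEq σ] {r D : ℕ} (θ : κ → ℂ)
    (x : Fin r → σ → ℂ) (i : Fin r) (j : σ) (C : MvPolynomial (κ ⊕ σ) ℤ) (hC : C.totalDegree ≤ D)
    (hj : C.degreeOf (Sum.inr j) = 0) :
    MvPolynomial.aeval (Sum.elim θ (x i)) C ∈
      Mo (Sum.elim θ (fun p : Fin r × σ => x p.1 p.2)) (ea D i j) := by
  classical
  rw [MvPolynomial.aeval_def, MvPolynomial.eval₂_eq']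
  refine Submodule.sum_mem _ fun m hm => ?_
  have hmD : ∀ v, m v ≤ D := by
    intro v
    exact (MvPolynomial.monomial_le_degreeOf v hm).trans
      ((MvPolynomial.degreeOf_le_totalDegree C v).trans hC)
  have hmj : m (Sum.inr j) = 0 := by
    have := MvPolynomial.monomial_le_degreeOf (Sum.inr j) hm
    omega
  have h1 := mono_mem (z := Sum.elim θ (fun p : Fin r × σ => x p.1 p.2)) (e := ea D i j)
    (α := Sum.elim (fun k => m (Sum.inl k)) (fun p => if p.1 = i then m (Sum.inr p.2) else 0))
    (by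
      intro v
      rcases v with k | ⟨i', l⟩
      · simp only [ea, Sum.elim_inl]; exact hmD _
      · simp only [ea, Sum.elim_inr]
        by_cases hi : i' = i
        · rw [if_pos hi, if_pos hi]
          by_cases hl : l = j
          · rw [if_pos hl, hl, hmj]
          · rw [if_neg hl]; exact hmD _
        · rw [if_neg hi]; exact Nat.zero_le _)
  have h2 : ∏ v, (Sum.elim θ (fun p : Fin r × σ => x p.1 p.2)) v ^
      (Sum.elim (fun k => m (Sum.inl k)) (fun p : Fin r × σ => if p.1 = i then m (Sum.inr p.2) else 0)) v =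
      ∏ v, (Sum.elim θ (x i)) v ^ m v := by
    rw [Fintype.prod_sum_type, Fintype.prod_sum_type]
    congr 1
    rw [Fintype.prod_prod_type, Finset.prod_eq_single i]
    · simp
    · intro b _ hb
      simp [hb]
    · intro h; exact absurd (Finset.mem_univ i) h
  rw [h2] at h1
  have h3 := Submodule.smul_mem _ ((MvPolynomial.coeff m C : ℤ) : ℚ) h1
  rw [Rat.smul_def] at h3
  simpa using h3

end ELIM_

open ELIM_ in
theorem p_ELIM (h1 : T_ELIM1) : T_ELIM := by
  intro κ σ _ _ _ D r hr
  classical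
  set k := Fintype.card κ with hk
  set s := Fintype.card σ with hs
  set B := (D + 1) ^ (r * s) * (r * D + 1) ^ k with hB
  refine ⟨B, fun θ x hrel => ?_⟩
  choose j d C hd hdD hC hsum hne using fun i => h1 κ σ D θ (x i) (hrel i)
  have hr0 : 0 < r := by omega
  have hs1 : 1 ≤ s := Fintype.card_pos_iff.2 ⟨j ⟨0, hr0⟩⟩
  set z : κ ⊕ (Fin r × σ) → ℂ := Sum.elim θ (fun p : Fin r × σ => x p.1 p.2) with hz
  set A : Fin r → ℕ → ℂ := fun i h => MvPolynomial.aeval (Sum.elim θ (x i)) (C i h) with hA
  have hAmem : ∀ i h, A i h ∈ Mo z (ea D i (j i)) := fun i h =>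
    coef_mem θ x i (j i) (C i h) (hC i h).1 (hC i h).2
  have hzv : ∀ i, z (Sum.inr (i, j i)) = x i (j i) := fun i => rfl
  have hrel' : ∀ i, A i (d i) * z (Sum.inr (i, j i)) ^ d i =
      - ∑ h ∈ range (d i), A i h * z (Sum.inr (i, j i)) ^ h := by
    intro i
    have h2 := hsum i
    rw [Finset.sum_range_succ] at h2
    rw [hzv]
    linear_combination h2
  -- the exponents
  set E : Fin r → κ ⊕ (Fin r × σ) → ℕ := fun i => Sum.elim (fun _ => B * D)
    (fun p => if p.1 = i then (if p.2 = j i then D else B * D + B) else 0) with hE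
  have hfac : ∀ (J : Fin r × σ → Fin (B + 1)) (i : Fin r),
      A i (d i) ^ B * ∏ l, x i l ^ (J (i, l) : ℕ) ∈ Mo z (E i) := by
    intro J i
    rw [← Finset.mul_prod_erase univ _ (Finset.mem_univ (j i)), ← mul_assoc]
    have h2 := pow_red' (z := z) (q := B) (e := (J (i, j i) : ℕ)) (hd i) (hdD i) (hAmem i) (hrel' i)
      (Nat.lt_succ_iff.1 (J (i, j i)).isLt)
    have h3 := prod_mem (z := z) (univ.erase (j i))
      (fun l v => if v = Sum.inr (i, l) then (J (i, l) : ℕ) else 0)
      (fun l => x i l ^ (J (i, l) : ℕ)) (fun l _ => single_mem (z := z) (Sum.inr (i, l)) _)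
    refine Mo_mono (fun v => ?_) (mul_mem h2 h3)
    rcases v with k | ⟨i', l⟩
    · simp [ea, hE]
    · by_cases hi : i' = i
      · subst hi
        by_cases hl : l = j i'
        · simp only [ea, hE, Sum.elim_inr, hl, if_true]
          have : ∑ x_1 ∈ univ.erase (j i'), (if (Sum.inr (i', j i') : κ ⊕ (Fin r × σ)) =
              Sum.inr (i', x_1) then (J (i', x_1) : ℕ) else 0) = 0 := by
            refine Finset.sum_eq_zero fun l' hl' => ?_
            rw [if_neg]
            intro h
            simp only [Sum.inr.injEq, Prod.mk.injEq, true_and] at h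
            exact (Finset.mem_erase.1 hl').1 h.symm
          rw [this]
          simp
        · have h4 : ∑ x_1 ∈ univ.erase (j i'), (if (Sum.inr (i', l) : κ ⊕ (Fin r × σ)) =
              Sum.inr (i', x_1) then (J (i', x_1) : ℕ) else 0) ≤ B := by
            rw [Finset.sum_eq_single l]
            · rw [if_pos rfl]; exact Nat.lt_succ_iff.1 (J (i', l)).isLt
            · intro b _ hb
              rw [if_neg]
              intro h
              simp only [Sum.inr.injEq, Prod.mk.injEq, true_and] at h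
              exact hb h.symm
            · intro h
              exact absurd (Finset.mem_erase.2 ⟨hl, Finset.mem_univ l⟩) h
          simp only [ea, hE, Sum.elim_inr, if_true, if_neg hl, Sum.inr.injEq, Prod.mk.injEq, true_and]
          simp only [Sum.inr.injEq, Prod.mk.injEq, true_and] at h4
          omega
      · have h4 : ∑ x_1 ∈ univ.erase (j i), (if (Sum.inr (i', l) : κ ⊕ (Fin r × σ)) =
              Sum.inr (i, x_1) then (J (i, x_1) : ℕ) else 0) = 0 := by
            refine Finset.sum_eq_zero fun l' hl' => ?_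
            rw [if_neg]
            intro h
            simp only [Sum.inr.injEq, Prod.mk.injEq] at h
            exact hi h.1
        have h5 : ¬ ((Sum.inr (i', l) : κ ⊕ (Fin r × σ)) = Sum.inr (i, j i)) := by
          intro h
          simp only [Sum.inr.injEq, Prod.mk.injEq] at h
          exact hi h.1
        rw [h4, if_neg h5]
        simp [ea, hi]
  set e : κ ⊕ (Fin r × σ) → ℕ := fun v => ∑ i, E i v with he
  set bb : ℂ := ∏ i, A i (d i) ^ B with hbb
  have hbb0 : bb ≠ 0 := Finset.prod_ne_zero_iff.2 fun i _ => pow_ne_zero B (hne i)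
  set F : ((v : κ ⊕ (Fin r × σ)) → Fin (e v + 1)) → ℂ := fun p => ∏ v, z v ^ (p v : ℕ) with hF
  set W : Submodule ℚ ℂ := Submodule.span ℚ (Set.range F) with hW
  have hmem : ∀ J : Fin r × σ → Fin (B + 1), bb * ∏ v, x v.1 v.2 ^ (J v : ℕ) ∈ W := by
    intro J
    have h2 : bb * ∏ v, x v.1 v.2 ^ (J v : ℕ) =
        ∏ i, (A i (d i) ^ B * ∏ l, x i l ^ (J (i, l) : ℕ)) := by
      rw [Finset.prod_mul_distrib, ← Fintype.prod_prod_type']
    rw [h2]
    exact fin_span e (prod_mem univ E _ fun i _ => hfac J i)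
  set v : (Fin r × σ → Fin (B + 1)) → W := fun J => ⟨_, hmem J⟩ with hv
  have : FiniteDimensional ℚ W := FiniteDimensional.span_of_finite ℚ (Set.finite_range F)
  have hdim : Module.finrank ℚ W < Fintype.card (Fin r × σ → Fin (B + 1)) := by
    have h2 : Module.finrank ℚ W ≤ Fintype.card ((v : κ ⊕ (Fin r × σ)) → Fin (e v + 1)) :=
      finrank_range_le_card F
    have h3 : Fintype.card (Fin r × σ → Fin (B + 1)) = (B + 1) ^ (r * s) := by
      simp [hs]
    have h4 : Fintype.card ((v : κ ⊕ (Fin r × σ)) → Fin (e v + 1)) =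
        (r * (B * D) + 1) ^ k * ((D + 1) * (B * D + B + 1) ^ (s - 1)) ^ r := by
      rw [Fintype.card_pi, Fintype.prod_sum_type]
      congr 1
      · simp [he, hE, hk]
      · rw [Fintype.prod_prod_type]
        have h5 : ∀ i : Fin r, ∏ l, Fintype.card (Fin (e (Sum.inr (i, l)) + 1)) =
            (D + 1) * (B * D + B + 1) ^ (s - 1) := by
          intro i
          have h6 : ∀ l, Fintype.card (Fin (e (Sum.inr (i, l)) + 1)) =
              if l = j i then D + 1 else B * D + B + 1 := by
            intro l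
            simp only [Fintype.card_fin, he, hE, Sum.elim_inr]
            rw [Finset.sum_ite_eq univ i]
            simp only [Finset.mem_univ, if_true]
            split_ifs <;> rfl
          simp only [h6]
          rw [← Finset.mul_prod_erase univ _ (Finset.mem_univ (j i)), if_pos rfl]
          congr 1
          rw [Finset.prod_congr rfl (g := fun _ => B * D + B + 1)
            (fun l hl => if_neg (Finset.mem_erase.1 hl).1), Finset.prod_const,
            Finset.card_erase_of_mem (Finset.mem_univ _), Finset.card_univ]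
        simp only [h5]
        simp
    rw [h3]
    rw [h4] at h2
    exact lt_of_le_of_lt h2 (count hr hs1)
  have hli : ¬ LinearIndependent ℚ v := by
    intro h
    have := h.fintype_card_le_finrank
    omega
  obtain ⟨g, hg, j0, hj0⟩ := Fintype.not_linearIndependent_iff.1 hli
  obtain ⟨m, hm⟩ := IsLocalization.exist_integer_multiples_of_finite (nonZeroDivisors ℤ) g
  choose c hc using hm
  have hc' : ∀ J, ((c J : ℤ) : ℚ) = ((m : ℤ) : ℚ) * g J := by
    intro J
    have := hc J
    rw [eq_intCast] at this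
    rw [this, zsmul_eq_mul]
  have hm0 : ((m : ℤ) : ℚ) ≠ 0 := by
    exact_mod_cast nonZeroDivisors.coe_ne_zero m
  have hcj : c j0 ≠ 0 := by
    intro h0
    have := hc' j0
    rw [h0] at this
    simp only [Int.cast_zero] at this
    rcases mul_eq_zero.1 this.symm with h | h
    · exact hm0 h
    · exact hj0 h
  have hrelc : ∑ J, (c J : ℂ) * ∏ v, x v.1 v.2 ^ (J v : ℕ) = 0 := by
    have h2 := congrArg (fun w : W => (w : ℂ)) hg
    simp only [Submodule.coe_sum, Submodule.coe_smul, ZeroMemClass.coe_zero, hv] at h2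
    have h3 : bb * ∑ J, (c J : ℂ) * ∏ v, x v.1 v.2 ^ (J v : ℕ) = 0 := by
      have h4 : ∀ J, (c J : ℂ) = ((m : ℤ) : ℂ) * (g J : ℂ) := by
        intro J
        have := congrArg (fun r : ℚ => (r : ℂ)) (hc' J)
        push_cast at this
        exact this
      rw [Finset.mul_sum]
      calc ∑ J, bb * ((c J : ℂ) * ∏ v, x v.1 v.2 ^ (J v : ℕ))
          = ((m : ℤ) : ℂ) * ∑ J, g J • (bb * ∏ v, x v.1 v.2 ^ (J v : ℕ)) := by
            rw [Finset.mul_sum]
            refine Finset.sum_congr rfl fun J _ => ?_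
            rw [h4, Rat.smul_def]
            ring
        _ = 0 := by rw [h2, mul_zero]
    exact (mul_eq_zero.1 h3).resolve_left hbb0
  -- the polynomial
  set mm' : (Fin r × σ → Fin (B + 1)) → (Fin r × σ) →₀ ℕ :=
    fun J => Finsupp.equivFunOnFinite.symm (fun v => (J v : ℕ)) with hmm
  have hinj : Function.Injective mm' := by
    intro J J' h
    funext v
    have h2 := DFunLike.congr_fun h v
    simp only [hmm, Finsupp.equivFunOnFinite_symm_apply_apply] at h2
    exact Fin.ext h2
  set Q : MvPolynomial (Fin r × σ) ℤ := ∑ J, MvPolynomial.monomial (mm' J) (c J) with hQ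
  have hcoeff : ∀ n, MvPolynomial.coeff n Q = ∑ J, if mm' J = n then c J else 0 := by
    intro n
    rw [hQ, MvPolynomial.coeff_sum]
    simp only [MvPolynomial.coeff_monomial]
  refine ⟨Q, ?_, ?_, ?_⟩
  · intro h0
    have h2 := hcoeff (mm' j0)
    rw [h0, MvPolynomial.coeff_zero, Finset.sum_eq_single j0] at h2
    · rw [if_pos rfl] at h2
      exact hcj h2.symm
    · intro J _ hJ
      rw [if_neg fun h => hJ (hinj h)]
    · intro h; exact absurd (Finset.mem_univ j0) h
  · intro w
    rw [MvPolynomial.degreeOf_le_iff]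
    intro n hn
    have h2 : MvPolynomial.coeff n Q ≠ 0 := MvPolynomial.mem_support_iff.1 hn
    rw [hcoeff n] at h2
    obtain ⟨J, _, hJ⟩ := Finset.exists_ne_zero_of_sum_ne_zero h2
    have h3 : mm' J = n := by
      by_contra h
      exact hJ (if_neg h)
    rw [← h3]
    simp only [hmm, Finsupp.equivFunOnFinite_symm_apply_apply]
    exact Nat.lt_succ_iff.1 (J w).isLt
  · rw [hQ, map_sum, ← hrelc]
    refine Finset.sum_congr rfl fun J _ => ?_
    rw [MvPolynomial.aeval_monomial, Finsupp.prod_fintype _ _ (fun _ => pow_zero _)]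
    simp [hmm]

end Pool.Agent.PLG
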