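import Pool.Agent.PLG.Targets

set_option autoImplicit false

/-!
# Elimination, first step (job ELIM1)
-/

namespace Pool.Agent.PLG

open Finset
open scoped BigOperators

namespace ELIM1_

open Classical in
/-- coefficient of the `h`-th power of a variable -/
noncomputable def co {τ : Type} (t : τ) (P : MvPolynomial τ ℤ) (h : ℕ) : MvPolynomial τ ℤ :=
  ∑ m ∈ P.support with m t = h, MvPolynomial.monomial (m.erase t) (MvPolynomial.coeff m P)

theorem supp_co {τ : Type} (t : τ) (P : MvPolynomial τ ℤ) (h : ℕ) (m' : τ →₀ ℕ)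
    (hm : m' ∈ (co t P h).support) : ∃ m ∈ P.support, m t = h ∧ m' = m.erase t := by
  classical
  have h1 := MvPolynomial.support_sum hm
  rw [Finset.mem_biUnion] at h1
  obtain ⟨m, hm1, hm2⟩ := h1
  rw [Finset.mem_filter] at hm1
  have h3 := MvPolynomial.support_monomial_subset hm2
  rw [Finset.mem_singleton] at h3
  exact ⟨m, hm1.1, hm1.2, h3⟩

theorem totalDegree_co {τ : Type} (t : τ) (P : MvPolynomial τ ℤ) (h : ℕ) :
    (co t P h).totalDegree ≤ P.totalDegree := by
  classical
  unfold MvPolynomial.totalDegree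
  refine Finset.sup_le fun m' hm' => ?_
  obtain ⟨m, hm, _, rfl⟩ := supp_co t P h m' hm'
  refine le_trans ?_ (MvPolynomial.le_totalDegree hm)
  conv_rhs => rw [← Finsupp.erase_add_single t m]
  rw [Finsupp.sum_add_index' (fun _ => rfl) (fun _ _ _ => rfl)]
  exact Nat.le_add_right _ _

theorem degreeOf_zero_iff {τ : Type} (t : τ) (P : MvPolynomial τ ℤ) :
    P.degreeOf t = 0 ↔ ∀ m ∈ P.support, m t = 0 := by
  rw [← Nat.le_zero, MvPolynomial.degreeOf_le_iff]
  simp

theorem degreeOf_co {τ : Type} (t : τ) (P : MvPolynomial τ ℤ) (h : ℕ) :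
    (co t P h).degreeOf t = 0 := by
  rw [degreeOf_zero_iff]
  intro m' hm'
  obtain ⟨m, hm, _, rfl⟩ := supp_co t P h m' hm'
  exact Finsupp.erase_same

theorem degreeOf_co' {τ : Type} (t u : τ) (P : MvPolynomial τ ℤ) (h : ℕ)
    (hu : P.degreeOf u = 0) : (co t P h).degreeOf u = 0 := by
  rw [degreeOf_zero_iff] at hu ⊢
  intro m' hm'
  obtain ⟨m, hm, _, rfl⟩ := supp_co t P h m' hm'
  by_cases htu : u = t
  · rw [htu]; exact Finsupp.erase_same
  · rw [Finsupp.erase_ne htu]; exact hu m hm

theorem eq_sum {τ : Type} (t : τ) (P : MvPolynomial τ ℤ) (D : ℕ) (hD : P.totalDegree ≤ D) :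
    P = ∑ h ∈ range (D + 1), co t P h * MvPolynomial.X t ^ h := by
  classical
  conv_lhs => rw [P.as_sum]
  have h1 : ∀ m ∈ P.support, m t ∈ range (D + 1) := by
    intro m hm
    rw [Finset.mem_range, Nat.lt_succ_iff]
    have h2 := (MvPolynomial.le_totalDegree hm).trans hD
    rw [← Finsupp.erase_add_single t m,
      Finsupp.sum_add_index' (fun _ => rfl) (fun _ _ _ => rfl),
      Finsupp.sum_single_index rfl] at h2
    exact (Nat.le_add_left _ _).trans h2
  rw [← Finset.sum_fiberwise_of_maps_to h1]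
  refine Finset.sum_congr rfl fun h _ => ?_
  unfold co
  rw [Finset.sum_mul]
  refine Finset.sum_congr rfl fun m hm => ?_
  rw [Finset.mem_filter] at hm
  rw [MvPolynomial.X_pow_eq_monomial, MvPolynomial.monomial_mul, mul_one, ← hm.2,
    Finsupp.erase_add_single]

theorem spec_const {κ σ : Type} (θ : κ → ℂ) (x : σ → ℂ) (P : MvPolynomial (κ ⊕ σ) ℤ)
    (h : ∀ j : σ, P.degreeOf (Sum.inr j) = 0) :
    spec θ P = MvPolynomial.C (MvPolynomial.aeval (Sum.elim θ x) P) := by
  unfold spec
  rw [MvPolynomial.aeval_def, MvPolynomial.aeval_def, MvPolynomial.eval₂_eq,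
    MvPolynomial.eval₂_eq, map_sum]
  refine Finset.sum_congr rfl fun m hm => ?_
  rw [map_mul, map_prod]
  refine congrArg₂ (· * ·) (by simp) ?_
  · refine Finset.prod_congr rfl fun i _ => ?_
    rcases i with i | j
    · simp
    · rw [(degreeOf_zero_iff _ _).1 (h j) m hm]
      simp

theorem eval_spec {κ σ : Type} (θ : κ → ℂ) (x : σ → ℂ) (P : MvPolynomial (κ ⊕ σ) ℤ) :
    MvPolynomial.aeval (Sum.elim θ x) P = MvPolynomial.eval x (spec θ P) := by
  unfold spec
  have h : ((MvPolynomial.eval x : MvPolynomial σ ℂ →+* ℂ).comp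
      (MvPolynomial.aeval (Sum.elim (fun i => MvPolynomial.C (θ i)) MvPolynomial.X) :
        MvPolynomial (κ ⊕ σ) ℤ →ₐ[ℤ] MvPolynomial σ ℂ).toRingHom) =
      (MvPolynomial.aeval (Sum.elim θ x) : MvPolynomial (κ ⊕ σ) ℤ →ₐ[ℤ] ℂ).toRingHom := by
    refine MvPolynomial.ringHom_ext (fun n => by simp) fun i => ?_
    rcases i with i | j <;> simp
  exact (DFunLike.congr_fun h P).symm

theorem main {κ σ : Type} (D : ℕ) (θ : κ → ℂ) (x : σ → ℂ) (s : Finset σ) :
    ∀ P : MvPolynomial (κ ⊕ σ) ℤ, P.totalDegree ≤ D → spec θ P ≠ 0 →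
    MvPolynomial.aeval (Sum.elim θ x) P = 0 → (∀ j, j ∉ s → P.degreeOf (Sum.inr j) = 0) →
    ∃ (j : σ) (e : ℕ) (C : ℕ → MvPolynomial (κ ⊕ σ) ℤ), 1 ≤ e ∧ e ≤ D ∧
    (∀ h, (C h).totalDegree ≤ D ∧ (C h).degreeOf (Sum.inr j) = 0) ∧
    ∑ h ∈ range (e + 1), MvPolynomial.aeval (Sum.elim θ x) (C h) * x j ^ h = 0 ∧
    MvPolynomial.aeval (Sum.elim θ x) (C e) ≠ 0 := by
  classical
  induction s using Finset.induction_on with
  | empty =>
    intro P _ h2 h3 h4
    exfalso
    apply h2
    rw [spec_const θ x P fun j => h4 j (Finset.notMem_empty j), h3, map_zero]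
  | insert j s hj ih =>
    intro P h1 h2 h3 h4
    obtain ⟨C, hC⟩ : ∃ C, C = co (Sum.inr j) P := ⟨_, rfl⟩
    have hP := eq_sum (Sum.inr j) P D h1
    rw [← hC] at hP
    -- a nonzero coefficient
    have hex : ∃ h ∈ range (D + 1), spec θ (C h) ≠ 0 := by
      by_contra hcon
      have hcon : ∀ h ∈ range (D + 1), spec θ (C h) = 0 := fun h hh => by
        by_contra h0
        exact hcon ⟨h, hh, h0⟩
      apply h2
      rw [hP]
      unfold spec at hcon ⊢
      rw [map_sum]
      refine Finset.sum_eq_zero fun h hh => ?_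
      rw [map_mul, hcon h hh, zero_mul]
    obtain ⟨e, he, hmax⟩ := Finset.exists_max_image
      ((range (D + 1)).filter fun h => spec θ (C h) ≠ 0) id (by
        obtain ⟨h, hh1, hh2⟩ := hex
        exact ⟨h, Finset.mem_filter.2 ⟨hh1, hh2⟩⟩)
    rw [Finset.mem_filter, Finset.mem_range] at he
    by_cases hv : MvPolynomial.aeval (Sum.elim θ x) (C e) = 0
    · refine ih (C e) ?_ he.2 hv ?_
      · rw [hC]; exact (totalDegree_co _ _ _).trans h1
      · intro i hi
        rw [hC]
        by_cases hij : i = j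
        · rw [hij]; exact degreeOf_co _ _ _
        · exact degreeOf_co' _ _ _ _ (h4 i (by
            rw [Finset.mem_insert, not_or]; exact ⟨hij, hi⟩))
    · have hsum : ∑ h ∈ range (e + 1), MvPolynomial.aeval (Sum.elim θ x) (C h) * x j ^ h = 0 := by
        have hfull : ∑ h ∈ range (D + 1),
            MvPolynomial.aeval (Sum.elim θ x) (C h) * x j ^ h = 0 := by
          rw [← h3]
          conv_rhs => rw [hP, map_sum]
          refine Finset.sum_congr rfl fun h _ => ?_
          rw [map_mul, map_pow, MvPolynomial.aeval_X, Sum.elim_inr]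
        rw [← hfull]
        refine Finset.sum_subset (fun h hh => ?_) fun h hh1 hh2 => ?_
        · rw [Finset.mem_range] at hh ⊢; omega
        · rw [Finset.mem_range] at hh2
          have h5 : spec θ (C h) = 0 := by
            by_contra h6
            have h7 := hmax h (Finset.mem_filter.2 ⟨hh1, h6⟩)
            simp only [id] at h7
            omega
          rw [eval_spec, h5, map_zero, zero_mul]
      refine ⟨j, e, C, ?_, by omega, fun h => ?_, hsum, hv⟩
      · by_contra he0
        have : e = 0 := by omega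
        subst this
        rw [Finset.sum_range_one, pow_zero, mul_one] at hsum
        exact hv hsum
      · rw [hC]
        exact ⟨(totalDegree_co _ _ _).trans h1, degreeOf_co _ _ _⟩

end ELIM1_

open ELIM1_ in
theorem p_ELIM1 : T_ELIM1 := by
  classical
  intro κ σ D θ x ⟨P, h1, h2, h3⟩
  refine main D θ x (P.vars.toRight) P h1 h2 h3 fun j hj => ?_
  rw [Finset.mem_toRight] at hj
  by_contra h
  exact hj (MvPolynomial.mem_vars_iff_degreeOf_ne_zero.2 h)

end Pool.Agent.PLG
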