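import Pool.Agent.PLG.Targets

set_option autoImplicit false

/-!
# EVAL: evaluation of polynomials in the functions is multiplicative
-/

namespace Pool.Agent.PLG

open Finset
open scoped BigOperators

namespace EVAL_

/-- absolute convergence at `x` -/
def Sm (x : ℝ) (f : PowerSeries ℚ) : Prop :=
  Summable fun n => ‖((PowerSeries.coeff n f : ℚ) : ℝ) * x ^ n‖

theorem term_mul (f g : PowerSeries ℚ) (x : ℝ) (n : ℕ) :
    ((PowerSeries.coeff n (f * g) : ℚ) : ℝ) * x ^ n = ∑ kl ∈ antidiagonal n,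
      (((PowerSeries.coeff kl.1 f : ℚ) : ℝ) * x ^ kl.1) *
        (((PowerSeries.coeff kl.2 g : ℚ) : ℝ) * x ^ kl.2) := by
  rw [PowerSeries.coeff_mul]
  push_cast
  rw [Finset.sum_mul]
  refine Finset.sum_congr rfl fun kl hkl => ?_
  rw [← Finset.HasAntidiagonal.mem_antidiagonal.1 hkl, pow_add]
  ring

theorem Sm.mul {x : ℝ} {f g : PowerSeries ℚ} (hf : Sm x f) (hg : Sm x g) : Sm x (f * g) := by
  have h := summable_norm_sum_mul_antidiagonal_of_summable_norm hf hg
  unfold Sm
  simpa only [term_mul] using h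

theorem val_mul {x : ℝ} {f g : PowerSeries ℚ} (hf : Sm x f) (hg : Sm x g) :
    val (f * g) x = val f x * val g x := by
  have h := tsum_mul_tsum_eq_tsum_sum_antidiagonal_of_summable_norm hf hg
  unfold val
  simp only [term_mul]
  exact h.symm

theorem Sm.summable {x : ℝ} {f : PowerSeries ℚ} (hf : Sm x f) :
    Summable fun n => ((PowerSeries.coeff n f : ℚ) : ℝ) * x ^ n := hf.of_norm

theorem Sm.add {x : ℝ} {f g : PowerSeries ℚ} (hf : Sm x f) (hg : Sm x g) : Sm x (f + g) := by
  unfold Sm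
  refine Summable.of_nonneg_of_le (fun _ => norm_nonneg _) (fun n => ?_) (Summable.add hf hg)
  rw [map_add]
  push_cast
  rw [add_mul]
  exact norm_add_le _ _

theorem val_add {x : ℝ} {f g : PowerSeries ℚ} (hf : Sm x f) (hg : Sm x g) :
    val (f + g) x = val f x + val g x := by
  unfold val
  rw [← hf.summable.tsum_add hg.summable]
  refine tsum_congr fun n => ?_
  rw [map_add]
  push_cast
  ring

theorem Sm_C (x : ℝ) (q : ℚ) : Sm x (PowerSeries.C q) := by
  unfold Sm
  refine summable_of_ne_finset_zero (s := {0}) fun n hn => ?_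
  rw [Finset.mem_singleton] at hn
  rw [PowerSeries.coeff_C, if_neg hn]
  simp

theorem val_C (x : ℝ) (q : ℚ) : val (PowerSeries.C q) x = q := by
  unfold val
  rw [tsum_eq_single 0 (fun n hn => by rw [PowerSeries.coeff_C, if_neg hn]; simp)]
  simp

/-- geometric bound of the coefficients -/
def Bd (A : ℕ) (B : ℚ) (f : PowerSeries ℚ) : Prop :=
  ∀ n, |PowerSeries.coeff n f| ≤ B * (A : ℚ) ^ n

theorem Bd.sm {A : ℕ} {B : ℚ} {f : PowerSeries ℚ} (h : Bd A B f) {x : ℝ} (hx : 0 ≤ x)
    (hA : A * x < 1) : Sm x f := by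
  unfold Sm
  have hg : Summable fun n : ℕ => (B : ℝ) * ((A : ℝ) * x) ^ n :=
    (summable_geometric_of_lt_one (by positivity) hA).mul_left _
  refine Summable.of_nonneg_of_le (fun _ => norm_nonneg _) (fun n => ?_) hg
  rw [norm_mul, norm_pow, Real.norm_eq_abs, Real.norm_eq_abs, abs_of_nonneg hx, mul_pow, ← mul_assoc]
  have h1 : |((PowerSeries.coeff n f : ℚ) : ℝ)| ≤ (B : ℝ) * (A : ℝ) ^ n := by
    have := h n
    exact_mod_cast this
  exact mul_le_mul_of_nonneg_right h1 (by positivity)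

theorem Bd.sub {A : ℕ} {B B' : ℚ} {f g : PowerSeries ℚ} (h : Bd A B f) (h' : Bd A B' g) :
    Bd A (B + B') (f - g) := by
  intro n
  rw [map_sub, add_mul]
  exact (abs_sub _ _).trans (add_le_add (h n) (h' n))

theorem Bd.mono {A : ℕ} {B B' : ℚ} {f : PowerSeries ℚ} (h : Bd A B f) (hB : B ≤ B') :
    Bd A B' f := fun n => (h n).trans (mul_le_mul_of_nonneg_right hB (by positivity))

theorem Bd.In {ι : Type} {c : ι → ℕ} {A : ℕ} (hc : ∀ i, c i ≤ A) {B : ℚ}
    (hB : 0 ≤ B) {f : PowerSeries ℚ} (h : Bd A B f) (y : Option ι) : Bd A B (In c y f) := by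
  intro n
  have hnn : 0 ≤ B * (A : ℚ) ^ n := by positivity
  rcases Nat.eq_zero_or_pos n with rfl | hn
  · cases y <;> simp [PLG.In, hB]
  have hn' : (1 : ℚ) ≤ n := by exact_mod_cast hn
  cases y with
  | none =>
    simp only [PLG.In, PowerSeries.coeff_mk]
    rw [abs_div, abs_of_nonneg (show (0 : ℚ) ≤ n by linarith)]
    exact (div_le_self (abs_nonneg _) hn').trans (h n)
  | some i =>
    simp only [PLG.In, PowerSeries.coeff_mk]
    rw [abs_div, abs_of_nonneg (show (0 : ℚ) ≤ n by linarith), div_le_iff₀ (by linarith)]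
    have hci : (c i : ℚ) ≤ A := by exact_mod_cast hc i
    calc |∑ j ∈ range n, PowerSeries.coeff j f * ((c i : ℚ) * (-(c i : ℚ)) ^ (n - 1 - j))|
        ≤ ∑ j ∈ range n, |PowerSeries.coeff j f * ((c i : ℚ) * (-(c i : ℚ)) ^ (n - 1 - j))| :=
          Finset.abs_sum_le_sum_abs _ _
      _ ≤ ∑ j ∈ range n, B * (A : ℚ) ^ n := by
          refine Finset.sum_le_sum fun j hj => ?_
          rw [Finset.mem_range] at hj
          rw [abs_mul, abs_mul, abs_pow, abs_neg, abs_of_nonneg (show (0 : ℚ) ≤ c i by positivity),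
            ← pow_succ']
          calc |PowerSeries.coeff j f| * (c i : ℚ) ^ (n - 1 - j + 1)
              ≤ (B * (A : ℚ) ^ j) * (A : ℚ) ^ (n - 1 - j + 1) :=
                mul_le_mul (h j) (pow_le_pow_left₀ (by positivity) hci _) (by positivity)
                  (by positivity)
            _ = B * (A : ℚ) ^ n := by
                rw [mul_assoc, ← pow_add]
                congr 2
                omega
      _ = B * (A : ℚ) ^ n * n := by rw [Finset.sum_const, card_range, nsmul_eq_mul, mul_comm]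

theorem Bd_one (A : ℕ) : Bd A 1 1 := by
  intro n
  rw [PowerSeries.coeff_one]
  split_ifs with h
  · rw [h]; simp
  · rw [abs_zero]; positivity

theorem Bd_L1 {ι : Type} {c : ι → ℕ} {A : ℕ} (hc : ∀ i, c i ≤ A) (i : ι) :
    Bd A 1 (L c [some i]) := (Bd_one A).In hc zero_le_one (some i)

theorem Bd_yy {r g : ℕ} {c : Lt r g → ℕ} {A : ℕ} (hc : ∀ i, c i ≤ A) (i : Fin r) (l : Fin g)
    (j : ℕ) : Bd A (2 ^ (j + 1)) (yy c i l j) := by
  induction j with
  | zero =>
    refine ((Bd_L1 hc (i, none)).sub (Bd_L1 hc (i, some l))).mono ?_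
    norm_num
  | succ j ih =>
    refine ((ih.In hc (by positivity) none).sub (ih.In hc (by positivity) (some (i, none)))).mono ?_
    rw [pow_succ (2 : ℚ) (j + 1)]
    linarith

theorem Bd_fn {r g s : ℕ} {c : Lt r g → ℕ} {A : ℕ} (hc : ∀ i, c i ≤ A) (v : Fx r g s) :
    ∃ B : ℚ, Bd A B (fn c v) := by
  obtain ⟨i, v⟩ := v
  cases v with
  | none => exact ⟨1, Bd_L1 hc (i, none)⟩
  | some v => exact ⟨_, Bd_yy hc i v.1 v.2⟩

end EVAL_

open EVAL_ in
theorem p_EVAL : T_EVAL := by
  intro r g s A c x _ hc hx hAx Q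
  have hfn : ∀ v : Fx r g s, Sm x (fn c v) := by
    intro v
    obtain ⟨B, hB⟩ := Bd_fn hc v
    exact hB.sm hx hAx
  have key : Sm x (MvPolynomial.aeval (fn c) Q) ∧
      val (MvPolynomial.aeval (fn c) Q) x = MvPolynomial.aeval (fun v => val (fn c v) x) Q := by
    induction Q using MvPolynomial.induction_on with
    | C a =>
      have h1 : (MvPolynomial.aeval (fn c) (MvPolynomial.C a : MvPolynomial (Fx r g s) ℤ) :
          PowerSeries ℚ) = PowerSeries.C (a : ℚ) := by
        rw [MvPolynomial.aeval_C]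
        simp
      rw [h1]
      refine ⟨Sm_C x _, ?_⟩
      rw [val_C, MvPolynomial.aeval_C]
      simp
    | add p q hp hq =>
      rw [map_add, map_add]
      exact ⟨hp.1.add hq.1, by rw [val_add hp.1 hq.1, hp.2, hq.2]⟩
    | mul_X p v hp =>
      rw [map_mul, map_mul, MvPolynomial.aeval_X, MvPolynomial.aeval_X]
      exact ⟨hp.1.mul (hfn v), by rw [val_mul hp.1 (hfn v), hp.2]⟩
  exact key.2

end Pool.Agent.PLG
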