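import Pool.Agent.PLG.Targets

set_option autoImplicit false

/-!
# The logarithm and the polylogarithms are algebraically independent over `ℚ` (MP_5d33ca_ag)
-/

namespace Pool.Agent.PLG

open Finset
open scoped BigOperators

namespace FIND_

variable {r g s : ℕ}

open MvPolynomial in
/-- the derivation attached to a letter, on the variables -/
noncomputable def dv (x : Option (Lt r g)) : Fx r g s → MvPolynomial (Fx r g s) ℚ
  | (i, none) => if x = some (i, none) then 1 else 0
  | (i, some (l, ⟨0, _⟩)) =>
      (if x = some (i, none) then 1 else 0) - (if x = some (i, some l) then 1 else 0)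
  | (i, some (l, ⟨j + 1, h⟩)) =>
      (if x = none then X (i, some (l, ⟨j, Nat.lt_of_succ_lt h⟩)) else 0) -
        (if x = some (i, none) then X (i, some (l, ⟨j, Nat.lt_of_succ_lt h⟩)) else 0)

/-- the derivation attached to a letter -/
noncomputable def Dx (x : Option (Lt r g)) :
    Derivation ℚ (MvPolynomial (Fx r g s) ℚ) (MvPolynomial (Fx r g s) ℚ) :=
  MvPolynomial.mkDerivation ℚ (dv x)

lemma yy_coeff (h1 : T_IN) (c : Lt r g → ℕ) (i : Fin r) (l : Fin g) (j : ℕ) :
    PowerSeries.coeff 0 (yy c i l j) = 0 := by
  induction j with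
  | zero =>
    have e1 := (h1 (Lt r g) c (some (i, none)) 1 (by simp)).1
    have e2 := (h1 (Lt r g) c (some (i, some l)) 1 (by simp)).1
    simp only [yy, L, map_sub, e1, e2, sub_zero]
  | succ j ih =>
    have e1 := (h1 (Lt r g) c none (yy c i l j) (fun _ => ih)).1
    have e2 := (h1 (Lt r g) c (some (i, none)) (yy c i l j) (by simp)).1
    simp only [yy, map_sub, e1, e2, sub_zero]

lemma yy_der0 (h1 : T_IN) (c : Lt r g → ℕ) (i : Fin r) (l : Fin g) :
    (TT c : PowerSeries ℚ) * PowerSeries.derivative ℚ (yy c i l 0) =
      (Tx c (some (i, none)) : PowerSeries ℚ) - (Tx c (some (i, some l)) : PowerSeries ℚ) := by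
  have e1 := (h1 (Lt r g) c (some (i, none)) 1 (by simp)).2
  have e2 := (h1 (Lt r g) c (some (i, some l)) 1 (by simp)).2
  simp only [yy, L, map_sub, mul_sub, e1, e2, mul_one]

lemma yy_der (h1 : T_IN) (c : Lt r g → ℕ) (i : Fin r) (l : Fin g) (j : ℕ) :
    (TT c : PowerSeries ℚ) * PowerSeries.derivative ℚ (yy c i l (j + 1)) =
      (Tx c none : PowerSeries ℚ) * yy c i l j -
        (Tx c (some (i, none)) : PowerSeries ℚ) * yy c i l j := by
  have e1 := (h1 (Lt r g) c none (yy c i l j) (fun _ => yy_coeff h1 c i l j)).2
  have e2 := (h1 (Lt r g) c (some (i, none)) (yy c i l j) (by simp)).2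
  simp only [yy, map_sub, mul_sub, e1, e2]

lemma fn_der (h1 : T_IN) (c : Lt r g → ℕ) (v : Fx r g s) :
    (TT c : PowerSeries ℚ) * PowerSeries.derivative ℚ (fn c v) =
      ∑ x, (Tx c x : PowerSeries ℚ) * MvPolynomial.aeval (fn c) (dv x v) := by
  match v with
  | (i, none) =>
    have e1 := (h1 (Lt r g) c (some (i, none)) 1 (by simp)).2
    have e3 : ∀ x : Option (Lt r g), (Tx c x : PowerSeries ℚ) *
        MvPolynomial.aeval (fn (s := s) c) (dv x (i, none)) =
        if x = some (i, none) then (Tx c x : PowerSeries ℚ) else 0 := by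
      intro x
      simp only [dv]
      split_ifs <;> simp
    simp only [fn, L, e1, mul_one, e3, Finset.sum_ite_eq', Finset.mem_univ, if_true]
  | (i, some (l, ⟨0, h⟩)) =>
    have e3 : ∀ x : Option (Lt r g), (Tx c x : PowerSeries ℚ) *
        MvPolynomial.aeval (fn (s := s) c) (dv x (i, some (l, ⟨0, h⟩))) =
        (if x = some (i, none) then (Tx c x : PowerSeries ℚ) else 0) -
          (if x = some (i, some l) then (Tx c x : PowerSeries ℚ) else 0) := by
      intro x
      simp only [dv]
      split_ifs <;> simp
    simp only [fn, yy_der0 h1, e3, Finset.sum_sub_distrib, Finset.sum_ite_eq', Finset.mem_univ,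
      if_true]
  | (i, some (l, ⟨j + 1, h⟩)) =>
    have e3 : ∀ x : Option (Lt r g), (Tx c x : PowerSeries ℚ) *
        MvPolynomial.aeval (fn (s := s) c) (dv x (i, some (l, ⟨j + 1, h⟩))) =
        (if x = none then (Tx c x : PowerSeries ℚ) * yy c i l j else 0) -
          (if x = some (i, none) then (Tx c x : PowerSeries ℚ) * yy c i l j else 0) := by
      intro x
      simp only [dv]
      split_ifs <;> simp [fn]
    simp only [fn, yy_der h1, e3, Finset.sum_sub_distrib, Finset.sum_ite_eq', Finset.mem_univ,
      if_true]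

/-- the derivative of a polynomial in the functions -/
lemma aeval_der (h1 : T_IN) (c : Lt r g → ℕ) (Q : MvPolynomial (Fx r g s) ℚ) :
    (TT c : PowerSeries ℚ) * PowerSeries.derivative ℚ (MvPolynomial.aeval (fn c) Q) =
      ∑ x, (Tx c x : PowerSeries ℚ) * MvPolynomial.aeval (fn c) (Dx x Q) := by
  induction Q using MvPolynomial.induction_on with
  | C a =>
    have e1 : ∀ x : Option (Lt r g), Dx (s := s) x (MvPolynomial.C a) = 0 := fun x =>
      MvPolynomial.derivation_C _ _
    simp only [e1, map_zero, mul_zero, Finset.sum_const_zero]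
    rw [MvPolynomial.aeval_C, Derivation.map_algebraMap, mul_zero]
  | add p q hp hq =>
    simp only [map_add, mul_add, Finset.sum_add_distrib, hp, hq]
  | mul_X p v hp =>
    have e1 : ∀ x : Option (Lt r g), Dx (s := s) x (MvPolynomial.X v) = dv x v := fun x =>
      MvPolynomial.mkDerivation_X _ _ _
    simp only [map_mul, Derivation.leibniz, smul_eq_mul, MvPolynomial.aeval_X, map_add, mul_add,
      Finset.sum_add_distrib, e1]
    have e2 := fn_der h1 c v
    calc _ = MvPolynomial.aeval (fn c) p *
          ((TT c : PowerSeries ℚ) * PowerSeries.derivative ℚ (fn c v)) +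
          fn c v * ((TT c : PowerSeries ℚ) *
            PowerSeries.derivative ℚ (MvPolynomial.aeval (fn c) p)) := by ring
      _ = _ := by
        rw [e2, hp, Finset.mul_sum, Finset.mul_sum]
        congr 1
        · refine Finset.sum_congr rfl fun x _ => ?_
          ring
        · refine Finset.sum_congr rfl fun x _ => ?_
          ring

/-- the forms are linearly independent over `ℚ` -/
lemma Tx_indep {ι : Type} [Fintype ι] [DecidableEq ι] (c : ι → ℕ) (hc : Function.Injective c)
    (hc1 : ∀ i, 1 ≤ c i) (e : Option ι → ℚ)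
    (he : ∑ x, Polynomial.C (e x) * Tx c x = 0) : e = 0 := by
  have hn : e none = 0 := by
    have h := congrArg (Polynomial.eval 0) he
    simpa [Polynomial.eval_finsetSum, Fintype.sum_option, Tx, Polynomial.eval_prod] using h
  funext x
  cases x with
  | none => exact hn
  | some i =>
    have hci : (c i : ℚ) ≠ 0 := by
      have := hc1 i
      positivity
    have h := congrArg (Polynomial.eval (-1 / (c i : ℚ))) he
    rw [Polynomial.eval_finsetSum, Fintype.sum_option, hn, Finset.sum_eq_single i] at h
    · simp only [Polynomial.eval_mul, Polynomial.eval_C, zero_mul, zero_add, Tx,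
        Polynomial.eval_X, Polynomial.eval_prod, Polynomial.eval_add, Polynomial.eval_one,
        Polynomial.eval_zero] at h
      rcases mul_eq_zero.mp h with h | h
      · exact h
      · exfalso
        rcases mul_eq_zero.mp h with h | h
        · have : (-1 : ℚ) / c i ≠ 0 := div_ne_zero (by norm_num) hci
          exact this h
        · rcases mul_eq_zero.mp h with h | h
          · exact hci h
          · rw [Finset.prod_eq_zero_iff] at h
            obtain ⟨l, hl, h⟩ := h
            have h2 : (c i : ℚ) = c l := by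
              field_simp at h
              linarith
            have h3 : c i = c l := by exact_mod_cast h2
            exact (Finset.mem_erase.mp hl).1 (hc h3.symm)
    · intro l _ hl
      simp only [Polynomial.eval_mul, Polynomial.eval_C, Tx,
        Polynomial.eval_X, Polynomial.eval_prod, Polynomial.eval_add, Polynomial.eval_one]
      have h0 : ∏ x ∈ univ.erase l, (1 + (c x : ℚ) * (-1 / (c i : ℚ))) = 0 := by
        refine Finset.prod_eq_zero (i := i) (Finset.mem_erase.mpr ⟨hl.symm, Finset.mem_univ _⟩) ?_
        field_simp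
        ring
      rw [h0]
      ring
    · intro h
      exact absurd (Finset.mem_univ i) h

/-- the kernel is stable under the derivations -/
lemma ker_Dx (h1 : T_IN) (h2 : T_LI) (h3 : T_LIN) (c : Lt r g → ℕ) (hc : Function.Injective c)
    (hc1 : ∀ i, 1 ≤ c i) (Q : MvPolynomial (Fx r g s) ℚ)
    (hQ : MvPolynomial.aeval (fn c) Q = 0) (x : Option (Lt r g)) :
    MvPolynomial.aeval (fn c) (Dx x Q) = 0 := by
  have hd := aeval_der h1 c Q
  rw [hQ, map_zero, mul_zero] at hd
  set B : ℕ := ∑ x : Option (Lt r g), ∑ v, (Dx x Q).degreeOf v with hB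
  have hBle : ∀ x v, (Dx x Q).degreeOf v ≤ B := by
    intro x v
    calc (Dx x Q).degreeOf v ≤ ∑ v, (Dx x Q).degreeOf v :=
          Finset.single_le_sum (f := fun v => (Dx x Q).degreeOf v) (fun _ _ => Nat.zero_le _)
            (Finset.mem_univ v)
      _ ≤ B := Finset.single_le_sum (f := fun x => ∑ v, (Dx x Q).degreeOf v)
            (fun _ _ => Nat.zero_le _) (Finset.mem_univ x)
  choose lam hlam using fun x => h3 r g s B (B * (r * (1 + g * (s * s)))) c le_rfl (Dx x Q)
    (hBle x)
  have hF : ∑ w : Wd (Lt r g) (B * (r * (1 + g * (s * s)))),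
      ((∑ x, Polynomial.C (lam x w) * Tx c x : Polynomial ℚ) : PowerSeries ℚ) * L c w.1 = 0 := by
    rw [← hd.symm]
    simp only [hlam, Finset.mul_sum]
    rw [Finset.sum_comm]
    refine Finset.sum_congr rfl fun w _ => ?_
    rw [show ((∑ x, Polynomial.C (lam x w) * Tx c x : Polynomial ℚ) : PowerSeries ℚ) =
      ∑ x, ((Polynomial.C (lam x w) * Tx c x : Polynomial ℚ) : PowerSeries ℚ) from
      map_sum (Polynomial.coeToPowerSeries.ringHom (R := ℚ)) _ _, Finset.sum_mul]
    refine Finset.sum_congr rfl fun x _ => ?_
    rw [Polynomial.coe_mul, Polynomial.coe_C, PowerSeries.smul_eq_C_mul]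
    ring
  have hF0 := h2 (Lt r g) c _ hc hc1 (fun w => ∑ x, Polynomial.C (lam x w) * Tx c x) hF
  rw [hlam x]
  refine Finset.sum_eq_zero fun w _ => ?_
  have h5 := Tx_indep c hc hc1 (fun x => lam x w) (congrFun hF0 w)
  have h6 : lam x w = 0 := congrFun h5 x
  rw [h6, zero_smul]

lemma der_sum {σ τ : Type} [Fintype τ]
    (D : τ → Derivation ℚ (MvPolynomial σ ℚ) (MvPolynomial σ ℚ)) (Q : MvPolynomial σ ℚ) :
    (∑ v, D v) Q = ∑ v, D v Q := by
  rw [← Derivation.coeFnAddMonoidHom_apply, map_sum, Finset.sum_apply]
  rfl

/-- a derivation is a combination of the partial derivatives -/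
lemma der_eq_sum {σ : Type} [Fintype σ] [DecidableEq σ]
    (D : Derivation ℚ (MvPolynomial σ ℚ) (MvPolynomial σ ℚ)) (Q : MvPolynomial σ ℚ) :
    D Q = ∑ v, D (MvPolynomial.X v) * MvPolynomial.pderiv v Q := by
  have h : D = ∑ v, D (MvPolynomial.X v) • MvPolynomial.pderiv v := by
    refine MvPolynomial.derivation_ext fun i => ?_
    rw [der_sum, Finset.sum_eq_single i]
    · simp
    · intro v _ hv
      simp [MvPolynomial.pderiv_X_of_ne hv.symm]
    · intro h
      exact absurd (Finset.mem_univ i) h
  conv_lhs => rw [h]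
  rw [der_sum]
  rfl

/-- a nonconstant polynomial has a nonzero partial derivative -/
lemma pderiv_zero {σ : Type} [Fintype σ] [DecidableEq σ] (Q : MvPolynomial σ ℚ)
    (h : ∀ v, MvPolynomial.pderiv v Q = 0) : ∃ a, Q = MvPolynomial.C a := by
  refine ⟨MvPolynomial.coeff 0 Q, ?_⟩
  ext m
  rw [MvPolynomial.coeff_C]
  split_ifs with hm
  · rw [hm]
  · obtain ⟨v, hv⟩ : ∃ v, m v ≠ 0 := by
      by_contra hcon
      push Not at hcon
      exact hm (Finsupp.ext fun v => (hcon v).symm ▸ rfl).symm
    have h1 : MvPolynomial.coeff (m - Finsupp.single v 1) (MvPolynomial.pderiv v Q) = 0 := by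
      rw [h v, MvPolynomial.coeff_zero]
    rw [MvPolynomial.coeff_pderiv] at h1
    have h2 : m - Finsupp.single v 1 + Finsupp.single v 1 = m := by
      refine tsub_add_cancel_of_le ?_
      rw [Finsupp.single_le_iff]
      omega
    rw [h2] at h1
    rcases mul_eq_zero.mp h1 with h3 | h3
    · exact h3
    · exfalso
      exact Nat.cast_add_one_ne_zero _ h3

lemma totalDegree_pderiv {σ : Type} [DecidableEq σ] (Q : MvPolynomial σ ℚ) (v : σ)
    (h : MvPolynomial.pderiv v Q ≠ 0) :
    (MvPolynomial.pderiv v Q).totalDegree < Q.totalDegree := by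
  have key : ∀ m ∈ (MvPolynomial.pderiv v Q).support,
      (m.sum fun _ e => e) < Q.totalDegree := by
    intro m hm
    have h1 : MvPolynomial.coeff m (MvPolynomial.pderiv v Q) ≠ 0 :=
      MvPolynomial.mem_support_iff.mp hm
    rw [MvPolynomial.coeff_pderiv] at h1
    have h2 : m + Finsupp.single v 1 ∈ Q.support :=
      MvPolynomial.mem_support_iff.mpr (left_ne_zero_of_mul h1)
    have h3 := MvPolynomial.le_totalDegree h2
    rw [Finsupp.sum_add_index' (fun _ => rfl) (fun _ _ _ => rfl),
      Finsupp.sum_single_index rfl] at h3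
    omega
  obtain ⟨m, hm⟩ := MvPolynomial.support_nonempty.mpr h
  have hpos : 0 < Q.totalDegree := lt_of_le_of_lt (Nat.zero_le _) (key m hm)
  unfold MvPolynomial.totalDegree at *
  rw [Finset.sup_lt_iff hpos]
  exact key

end FIND_

open FIND_

theorem p_FIND (h1 : T_IN) (h2 : T_LI) (h3 : T_LIN) : T_FIND := by
  intro r g s c hc hc1
  have kD := fun (Q : MvPolynomial (Fx r g s) ℚ) (hQ : MvPolynomial.aeval (fn c) Q = 0)
    (x : Option (Lt r g)) => ker_Dx h1 h2 h3 c hc hc1 Q hQ x
  -- stability under the partial derivatives in the polylogarithms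
  have kY : ∀ (j : ℕ) (hj : j < s) (i : Fin r) (l : Fin g) (Q : MvPolynomial (Fx r g s) ℚ),
      MvPolynomial.aeval (fn c) Q = 0 →
      MvPolynomial.aeval (fn c) (MvPolynomial.pderiv (i, some (l, ⟨j, hj⟩)) Q) = 0 := by
    intro j
    induction j with
    | zero =>
      intro hj i l Q hQ
      have e1 : MvPolynomial.pderiv (i, some (l, ⟨0, hj⟩)) =
          -(Dx (s := s) (some (i, some l)) :
            Derivation ℚ (MvPolynomial (Fx r g s) ℚ) (MvPolynomial (Fx r g s) ℚ)) := by
        refine MvPolynomial.derivation_ext fun v => ?_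
        rw [Derivation.neg_apply, Dx, MvPolynomial.mkDerivation_X]
        match v with
        | (i', none) =>
          rw [MvPolynomial.pderiv_X_of_ne (by simp)]
          simp [dv]
        | (i', some (l', ⟨0, h'⟩)) =>
          by_cases h : i' = i ∧ l' = l
          · obtain ⟨rfl, rfl⟩ := h
            simp [dv]
          · rw [MvPolynomial.pderiv_X_of_ne (by
              simp only [ne_eq, Prod.mk.injEq, Option.some.injEq, and_true]
              exact h)]
            have : ¬ ((i, l) = (i', l')) := by
              intro hh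
              simp only [Prod.mk.injEq] at hh
              exact h ⟨hh.1.symm, hh.2.symm⟩
            simp only [dv]
            rw [if_neg (by simp), if_neg (by
              simp only [Option.some.injEq, Prod.mk.injEq]
              rintro ⟨rfl, rfl⟩
              exact h ⟨rfl, rfl⟩)]
            simp
        | (i', some (l', ⟨j' + 1, h'⟩)) =>
          rw [MvPolynomial.pderiv_X_of_ne (by simp)]
          simp [dv]
      rw [e1, Derivation.neg_apply, map_neg, kD Q hQ (some (i, some l)), neg_zero]
    | succ j ih =>
      intro hj i l Q hQ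
      have e1 : MvPolynomial.pderiv (i, some (l, ⟨j + 1, hj⟩)) =
          ⁅(MvPolynomial.pderiv ((i, some (l, ⟨j, Nat.lt_of_succ_lt hj⟩)) : Fx r g s) :
            Derivation ℚ (MvPolynomial (Fx r g s) ℚ) (MvPolynomial (Fx r g s) ℚ)),
            (Dx (s := s) none :
            Derivation ℚ (MvPolynomial (Fx r g s) ℚ) (MvPolynomial (Fx r g s) ℚ))⁆ := by
        refine MvPolynomial.derivation_ext fun v => ?_
        rw [Derivation.commutator_apply, Dx, MvPolynomial.mkDerivation_X]
        have e2 : MvPolynomial.mkDerivation ℚ (dv (r := r) (g := g) (s := s) none)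
            (MvPolynomial.pderiv (R := ℚ) ((i, some (l, ⟨j, Nat.lt_of_succ_lt hj⟩)) : Fx r g s)
              (MvPolynomial.X v)) = 0 := by
          by_cases hv : v = ((i, some (l, ⟨j, Nat.lt_of_succ_lt hj⟩)) : Fx r g s)
          · rw [hv, MvPolynomial.pderiv_X_self]
            exact (MvPolynomial.mkDerivation ℚ (dv (r := r) (g := g) (s := s) none)).map_one_eq_zero
          · rw [MvPolynomial.pderiv_X_of_ne hv, map_zero]
        rw [e2, sub_zero]
        match v with
        | (i', none) =>
          rw [MvPolynomial.pderiv_X_of_ne (by simp)]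
          simp [dv]
        | (i', some (l', ⟨0, h'⟩)) =>
          rw [MvPolynomial.pderiv_X_of_ne (by simp)]
          simp [dv]
        | (i', some (l', ⟨j' + 1, h'⟩)) =>
          by_cases h : i' = i ∧ l' = l ∧ j' = j
          · obtain ⟨rfl, rfl, rfl⟩ := h
            simp [dv]
          · rw [MvPolynomial.pderiv_X_of_ne (by
              simp only [ne_eq, Prod.mk.injEq, Option.some.injEq, Fin.mk.injEq, add_left_inj]
              exact h)]
            simp only [dv, if_true]
            rw [if_neg (by simp), sub_zero, MvPolynomial.pderiv_X_of_ne (by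
              simp only [ne_eq, Prod.mk.injEq, Option.some.injEq, Fin.mk.injEq]
              exact h)]
      rw [e1, Derivation.commutator_apply, map_sub, ih _ i l _ (kD Q hQ none),
        kD _ (ih _ i l Q hQ) none, sub_zero]
  -- stability under all partial derivatives
  have kP : ∀ (v : Fx r g s) (Q : MvPolynomial (Fx r g s) ℚ),
      MvPolynomial.aeval (fn c) Q = 0 →
      MvPolynomial.aeval (fn c) (MvPolynomial.pderiv v Q) = 0 := by
    intro v Q hQ
    match v with
    | (i, some (l, j)) => exact kY j.1 j.2 i l Q hQ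
    | (i, none) =>
      have e1 := kD Q hQ (some (i, none))
      rw [der_eq_sum (Dx (some (i, none))) Q, map_sum, Finset.sum_eq_single (i, none)] at e1
      · rw [Dx, MvPolynomial.mkDerivation_X] at e1
        simpa [dv] using e1
      · intro v _ hv
        rw [map_mul]
        match v with
        | (i', none) =>
          have h4 : i' ≠ i := by
            rintro rfl
            exact hv rfl
          rw [Dx, MvPolynomial.mkDerivation_X]
          simp [dv, h4.symm]
        | (i', some (l, j)) =>
          rw [kY j.1 j.2 i' l Q hQ, mul_zero]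
      · intro h
        exact absurd (Finset.mem_univ _) h
  -- conclusion
  intro Q hQ
  induction hn : Q.totalDegree using Nat.strong_induction_on generalizing Q with
  | _ n ih =>
    have hall : ∀ v, MvPolynomial.pderiv v Q = 0 := by
      intro v
      by_contra hne
      have hlt : (MvPolynomial.pderiv v Q).totalDegree < n := by
        rw [← hn]
        exact totalDegree_pderiv Q v hne
      exact hne (ih _ hlt (MvPolynomial.pderiv v Q) (kP v Q hQ) rfl)
    obtain ⟨a, ha⟩ := pderiv_zero Q hall
    rw [ha, MvPolynomial.aeval_C] at hQ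
    have h7 : PowerSeries.C a = 0 := hQ
    have h8 : a = 0 := by
      have := congrArg (PowerSeries.coeff 0) h7
      simpa using this
    rw [ha, h8, map_zero]

end Pool.Agent.PLG
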