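import Pool.Agent.PLG.Targets

set_option autoImplicit false

/-!
# GAU: in the gauge the connection is the derivative
-/

namespace Pool.Agent.PLG

open Finset
open scoped BigOperators

namespace GAU_

variable {K : Type} [Field K] [CharZero K]

/-- the differential equation of `Im b f` -/
theorem deriv_Im (b : K) (f : PowerSeries K) :
    (1 + PowerSeries.C b * PowerSeries.X) * PowerSeries.derivative K (Im b f) =
      -(PowerSeries.C b * f) := by
  have h : ∀ n, PowerSeries.coeff n (PowerSeries.derivative K (Im b f)) =
      -(∑ j ∈ range (n + 1), PowerSeries.coeff j f * (b * (-b) ^ (n - j))) := by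
    intro n
    rw [PowerSeries.coeff_derivative, Im, PowerSeries.coeff_mk]
    have h1 : ((n : K) + 1) ≠ 0 := by exact_mod_cast Nat.succ_ne_zero n
    push_cast
    rw [div_mul_cancel₀ _ h1]
  ext n
  rw [add_mul, one_mul, map_add, h, mul_assoc, PowerSeries.coeff_C_mul, map_neg,
    PowerSeries.coeff_C_mul]
  rcases n with _ | n
  · rw [PowerSeries.coeff_zero_X_mul]
    simp
    ring
  · rw [PowerSeries.coeff_succ_X_mul, h, Finset.sum_range_succ _ (n + 1)]
    have h2 : ∑ j ∈ range (n + 1), PowerSeries.coeff j f * (b * (-b) ^ (n + 1 - j)) =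
        -(b * ∑ j ∈ range (n + 1), PowerSeries.coeff j f * (b * (-b) ^ (n - j))) := by
      rw [Finset.mul_sum, ← Finset.sum_neg_distrib]
      refine Finset.sum_congr rfl fun j hj => ?_
      have hj' : j ≤ n := Nat.lt_succ_iff.mp (Finset.mem_range.mp hj)
      rw [show n + 1 - j = (n - j) + 1 by omega, pow_succ]
      ring
    rw [h2]
    simp
    ring

theorem one_add_ne (b : K) : (1 + PowerSeries.C b * PowerSeries.X : PowerSeries K) ≠ 0 := by
  intro h
  have := congrArg (PowerSeries.coeff 0) h
  simp at this

theorem t_deriv_Im {b : K} {t tx : PowerSeries K}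
    (h : tx * (1 + PowerSeries.C b * PowerSeries.X) = PowerSeries.C b * t) (f : PowerSeries K) :
    t * PowerSeries.derivative K (Im b f) = -(tx * f) := by
  apply mul_left_cancel₀ (one_add_ne b)
  have h1 := deriv_Im b f
  calc (1 + PowerSeries.C b * PowerSeries.X) * (t * PowerSeries.derivative K (Im b f))
      = t * ((1 + PowerSeries.C b * PowerSeries.X) * PowerSeries.derivative K (Im b f)) := by ring
    _ = -((PowerSeries.C b * t) * f) := by rw [h1]; ring
    _ = (1 + PowerSeries.C b * PowerSeries.X) * -(tx * f) := by rw [← h]; ring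

theorem main {ι : Type} (b : Option ι → K) (t : PowerSeries K) (tx : Option ι → PowerSeries K)
    (h : ∀ x, tx x * (1 + PowerSeries.C (b x) * PowerSeries.X) = PowerSeries.C (b x) * t)
    (V : List (Option ι) → PowerSeries K) (w : List (Option ι)) :
    ∀ l : List (Option ι), t * PowerSeries.derivative K (gg b V l w) =
      gg b (nbs t tx V) l w + t * PowerSeries.derivative K (Sg b l) * V w := by
  induction w with
  | nil =>
    intro l
    simp only [gg, nbs]
    rw [Derivation.leibniz, smul_eq_mul, smul_eq_mul]
    ring
  | cons x w ih =>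
    intro l
    simp only [gg, nbs]
    rw [map_add, Derivation.leibniz, smul_eq_mul, smul_eq_mul, mul_add, ih (x :: l)]
    have h1 : t * PowerSeries.derivative K (Sg b (x :: l)) = -(tx x * Sg b l) := by
      simp only [Sg]
      exact t_deriv_Im (h x) _
    rw [h1]
    ring

end GAU_

theorem p_GAU : T_GAU := by
  intro K _ _ ι b t tx h V w
  have h1 := GAU_.main b t tx h V w []
  rw [h1]
  simp only [Sg]
  have : PowerSeries.derivative K (1 : PowerSeries K) = 0 := Derivation.map_one_eq_zero _
  rw [this, mul_zero, zero_mul, add_zero]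

end Pool.Agent.PLG
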