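import Pool.Agent.PLG.Targets

set_option autoImplicit false

/-! Polylogarithms, bounded degree: algebraic independence of the values in bounded degree. -/

namespace Pool.Agent.PLG.GP_

open Finset
open scoped BigOperators

theorem cc_pos {r g R0 : ℕ} (a : Fin r → ℕ) (ρ : Fin g → ℤ) (hρ : ∀ l, ρ l ≠ 0 ∧ |ρ l| ≤ R0)
    (ha : ∀ i, R0 < a i) (x : Lt r g) : 1 ≤ cc a ρ x := by
  obtain ⟨i, l⟩ := x
  cases l with
  | none =>
    show 1 ≤ a i
    have := ha i
    omega
  | some l =>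
    show 1 ≤ ((a i : ℤ) - ρ l).toNat
    have h1 := ha i
    have h2 := (abs_le.mp (hρ l).2).2
    omega

theorem cc_le {r g R0 A : ℕ} (a : Fin r → ℕ) (ρ : Fin g → ℤ) (hρ : ∀ l, ρ l ≠ 0 ∧ |ρ l| ≤ R0)
    (ha : ∀ i, a i ≤ A) (x : Lt r g) : cc a ρ x ≤ A + R0 := by
  obtain ⟨i, l⟩ := x
  cases l with
  | none =>
    show a i ≤ A + R0
    have := ha i
    omega
  | some l =>
    show ((a i : ℤ) - ρ l).toNat ≤ A + R0
    have h1 := ha i
    have h2 := (abs_le.mp (hρ l).2).1
    omega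

theorem small_zero {h x : ℤ} (hx : |x| < h) (hd : h ∣ x) : x = 0 :=
  Int.eq_zero_of_abs_lt_dvd hd hx

theorem cc_inj {r g R0 : ℕ} (a : Fin r → ℕ) (ρ : Fin g → ℤ) (hinj : Function.Injective ρ)
    (hρ : ∀ l, ρ l ≠ 0 ∧ |ρ l| ≤ R0) (hainj : Function.Injective a)
    (ha : ∀ i, (2 * R0 + 1) ∣ a i ∧ R0 < a i) : Function.Injective (cc a ρ) := by
  have hd : ∀ i, ((2 * R0 + 1 : ℕ) : ℤ) ∣ (a i : ℤ) := fun i =>
    Int.natCast_dvd_natCast.mpr (ha i).1
  have hval : ∀ i l, ((cc a ρ (i, some l) : ℕ) : ℤ) = (a i : ℤ) - ρ l := by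
    intro i l
    show ((((a i : ℤ) - ρ l).toNat : ℕ) : ℤ) = _
    have h1 := (ha i).2
    have h2 := (abs_le.mp (hρ l).2).2
    omega
  have hval0 : ∀ i, ((cc a ρ (i, none) : ℕ) : ℤ) = (a i : ℤ) := fun i => rfl
  have mixed : ∀ i i' l, cc a ρ (i, none) ≠ cc a ρ (i', some l) := by
    intro i i' l h
    have h1 : ((cc a ρ (i, none) : ℕ) : ℤ) = ((cc a ρ (i', some l) : ℕ) : ℤ) := by rw [h]
    rw [hval, hval0] at h1
    have h2 : ρ l = (a i' : ℤ) - a i := by omega
    have h3 : ((2 * R0 + 1 : ℕ) : ℤ) ∣ ρ l := by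
      rw [h2]; exact dvd_sub (hd i') (hd i)
    have h4 : |ρ l| < ((2 * R0 + 1 : ℕ) : ℤ) := by
      have := (hρ l).2
      push_cast
      have h5 : (0 : ℤ) ≤ R0 := Int.natCast_nonneg _
      omega
    exact (hρ l).1 (small_zero h4 h3)
  rintro ⟨i, l⟩ ⟨i', l'⟩ h
  cases l with
  | none =>
    cases l' with
    | none =>
      have : a i = a i' := h
      rw [hainj this]
    | some l' => exact absurd h (mixed i i' l')
  | some l =>
    cases l' with
    | none => exact absurd h.symm (mixed i' i l)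
    | some l' =>
      have h1 : ((cc a ρ (i, some l) : ℕ) : ℤ) = ((cc a ρ (i', some l') : ℕ) : ℤ) := by rw [h]
      rw [hval, hval] at h1
      have h2 : ρ l - ρ l' = (a i : ℤ) - a i' := by omega
      have h3 : ((2 * R0 + 1 : ℕ) : ℤ) ∣ ρ l - ρ l' := by
        rw [h2]; exact dvd_sub (hd i) (hd i')
      have h4 : |ρ l - ρ l'| < ((2 * R0 + 1 : ℕ) : ℤ) := by
        have e1 := abs_le.mp (hρ l).2
        have e2 := abs_le.mp (hρ l').2
        rw [abs_lt]
        push_cast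
        constructor <;> omega
      have h5 := small_zero h4 h3
      have h6 : ρ l = ρ l' := by omega
      have h7 : a i = a i' := by omega
      rw [hinj h6, hainj h7]

theorem summ {f : PowerSeries ℚ} {A : ℕ} {x : ℝ} (hx : 0 ≤ x) (hAx : A * x < 1)
    (hf : ∀ s, |PowerSeries.coeff s f| ≤ (A : ℚ) ^ s) :
    Summable fun n => ((PowerSeries.coeff n f : ℚ) : ℝ) * x ^ n := by
  refine Summable.of_norm_bounded (g := fun n => (A * x) ^ n)
    (summable_geometric_of_lt_one (by positivity) hAx) ?_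
  intro n
  rw [norm_mul, norm_pow, Real.norm_of_nonneg hx, mul_pow]
  refine mul_le_mul_of_nonneg_right ?_ (by positivity)
  rw [Real.norm_eq_abs]
  exact_mod_cast hf n

theorem val_sum {β : Type} [Fintype β] (lam : β → ℚ) (f : β → PowerSeries ℚ) {A : ℕ} {x : ℝ}
    (hx : 0 ≤ x) (hAx : A * x < 1) (hf : ∀ b s, |PowerSeries.coeff s (f b)| ≤ (A : ℚ) ^ s) :
    val (∑ b, lam b • f b) x = ∑ b, (lam b : ℝ) * val (f b) x := by
  unfold val
  have h1 : ∀ b, (lam b : ℝ) * ∑' n, ((PowerSeries.coeff n (f b) : ℚ) : ℝ) * x ^ n =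
      ∑' n, (lam b : ℝ) * (((PowerSeries.coeff n (f b) : ℚ) : ℝ) * x ^ n) := fun b =>
    (tsum_mul_left).symm
  simp_rw [h1]
  rw [← Summable.tsum_finsetSum (fun b _ => (summ hx hAx (hf b)).mul_left _)]
  refine tsum_congr fun n => ?_
  rw [map_sum]
  push_cast
  rw [sum_mul]
  refine sum_congr rfl fun b _ => ?_
  have : PowerSeries.coeff n (lam b • f b) = lam b * PowerSeries.coeff n (f b) := by
    simp
  rw [this]
  push_cast
  ring

theorem main (h1 : T_H) (h2 : T_LIN) (h3 : T_FIND) (h4 : T_EVAL) (h5 : T_VAL) (h6 : T_COEF) :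
    T_GP := by
  intro r g s B R0 ρ hinj hρ
  set W := B * (r * (1 + g * (s * s))) with hW
  obtain ⟨E, hE1, hE⟩ := h1 (Lt r g) W
  refine ⟨E, hE1, ?_⟩
  intro A N a hA hainj ha hN Q hQ hQ0
  set c := cc a ρ with hc
  have ha0 : ∀ i, R0 < a i := by
    intro i
    obtain ⟨e1, e2, e3⟩ := ha i
    have := Nat.le_of_dvd (by omega) e1
    omega
  have hcinj : Function.Injective c :=
    cc_inj a ρ hinj hρ hainj (fun i => ⟨(ha i).1, ha0 i⟩)
  have hcpos : ∀ x, 1 ≤ c x := cc_pos a ρ hρ ha0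
  have hcle : ∀ x, c x ≤ A + R0 := cc_le a ρ hρ (fun i => (ha i).2.2)
  have hAN : 4 * (A + R0) ≤ N := by
    refine le_trans ?_ hN
    calc 4 * (A + R0) ≤ (880 * (A + R0)) ^ 1 := by rw [pow_one]; omega
      _ ≤ _ := Nat.pow_le_pow_right (by omega) hE1
  have hN1 : 1 ≤ N := by omega
  have hN0 : (0 : ℝ) < N := by exact_mod_cast hN1
  have hx0 : (0 : ℝ) ≤ 1 / N := by positivity
  have hAx : ((A + R0 : ℕ) : ℝ) * (1 / N) < 1 := by
    rw [mul_one_div, div_lt_one hN0]
    exact_mod_cast (by omega : A + R0 < N)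
  -- the values
  have hvals : (fun v : Fx r g s => val (fn c v) (1 / (N : ℝ))) = vals a ρ N := by
    funext v
    obtain ⟨i, l⟩ := v
    have h7 := h5 r g A R0 N a ρ hρ (fun i => ⟨ha0 i, (ha i).2.2⟩) hAN i
    cases l with
    | none => exact h7.1
    | some l =>
      obtain ⟨l, j⟩ := l
      exact h7.2 l j
  have hev : val (MvPolynomial.aeval (fn (s := s) c) Q) (1 / (N : ℝ)) = 0 := by
    rw [h4 r g s (A + R0) c (1 / (N : ℝ)) (by omega) hcle hx0 hAx Q, hvals]
    exact hQ0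
  set Qr : MvPolynomial (Fx r g s) ℚ := MvPolynomial.map (Int.castRingHom ℚ) Q with hQr
  have hQrdeg : ∀ v, Qr.degreeOf v ≤ B := fun v =>
    (MvPolynomial.degreeOf_le_iff.mpr fun m hm => by
      have hm' : m ∈ Q.support := MvPolynomial.support_map_subset _ _ hm
      exact (MvPolynomial.degreeOf_le_iff.mp (hQ v)) m hm')
  have haev : MvPolynomial.aeval (fn (s := s) c) Qr = MvPolynomial.aeval (fn (s := s) c) Q := by
    rw [hQr]
    exact MvPolynomial.aeval_map_algebraMap ℚ (fn (s := s) c) Q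
  obtain ⟨lam, hlam⟩ := h2 r g s B W c le_rfl Qr hQrdeg
  rw [haev] at hlam
  rw [hlam, val_sum lam (fun w : Wd (Lt r g) W => L c w.1) hx0 hAx
    (fun w s => (h6 (Lt r g) c (A + R0) (by omega) hcle w.1).1 s)] at hev
  -- common denominator
  set d : ℕ := ∏ w, (lam w).den with hd
  have hd0 : d ≠ 0 := by
    rw [hd]
    exact prod_ne_zero_iff.mpr fun w _ => (lam w).den_ne_zero
  have hint : ∀ w, ∃ z : ℤ, (d : ℚ) * lam w = z := by
    intro w
    have h8 : (lam w).den ∣ d := Finset.dvd_prod_of_mem _ (mem_univ w)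
    obtain ⟨e, he⟩ := h8
    refine ⟨e * (lam w).num, ?_⟩
    rw [he]
    push_cast
    have := Rat.mul_den_eq_num (lam w)
    calc ((lam w).den : ℚ) * e * lam w = e * (lam w * (lam w).den) := by ring
      _ = e * (lam w).num := by rw [this]
  choose z hz using hint
  have hz0 : z = 0 := by
    refine hE (A + R0) N c (by omega) hcinj (fun x => ⟨hcpos x, hcle x⟩) hN z ?_
    have h9 : ∀ w, (z w : ℝ) = (d : ℝ) * (lam w : ℝ) := by
      intro w
      have := congrArg (fun y : ℚ => (y : ℝ)) (hz w)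
      push_cast at this
      exact this.symm
    simp_rw [h9]
    have h10 : ∀ w : Wd (Lt r g) W, (d : ℝ) * (lam w : ℝ) * val (L c w.1) (1 / (N : ℝ)) =
        (d : ℝ) * ((lam w : ℝ) * val (L c w.1) (1 / (N : ℝ))) := fun w => by ring
    simp_rw [h10]
    rw [← mul_sum, hev, mul_zero]
  have hlam0 : ∀ w, lam w = 0 := by
    intro w
    have h11 := hz w
    rw [hz0] at h11
    simp only [Pi.zero_apply, Int.cast_zero, mul_eq_zero] at h11
    rcases h11 with h11 | h11
    · exfalso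
      exact hd0 (by exact_mod_cast h11)
    · exact h11
  have hzero : MvPolynomial.aeval (fn (s := s) c) Qr = 0 := by
    rw [haev, hlam]
    exact sum_eq_zero fun w _ => by rw [hlam0 w, zero_smul]
  have hQr0 := h3 r g s c hcinj hcpos Qr hzero
  have hmap : Function.Injective
      (MvPolynomial.map (σ := Fx r g s) (Int.castRingHom ℚ)) :=
    MvPolynomial.map_injective _ (RingHom.injective_int _)
  exact hmap (by rw [← hQr, hQr0, map_zero])

end Pool.Agent.PLG.GP_

namespace Pool.Agent.PLG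

theorem p_GP (h1 : T_H) (h2 : T_LIN) (h3 : T_FIND) (h4 : T_EVAL) (h5 : T_VAL) (h6 : T_COEF) :
    T_GP := GP_.main h1 h2 h3 h4 h5 h6

end Pool.Agent.PLG
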