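import Pool.Agent.PLG.Targets

set_option autoImplicit false

/-! Polylogarithms, bounded degree: linear independence of the values of the hyperlogarithms
at `1 / N`. -/

namespace Pool.Agent.PLG.H_

open Finset
open scoped BigOperators

theorem expo (q W M Λ n m k σ : ℕ) (hM : 2 ≤ M) (hL : Λ = (q + 1) * M + 2)
    (hm : m ≤ M * Λ * n) (hk : k ≤ M * Λ * n) (hσ : σ ≤ M * Λ * n) :
    W * (m + k) + q * k + k + σ + (W + 1) * (σ * Λ) + σ ≤
      16 * (q + 1) ^ 3 * (W + 1) * M ^ 3 * n := by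
  set Y := M * Λ * n with hY
  have hL1 : 1 ≤ Λ := by omega
  have hL2 : Λ ≤ 2 * ((q + 1) * M) := by
    have : 2 ≤ (q + 1) * M := by nlinarith
    omega
  have e1 : W * (m + k) ≤ W * (2 * Y) := Nat.mul_le_mul_left _ (by omega)
  have e2 : q * k ≤ q * Y := Nat.mul_le_mul_left _ hk
  have e3 : (W + 1) * (σ * Λ) ≤ (W + 1) * (Y * Λ) :=
    Nat.mul_le_mul_left _ (Nat.mul_le_mul_right _ hσ)
  have e4 : W * (2 * Y) + q * Y + Y + Y + Y ≤ (2 * W + q + 3) * (Y * Λ) := by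
    have : Y ≤ Y * Λ := Nat.le_mul_of_pos_right _ hL1
    calc W * (2 * Y) + q * Y + Y + Y + Y = (2 * W + q + 3) * Y := by ring
      _ ≤ _ := Nat.mul_le_mul_left _ this
  have e5 : (2 * W + q + 3) * (Y * Λ) + (W + 1) * (Y * Λ) ≤
      4 * (q + 1) * (W + 1) * (Y * Λ) := by
    rw [← Nat.add_mul]
    refine Nat.mul_le_mul_right _ ?_
    nlinarith
  have e6 : Y * Λ ≤ 4 * (q + 1) ^ 2 * M ^ 3 * n := by
    calc Y * Λ = M * n * (Λ * Λ) := by rw [hY]; ring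
      _ ≤ M * n * ((2 * ((q + 1) * M)) * (2 * ((q + 1) * M))) :=
          Nat.mul_le_mul_left _ (Nat.mul_le_mul hL2 hL2)
      _ = _ := by ring
  calc W * (m + k) + q * k + k + σ + (W + 1) * (σ * Λ) + σ
      ≤ (W * (2 * Y) + q * Y + Y + Y + Y) + (W + 1) * (Y * Λ) := by omega
    _ ≤ (2 * W + q + 3) * (Y * Λ) + (W + 1) * (Y * Λ) := by omega
    _ ≤ 4 * (q + 1) * (W + 1) * (Y * Λ) := e5
    _ ≤ 4 * (q + 1) * (W + 1) * (4 * (q + 1) ^ 2 * M ^ 3 * n) := Nat.mul_le_mul_left _ e6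
    _ = _ := by ring

/-- the size estimate -/
theorem size (q W M Λ n m k σ t A N : ℕ) (Δ X : ℝ) (hM : 2 ≤ M) (hL : Λ = (q + 1) * M + 2)
    (hA : 1 ≤ A) (hN : (880 * A) ^ (16 * (q + 1) ^ 3 * (W + 1) * M ^ 3) ≤ N)
    (hm : m ≤ M * Λ * n) (hk : k ≤ M * Λ * n) (hσ : σ ≤ M * Λ * n) (hmσ : m + 1 ≤ σ)
    (ht : n + m + (q + 1) * k + t ≤ σ) (hX0 : 0 ≤ X)
    (hΔ : Δ ≤ (N : ℝ) ^ m * (220 ^ m) ^ W * (220 ^ k) ^ W * ((2 * N) ^ q) ^ k)
    (hX : X ≤ 2 * (W + 1) * (k + 1) * (m + 1) * ((4 * 220 ^ W * A : ℕ) : ℝ) ^ (σ * Λ) *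
      (N : ℝ) ^ k * (2 * (A : ℝ) / N) ^ σ) :
    Δ * X ≤ 2 * (W + 1) / 2 ^ t := by
  set G : ℝ := 880 * A with hG
  have hA' : (1 : ℝ) ≤ A := by exact_mod_cast hA
  have hG1 : 880 ≤ G := by rw [hG]; linarith
  have hG0 : (0 : ℝ) < G := by linarith
  have hNG : G ^ (16 * (q + 1) ^ 3 * (W + 1) * M ^ 3) ≤ N := by
    rw [hG]; exact_mod_cast hN
  have hE1 : 1 ≤ 16 * (q + 1) ^ 3 * (W + 1) * M ^ 3 := by
    have : 0 < 16 * (q + 1) ^ 3 * (W + 1) * M ^ 3 := by positivity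
    omega
  have hN1 : G ≤ N := by
    refine le_trans ?_ hNG
    calc G = G ^ 1 := by ring
      _ ≤ _ := pow_le_pow_right₀ (by linarith) hE1
  have hN0 : (0 : ℝ) < N := by linarith
  have hN2 : (2 : ℝ) ≤ N := by linarith
  -- the bracket
  have c1 : ((220 : ℝ) ^ m) ^ W * (220 ^ k) ^ W ≤ G ^ (W * (m + k)) := by
    rw [← mul_pow, ← pow_add, ← pow_mul, mul_comm (m + k)]
    exact pow_le_pow_left₀ (by norm_num) (by linarith) _
  have c2 : (2 : ℝ) ^ (q * k) ≤ G ^ (q * k) := pow_le_pow_left₀ (by norm_num) (by linarith) _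
  have c0 : (k : ℝ) + 1 ≤ G ^ k := by
    have h2 : (k : ℝ) + 1 ≤ 2 ^ k := by exact_mod_cast (Nat.lt_two_pow_self (n := k))
    exact h2.trans (pow_le_pow_left₀ (by norm_num) (by linarith) _)
  have c3 : (m : ℝ) + 1 ≤ G ^ σ := by
    have h1 : (m : ℝ) + 1 ≤ σ := by exact_mod_cast hmσ
    have h2 : (σ : ℝ) ≤ 2 ^ σ := by exact_mod_cast (Nat.lt_two_pow_self).le
    exact h1.trans (h2.trans (pow_le_pow_left₀ (by norm_num) (by linarith) _))
  have c4 : ((4 * 220 ^ W * A : ℕ) : ℝ) ^ (σ * Λ) ≤ G ^ ((W + 1) * (σ * Λ)) := by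
    rw [pow_mul G]
    refine pow_le_pow_left₀ (by positivity) ?_ _
    push_cast
    rw [pow_succ]
    have h1 : (220 : ℝ) ^ W ≤ G ^ W := pow_le_pow_left₀ (by norm_num) (by linarith) _
    have h2 : 4 * (A : ℝ) ≤ G := by rw [hG]; linarith
    calc 4 * (220 : ℝ) ^ W * A = 220 ^ W * (4 * A) := by ring
      _ ≤ G ^ W * G := mul_le_mul h1 h2 (by positivity) (by positivity)
  have c5 : (2 * (A : ℝ)) ^ σ ≤ G ^ σ :=
    pow_le_pow_left₀ (by positivity) (by rw [hG]; linarith) _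
  have hbr : ((220 : ℝ) ^ m) ^ W * (220 ^ k) ^ W * 2 ^ (q * k) * (k + 1) * (m + 1) *
      ((4 * 220 ^ W * A : ℕ) : ℝ) ^ (σ * Λ) * (2 * (A : ℝ)) ^ σ ≤ (N : ℝ) ^ n := by
    have hle : G ^ (W * (m + k)) * G ^ (q * k) * G ^ k * G ^ σ * G ^ ((W + 1) * (σ * Λ)) * G ^ σ =
        G ^ (W * (m + k) + q * k + k + σ + (W + 1) * (σ * Λ) + σ) := by
      rw [← pow_add, ← pow_add, ← pow_add, ← pow_add, ← pow_add]
    calc _ ≤ G ^ (W * (m + k)) * G ^ (q * k) * G ^ k * G ^ σ * G ^ ((W + 1) * (σ * Λ)) *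
          G ^ σ := by
          gcongr
      _ = G ^ (W * (m + k) + q * k + k + σ + (W + 1) * (σ * Λ) + σ) := hle
      _ ≤ G ^ (16 * (q + 1) ^ 3 * (W + 1) * M ^ 3 * n) :=
          pow_le_pow_right₀ (by linarith) (expo q W M Λ n m k σ hM hL hm hk hσ)
      _ = (G ^ (16 * (q + 1) ^ 3 * (W + 1) * M ^ 3)) ^ n := by rw [pow_mul]
      _ ≤ (N : ℝ) ^ n := pow_le_pow_left₀ (by positivity) hNG n
  have hΔX : Δ * X ≤ ((N : ℝ) ^ m * (220 ^ m) ^ W * (220 ^ k) ^ W * ((2 * N) ^ q) ^ k) *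
      (2 * (W + 1) * (k + 1) * (m + 1) * ((4 * 220 ^ W * A : ℕ) : ℝ) ^ (σ * Λ) *
      (N : ℝ) ^ k * (2 * (A : ℝ) / N) ^ σ) :=
    mul_le_mul hΔ hX hX0 (by positivity)
  have hre : ((N : ℝ) ^ m * (220 ^ m) ^ W * (220 ^ k) ^ W * ((2 * N) ^ q) ^ k) *
      (2 * (W + 1) * (k + 1) * (m + 1) * ((4 * 220 ^ W * A : ℕ) : ℝ) ^ (σ * Λ) *
      (N : ℝ) ^ k * (2 * (A : ℝ) / N) ^ σ) =
      2 * (W + 1) * (((220 : ℝ) ^ m) ^ W * (220 ^ k) ^ W * 2 ^ (q * k) * (k + 1) * (m + 1) *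
      ((4 * 220 ^ W * A : ℕ) : ℝ) ^ (σ * Λ) * (2 * (A : ℝ)) ^ σ) *
      ((N : ℝ) ^ (m + (q + 1) * k) / N ^ σ) := by
    rw [← pow_mul, mul_pow 2 (N : ℝ), div_pow, pow_add (N : ℝ), add_mul, pow_add (N : ℝ), one_mul]
    ring
  rw [hre] at hΔX
  refine hΔX.trans ?_
  have hlast : (N : ℝ) ^ n * ((N : ℝ) ^ (m + (q + 1) * k) / N ^ σ) ≤ 1 / 2 ^ t := by
    rw [← mul_div_assoc, div_le_div_iff₀ (by positivity) (by positivity), one_mul]
    calc (N : ℝ) ^ n * (N : ℝ) ^ (m + (q + 1) * k) * 2 ^ t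
        ≤ (N : ℝ) ^ n * (N : ℝ) ^ (m + (q + 1) * k) * (N : ℝ) ^ t := by gcongr
      _ = (N : ℝ) ^ (n + m + (q + 1) * k + t) := by
          rw [← pow_add, ← pow_add]; congr 1; ring
      _ ≤ (N : ℝ) ^ σ := pow_le_pow_right₀ (by linarith) ht
  calc _ ≤ 2 * (W + 1) * (N : ℝ) ^ n * ((N : ℝ) ^ (m + (q + 1) * k) / N ^ σ) := by gcongr
    _ = 2 * (W + 1) * ((N : ℝ) ^ n * ((N : ℝ) ^ (m + (q + 1) * k) / N ^ σ)) := by ring
    _ ≤ 2 * (W + 1) * (1 / 2 ^ t) := by gcongr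
    _ = _ := by ring

/-- an integer combination of the rational approximations which is small vanishes -/
theorem vanish {β : Type} [Fintype β] (c : β → ℤ) (p : β → ℚ) (Δ : ℚ) (hΔ : 0 < Δ) (q : ℝ)
    (f : β → ℝ) (X : ℝ) (hint : ∀ J, ∃ x : ℤ, Δ * p J = x)
    (hrel : ∑ J, (c J : ℝ) * f J = 0) (hsm : ∀ J, |q * f J - (p J : ℝ)| ≤ X)
    (hlt : (∑ J, |(c J : ℝ)|) * ((Δ : ℝ) * X) < 1) : ∑ J, (c J : ℚ) * p J = 0 := by
  choose x hx using hint
  have h1 : Δ * ∑ J, (c J : ℚ) * p J = ((∑ J, c J * x J : ℤ) : ℚ) := by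
    push_cast
    rw [Finset.mul_sum]
    refine Finset.sum_congr rfl (fun J _ => ?_)
    rw [← hx J]; ring
  have h2 : |(((∑ J, c J * x J : ℤ)) : ℝ)| < 1 := by
    have e1 : (((∑ J, c J * x J : ℤ)) : ℝ) = (Δ : ℝ) * ∑ J, (c J : ℝ) * (p J : ℝ) := by
      have := congrArg (fun y : ℚ => (y : ℝ)) h1
      push_cast at this ⊢
      linarith
    have e2 : ∑ J, (c J : ℝ) * (p J : ℝ) = -∑ J, (c J : ℝ) * (q * f J - (p J : ℝ)) := by
      have : ∑ J, (c J : ℝ) * (q * f J - (p J : ℝ)) =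
          q * (∑ J, (c J : ℝ) * f J) - ∑ J, (c J : ℝ) * (p J : ℝ) := by
        rw [Finset.mul_sum, ← Finset.sum_sub_distrib]
        refine Finset.sum_congr rfl (fun J _ => by ring)
      rw [this, hrel]; ring
    have hΔ' : (0 : ℝ) < Δ := by exact_mod_cast hΔ
    rw [e1, e2, abs_mul, abs_neg, abs_of_pos hΔ']
    have e3 : |∑ J, (c J : ℝ) * (q * f J - (p J : ℝ))| ≤ (∑ J, |(c J : ℝ)|) * X := by
      refine (Finset.abs_sum_le_sum_abs _ _).trans ?_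
      rw [Finset.sum_mul]
      refine Finset.sum_le_sum (fun J _ => ?_)
      rw [abs_mul]
      exact mul_le_mul_of_nonneg_left (hsm J) (abs_nonneg _)
    calc (Δ : ℝ) * |∑ J, (c J : ℝ) * (q * f J - (p J : ℝ))| ≤ Δ * ((∑ J, |(c J : ℝ)|) * X) :=
          mul_le_mul_of_nonneg_left e3 hΔ'.le
      _ = (∑ J, |(c J : ℝ)|) * ((Δ : ℝ) * X) := by ring
      _ < 1 := hlt
  have h3 : (∑ J, c J * x J : ℤ) = 0 := by
    have : |(∑ J, c J * x J : ℤ)| < 1 := by exact_mod_cast h2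
    exact Int.abs_lt_one_iff.mp this
  rw [h3] at h1
  simp only [Int.cast_zero, mul_eq_zero] at h1
  exact h1.resolve_left hΔ.ne'

theorem val_nil {ι : Type} (c : ι → ℕ) (x : ℝ) : val (L c []) x = 1 := by
  show val 1 x = 1
  unfold val
  rw [tsum_eq_single 0]
  · simp
  · intro n hn
    rw [PowerSeries.coeff_one, if_neg hn]
    simp

theorem main (h1 : T_ZE) (h2 : T_LCM) (h3 : T_SIEG) (h4 : T_DEN) (h5 : T_AN) : T_H := by
  intro ι _ _ W
  set q := Fintype.card ι with hq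
  set M := Fintype.card (Wd ι W) with hM
  have hM1 : 1 ≤ M := Fintype.card_pos_iff.mpr ⟨⟨[], Nat.zero_le _, trivial⟩⟩
  refine ⟨16 * (q + 1) ^ 3 * (W + 1) * M ^ 3, ?_, ?_⟩
  · have : 0 < 16 * (q + 1) ^ 3 * (W + 1) * M ^ 3 := by positivity
    omega
  intro A N a hA hinj ha hN c hc
  rcases Nat.lt_or_ge M 2 with hM2 | hM2
  · -- only the empty word
    have hcard : Fintype.card (Wd ι W) = 1 := by omega
    have hs : Subsingleton (Wd ι W) := (Fintype.card_le_one_iff_subsingleton).mp hcard.le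
    funext w
    have hw : w = ⟨[], Nat.zero_le _, trivial⟩ := Subsingleton.elim _ _
    have h6 : ∑ w' : Wd ι W, (c w' : ℝ) * val (L a w'.1) (1 / (N : ℝ)) = (c w : ℝ) := by
      rw [Fintype.sum_subsingleton _ w]
      have h7 : w.1 = [] := by rw [hw]
      rw [h7, val_nil, mul_one]
    rw [h6] at hc
    exact_mod_cast hc
  by_contra hne
  set Λ := (q + 1) * M + 2 with hL
  set C1 := (q + 2) * M ^ 2 with hC1
  -- the choice of `t` and `n`
  obtain ⟨t, ht⟩ : ∃ t : ℕ, (∑ J, |(c J : ℝ)|) * (2 * (W + 1)) < 2 ^ t :=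
    pow_unbounded_of_one_lt _ one_lt_two
  set n := C1 + 1 + t with hn
  have hn1 : 1 ≤ n := by omega
  obtain ⟨M', hM'⟩ : ∃ M', M = M' + 1 := ⟨M - 1, by omega⟩
  obtain ⟨P, hP, hPH, hPd⟩ := h3 ι a W A Λ n M hM hM2 hA (fun i => (ha i).2) (by omega) hn1
  set m := (M - 1) * Λ * n with hm
  set σ := m + 1 + (Λ - 1) * n with hσ
  set K0 := (M - 1) * n + C1 with hK0
  have hσY : σ + n = M * Λ * n + 1 := by
    obtain ⟨L', hL'⟩ : ∃ L', Λ = L' + 1 := ⟨Λ - 1, by omega⟩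
    rw [hσ, hm, hM', hL']
    simp only [Nat.add_sub_cancel]
    ring
  have hσle : σ ≤ M * Λ * n := by omega
  have hmle : m ≤ M * Λ * n := by omega
  have hK0le : K0 ≤ M * Λ * n := by
    have e1 : K0 ≤ M * n := by
      rw [hK0, hM']
      simp only [Nat.add_sub_cancel]
      have : C1 ≤ n := by omega
      nlinarith
    have e2 : M * n ≤ M * Λ * n := by
      have : 1 ≤ Λ := by omega
      nlinarith [Nat.zero_le (M * n)]
    exact e1.trans e2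
  have hAN : 4 * A ≤ N := by
    refine le_trans ?_ hN
    have hE1 : 1 ≤ 16 * (q + 1) ^ 3 * (W + 1) * M ^ 3 := by
      have : 0 < 16 * (q + 1) ^ 3 * (W + 1) * M ^ 3 := by positivity
      omega
    calc 4 * A ≤ (880 * A) ^ 1 := by rw [pow_one]; omega
      _ ≤ _ := Nat.pow_le_pow_right (by omega) hE1
  have hN1 : 1 ≤ N := by omega
  have hN0 : (0 : ℝ) < N := by exact_mod_cast hN1
  have hAleN : ∀ i, a i ≤ N := fun i => (ha i).2.trans (by omega)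
  have hvan : ∀ k, k ≤ K0 → ∑ J : Wd ι W, (c J : ℚ) * pk a (1 / (N : ℚ)) P k J.1 = 0 := by
    intro k hk
    set Δ : ℚ := (N : ℚ) ^ m * (Nat.lcmUpto m : ℚ) ^ W * (Nat.lcmUpto k : ℚ) ^ W *
      (∏ i, ((N : ℚ) + a i)) ^ k with hΔdef
    have hNq : (0 : ℚ) < N := by exact_mod_cast hN1
    have hl : ∀ s, (0 : ℚ) < (Nat.lcmUpto s : ℚ) := fun s => by exact_mod_cast Nat.lcmUpto_pos s
    have hΔ : 0 < Δ := by
      have h1 : 0 < ∏ i, ((N : ℚ) + a i) := Finset.prod_pos (fun i _ => by positivity)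
      have h2 := hl m
      have h3 := hl k
      positivity
    set H : ℝ := ((4 * 220 ^ W * A : ℕ) : ℝ) ^ (σ * Λ) with hH
    have hPH' : ∀ s, |((P []).coeff s : ℝ)| ≤ H := by
      intro s
      have := hPH s
      rw [hH]
      exact_mod_cast this
    set X : ℝ := 2 * (W + 1) * (k + 1) * (m + 1) * H * (N : ℝ) ^ k * (2 * (A : ℝ) / N) ^ σ with hX
    have hsm := h5 ι a W A N m σ H P hA (fun i => (ha i).2) hAN hP (by omega) hPH' k
    have hΔr : (Δ : ℝ) ≤ (N : ℝ) ^ m * (220 ^ m) ^ W * (220 ^ k) ^ W *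
        ((2 * N) ^ q) ^ k := by
      rw [hΔdef]
      push_cast
      have e1 : ∀ s, (Nat.lcmUpto s : ℝ) ≤ 220 ^ s := fun s => by exact_mod_cast h2 s
      have e2 : ∏ i, ((N : ℝ) + a i) ≤ (2 * N) ^ q := by
        calc ∏ i, ((N : ℝ) + a i) ≤ ∏ _i : ι, (2 * (N : ℝ)) := by
              refine Finset.prod_le_prod (fun i _ => by positivity) (fun i _ => ?_)
              have h6 : ((a i : ℕ) : ℝ) ≤ N := by exact_mod_cast hAleN i
              linarith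
          _ = (2 * N) ^ q := by simp [hq]
      have e3 : 0 ≤ ∏ i, ((N : ℝ) + a i) := Finset.prod_nonneg (fun i _ => by positivity)
      have f1 := e1 m
      have f2 := e1 k
      gcongr
    have hX0 : 0 ≤ X := by rw [hX, hH]; positivity
    have hsize := size q W M Λ n m k σ t A N (Δ : ℝ) X hM2 rfl hA hN hmle (hk.trans hK0le) hσle
      (by omega) (by
        have e1 : (q + 1) * k ≤ (q + 1) * K0 := Nat.mul_le_mul_left _ hk
        have e2 : n + m + (q + 1) * K0 + t ≤ σ := by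
          rw [hσ, hK0, hL, hM']
          simp only [Nat.add_sub_cancel]
          have e3 : (q + 1) * (M' + 1) + 2 - 1 = (q + 1) * (M' + 1) + 1 := by omega
          rw [e3]
          have e4 : (q + 1) * n = (q + 1) * C1 + (q + 1) * (1 + t) := by rw [hn]; ring
          have e5 : (q + 1) * (M' * n + C1) = (q + 1) * M' * n + (q + 1) * C1 := by ring
          have e6 : ((q + 1) * (M' + 1) + 1) * n = (q + 1) * M' * n + (q + 1) * n + n := by ring
          have e7 : 1 + t ≤ (q + 1) * (1 + t) := Nat.le_mul_of_pos_left _ (by omega)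
          rw [e5, e6, e4]
          omega
        omega) hX0 hΔr (le_of_eq hX)
    refine vanish c (fun J : Wd ι W => pk a (1 / (N : ℚ)) P k J.1) Δ hΔ
      ((Polynomial.taylor (1 / (N : ℚ)) (P [])).coeff k : ℝ)
      (fun J : Wd ι W => val (L a J.1) (1 / (N : ℝ))) X
      (fun J => h4 ι a W m k N P hN1 hP.deg hPd J.1 J.2.1 J.2.2) hc
      (fun J => hsm J.1 J.2.1 J.2.2) ?_
    have hs0 : 0 ≤ ∑ J, |(c J : ℝ)| := Finset.sum_nonneg (fun _ _ => abs_nonneg _)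
    calc (∑ J, |(c J : ℝ)|) * ((Δ : ℝ) * X) ≤ (∑ J, |(c J : ℝ)|) * (2 * (W + 1) / 2 ^ t) :=
          mul_le_mul_of_nonneg_left hsize hs0
      _ = ((∑ J, |(c J : ℝ)|) * (2 * (W + 1))) / 2 ^ t := by ring
      _ < 1 := by rw [div_lt_one (by positivity)]; exact ht
  have hz := h1 ι a W m σ K0 (1 / (N : ℚ)) P (fun J => (c J : ℚ)) hinj (fun i => (ha i).1)
    (by
      have : (0 : ℚ) < N := by exact_mod_cast hN1
      positivity) hP (by
      intro h0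
      apply hne
      funext J
      have := congrFun h0 J
      simpa using this) hvan
  rw [← hM, ← hq] at hz
  have hmdef : m = M' * Λ * n := by rw [hm, hM']; simp
  rw [hσ, hK0, hC1, hM'] at hz
  simp only [Nat.add_sub_cancel] at hz
  obtain ⟨L', hL'⟩ : ∃ L', Λ = L' + 1 := ⟨Λ - 1, by omega⟩
  rw [hL'] at hz hmdef
  simp only [Nat.add_sub_cancel] at hz
  have hM'1 : 1 ≤ M' := by omega
  nlinarith

end Pool.Agent.PLG.H_

namespace Pool.Agent.PLG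

theorem p_H (h1 : T_ZE) (h2 : T_LCM) (h3 : T_SIEG) (h4 : T_DEN) (h5 : T_AN) : T_H :=
  H_.main h1 h2 h3 h4 h5

end Pool.Agent.PLG
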