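import Pool.Agent.PLG.Targets

set_option autoImplicit false

/-!
# PLG, job IN: the differential equation of the primitives
-/

namespace Pool.Agent.PLG

open Finset
open scoped BigOperators

namespace IN_

theorem none_eq (f : PowerSeries ℚ) {ι : Type} (c : ι → ℕ) (h : PowerSeries.coeff 0 f = 0) :
    (PowerSeries.X : PowerSeries ℚ) * PowerSeries.derivative ℚ (In c none f) = f := by
  ext n
  rcases n with _ | n
  · simp [h]
  · rw [PowerSeries.coeff_succ_X_mul, PowerSeries.coeff_derivative]
    simp only [In, PowerSeries.coeff_mk]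
    push_cast
    field_simp

theorem some_eq (f : PowerSeries ℚ) {ι : Type} (c : ι → ℕ) (i : ι) :
    (1 + PowerSeries.C (c i : ℚ) * PowerSeries.X) * PowerSeries.derivative ℚ (In c (some i) f) =
      PowerSeries.C (c i : ℚ) * f := by
  have key : ∀ n, PowerSeries.coeff n (PowerSeries.derivative ℚ (In c (some i) f)) =
      ∑ j ∈ range (n + 1), PowerSeries.coeff j f * ((c i : ℚ) * (-(c i : ℚ)) ^ (n - j)) := by
    intro n
    rw [PowerSeries.coeff_derivative]
    simp only [In, PowerSeries.coeff_mk, Nat.add_sub_cancel]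
    push_cast
    have hn : ((n : ℚ) + 1) ≠ 0 := by positivity
    rw [div_mul_cancel₀ _ hn]
  ext n
  rw [add_mul, one_mul, map_add, mul_assoc, PowerSeries.coeff_C_mul, PowerSeries.coeff_C_mul, key]
  rcases n with _ | n
  · simp [mul_comm]
  · rw [PowerSeries.coeff_succ_X_mul, key, Finset.sum_range_succ _ (n + 1), Nat.sub_self, pow_zero,
      Finset.mul_sum]
    have : ∑ j ∈ range (n + 1), PowerSeries.coeff j f * ((c i : ℚ) * (-(c i : ℚ)) ^ (n + 1 - j)) =
        -∑ j ∈ range (n + 1), (c i : ℚ) *
          (PowerSeries.coeff j f * ((c i : ℚ) * (-(c i : ℚ)) ^ (n - j))) := by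
      rw [← Finset.sum_neg_distrib]
      refine Finset.sum_congr rfl fun j hj => ?_
      have hj' : j ≤ n := Nat.lt_succ_iff.1 (mem_range.1 hj)
      rw [Nat.succ_sub hj', pow_succ]
      ring
    rw [this]
    ring

end IN_

open IN_ in
theorem p_IN : T_IN := by
  intro ι _ _ c x f hx
  rcases x with _ | i
  · refine ⟨by simp [In], ?_⟩
    have h := none_eq f c (hx rfl)
    simp only [TT, Tx, Polynomial.coe_mul, Polynomial.coe_X]
    rw [mul_comm (PowerSeries.X : PowerSeries ℚ), mul_assoc, h]
  · refine ⟨by simp [In], ?_⟩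
    have h := some_eq f c i
    simp only [TT, Tx, Polynomial.coe_mul, Polynomial.coe_X, Polynomial.coe_C]
    rw [← Finset.mul_prod_erase univ (fun l => (1 + Polynomial.C (c l : ℚ) * Polynomial.X))
      (Finset.mem_univ i)]
    simp only [Polynomial.coe_mul, Polynomial.coe_add, Polynomial.coe_one, Polynomial.coe_C,
      Polynomial.coe_X]
    generalize ((∏ l ∈ univ.erase i, (1 + Polynomial.C (c l : ℚ) * Polynomial.X) :
      Polynomial ℚ) : PowerSeries ℚ) = Q
    calc PowerSeries.X * ((1 + PowerSeries.C (c i : ℚ) * PowerSeries.X) * Q) *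
          PowerSeries.derivative ℚ (In c (some i) f) =
        PowerSeries.X * Q * ((1 + PowerSeries.C (c i : ℚ) * PowerSeries.X) *
          PowerSeries.derivative ℚ (In c (some i) f)) := by ring
      _ = _ := by rw [h]; ring

end Pool.Agent.PLG
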