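import Pool.Agent.PLG.Targets

set_option autoImplicit false

/-!
# PLG-LI: the hyperlogarithms are linearly independent over the rational functions
-/

open Finset
open scoped BigOperators

namespace Pool.Agent.PLG

namespace LI_

theorem ok_tail {ι : Type} (x : Option ι) (u : List (Option ι)) (h : ok (x :: u)) : ok u := by
  rcases u with _ | ⟨y, u⟩
  · trivial
  · exact h

section

variable {ι : Type} {W : ℕ}

/-- the underlying word -/
def wl (w : Wd ι W) : List (Option ι) := w.1

/-- the word as an element of `Wd` -/
def mkW (u : List (Option ι)) (h : u.length ≤ W ∧ ok u) : Wd ι W := ⟨u, h⟩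

theorem wl_mk (u : List (Option ι)) (h : u.length ≤ W ∧ ok u) : wl (mkW u h : Wd ι W) = u := rfl

theorem wl_prop (w : Wd ι W) : (wl w).length ≤ W ∧ ok (wl w) := w.2

theorem wl_inj {w w' : Wd ι W} (h : wl w = wl w') : w = w' := Subtype.ext h

variable [Fintype ι]

open Classical in
theorem ex_sum (F : Wd ι W → Polynomial ℚ) (u : List (Option ι)) :
    ex F u = ∑ w : Wd ι W, if wl w = u then F w else 0 := by
  by_cases h : u.length ≤ W ∧ ok u
  · have e : ex F u = F (mkW u h) := by
      unfold ex
      rw [dif_pos h]
      rfl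
    rw [e, Finset.sum_eq_single (mkW u h)]
    · rw [if_pos (wl_mk u h)]
    · intro b _ hb
      rw [if_neg]
      intro e
      exact hb (wl_inj (e.trans (wl_mk u h).symm))
    · intro h'
      exact absurd (Finset.mem_univ _) h'
  · have e : ex F u = 0 := by
      unfold ex
      rw [dif_neg h]
    rw [e]
    symm
    refine Finset.sum_eq_zero fun w _ => ?_
    rw [if_neg]
    intro e
    exact h (e ▸ wl_prop w)

/-- rearrangement of the sum over words -/
theorem rearr (F : Wd ι W → Polynomial ℚ) (g : Option ι → List (Option ι) → PowerSeries ℚ)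
    (G : Wd ι W → PowerSeries ℚ) (h0 : ∀ w : Wd ι W, wl w = [] → G w = 0)
    (h1 : ∀ (w : Wd ι W) (x : Option ι) (u : List (Option ι)), wl w = x :: u → G w = g x u) :
    ∑ v : Wd ι W, ∑ x : Option ι, (ex F (x :: wl v) : PowerSeries ℚ) * g x (wl v) =
      ∑ w : Wd ι W, (F w : PowerSeries ℚ) * G w := by
  classical
  have e1 : ∀ u : List (Option ι), (ex F u : PowerSeries ℚ) =
      ∑ w : Wd ι W, if wl w = u then (F w : PowerSeries ℚ) else 0 := by
    intro u
    rw [ex_sum, ← Polynomial.coeToPowerSeries.ringHom_apply, map_sum]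
    refine Finset.sum_congr rfl fun w _ => ?_
    split_ifs
    · rfl
    · exact map_zero _
  calc ∑ v : Wd ι W, ∑ x : Option ι, (ex F (x :: wl v) : PowerSeries ℚ) * g x (wl v)
      = ∑ v : Wd ι W, ∑ x : Option ι, ∑ w : Wd ι W,
          (if wl w = x :: wl v then (F w : PowerSeries ℚ) else 0) * g x (wl v) := by
        refine Finset.sum_congr rfl fun v _ => Finset.sum_congr rfl fun x _ => ?_
        rw [e1, Finset.sum_mul]
    _ = ∑ v : Wd ι W, ∑ w : Wd ι W, ∑ x : Option ι,
          (if wl w = x :: wl v then (F w : PowerSeries ℚ) else 0) * g x (wl v) :=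
        Finset.sum_congr rfl fun v _ => Finset.sum_comm
    _ = ∑ w : Wd ι W, ∑ v : Wd ι W, ∑ x : Option ι,
          (if wl w = x :: wl v then (F w : PowerSeries ℚ) else 0) * g x (wl v) :=
        Finset.sum_comm
    _ = ∑ w : Wd ι W, (F w : PowerSeries ℚ) * G w := by
        refine Finset.sum_congr rfl fun w _ => ?_
        rcases hw : wl w with _ | ⟨y, u⟩
        · rw [h0 w hw, mul_zero]
          refine Finset.sum_eq_zero fun v _ => Finset.sum_eq_zero fun x _ => ?_
          rw [if_neg (by simp), zero_mul]
        · rw [h1 w y u hw]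
          have hu : u.length ≤ W ∧ ok u := by
            have h2 := wl_prop w
            rw [hw] at h2
            refine ⟨?_, ok_tail y u h2.2⟩
            have := h2.1
            rw [List.length_cons] at this
            omega
          rw [Finset.sum_eq_single (mkW u hu), Finset.sum_eq_single y]
          · rw [wl_mk, if_pos rfl]
          · intro x _ hx
            rw [if_neg, zero_mul]
            intro e
            exact hx (List.cons.inj e).1.symm
          · intro h'
            exact absurd (Finset.mem_univ _) h'
          · intro v _ hv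
            refine Finset.sum_eq_zero fun x _ => ?_
            rw [if_neg, zero_mul]
            intro e
            exact hv (wl_inj (List.cons.inj e).2.symm)
          · intro h'
            exact absurd (Finset.mem_univ _) h'

omit [Fintype ι] in
theorem coeff_In (c : ι → ℕ) (x : Option ι) (f : PowerSeries ℚ) :
    PowerSeries.coeff 0 (In c x f) = 0 := by
  cases x <;> simp [In]

variable [DecidableEq ι]

theorem key (h2 : T_IN) (c : ι → ℕ) (F : Wd ι W → Polynomial ℚ) :
    ∑ w : Wd ι W, (dl c F w : PowerSeries ℚ) * L c (wl w) =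
      (TT c : PowerSeries ℚ) * PowerSeries.derivative ℚ
        (∑ w : Wd ι W, (F w : PowerSeries ℚ) * L c (wl w)) := by
  classical
  set G : Wd ι W → PowerSeries ℚ := fun w =>
    (TT c : PowerSeries ℚ) * PowerSeries.derivative ℚ (L c (wl w)) with hG
  have h0 : ∀ w : Wd ι W, wl w = [] → G w = 0 := by
    intro w hw
    simp only [hG, hw, L]
    simp
  have h1 : ∀ (w : Wd ι W) (x : Option ι) (u : List (Option ι)), wl w = x :: u →
      G w = (Tx c x : PowerSeries ℚ) * L c u := by
    intro w x u hw
    simp only [hG, hw, L]
    refine (h2 ι c x (L c u) ?_).2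
    intro hx
    rcases u with _ | ⟨y, u⟩
    · exfalso
      have := (wl_prop w).2
      rw [hw] at this
      exact this hx
    · exact coeff_In c y _
  have hr := rearr F (fun x u => (Tx c x : PowerSeries ℚ) * L c u) G h0 h1
  have hL : ∀ w : Wd ι W, (dl c F w : PowerSeries ℚ) * L c (wl w) =
      (TT c : PowerSeries ℚ) * (Polynomial.derivative (F w) : PowerSeries ℚ) * L c (wl w) +
      ∑ x : Option ι, (ex F (x :: wl w) : PowerSeries ℚ) *
        ((Tx c x : PowerSeries ℚ) * L c (wl w)) := by
    intro w
    have e : dl c F w = TT c * Polynomial.derivative (F w) +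
      ∑ x : Option ι, Tx c x * ex F (x :: wl w) := rfl
    rw [e, Polynomial.coe_add, Polynomial.coe_mul, ← Polynomial.coeToPowerSeries.ringHom_apply
      (φ := ∑ x : Option ι, Tx c x * ex F (x :: wl w)), map_sum, add_mul, Finset.sum_mul]
    congr 1
    refine Finset.sum_congr rfl fun x _ => ?_
    rw [Polynomial.coeToPowerSeries.ringHom_apply, Polynomial.coe_mul]
    ring
  rw [Finset.sum_congr rfl fun w _ => hL w, Finset.sum_add_distrib, hr, map_sum, Finset.mul_sum,
    ← Finset.sum_add_distrib]
  refine Finset.sum_congr rfl fun w _ => ?_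
  rw [Derivation.leibniz, PowerSeries.derivative_coe]
  simp only [hG, smul_eq_mul]
  ring

end

end LI_

open LI_

theorem p_LI (h1 : T_ABS) (h2 : T_IN) : T_LI := by
  classical
  intro ι _ _ c W hc hc1 F hF
  let N : Submodule (Polynomial ℚ) (Wd ι W → Polynomial ℚ) :=
    { carrier := {F | ∑ w, (F w : PowerSeries ℚ) * L c (wl w) = 0}
      add_mem' := by
        intro a b ha hb
        simp only [Set.mem_ofPred_eq, Pi.add_apply, Polynomial.coe_add, add_mul,
          Finset.sum_add_distrib] at ha hb ⊢
        rw [ha, hb, add_zero]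
      zero_mem' := by simp
      smul_mem' := by
        intro p a ha
        simp only [Set.mem_ofPred_eq, Pi.smul_apply, smul_eq_mul, Polynomial.coe_mul] at ha ⊢
        simp only [mul_assoc]
        rw [← Finset.mul_sum, ha, mul_zero] }
  refine h1 ι c W hc hc1 N ?_ ?_ F hF
  · intro F hF
    change ∑ w, (F w : PowerSeries ℚ) * L c (wl w) = 0 at hF
    change ∑ w : Wd ι W, (dl c F w : PowerSeries ℚ) * L c (wl w) = 0
    rw [key h2, hF, map_zero, mul_zero]
  · intro F hF hw
    change ∑ w, (F w : PowerSeries ℚ) * L c (wl w) = 0 at hF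
    have hne : (([] : List (Option ι)).length ≤ W ∧ ok ([] : List (Option ι))) :=
      ⟨Nat.zero_le _, trivial⟩
    rw [Finset.sum_eq_single (mkW [] hne)] at hF
    · rw [wl_mk] at hF
      simp only [L, mul_one] at hF
      have h3 : F (mkW [] hne) = 0 := by
        have : ((F (mkW [] hne) : Polynomial ℚ) : PowerSeries ℚ) =
            ((0 : Polynomial ℚ) : PowerSeries ℚ) := by
          rw [hF]; simp
        exact Polynomial.coe_injective ℚ this
      funext w
      by_cases h4 : wl w = []
      · have : w = mkW [] hne := wl_inj h4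
        rw [this, h3]
        rfl
      · exact hw w h4
    · intro b _ hb
      rw [hw b (fun e => hb (wl_inj e))]
      simp
    · intro h'
      exact absurd (Finset.mem_univ _) h'

end Pool.Agent.PLG
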