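import Pool.Agent.PLG.Targets

set_option autoImplicit false

/-!
Reduction of the count for `n` points to the count for one point (`T_MULTI`).
-/

namespace Pool.Agent.PLG

namespace MULTI_

open Finset

section split

variable {A B : Type}

/-- the exponents of the first kind of variables -/
noncomputable def rA (u : A ⊕ B →₀ ℕ) : A →₀ ℕ := u.comapDomain Sum.inl Sum.inl_injective.injOn

/-- the exponents of the second kind of variables -/
noncomputable def rB (u : A ⊕ B →₀ ℕ) : B →₀ ℕ := u.comapDomain Sum.inr Sum.inr_injective.injOn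

theorem r_eq (u : A ⊕ B →₀ ℕ) : (rA u).sumElim (rB u) = u :=
  Finsupp.comapDomain_sumElim_comapDomain u

open Classical in
/-- the coefficient of a monomial in the second kind of variables -/
noncomputable def cf (P : MvPolynomial (A ⊕ B) ℤ) (m : B →₀ ℕ) : MvPolynomial A ℤ :=
  ∑ u ∈ P.support with rB u = m, MvPolynomial.monomial (rA u) (P.coeff u)

theorem cf_deg (P : MvPolynomial (A ⊕ B) ℤ) (m : B →₀ ℕ) :
    (cf P m).totalDegree ≤ P.totalDegree := by
  classical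
  unfold cf
  apply MvPolynomial.totalDegree_finsetSum_le
  intro u hu
  refine (MvPolynomial.totalDegree_monomial_le _ _).trans ?_
  refine le_trans ?_ (MvPolynomial.le_totalDegree (Finset.mem_filter.1 hu).1)
  have h1 : (u.sum fun _ e => e) = ((rA u).sumElim (rB u)).sum fun _ e => e := by rw [r_eq]
  rw [h1, Finsupp.sum_sumElim]
  exact Nat.le_add_right _ _

/-- expansion in the second kind of variables -/
theorem aeval_split (P : MvPolynomial (A ⊕ B) ℤ) : ∃ T : Finset (B →₀ ℕ),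
    ∀ (S : Type) [CommRing S] [Algebra ℤ S] (x : A → S) (y : B → S),
      MvPolynomial.aeval (Sum.elim x y) P =
      ∑ m ∈ T, MvPolynomial.aeval x (cf P m) * m.prod fun i e => y i ^ e := by
  classical
  refine ⟨P.support.image rB, ?_⟩
  intro S _ _ x y
  have h1 : MvPolynomial.aeval (Sum.elim x y) P = ∑ u ∈ P.support,
      (algebraMap ℤ S (P.coeff u) * (rA u).prod fun i e => x i ^ e) *
        (rB u).prod fun i e => y i ^ e := by
    rw [MvPolynomial.aeval_def, MvPolynomial.eval₂_eq]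
    refine Finset.sum_congr rfl fun u _ => ?_
    have h2 : ∏ i ∈ u.support, Sum.elim x y i ^ u i =
        u.prod (fun i e => Sum.elim x y i ^ e) := rfl
    rw [h2]
    have h3 : u.prod (fun i e => Sum.elim x y i ^ e) =
        ((rA u).sumElim (rB u)).prod (fun i e => Sum.elim x y i ^ e) := by rw [r_eq]
    rw [h3, Finsupp.prod_sumElim, mul_assoc]
    rfl
  rw [h1]
  rw [← Finset.sum_fiberwise_of_maps_to (s := P.support) (t := P.support.image rB) (g := rB)
    (fun u hu => Finset.mem_image_of_mem rB hu)]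
  refine Finset.sum_congr rfl fun m _ => ?_
  unfold cf
  rw [map_sum, Finset.sum_mul]
  refine Finset.sum_congr rfl fun u hu => ?_
  rw [(Finset.mem_filter.1 hu).2, MvPolynomial.aeval_monomial]

end split

/-- moving the first point to the base -/
def em (κ τ : Type) (n : ℕ) : κ ⊕ (Fin (n + 1) × τ) → (κ ⊕ τ) ⊕ (Fin n × τ) :=
  Sum.elim (fun i => Sum.inl (Sum.inl i))
    (fun v => Fin.cases (motive := fun _ => (κ ⊕ τ) ⊕ (Fin n × τ))
      (Sum.inl (Sum.inr v.2)) (fun i => Sum.inr (i, v.2)) v.1)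

theorem em_comp {κ τ : Type} {n : ℕ} {S : Type} (θ : κ → S) (z : Fin (n + 1) × τ → S) :
    (Sum.elim (Sum.elim θ fun a => z (0, a)) fun v : Fin n × τ => z (v.1.succ, v.2)) ∘ em κ τ n =
      Sum.elim θ z := by
  funext i
  rcases i with i | ⟨i, a⟩
  · rfl
  · refine Fin.cases ?_ (fun i => ?_) i
    · rfl
    · rfl

/-- either the first point satisfies a relation or the other points satisfy a relation over the
field of the first one -/
theorem exc_cases {κ τ : Type} (n D : ℕ) (θ : κ → ℂ) (y : Fin (n + 1) × τ → ℂ)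
    (h : HasRel D θ y) : HasRel D θ (fun a => y (0, a)) ∨
      HasRel D (Sum.elim θ fun a => y (0, a)) (fun v : Fin n × τ => y (v.1.succ, v.2)) := by
  classical
  obtain ⟨P, hdeg, hne, hval⟩ := h
  set P' := MvPolynomial.rename (em κ τ n) P with hP'
  have hdeg' : P'.totalDegree ≤ D := (MvPolynomial.totalDegree_rename_le _ _).trans hdeg
  have hval' : MvPolynomial.aeval (Sum.elim (Sum.elim θ fun a => y (0, a))
      (fun v : Fin n × τ => y (v.1.succ, v.2))) P' = 0 := by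
    rw [hP', MvPolynomial.aeval_rename, em_comp]
    exact hval
  by_cases hsp : spec (Sum.elim θ fun a => y (0, a)) P' = 0
  · left
    obtain ⟨T, hT⟩ := aeval_split P'
    -- all the coefficients vanish at the first point
    have hz : ∀ m ∈ T, MvPolynomial.aeval (Sum.elim θ fun a => y (0, a)) (cf P' m) = 0 := by
      have h1 := hT (MvPolynomial (Fin n × τ) ℂ)
        (fun i => MvPolynomial.C ((Sum.elim θ fun a => y (0, a)) i)) MvPolynomial.X
      unfold spec at hsp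
      rw [hsp] at h1
      have h2 : ∀ m : Fin n × τ →₀ ℕ, MvPolynomial.aeval
          (fun i => MvPolynomial.C ((Sum.elim θ fun a => y (0, a)) i)) (cf P' m) *
          (m.prod fun i e => (MvPolynomial.X i : MvPolynomial (Fin n × τ) ℂ) ^ e) =
          MvPolynomial.monomial m
            (MvPolynomial.aeval (Sum.elim θ fun a => y (0, a)) (cf P' m)) := by
        intro m
        rw [MvPolynomial.monomial_eq]
        congr 1
        have h3 := MvPolynomial.comp_aeval_apply (R := ℤ) (Sum.elim θ fun a => y (0, a))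
          ((MvPolynomial.C : ℂ →+* MvPolynomial (Fin n × τ) ℂ).toIntAlgHom) (cf P' m)
        exact h3.symm
      simp only [h2] at h1
      intro m hm
      have h4 := congrArg (MvPolynomial.coeff m) h1
      rw [MvPolynomial.coeff_sum] at h4
      simp only [MvPolynomial.coeff_zero, MvPolynomial.coeff_monomial, Finset.sum_ite_eq', hm,
        if_true] at h4
      exact h4.symm
    -- some coefficient is not identically zero
    by_contra hcon
    apply hne
    have hz2 : ∀ m ∈ T, spec θ (cf P' m) = 0 := by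
      intro m hm
      by_contra hc
      exact hcon ⟨cf P' m, (cf_deg P' m).trans hdeg', hc, hz m hm⟩
    have h1 := hT (MvPolynomial (Fin (n + 1) × τ) ℂ)
      (Sum.elim (fun i => MvPolynomial.C (θ i)) fun a => MvPolynomial.X (0, a))
      (fun v => MvPolynomial.X (v.1.succ, v.2))
    have h2 : spec θ P = MvPolynomial.aeval
        (Sum.elim (Sum.elim (fun i => MvPolynomial.C (θ i)) fun a => MvPolynomial.X (0, a))
          (fun v : Fin n × τ => (MvPolynomial.X (v.1.succ, v.2) :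
            MvPolynomial (Fin (n + 1) × τ) ℂ))) P' := by
      rw [hP', MvPolynomial.aeval_rename]
      unfold spec
      congr 2
      exact (em_comp (fun i => MvPolynomial.C (θ i)) MvPolynomial.X).symm
    rw [h2, h1]
    refine Finset.sum_eq_zero fun m hm => ?_
    have h3 : MvPolynomial.aeval (Sum.elim (fun i => MvPolynomial.C (θ i))
        fun a => (MvPolynomial.X (0, a) : MvPolynomial (Fin (n + 1) × τ) ℂ)) (cf P' m) =
        MvPolynomial.rename (fun a : τ => ((0 : Fin (n + 1)), a)) (spec θ (cf P' m)) := by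
      unfold spec
      have h4 := MvPolynomial.comp_aeval_apply (R := ℤ)
        (Sum.elim (fun i => MvPolynomial.C (θ i)) (MvPolynomial.X : τ → MvPolynomial τ ℂ))
        ((MvPolynomial.rename (R := ℂ) (fun a : τ => ((0 : Fin (n + 1)), a))).restrictScalars ℤ)
        (cf P' m)
      refine Eq.trans ?_ h4.symm
      congr 2
      funext i
      rcases i with i | i
      · simp
      · simp
    rw [h3, hz2 m hm, map_zero, zero_mul]
  · right
    exact ⟨P', hdeg', hsp, hval'⟩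

theorem empty_rel {κ σ : Type} [IsEmpty σ] (D : ℕ) (θ : κ → ℂ) (v : σ → ℂ) : ¬ HasRel D θ v := by
  rintro ⟨P, -, hne, hval⟩
  apply hne
  have h1 : MvPolynomial.aeval v (spec θ P) = 0 := by
    rw [← hval]
    unfold spec
    have h4 := MvPolynomial.comp_aeval_apply (R := ℤ)
        (Sum.elim (fun i => MvPolynomial.C (θ i)) (MvPolynomial.X : σ → MvPolynomial σ ℂ))
        ((MvPolynomial.aeval (R := ℂ) v).restrictScalars ℤ) P
    refine Eq.trans h4 ?_
    congr 2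
    funext i
    rcases i with i | i
    · simp
    · simp
  rw [MvPolynomial.eq_C_of_isEmpty (spec θ P)] at h1 ⊢
  rw [MvPolynomial.aeval_C] at h1
  have h2 : MvPolynomial.coeff 0 (spec θ P) = 0 := h1
  rw [h2, map_zero]

/-- the box -/
def box (n R0 T : ℕ) : Set (Fin n → ℕ) := {t | ∀ i, R0 < t i ∧ t i ≤ T}

theorem box_eq (n R0 T : ℕ) : box n R0 T =
    ((Fintype.piFinset (fun _ : Fin n => Finset.Ioc R0 T) : Finset (Fin n → ℕ)) :
        Set (Fin n → ℕ)) := by
  ext x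
  simp only [box, Set.mem_ofPred_eq, Finset.mem_coe, Fintype.mem_piFinset, Finset.mem_Ioc]

theorem ncard_box (n R0 T : ℕ) : (box n R0 T).ncard ≤ T ^ n := by
  rw [box_eq, Set.ncard_coe_finset, Fintype.card_piFinset]
  simp only [Nat.card_Ioc, Finset.prod_const, Finset.card_univ, Fintype.card_fin]
  exact Nat.pow_le_pow_left (Nat.sub_le _ _) n

theorem finite_box (n R0 T : ℕ) : (box n R0 T).Finite := by
  rw [box_eq]
  exact Finset.finite_toSet _

section count

variable {g s : ℕ} (R0 : ℕ) (ρ : Fin g → ℤ)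

/-- exceptional numbers -/
def E1 (s : ℕ) {κ : Type} (D T : ℕ) (θ : κ → ℂ) : Set ℕ :=
  {t : ℕ | (R0 < t ∧ t ≤ T) ∧ HasRel D θ (per s ρ t)}

/-- exceptional tuples -/
def En (s n : ℕ) {κ : Type} (D T : ℕ) (θ : κ → ℂ) : Set (Fin n → ℕ) :=
  {t : Fin n → ℕ | (∀ i, R0 < t i ∧ t i ≤ T) ∧
    HasRel D θ (fun v : Fin n × Option (Fin g × Fin s) => per s ρ (t v.1) v.2)}

theorem count_le (n : ℕ) {κ : Type} (D : ℕ) (θ : κ → ℂ) (T : ℕ) (M : ℝ) (hM0 : 0 ≤ M)
    (hM : ∀ z : Option (Fin g × Fin s) → ℂ, ((En R0 ρ s n D T (Sum.elim θ z)).ncard : ℝ) ≤ M) :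
    ((En R0 ρ s (n + 1) D T θ).ncard : ℝ) ≤
      ((E1 R0 ρ s D T θ).ncard : ℝ) * (T : ℝ) ^ n + T * M := by
  classical
  set A : Set ℕ := E1 R0 ρ s D T θ with hA
  set B : Set (Fin n → ℕ) := box n R0 T with hB
  set E : ℕ → Set (Fin n → ℕ) := fun t0 =>
    En R0 ρ s n D T (Sum.elim θ (per s ρ t0)) with hE
  have hAf : A.Finite := (Set.finite_Ioc R0 T).subset fun t ht => ht.1
  have hBf : B.Finite := finite_box n R0 T
  have hEf : ∀ t0, (E t0).Finite := fun t0 => hBf.subset fun t ht => ht.1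
  let cn : ℕ → (Fin n → ℕ) → (Fin (n + 1) → ℕ) := fun a b => Fin.cons a b
  let U1 : Set (Fin (n + 1) → ℕ) := (fun p : ℕ × (Fin n → ℕ) => cn p.1 p.2) '' (A ×ˢ B)
  let U2 : Set (Fin (n + 1) → ℕ) := ⋃ a ∈ Finset.Ioc R0 T, (cn a) '' (E a)
  have hU1f : U1.Finite := (hAf.prod hBf).image _
  have hU2f : U2.Finite := Set.Finite.biUnion (Finset.finite_toSet _) fun a _ => (hEf a).image _
  have hsub : En R0 ρ s (n + 1) D T θ ⊆ U1 ∪ U2 := by
    rintro t ⟨htp, ht⟩
    have h0 : R0 < t 0 ∧ t 0 ≤ T := htp 0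
    have htl : Fin.tail t ∈ B := fun i => htp i.succ
    rcases exc_cases n D θ _ ht with h | h
    · left
      exact ⟨(t 0, Fin.tail t), ⟨⟨h0, h⟩, htl⟩, Fin.cons_self_tail t⟩
    · right
      simp only [U2, Set.mem_iUnion]
      exact ⟨t 0, Finset.mem_Ioc.2 h0, Fin.tail t, ⟨htl, h⟩, Fin.cons_self_tail t⟩
  have hc1 : U1.ncard ≤ A.ncard * T ^ n := by
    calc U1.ncard ≤ (A ×ˢ B).ncard := Set.ncard_image_le (hAf.prod hBf)
      _ = A.ncard * B.ncard := Set.ncard_prod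
      _ ≤ A.ncard * T ^ n := Nat.mul_le_mul_left _ (ncard_box n R0 T)
  have hc2 : U2.ncard ≤ ∑ a ∈ Finset.Ioc R0 T, (E a).ncard := by
    calc U2.ncard ≤ ∑ a ∈ Finset.Ioc R0 T, ((cn a) '' (E a)).ncard :=
          Finset.set_ncard_biUnion_le _ _
      _ ≤ ∑ a ∈ Finset.Ioc R0 T, (E a).ncard :=
          Finset.sum_le_sum fun a _ => Set.ncard_image_le (hEf a)
  have hc3 : (∑ a ∈ Finset.Ioc R0 T, ((E a).ncard : ℝ)) ≤ T * M := by
    calc (∑ a ∈ Finset.Ioc R0 T, ((E a).ncard : ℝ)) ≤ ∑ a ∈ Finset.Ioc R0 T, M :=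
          Finset.sum_le_sum fun a _ => hM _
      _ = ((T - R0 : ℕ) : ℝ) * M := by simp
      _ ≤ T * M := by
          apply mul_le_mul_of_nonneg_right _ hM0
          exact_mod_cast Nat.sub_le _ _
  have hc4 : (En R0 ρ s (n + 1) D T θ).ncard ≤ U1.ncard + U2.ncard :=
    (Set.ncard_le_ncard hsub (hU1f.union hU2f)).trans (Set.ncard_union_le _ _)
  calc ((En R0 ρ s (n + 1) D T θ).ncard : ℝ)
      ≤ (U1.ncard : ℝ) + (U2.ncard : ℝ) := by exact_mod_cast hc4
    _ ≤ (A.ncard : ℝ) * (T : ℝ) ^ n + ∑ a ∈ Finset.Ioc R0 T, ((E a).ncard : ℝ) := by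
        have h1 : (U1.ncard : ℝ) ≤ (A.ncard : ℝ) * (T : ℝ) ^ n := by exact_mod_cast hc1
        have h2 : (U2.ncard : ℝ) ≤ ∑ a ∈ Finset.Ioc R0 T, ((E a).ncard : ℝ) := by
          exact_mod_cast hc2
        linarith
    _ ≤ (A.ncard : ℝ) * (T : ℝ) ^ n + T * M := by linarith

end count

theorem inv_le {K1 K : ℕ} (h1 : 1 ≤ K1) (h : K1 ≤ K) : 1 / (K : ℝ) ≤ 1 / (K1 : ℝ) := by
  have h1' : (0 : ℝ) < (K1 : ℝ) := by exact_mod_cast h1
  have h' : (K1 : ℝ) ≤ (K : ℝ) := by exact_mod_cast h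
  exact one_div_le_one_div_of_le h1' h'

end MULTI_

open MULTI_ in
theorem p_MULTI (hone : T_ONE) : T_MULTI := by
  intro g s R0 ρ hρ hρ0 n
  induction n with
  | zero =>
    intro κ _ D
    refine ⟨1, le_refl 1, fun T θ hT => ?_⟩
    have h : {t : Fin 0 → ℕ | (∀ i, R0 < t i ∧ t i ≤ T) ∧
        HasRel D θ (fun v : Fin 0 × Option (Fin g × Fin s) => per s ρ (t v.1) v.2)} = ∅ := by
      ext t
      simp only [Set.mem_empty_iff_false, iff_false]
      rintro ⟨-, h⟩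
      exact empty_rel D θ _ h
    rw [h, Set.ncard_empty]
    have h1 : (0 : ℝ) ≤ (T : ℝ) ^ (((0 : ℕ) : ℝ) - 1 / ((1 : ℕ) : ℝ)) :=
      Real.rpow_nonneg (Nat.cast_nonneg T) _
    have h2 : (0 : ℝ) ≤ ((1 : ℕ) : ℝ) := by norm_num
    simpa using mul_nonneg h2 h1
  | succ n ih =>
    intro κ _ D
    obtain ⟨K1, hK1, h1⟩ := hone g s R0 ρ hρ hρ0 κ D
    obtain ⟨K2, hK2, h2⟩ := ih (κ ⊕ Option (Fin g × Fin s)) D
    refine ⟨K1 + K2, by omega, fun T θ hT => ?_⟩
    have hT1 : (1 : ℝ) ≤ (T : ℝ) := by exact_mod_cast hT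
    have hT0 : (0 : ℝ) < (T : ℝ) := by linarith
    have hM0 : 0 ≤ (K2 : ℝ) * (T : ℝ) ^ ((n : ℝ) - 1 / (K2 : ℝ)) := by positivity
    refine (count_le (s := s) R0 ρ n D θ T _ hM0 (fun z => h2 T (Sum.elim θ z) hT)).trans ?_
    have ha : ((E1 R0 ρ s D T θ).ncard : ℝ) ≤ K1 * (T : ℝ) ^ (1 - 1 / (K1 : ℝ)) :=
      h1 T θ hT
    have i1 : 1 / ((K1 + K2 : ℕ) : ℝ) ≤ 1 / (K1 : ℝ) := inv_le hK1 (Nat.le_add_right _ _)
    have i2 : 1 / ((K1 + K2 : ℕ) : ℝ) ≤ 1 / (K2 : ℝ) := inv_le hK2 (Nat.le_add_left _ _)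
    set k0 : ℝ := 1 / ((K1 + K2 : ℕ) : ℝ) with hk0
    set k1 : ℝ := 1 / (K1 : ℝ) with hk1
    set k2 : ℝ := 1 / (K2 : ℝ) with hk2
    have p1 : (T : ℝ) ^ (1 - k1) * (T : ℝ) ^ n ≤ (T : ℝ) ^ (((n + 1 : ℕ) : ℝ) - k0) := by
      rw [← Real.rpow_natCast, ← Real.rpow_add hT0]
      apply Real.rpow_le_rpow_of_exponent_le hT1
      push_cast
      linarith
    have p2 : (T : ℝ) * (T : ℝ) ^ ((n : ℝ) - k2) ≤ (T : ℝ) ^ (((n + 1 : ℕ) : ℝ) - k0) := by
      nth_rewrite 1 [← Real.rpow_one (T : ℝ)]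
      rw [← Real.rpow_add hT0]
      apply Real.rpow_le_rpow_of_exponent_le hT1
      push_cast
      linarith
    have hK1' : (0 : ℝ) ≤ (K1 : ℝ) := Nat.cast_nonneg _
    have hK2' : (0 : ℝ) ≤ (K2 : ℝ) := Nat.cast_nonneg _
    have q1 : ((E1 R0 ρ s D T θ).ncard : ℝ) * (T : ℝ) ^ n ≤
        K1 * (T : ℝ) ^ (((n + 1 : ℕ) : ℝ) - k0) := by
      calc ((E1 R0 ρ s D T θ).ncard : ℝ) * (T : ℝ) ^ n
          ≤ (K1 * (T : ℝ) ^ (1 - k1)) * (T : ℝ) ^ n := by gcongr
        _ = K1 * ((T : ℝ) ^ (1 - k1) * (T : ℝ) ^ n) := by ring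
        _ ≤ K1 * (T : ℝ) ^ (((n + 1 : ℕ) : ℝ) - k0) := by gcongr
    have q2 : (T : ℝ) * (K2 * (T : ℝ) ^ ((n : ℝ) - k2)) ≤
        K2 * (T : ℝ) ^ (((n + 1 : ℕ) : ℝ) - k0) := by
      calc (T : ℝ) * (K2 * (T : ℝ) ^ ((n : ℝ) - k2))
          = K2 * ((T : ℝ) * (T : ℝ) ^ ((n : ℝ) - k2)) := by ring
        _ ≤ K2 * (T : ℝ) ^ (((n + 1 : ℕ) : ℝ) - k0) := by gcongr
    calc _ ≤ K1 * (T : ℝ) ^ (((n + 1 : ℕ) : ℝ) - k0) +
          K2 * (T : ℝ) ^ (((n + 1 : ℕ) : ℝ) - k0) := add_le_add q1 q2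
      _ = ((K1 + K2 : ℕ) : ℝ) * (T : ℝ) ^ (((n + 1 : ℕ) : ℝ) - k0) := by push_cast; ring

end Pool.Agent.PLG
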