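import Pool.Agent.PLG.Targets

set_option autoImplicit false

/-!
# PLG-NONZ: the determinant of the iterates does not vanish
-/

open Finset Polynomial
open scoped BigOperators

namespace Pool.Agent.PLG

namespace NONZ_

variable {ι : Type} [Fintype ι] [DecidableEq ι]

/-- the part of `nb` coming from the tail -/
noncomputable def tl (c : ι → ℕ) (V : List (Option ι) → ℚ[X]) : List (Option ι) → ℚ[X]
  | [] => 0
  | x :: w => Tx c x * V w

theorem nb_eq (c : ι → ℕ) (V : List (Option ι) → ℚ[X]) (w : List (Option ι)) :
    nb c V w = TT c * derivative (V w) - tl c V w := by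
  cases w with
  | nil => simp [nb, tl]
  | cons x w => simp [nb, tl]

omit [Fintype ι] [DecidableEq ι] in
theorem ok_tail {x : Option ι} {l : List (Option ι)} (h : ok (x :: l)) : ok l := by
  cases l with
  | nil => trivial
  | cons y l => exact h

theorem sum_tail (c : ι → ℕ) (W : ℕ) (V : List (Option ι) → ℚ[X]) (F : Wd ι W → ℚ[X]) :
    ∑ w : Wd ι W, tl c V w.1 * F w =
      ∑ v : Wd ι W, V v.1 * ∑ x : Option ι, Tx c x * ex F (x :: v.1) := by
  classical
  have h1 : ∀ w : Wd ι W, tl c V w.1 * F w =
      ∑ v : Wd ι W, ∑ x : Option ι, if x :: v.1 = w.1 then V v.1 * (Tx c x * F w) else 0 := by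
    intro w
    rcases hw : w.1 with _ | ⟨y, l⟩
    · simp [tl]
    · have hl : l.length ≤ W ∧ ok l := by
        have h2 := w.2
        rw [hw] at h2
        refine ⟨?_, ok_tail h2.2⟩
        have := h2.1
        simp only [List.length_cons] at this
        omega
      symm
      refine (Finset.sum_eq_single (⟨l, hl⟩ : Wd ι W) ?_ ?_).trans ?_
      · intro v _ hv
        refine Finset.sum_eq_zero fun x _ => ?_
        refine if_neg ?_
        intro h
        apply hv
        simp only [List.cons.injEq] at h
        exact Subtype.ext h.2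
      · intro h; exact absurd (Finset.mem_univ (α := Wd ι W) _) h
      · refine (Finset.sum_eq_single y ?_ ?_).trans ?_
        · intro x _ hx
          refine if_neg ?_
          intro h
          simp only [List.cons.injEq] at h
          exact hx h.1
        · intro h; exact absurd (Finset.mem_univ _) h
        · refine (if_pos rfl).trans ?_
          show V l * (Tx c y * F w) = Tx c y * V l * F w
          ring
  rw [Finset.sum_congr rfl fun w _ => h1 w, Finset.sum_comm]
  refine Finset.sum_congr rfl fun v _ => ?_
  rw [Finset.sum_comm, Finset.mul_sum]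
  refine Finset.sum_congr rfl fun x _ => ?_
  by_cases h : (x :: v.1).length ≤ W ∧ ok (x :: v.1)
  · have e : ex F (x :: v.1) = F ⟨x :: v.1, h⟩ := dif_pos h
    rw [e]
    refine (Finset.sum_eq_single (⟨x :: v.1, h⟩ : Wd ι W) ?_ ?_).trans ?_
    · intro w _ hw
      refine if_neg ?_
      intro e
      exact hw (Subtype.ext e.symm)
    · intro h; exact absurd (Finset.mem_univ (α := Wd ι W) _) h
    · exact if_pos rfl
  · have e : ex F (x :: v.1) = 0 := dif_neg h
    rw [e, mul_zero, mul_zero]
    refine Finset.sum_eq_zero fun w _ => ?_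
    refine if_neg ?_
    intro e
    apply h
    rw [e]
    exact w.2

theorem ident (c : ι → ℕ) (W : ℕ) (P : List (Option ι) → ℚ[X]) (k : ℕ) (F : Wd ι W → ℚ[X]) :
    ∑ w, VV c P (k + 1) w.1 * F w = TT c * derivative (∑ w, VV c P k w.1 * F w) -
      ∑ w, VV c P k w.1 * dl c F w := by
  have h := sum_tail c W (VV c P k) F
  simp only [VV, nb_eq, dl, mul_add, Finset.sum_add_distrib, sub_mul, Finset.sum_sub_distrib]
  rw [h, derivative_sum]
  simp only [derivative_mul, Finset.mul_sum, mul_add, Finset.sum_add_distrib]
  have e1 : ∑ w : Wd ι W, TT c * derivative (VV c P k w.1) * F w =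
      ∑ w : Wd ι W, TT c * (derivative (VV c P k w.1) * F w) :=
    Finset.sum_congr rfl fun w _ => by ring
  have e2 : ∑ w : Wd ι W, VV c P k w.1 * (TT c * derivative (F w)) =
      ∑ w : Wd ι W, TT c * (VV c P k w.1 * derivative (F w)) :=
    Finset.sum_congr rfl fun w _ => by ring
  rw [e1, e2]
  ring

end NONZ_

open NONZ_

theorem p_NONZ (h1 : T_ABS) : T_NONZ := by
  classical
  intro ι _ _ c W P hc hc1 hP0 hW
  obtain ⟨F0, hF0, hF0'⟩ := Matrix.exists_mulVec_eq_zero_iff.2 hW
  obtain ⟨α, hα, hα'⟩ := Matrix.exists_vecMul_eq_zero_iff.2 hW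
  have hex : (Finset.univ.filter (fun K => α K ≠ 0)).Nonempty := by
    by_contra hh
    apply hα
    funext J
    by_contra hJ
    exact hh ⟨J, by simp only [Finset.mem_filter, Finset.mem_univ, true_and]; exact hJ⟩
  obtain ⟨K0, hK0, hmax⟩ := Finset.exists_max_image _ num hex
  rw [Finset.mem_filter] at hK0
  have hK0' := hK0.2
  set k0 := num K0 with hk0
  have hsurj : ∀ j, j ≤ k0 → ∃ K : Wd ι W, num K = j := by
    intro j hj
    have h1 : k0 < Fintype.card (Wd ι W) := (Fintype.equivFin (Wd ι W) K0).isLt
    refine ⟨(Fintype.equivFin (Wd ι W)).symm ⟨j, by omega⟩, ?_⟩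
    simp [num]
  have hinj : ∀ K K' : Wd ι W, num K = num K' → K = K' := by
    intro K K' h
    exact (Fintype.equivFin (Wd ι W)).injective (Fin.ext h)
  have hrow : ∀ F : Wd ι W → ℚ[X], ∑ K, α K * ∑ w, VV c P (num K) w.1 * F w = 0 := by
    intro F
    have : ∀ w : Wd ι W, ∑ K, α K * VV c P (num K) w.1 = 0 := fun J => congrFun hα' J
    calc ∑ K, α K * ∑ w, VV c P (num K) w.1 * F w =
        ∑ w : Wd ι W, (∑ K, α K * VV c P (num K) w.1) * F w := by
          simp only [Finset.mul_sum, Finset.sum_mul]
          rw [Finset.sum_comm]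
          refine Finset.sum_congr rfl fun J _ => Finset.sum_congr rfl fun K _ => ?_
          ring
      _ = 0 := by simp [this]
  have hkey : ∀ F : Wd ι W → ℚ[X], (∀ j, j < k0 → ∑ w, VV c P j w.1 * F w = 0) →
      ∑ w, VV c P k0 w.1 * F w = 0 := by
    intro F hF
    have h := hrow F
    rw [Finset.sum_eq_single K0] at h
    · exact (mul_eq_zero.1 h).resolve_left hK0'
    · intro K _ hK
      rcases lt_trichotomy (num K) k0 with h1 | h1 | h1
      · rw [hF _ h1, mul_zero]
      · exact absurd (hinj K K0 h1) hK
      · have : α K = 0 := by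
          by_contra hne
          have := hmax K (by simp [hne])
          omega
        rw [this, zero_mul]
    · intro h; exact absurd (Finset.mem_univ _) h
  have hnil : ok ([] : List (Option ι)) := trivial
  set e0 : Wd ι W := ⟨[], by simp, hnil⟩ with he0
  have hk0pos : 0 < k0 := by
    by_contra hh
    have h0 : k0 = 0 := by omega
    have h := hkey (fun J => if J = e0 then 1 else 0) (fun j hj => by omega)
    rw [h0] at h
    simp only [VV, mul_ite, mul_one, mul_zero, Finset.sum_ite_eq', Finset.mem_univ, if_true] at h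
    exact hP0 h
  set N : Submodule ℚ[X] (Wd ι W → ℚ[X]) :=
    { carrier := {F | ∀ j, j < k0 → ∑ w, VV c P j w.1 * F w = 0}
      add_mem' := by
        intro F G hF hG j hj
        have e : ∑ w : Wd ι W, VV c P j w.1 * (F + G) w =
            ∑ w : Wd ι W, VV c P j w.1 * F w + ∑ w : Wd ι W, VV c P j w.1 * G w := by
          rw [← Finset.sum_add_distrib]
          exact Finset.sum_congr rfl fun w _ => by simp [mul_add]
        rw [e, hF j hj, hG j hj, add_zero]
      zero_mem' := by
        intro j _
        simp
      smul_mem' := by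
        intro p F hF j hj
        have e : ∑ w : Wd ι W, VV c P j w.1 * (p • F) w =
            p * ∑ w : Wd ι W, VV c P j w.1 * F w := by
          rw [Finset.mul_sum]
          refine Finset.sum_congr rfl fun w _ => ?_
          simp only [Pi.smul_apply, smul_eq_mul]
          ring
        rw [e, hF j hj, mul_zero] } with hN
  refine hF0 (h1 ι c W hc hc1 N ?_ ?_ F0 ?_)
  · intro F hF j hj
    have e := ident c W P j F
    have e1 : ∑ w : Wd ι W, VV c P (j + 1) w.1 * F w = 0 := by
      rcases Nat.lt_or_ge (j + 1) k0 with h | h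
      · exact hF _ h
      · have : j + 1 = k0 := by omega
        rw [this]
        exact hkey F hF
    rw [e1, hF j hj] at e
    simp only [derivative_zero, mul_zero, zero_sub, zero_eq_neg] at e
    exact e
  · intro F hF hJ
    have h := hF 0 hk0pos
    rw [Finset.sum_eq_single e0] at h
    · simp only [VV] at h
      have h' := (mul_eq_zero.1 h).resolve_left hP0
      funext w
      by_cases hw : w.1 = []
      · have : w = e0 := Subtype.ext hw
        rw [this]
        exact h'
      · exact hJ w hw
    · intro w _ hw
      rw [hJ w (fun h => hw (Subtype.ext h)), mul_zero]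
    · intro h; exact absurd (Finset.mem_univ _) h
  · intro j hj
    obtain ⟨K, hK⟩ := hsurj j hj.le
    have := congrFun hF0' K
    rw [← hK]
    exact this

end Pool.Agent.PLG
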