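import Pool.Agent.PLG.Targets

set_option autoImplicit false

/-!
# Polylogarithms at one point: counting in short intervals
-/

namespace Pool.Agent.PLG

open Finset
open scoped BigOperators

namespace ONE_

/-- a set of `r + 1` exceptions in a block of length `A` beyond `(880 (A + R0))^E`, all congruent
modulo `2 R0 + 1`, is impossible -/
lemma block (h3 : T_SHIFT) {g s R0 B E r D A : ℕ} {ρ : Fin g → ℤ} {κ : Type} [Fintype κ]
    (hB : ∀ (θ : Option κ → ℂ) (x : Fin r → Option (Fin g × Fin s) → ℂ),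
      (∀ i, HasRel D θ (x i)) → ∃ Q : MvPolynomial (Fin r × Option (Fin g × Fin s)) ℤ, Q ≠ 0 ∧
        (∀ v, Q.degreeOf v ≤ B) ∧ MvPolynomial.aeval (fun v => x v.1 v.2) Q = 0)
    (hE : ∀ (A N : ℕ) (a : Fin r → ℕ), 1 ≤ A → Function.Injective a →
      (∀ i, (2 * R0 + 1) ∣ a i ∧ 1 ≤ a i ∧ a i ≤ A) → (880 * (A + R0)) ^ E ≤ N →
      ∀ Q : MvPolynomial (Fx r g s) ℤ, (∀ v, Q.degreeOf v ≤ B) →
      MvPolynomial.aeval (vals a ρ N) Q = 0 → Q = 0)
    (hA : 1 ≤ A) (θ : κ → ℂ) (t : Fin (r + 1) → ℕ) (hmono : StrictMono t)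
    (hlt : ∀ i, t i < t 0 + A + 1) (hmod : ∀ i, t i % (2 * R0 + 1) = t 0 % (2 * R0 + 1))
    (hbig : (880 * (A + R0)) ^ E ≤ t 0) (hrel : ∀ i, HasRel D θ (per s ρ (t i))) : False := by
  have ht0 : 1 ≤ t 0 := by
    refine le_trans ?_ hbig
    exact Nat.one_le_pow _ _ (by omega)
  have hpos : ∀ i : Fin r, t 0 < t i.succ := fun i => hmono (Fin.succ_pos i)
  let a : Fin r → ℕ := fun i => t i.succ - t 0
  have hainj : Function.Injective a := by
    intro i j hij
    have h1 := hpos i
    have h2 := hpos j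
    simp only [a] at hij
    have h3 : t i.succ = t j.succ := by omega
    exact Fin.succ_injective _ (hmono.injective h3)
  have ha : ∀ i, (2 * R0 + 1) ∣ a i ∧ 1 ≤ a i ∧ a i ≤ A := by
    intro i
    have h1 := hpos i
    have h2 := hlt i.succ
    refine ⟨?_, ?_, ?_⟩
    · exact (Nat.modEq_iff_dvd' h1.le).1 (hmod i.succ).symm
    · simp only [a]; omega
    · simp only [a]; omega
  have hN : ∀ i, t i.succ = t 0 + a i := by
    intro i
    have h1 := hpos i
    simp only [a]; omega
  obtain ⟨Q, hQ0, hQB, hQ⟩ := hB _ (fun i : Fin r => fun p : Option (Fin g × Fin s) =>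
    Option.elim p (per s ρ (t i.succ) none - (Real.log (t 0) : ℂ))
      (fun q => per s ρ (t i.succ) (some q)))
    (fun i => h3 κ (Fin g × Fin s) D θ (Real.log (t 0) : ℂ) (per s ρ (t i.succ)) (hrel i.succ))
  refine hQ0 (hE A (t 0) a hA hainj ha hbig Q hQB ?_)
  have hlog : ∀ i : Fin r, (Real.log (t i.succ) : ℂ) - (Real.log (t 0) : ℂ) =
      ((Real.log (1 + (a i : ℝ) / (t 0 : ℕ)) : ℝ) : ℂ) := by
    intro i
    have h1 := hpos i
    have h0 : (0 : ℝ) < t 0 := by exact_mod_cast ht0
    have h2 : (0 : ℝ) < t i.succ := by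
      have : 0 < t i.succ := by omega
      exact_mod_cast this
    have h3 : (1 : ℝ) + (a i : ℝ) / (t 0 : ℕ) = (t i.succ : ℝ) / t 0 := by
      rw [hN i]
      push_cast
      field_simp
    rw [h3, Real.log_div h2.ne' h0.ne']
    push_cast
    ring
  have hvals : (fun v : Fin r × Option (Fin g × Fin s) =>
      Option.elim v.2 (per s ρ (t v.1.succ) none - (Real.log (t 0) : ℂ))
        (fun q => per s ρ (t v.1.succ) (some q))) =
      (algebraMap ℝ ℂ) ∘ (vals a ρ (t 0) : Fx r g s → ℝ) := by
    funext v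
    obtain ⟨i, v⟩ := v
    cases v with
    | none =>
      simp only [Option.elim_none, Function.comp, vals, per]
      exact hlog i
    | some q =>
      obtain ⟨l, j⟩ := q
      simp only [Option.elim_some, Function.comp, vals, per]
      rw [hN i]
      push_cast
      rfl
  have hQ' : MvPolynomial.aeval (fun v : Fin r × Option (Fin g × Fin s) =>
      Option.elim v.2 (per s ρ (t v.1.succ) none - (Real.log (t 0) : ℂ))
        (fun q => per s ρ (t v.1.succ) (some q))) Q = 0 := hQ
  rw [hvals, MvPolynomial.aeval_algebraMap_apply] at hQ'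
  exact (map_eq_zero (algebraMap ℝ ℂ)).1 hQ'

end ONE_

open ONE_ in
open Classical in
theorem p_ONE (h1 : T_GP) (h2 : T_ELIM) (h3 : T_SHIFT) : T_ONE := by
  intro g s R0 ρ hρ hρ0 κ _ D
  set r := Fintype.card κ + 2 with hr
  obtain ⟨B, hB⟩ := h2 (Option κ) (Option (Fin g × Fin s)) D r (by
    rw [Fintype.card_option]; omega)
  obtain ⟨E, hE1, hE⟩ := h1 r g s B R0 ρ hρ hρ0
  set h := 2 * R0 + 1 with hh
  -- the constant
  set K : ℕ := 2 * E + 1760 * (R0 + 1) + 2 + r * h * 1761 with hK
  refine ⟨K, by omega, fun T θ hT => ?_⟩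
  have hT1 : (1 : ℝ) ≤ T := by exact_mod_cast hT
  have hT0 : (0 : ℝ) < T := by linarith
  have hE1r : (1 : ℝ) ≤ E := by exact_mod_cast hE1
  set S : Finset ℕ := (Finset.Icc 1 T).filter (fun t => R0 < t ∧ HasRel D θ (per s ρ t)) with hS
  have hSeq : {t : ℕ | (R0 < t ∧ t ≤ T) ∧ HasRel D θ (per s ρ t)} = (S : Set ℕ) := by
    ext t
    simp only [hS, Set.mem_ofPred_eq, Finset.coe_filter, Finset.mem_Icc]
    constructor
    · rintro ⟨⟨h4, h5⟩, h6⟩
      exact ⟨⟨by omega, h5⟩, h4, h6⟩
    · rintro ⟨⟨_, h5⟩, h4, h6⟩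
      exact ⟨⟨h4, h5⟩, h6⟩
  rw [hSeq, Set.ncard_coe_finset]
  -- comparison of exponents
  have hexp : (T : ℝ) ^ (1 - 1 / (2 * (E : ℝ))) ≤ (T : ℝ) ^ (1 - 1 / (K : ℝ)) := by
    apply Real.rpow_le_rpow_of_exponent_le hT1
    have h4 : (2 * (E : ℝ)) ≤ K := by
      have : 2 * E ≤ K := by rw [hK]; omega
      exact_mod_cast this
    have h5 : 1 / (K : ℝ) ≤ 1 / (2 * (E : ℝ)) :=
      one_div_le_one_div_of_le (by positivity) h4
    linarith
  set P : ℝ := (T : ℝ) ^ (1 - 1 / (2 * (E : ℝ))) with hP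
  have hP1 : 1 ≤ P := by
    apply Real.one_le_rpow hT1
    have : 1 / (2 * (E : ℝ)) ≤ 1 := by
      rw [div_le_one (by positivity)]; linarith
    linarith
  have hKr : 1760 * ((R0 : ℝ) + 1) ≤ K := by
    have : 1760 * (R0 + 1) ≤ K := by rw [hK]; omega
    exact_mod_cast this
  have hKr2 : 1 + (r : ℝ) * h * 1761 ≤ K := by
    have : 1 + r * h * 1761 ≤ K := by rw [hK]; omega
    exact_mod_cast this
  suffices hmain : (S.card : ℝ) ≤ K * P by
    refine hmain.trans ?_
    exact mul_le_mul le_rfl hexp (by positivity) (by positivity)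
  set x : ℝ := (T : ℝ) ^ (1 / (2 * (E : ℝ))) with hx
  have hx1 : 1 ≤ x := Real.one_le_rpow hT1 (by positivity)
  have hPx : P * x = T := by
    rw [hP, hx, ← Real.rpow_add hT0]
    simp
  have hcardT : S.card ≤ T := by
    calc S.card ≤ (Finset.Icc 1 T).card := Finset.card_filter_le _ _
      _ = T := by simp
  have hR0 : (0 : ℝ) ≤ R0 := Nat.cast_nonneg R0
  by_cases hxs : x < 1760 * ((R0 : ℝ) + 1)
  · have h4 : (S.card : ℝ) ≤ T := by exact_mod_cast hcardT
    calc (S.card : ℝ) ≤ T := h4
      _ = P * x := hPx.symm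
      _ ≤ P * K := by gcongr; linarith
      _ = K * P := mul_comm _ _
  rw [not_lt] at hxs
  set A : ℕ := ⌊x / 880⌋₊ - R0 with hAdef
  have hfl : R0 + 1 ≤ ⌊x / 880⌋₊ := by
    apply Nat.le_floor
    rw [le_div_iff₀ (by norm_num)]
    push_cast
    nlinarith
  have hA1 : 1 ≤ A := by omega
  have hAR : A + R0 = ⌊x / 880⌋₊ := by omega
  have hA1r : (1 : ℝ) ≤ A := by exact_mod_cast hA1
  have hARle : ((A + R0 : ℕ) : ℝ) ≤ x / 880 := by
    rw [hAR]; exact Nat.floor_le (by positivity)
  have hAge : x / 1760 ≤ A := by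
    have h4 : x / 880 < ((A + R0 : ℕ) : ℝ) + 1 := by
      rw [hAR]; exact Nat.lt_floor_add_one _
    push_cast at h4
    have h5 : (R0 : ℝ) + 1 ≤ x / 1760 := by
      rw [le_div_iff₀ (by norm_num)]; linarith
    have h6 : x / 880 = x / 1760 + x / 1760 := by ring
    linarith
  set N0 : ℕ := (880 * (A + R0)) ^ E with hN0
  have hN0T : (N0 : ℝ) ≤ P := by
    have h4 : (880 * ((A + R0 : ℕ) : ℝ)) ≤ x := by
      rw [le_div_iff₀ (by norm_num)] at hARle; linarith
    have h5 : (N0 : ℝ) ≤ x ^ E := by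
      rw [hN0, Nat.cast_pow, Nat.cast_mul, Nat.cast_ofNat]
      exact pow_le_pow_left₀ (by positivity) h4 _
    have h6 : x ^ E = (T : ℝ) ^ (1 / 2 : ℝ) := by
      rw [hx, ← Real.rpow_natCast, ← Real.rpow_mul hT0.le]
      congr 1
      field_simp
    rw [h6] at h5
    refine h5.trans ?_
    rw [hP]
    apply Real.rpow_le_rpow_of_exponent_le hT1
    have : 1 / (2 * (E : ℝ)) ≤ 1 / 2 := by
      apply one_div_le_one_div_of_le (by norm_num); linarith
    linarith
  -- split
  have hsplit : S.card ≤ N0 + r * ((T / A + 1) * h) := by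
    have h4 : S = S.filter (fun t => t < N0) ∪ S.filter (fun t => ¬ t < N0) :=
      (Finset.filter_union_filter_not_eq _ S).symm
    have h5 : (S.filter (fun t => t < N0)).card ≤ N0 := by
      calc _ ≤ (Finset.range N0).card := by
            apply Finset.card_le_card
            intro t ht
            simp only [Finset.mem_filter] at ht
            exact Finset.mem_range.2 ht.2
        _ = N0 := Finset.card_range _
    have h6 : (S.filter (fun t => ¬ t < N0)).card ≤ r * ((T / A + 1) * h) := by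
      have h7 : (S.filter (fun t => ¬ t < N0)).card ≤ r *
          ((S.filter (fun t => ¬ t < N0)).image (fun t => (t / A, t % h))).card := by
        apply Finset.card_le_mul_card_image
        intro q _
        by_contra hcon
        rw [not_le] at hcon
        set F := (S.filter (fun t => ¬ t < N0)).filter (fun t => (t / A, t % h) = q) with hF
        have hcard : r + 1 ≤ F.card := hcon
        let t := F.orderEmbOfCardLe hcard
        have hmem : ∀ i, t i ∈ F := fun i => Finset.orderEmbOfCardLe_mem F hcard i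
        have hprop : ∀ i, HasRel D θ (per s ρ (t i)) ∧ N0 ≤ t i ∧ t i / A = q.1 ∧ t i % h = q.2 := by
          intro i
          have h8 := hmem i
          simp only [hF, hS, Finset.mem_filter] at h8
          exact ⟨h8.1.1.2.2, not_lt.1 h8.1.2, congrArg Prod.fst h8.2, congrArg Prod.snd h8.2⟩
        refine block h3 (r := r) (R0 := R0) hB hE hA1 θ t t.strictMono (fun i => ?_) (fun i => ?_) ?_
          (fun i => (hprop i).1)
        · have h8 := (hprop i).2.2.1
          have h9 := (hprop 0).2.2.1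
          have h10 : t i < A * (q.1 + 1) := by
            rw [← h8]; exact Nat.lt_mul_div_succ _ (by omega)
          have h11 : A * q.1 ≤ t 0 := by
            rw [← h9]; exact Nat.mul_div_le _ _
          have h12 : A * (q.1 + 1) = A * q.1 + A := by ring
          omega
        · exact ((hprop i).2.2.2).trans ((hprop 0).2.2.2).symm
        · exact (hprop 0).2.1
      refine h7.trans (Nat.mul_le_mul_left _ ?_)
      calc _ ≤ ((Finset.range (T / A + 1)) ×ˢ (Finset.range h)).card := by
            apply Finset.card_le_card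
            intro q hq
            simp only [Finset.mem_image, Finset.mem_filter, hS, Finset.mem_Icc] at hq
            obtain ⟨t, ht, rfl⟩ := hq
            rw [Finset.mem_product, Finset.mem_range, Finset.mem_range]
            have := Nat.div_le_div_right (c := A) ht.1.1.2
            exact ⟨by simp only; omega, Nat.mod_lt _ (by omega)⟩
        _ = (T / A + 1) * h := by rw [Finset.card_product, Finset.card_range, Finset.card_range]
    calc S.card ≤ (S.filter (fun t => t < N0)).card + (S.filter (fun t => ¬ t < N0)).card := by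
          conv_lhs => rw [h4]
          exact Finset.card_union_le _ _
      _ ≤ _ := Nat.add_le_add h5 h6
  have hTA : ((T / A : ℕ) : ℝ) ≤ 1760 * P := by
    calc ((T / A : ℕ) : ℝ) ≤ (T : ℝ) / A := Nat.cast_div_le
      _ ≤ 1760 * P := by
        rw [div_le_iff₀ (by linarith), ← hPx]
        have h4 : P * x ≤ P * (1760 * A) := by
          apply mul_le_mul_of_nonneg_left _ (by positivity)
          linarith
        linarith
  calc (S.card : ℝ) ≤ ((N0 + r * ((T / A + 1) * h) : ℕ) : ℝ) := by exact_mod_cast hsplit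
    _ = N0 + (r : ℝ) * ((((T / A : ℕ) : ℝ) + 1) * (h : ℝ)) := by push_cast; ring
    _ ≤ P + (r : ℝ) * ((1760 * P + P) * (h : ℝ)) := by gcongr
    _ = (1 + (r : ℝ) * h * 1761) * P := by ring
    _ ≤ K * P := by gcongr

end Pool.Agent.PLG
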