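import Pool.Agent.PLG.Targets

set_option autoImplicit false

/-!
# ORD0: order of the determinant at zero
-/

namespace Pool.Agent.PLG

open Finset
open scoped BigOperators

namespace ORD0_

theorem det_dvd {n : Type*} [Fintype n] [DecidableEq n] (G : Matrix n n (PowerSeries ℚ)) (j₀ : n)
    (s : ℕ) (h : ∀ i j, j ≠ j₀ → (PowerSeries.X : PowerSeries ℚ) ^ s ∣ G i j) :
    (PowerSeries.X : PowerSeries ℚ) ^ ((Fintype.card n - 1) * s) ∣ Matrix.det G := by
  classical
  choose! q hq using h
  set G' : Matrix n n (PowerSeries ℚ) := Matrix.of fun i j => if j = j₀ then G i j else q i j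
  have h1 : G = Matrix.of fun i j =>
      (fun j => if j = j₀ then 1 else (PowerSeries.X : PowerSeries ℚ) ^ s) j * G' i j := by
    ext1 i j
    simp only [Matrix.of_apply, G']
    split_ifs with hj
    · rw [one_mul]
    · exact hq i j hj
  rw [h1, Matrix.det_mul_row]
  apply Dvd.dvd.mul_right
  rw [Finset.prod_ite]
  simp only [prod_const_one, one_mul, prod_const]
  rw [← pow_mul, mul_comm s]
  apply pow_dvd_pow
  apply Nat.mul_le_mul_right
  apply le_of_eq
  rw [Finset.filter_not, Finset.filter_eq' univ j₀]
  simp [Finset.card_sdiff]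

/-- adding multiples of one column to the others -/
theorem det_col {n : Type*} [Fintype n] [DecidableEq n] {R : Type*} [CommRing R]
    (A B : Matrix n n R) (c : n → R) (k : n) (hk : c k = 0)
    (h : ∀ i j, A i j = B i j + c j * B i k) : A.det = B.det := by
  rw [← Matrix.det_transpose A, ← Matrix.det_transpose B]
  exact Matrix.det_eq_of_forall_row_eq_smul_add_const c k hk fun i j => h j i

theorem ok_tail {ι : Type} {x : Option ι} {w : List (Option ι)} (h : ok (x :: w)) : ok w := by
  cases w with
  | nil => trivial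
  | cons y l => exact h

theorem coeff_zero_L {ι : Type} (c : ι → ℕ) {w : List (Option ι)} (hw : w ≠ []) :
    PowerSeries.coeff 0 (L c w) = 0 := by
  cases w with
  | nil => exact absurd rfl hw
  | cons x l =>
    cases x with
    | none => simp [L, In]
    | some i => simp [L, In]

variable {ι : Type} [Fintype ι] [DecidableEq ι]

/-- the differential equation of the hyperlogarithms -/
theorem deriv_L (h : T_IN) (c : ι → ℕ) {x : Option ι} {w : List (Option ι)} (hok : ok (x :: w)) :
    (TT c : PowerSeries ℚ) * PowerSeries.derivative ℚ (L c (x :: w)) =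
      (Tx c x : PowerSeries ℚ) * L c w := by
  refine (h ι c x (L c w) ?_).2
  rintro rfl
  refine coeff_zero_L c ?_
  rintro rfl
  exact hok rfl

omit [DecidableEq ι] in
/-- multiplication of a derivative by `TT` keeps the order -/
theorem dvd_TT (c : ι → ℕ) {s : ℕ} {g : PowerSeries ℚ}
    (h : (PowerSeries.X : PowerSeries ℚ) ^ s ∣ g) :
    (PowerSeries.X : PowerSeries ℚ) ^ s ∣ (TT c : PowerSeries ℚ) * PowerSeries.derivative ℚ g := by
  rcases s with _ | s
  · rw [pow_zero]
    exact one_dvd _
  · have h1 : (PowerSeries.X : PowerSeries ℚ) ^ s ∣ PowerSeries.derivative ℚ g := by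
      rw [PowerSeries.X_pow_dvd_iff] at h ⊢
      intro m hm
      rw [PowerSeries.coeff_derivative, h (m + 1) (by omega), zero_mul]
    have h2 : (PowerSeries.X : PowerSeries ℚ) ∣ (TT c : PowerSeries ℚ) := by
      unfold TT
      rw [Polynomial.coe_mul, Polynomial.coe_X]
      exact dvd_mul_right _ _
    rw [pow_succ']
    exact mul_dvd_mul h2 h1

/-- all vectors are approximations -/
theorem approx (h : T_IN) {c : ι → ℕ} {W m σ : ℕ} {P : List (Option ι) → Polynomial ℚ}
    (hP : Pade c W m σ P) (k : ℕ) : ∀ w : List (Option ι), w.length ≤ W → ok w →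
    (PowerSeries.X : PowerSeries ℚ) ^ σ ∣
      (VV c P k [] : PowerSeries ℚ) * L c w - (VV c P k w : PowerSeries ℚ) := by
  induction k with
  | zero => exact fun w hw hok => hP.ord w hw hok
  | succ k ih =>
    intro w hw hok
    cases w with
    | nil =>
      have : (VV c P (k + 1) [] : PowerSeries ℚ) * L c [] - (VV c P (k + 1) [] : PowerSeries ℚ) =
          0 := by
        simp [L]
      rw [this]
      exact dvd_zero _
    | cons x w =>
      have hw' : w.length ≤ W := by
        simp only [List.length_cons] at hw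
        omega
      have h1 := dvd_TT c (ih (x :: w) hw hok)
      have h2 := (ih w hw' (ok_tail hok)).mul_left (Tx c x : PowerSeries ℚ)
      have h3 := deriv_L h c hok
      have e1 : (VV c P (k + 1) [] : PowerSeries ℚ) =
          (TT c : PowerSeries ℚ) * PowerSeries.derivative ℚ (VV c P k [] : PowerSeries ℚ) := by
        rw [PowerSeries.derivative_coe, ← Polynomial.coe_mul]
        rfl
      have e2 : (VV c P (k + 1) (x :: w) : PowerSeries ℚ) =
          (TT c : PowerSeries ℚ) * PowerSeries.derivative ℚ (VV c P k (x :: w) : PowerSeries ℚ) -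
            (Tx c x : PowerSeries ℚ) * (VV c P k w : PowerSeries ℚ) := by
        rw [PowerSeries.derivative_coe, ← Polynomial.coe_mul, ← Polynomial.coe_mul,
          ← Polynomial.coe_sub]
        rfl
      have h4 : (VV c P (k + 1) [] : PowerSeries ℚ) * L c (x :: w) -
          (VV c P (k + 1) (x :: w) : PowerSeries ℚ) =
          (TT c : PowerSeries ℚ) * PowerSeries.derivative ℚ
            ((VV c P k [] : PowerSeries ℚ) * L c (x :: w) - (VV c P k (x :: w) : PowerSeries ℚ)) -
          (Tx c x : PowerSeries ℚ) *
            ((VV c P k [] : PowerSeries ℚ) * L c w - (VV c P k w : PowerSeries ℚ)) := by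
        rw [e1, e2, map_sub, Derivation.leibniz, smul_eq_mul, smul_eq_mul]
        linear_combination (-(VV c P k [] : PowerSeries ℚ)) * h3
      rw [h4]
      exact dvd_sub h1 h2

end ORD0_

open ORD0_ in
theorem p_ORD0 (h : T_IN) : T_ORD0 := by
  intro ι _ _ c W m σ P hP
  set w0 : Wd ι W := ⟨[], Nat.zero_le _, trivial⟩ with hw0
  set A : Matrix (Wd ι W) (Wd ι W) (PowerSeries ℚ) :=
    Matrix.of fun K w => ((VV c P (num K) w.1 : Polynomial ℚ) : PowerSeries ℚ) with hA
  set A' : Matrix (Wd ι W) (Wd ι W) (PowerSeries ℚ) :=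
    Matrix.of fun K w => if w = w0 then A K w else A K w - L c w.1 * A K w0 with hA'
  have h1 : ((WW W c P : Polynomial ℚ) : PowerSeries ℚ) = A.det := by
    have := RingHom.map_det (Polynomial.coeToPowerSeries.ringHom (R := ℚ))
      (Matrix.of fun (K w : Wd ι W) => VV c P (num K) w.1)
    exact this
  have h2 : A.det = A'.det := by
    refine det_col A A' (fun w => if w = w0 then 0 else L c w.1) w0 (if_pos rfl) ?_
    intro i j
    simp only [hA', Matrix.of_apply]
    split_ifs with hj
    · rw [zero_mul, add_zero]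
    · simp
  have h3 : (PowerSeries.X : PowerSeries ℚ) ^ ((Fintype.card (Wd ι W) - 1) * σ) ∣ A'.det := by
    refine det_dvd A' w0 σ fun K w hw => ?_
    simp only [hA', Matrix.of_apply, if_neg hw]
    have h4 := approx h hP (num K) w.1 w.2.1 w.2.2
    rw [← dvd_neg] at h4
    convert h4 using 1
    change ((VV c P (num K) w.1 : Polynomial ℚ) : PowerSeries ℚ) -
      L c w.1 * ((VV c P (num K) [] : Polynomial ℚ) : PowerSeries ℚ) = _
    ring
  rw [← h2, ← h1] at h3
  rw [PowerSeries.X_pow_dvd_iff] at h3
  rw [Polynomial.X_pow_dvd_iff]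
  intro n hn
  have := h3 n hn
  rwa [Polynomial.coeff_coe] at this

end Pool.Agent.PLG
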