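import Pool.Agent.PLG.Targets
import Pool.Agent.KBD.ORD1

set_option autoImplicit false

/-!
# ORD1: order of the determinant at `z0`
-/

namespace Pool.Agent.PLG

open Finset
open scoped BigOperators

namespace ORD1_

/-- `ty z0` as a ring homomorphism -/
noncomputable def tyh (z0 : ℚ) : Polynomial ℚ →+* PowerSeries ℚ :=
  (Polynomial.coeToPowerSeries.ringHom (R := ℚ)).comp
    ((Polynomial.taylorAlgHom z0 : Polynomial ℚ →ₐ[ℚ] Polynomial ℚ) : Polynomial ℚ →+* Polynomial ℚ)

theorem tyh_apply (z0 : ℚ) (p : Polynomial ℚ) : tyh z0 p = ty z0 p := rfl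

theorem ty_mul (z0 : ℚ) (p q : Polynomial ℚ) : ty z0 (p * q) = ty z0 p * ty z0 q := by
  rw [← tyh_apply, map_mul]
  rfl

theorem ty_sub (z0 : ℚ) (p q : Polynomial ℚ) : ty z0 (p - q) = ty z0 p - ty z0 q := by
  rw [← tyh_apply, map_sub]
  rfl

theorem ty_X (z0 : ℚ) : ty z0 Polynomial.X = PowerSeries.X + PowerSeries.C z0 := by
  unfold ty
  rw [Polynomial.taylor_X, Polynomial.coe_add, Polynomial.coe_X, Polynomial.coe_C]

theorem ty_C (z0 a : ℚ) : ty z0 (Polynomial.C a) = PowerSeries.C a := by
  unfold ty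
  rw [Polynomial.taylor_C, Polynomial.coe_C]

theorem ty_lin (z0 a : ℚ) : ty z0 (1 + Polynomial.C a * Polynomial.X) =
    1 + PowerSeries.C a * (PowerSeries.X + PowerSeries.C z0) := by
  rw [← tyh_apply, map_add, map_mul, map_one, tyh_apply, tyh_apply, ty_C, ty_X]

theorem ty_deriv (z0 : ℚ) (p : Polynomial ℚ) :
    ty z0 (Polynomial.derivative p) = PowerSeries.derivative ℚ (ty z0 p) := by
  unfold ty
  rw [PowerSeries.derivative_coe, Polynomial.taylor_apply, Polynomial.taylor_apply,
    Polynomial.derivative_comp]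
  simp

variable {ι : Type} [Fintype ι] [DecidableEq ι]

/-- the hypothesis of `T_GAU` -/
theorem hyp (c : ι → ℕ) {z0 : ℚ} (hz0 : 0 < z0) (x : Option ι) :
    ty z0 (Tx c x) * (1 + PowerSeries.C (bb c z0 x) * PowerSeries.X) =
      PowerSeries.C (bb c z0 x) * ty z0 (TT c) := by
  cases x with
  | none =>
    have e1 : ty z0 (TT c) = (PowerSeries.X + PowerSeries.C z0) * ty z0 (Tx c none) := by
      unfold TT Tx
      rw [ty_mul, ty_X]
    have e2 : PowerSeries.C (bb c z0 none) * (PowerSeries.X + PowerSeries.C z0) =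
        1 + PowerSeries.C (bb c z0 none) * PowerSeries.X := by
      have h1 : bb c z0 none * z0 = 1 := by
        simp only [bb]
        field_simp
      rw [mul_add, ← map_mul, h1, map_one]
      ring
    rw [e1, ← e2]
    ring
  | some i =>
    set q : Polynomial ℚ := ∏ l ∈ univ.erase i, (1 + Polynomial.C (c l : ℚ) * Polynomial.X)
      with hq
    have e1 : TT c = Polynomial.X * ((1 + Polynomial.C (c i : ℚ) * Polynomial.X) * q) := by
      have := Finset.mul_prod_erase univ
        (fun l => (1 + Polynomial.C (c l : ℚ) * Polynomial.X)) (mem_univ i)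
      rw [TT, hq, ← this]
    have e2 : Tx c (some i) = Polynomial.X * (Polynomial.C (c i : ℚ) * q) := rfl
    have h0 : (1 + (c i : ℚ) * z0) ≠ 0 := by positivity
    have e3 : PowerSeries.C (bb c z0 (some i)) *
        (1 + PowerSeries.C (c i : ℚ) * (PowerSeries.X + PowerSeries.C z0)) =
        PowerSeries.C (c i : ℚ) * (1 + PowerSeries.C (bb c z0 (some i)) * PowerSeries.X) := by
      have h1 : bb c z0 (some i) * (1 + (c i : ℚ) * z0) = (c i : ℚ) := by
        simp only [bb]
        field_simp
      have h2 : PowerSeries.C (bb c z0 (some i)) *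
          (1 + PowerSeries.C (c i : ℚ) * PowerSeries.C z0) = (PowerSeries.C (c i : ℚ) :
            PowerSeries ℚ) := by
        rw [← map_mul, ← map_one (PowerSeries.C (R := ℚ)), ← map_add, ← map_mul, h1]
      linear_combination h2
    rw [e1, e2, ty_mul, ty_mul, ty_mul, ty_mul, ty_lin, ty_C]
    linear_combination (-(ty z0 Polynomial.X * ty z0 q)) * e3

/-- the connection and the Taylor expansion -/
theorem ty_nb (c : ι → ℕ) (z0 : ℚ) (V : List (Option ι) → Polynomial ℚ)
    (w : List (Option ι)) : ty z0 (nb c V w) =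
      nbs (ty z0 (TT c)) (fun x => ty z0 (Tx c x)) (fun v => ty z0 (V v)) w := by
  cases w with
  | nil => simp only [nb, nbs, ty_mul, ty_deriv]
  | cons x w => simp only [nb, nbs, ty_mul, ty_sub, ty_deriv]

/-- the coefficients of `gg` -/
noncomputable def cf (b : Option ι → ℚ) :
    List (Option ι) → List (Option ι) → List (Option ι) → PowerSeries ℚ
  | l, [], v => if v = [] then Sg b l else 0
  | l, x :: w, v => (if v = x :: w then Sg b l else 0) + cf b (x :: l) w v

omit [Fintype ι] [DecidableEq ι] in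
theorem ok_tail {x : Option ι} {w : List (Option ι)} (h : ok (x :: w)) : ok w := by
  cases w with
  | nil => trivial
  | cons y l => exact h

theorem sum_single {W : ℕ} (V : List (Option ι) → PowerSeries ℚ) (a : PowerSeries ℚ)
    (w : List (Option ι)) (hw : w.length ≤ W) (hok : ok w) :
    a * V w = ∑ v : Wd ι W, V v.1 * (if v.1 = w then a else 0) := by
  obtain ⟨w0, hw0⟩ : ∃ w0 : Wd ι W, w0.1 = w := ⟨⟨w, hw, hok⟩, rfl⟩
  refine Eq.symm ((Finset.sum_eq_single w0 ?_ ?_).trans ?_)
  · intro v _ hv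
    have : v.1 ≠ w := fun h => hv (Subtype.ext (h.trans hw0.symm))
    rw [if_neg this, mul_zero]
  · intro h
    exact absurd (mem_univ _) h
  · rw [if_pos hw0, hw0, mul_comm]

theorem gg_eq (b : Option ι → ℚ) (W : ℕ) (V : List (Option ι) → PowerSeries ℚ)
    (w : List (Option ι)) (hw : w.length ≤ W) (hok : ok w) :
    ∀ l, gg b V l w = ∑ v : Wd ι W, V v.1 * cf b l w v.1 := by
  induction w with
  | nil =>
    intro l
    simp only [gg, cf]
    exact sum_single V _ _ hw hok
  | cons x w ih =>
    intro l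
    have hw' : w.length ≤ W := by
      simp only [List.length_cons] at hw
      omega
    simp only [gg, cf, mul_add]
    rw [Finset.sum_add_distrib, ← ih hw' (ok_tail hok) (x :: l)]
    congr 1
    exact sum_single V _ _ hw hok

omit [Fintype ι] [DecidableEq ι] in
theorem cc_Sg (b : Option ι → ℚ) {l : List (Option ι)} (hl : l ≠ []) :
    PowerSeries.constantCoeff (Sg b l) = 0 := by
  cases l with
  | nil => exact absurd rfl hl
  | cons x l =>
    rw [← PowerSeries.coeff_zero_eq_constantCoeff_apply]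
    simp [Sg, Im]

omit [Fintype ι] in
theorem cc_cf (b : Option ι → ℚ) (w v : List (Option ι)) : ∀ l, l ≠ [] →
    PowerSeries.constantCoeff (cf b l w v) = 0 := by
  induction w with
  | nil =>
    intro l hl
    simp only [cf]
    split_ifs
    · exact cc_Sg b hl
    · exact map_zero _
  | cons x w ih =>
    intro l hl
    simp only [cf]
    rw [map_add, ih (x :: l) (List.cons_ne_nil _ _), add_zero]
    split_ifs
    · exact cc_Sg b hl
    · exact map_zero _

omit [Fintype ι] in
theorem cc_cf_nil (b : Option ι → ℚ) (w v : List (Option ι)) :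
    PowerSeries.constantCoeff (cf b [] w v) = if v = w then 1 else 0 := by
  cases w with
  | nil =>
    simp only [cf, Sg]
    split_ifs <;> simp
  | cons x w =>
    simp only [cf, Sg]
    rw [map_add, cc_cf b w v [x] (List.cons_ne_nil _ _), add_zero]
    split_ifs <;> simp

/-- the matrix of the change of gauge -/
noncomputable def UU (W : ℕ) (b : Option ι → ℚ) : Matrix (Wd ι W) (Wd ι W) (PowerSeries ℚ) :=
  Matrix.of fun v w => cf b [] w.1 v.1

theorem isUnit_det_UU (W : ℕ) (b : Option ι → ℚ) : IsUnit (UU W b).det := by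
  rw [PowerSeries.isUnit_iff_constantCoeff, RingHom.map_det]
  have h : (PowerSeries.constantCoeff (R := ℚ)).mapMatrix (UU W b) = 1 := by
    ext v w
    rw [RingHom.mapMatrix_apply, Matrix.map_apply, UU, Matrix.of_apply, cc_cf_nil,
      Matrix.one_apply]
    by_cases hvw : v = w
    · rw [if_pos hvw, if_pos (congrArg Subtype.val hvw)]
    · rw [if_neg hvw, if_neg (fun h => hvw (Subtype.ext h))]
  rw [h, Matrix.det_one]
  exact isUnit_one

/-- the matrix `G` -/
noncomputable def GG (W : ℕ) (c : ι → ℕ) (z0 : ℚ) (P : List (Option ι) → Polynomial ℚ) :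
    Matrix (Wd ι W) (Wd ι W) (PowerSeries ℚ) :=
  Matrix.of fun K w => g0 c z0 (VV c P (num K)) w.1

theorem det_GG (W : ℕ) (c : ι → ℕ) (z0 : ℚ) (P : List (Option ι) → Polynomial ℚ) :
    (GG W c z0 P).det = ty z0 (WW W c P) * (UU W (bb c z0)).det := by
  have h : GG W c z0 P = (tyh z0).mapMatrix (Matrix.of fun (K w : Wd ι W) => VV c P (num K) w.1) *
      UU W (bb c z0) := by
    ext1 K w
    rw [Matrix.mul_apply]
    exact gg_eq (bb c z0) W _ w.1 w.2.1 w.2.2 []
  rw [h, Matrix.det_mul, ← RingHom.map_det, tyh_apply]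
  rfl

end ORD1_

open ORD1_ in
theorem p_ORD1 (hG : T_GAU) : T_ORD1 := by
  intro ι _ _ c W K0 z0 P lam hz0 hlam hk
  set H : ℕ → PowerSeries ℚ := fun k =>
    ∑ w : Wd ι W, PowerSeries.C (lam w) * g0 c z0 (VV c P k) w.1 with hH
  have hH0 : (PowerSeries.X : PowerSeries ℚ) ^ (K0 + 1) ∣ H 0 := by
    rw [PowerSeries.X_pow_dvd_iff]
    intro k hk1
    rw [hH]
    simp only [map_sum]
    rw [← hk k (by omega)]
    refine Finset.sum_congr rfl fun w _ => ?_
    rw [PowerSeries.coeff_C_mul]
    rfl
  have hstep : ∀ k, H (k + 1) = ty z0 (TT c) * PowerSeries.derivative ℚ (H k) := by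
    intro k
    simp only [hH]
    rw [map_sum, Finset.mul_sum]
    refine Finset.sum_congr rfl fun w _ => ?_
    rw [Derivation.leibniz, PowerSeries.derivative_C, smul_zero, add_zero, smul_eq_mul]
    have h1 := hG ℚ ι (bb c z0) (ty z0 (TT c)) (fun x => ty z0 (Tx c x)) (hyp c hz0)
      (fun v => ty z0 (VV c P k v)) w.1
    have h2 : g0 c z0 (VV c P (k + 1)) w.1 = gg (bb c z0) (nbs (ty z0 (TT c))
        (fun x => ty z0 (Tx c x)) (fun v => ty z0 (VV c P k v))) [] w.1 := by
      unfold g0
      congr 1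
      funext v
      exact ty_nb c z0 (VV c P k) v
    rw [h2, ← h1]
    unfold g0
    ring
  have hHk : ∀ k, (PowerSeries.X : PowerSeries ℚ) ^ (K0 + 1 - k) ∣ H k := by
    intro k
    induction k with
    | zero => simpa using hH0
    | succ k ih =>
      rw [hstep]
      refine Dvd.dvd.mul_left ?_ _
      rw [PowerSeries.X_pow_dvd_iff] at ih ⊢
      intro m hm
      rw [PowerSeries.coeff_derivative, ih (m + 1) (by omega), zero_mul]
  set s := K0 + 1 - (Fintype.card (Wd ι W) - 1) with hs
  have h1 : (PowerSeries.X : PowerSeries ℚ) ^ s ∣ (GG W c z0 P).det := by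
    refine Pool.Agent.KBD.ORD1_.dvd_det_of_mulVec s _ lam hlam fun K => ?_
    have h2 : (GG W c z0 P).mulVec (fun J => PowerSeries.C (lam J)) K = H (num K) := by
      change ∑ w : Wd ι W, g0 c z0 (VV c P (num K)) w.1 * PowerSeries.C (lam w) = _
      rw [hH]
      refine Finset.sum_congr rfl fun w _ => ?_
      ring
    rw [h2]
    refine (pow_dvd_pow _ ?_).trans (hHk (num K))
    have : num K < Fintype.card (Wd ι W) := (Fintype.equivFin (Wd ι W) K).isLt
    omega
  rw [det_GG] at h1
  have h2 := (isUnit_det_UU W (bb c z0)).dvd_mul_right.mp h1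
  rw [Polynomial.X_sub_C_pow_dvd_iff, Polynomial.X_pow_dvd_iff]
  rw [PowerSeries.X_pow_dvd_iff] at h2
  intro d hd
  have h3 := h2 d hd
  unfold ty at h3
  rw [Polynomial.coeff_coe, Polynomial.taylor_apply] at h3
  exact h3

end Pool.Agent.PLG
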