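import Pool.Agent.PLG.Targets

set_option autoImplicit false

/-!
# Translation of one variable (job SHIFT)
-/

namespace Pool.Agent.PLG

open Finset
open scoped BigOperators

namespace SHIFT_

open MvPolynomial

lemma deg_aeval {σ τ : Type} (f : σ → MvPolynomial τ ℤ) (hf : ∀ i, (f i).totalDegree ≤ 1)
    (P : MvPolynomial σ ℤ) : (aeval f P).totalDegree ≤ P.totalDegree := by
  classical
  rw [aeval_def, eval₂_eq]
  refine totalDegree_finsetSum_le fun d hd => ?_
  have h1 : (∏ i ∈ d.support, f i ^ d i).totalDegree ≤ d.sum fun _ e => e := by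
    refine (totalDegree_finsetProd _ _).trans ?_
    rw [Finsupp.sum]
    refine Finset.sum_le_sum fun i _ => ?_
    refine (totalDegree_pow _ _).trans ?_
    have := Nat.mul_le_mul_left (d i) (hf i)
    rwa [Nat.mul_one] at this
  have h2 : (algebraMap ℤ (MvPolynomial τ ℤ) (coeff d P)).totalDegree = 0 := by
    rw [algebraMap_eq]
    exact totalDegree_C _
  refine (totalDegree_mul _ _).trans ?_
  rw [h2, zero_add]
  exact h1.trans (le_totalDegree hd)

/-- the substitution -/
noncomputable def ph (κ σ : Type) : κ ⊕ Option σ → MvPolynomial (Option κ ⊕ Option σ) ℤ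
  | Sum.inl i => X (Sum.inl (some i))
  | Sum.inr none => X (Sum.inr none) + X (Sum.inl none)
  | Sum.inr (some t) => X (Sum.inr (some t))

/-- translation -/
noncomputable def tr (σ : Type) (μ : ℂ) : MvPolynomial (Option σ) ℂ →ₐ[ℂ] MvPolynomial (Option σ) ℂ :=
  aeval fun i : Option σ => Option.elim i (X none + C μ) (fun t => X (some t))

lemma tr_inv {σ : Type} (μ : ℂ) (q : MvPolynomial (Option σ) ℂ) : tr σ (-μ) (tr σ μ q) = q := by
  have h : (tr σ (-μ)).comp (tr σ μ) = AlgHom.id ℂ _ := by
    ext i
    rcases i with _ | t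
    · simp [tr]
    · simp [tr]
  exact AlgHom.congr_fun h q

end SHIFT_

open SHIFT_ MvPolynomial in
theorem p_SHIFT : T_SHIFT := by
  intro κ σ D θ μ v
  rintro ⟨P, hP, hs, hv⟩
  refine ⟨aeval (ph κ σ) P, ?_, ?_, ?_⟩
  · refine (deg_aeval (ph κ σ) ?_ P).trans hP
    rintro (i | _ | t)
    · exact (totalDegree_X _).le
    · refine (totalDegree_add _ _).trans ?_
      rw [totalDegree_X, totalDegree_X, max_self]
    · exact (totalDegree_X _).le
  · have key : spec (fun i : Option κ => Option.elim i μ θ) (aeval (ph κ σ) P) =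
        tr σ μ (spec θ P) := by
      have e1 : tr σ μ (spec θ P) = (tr σ μ).restrictScalars ℤ (spec θ P) := rfl
      rw [e1, spec, spec, ← AlgHom.comp_apply, ← AlgHom.comp_apply]
      congr 1
      ext i
      rcases i with i | _ | t
      · simp [ph, tr]
      · simp [ph, tr]
      · simp [ph, tr]
    intro h0
    rw [key] at h0
    apply hs
    rw [← tr_inv μ (spec θ P), h0, map_zero]
  · have key : aeval (Sum.elim (fun i : Option κ => Option.elim i μ θ)
        (fun i : Option σ => Option.elim i (v none - μ) (fun t => v (some t))))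
        (aeval (ph κ σ) P) = aeval (Sum.elim θ v) P := by
      rw [← AlgHom.comp_apply]
      congr 1
      ext i
      rcases i with i | _ | t
      · simp [ph]
      · simp [ph]
      · simp [ph]
    rw [key, hv]

end Pool.Agent.PLG
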