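import Pool.Agent.PLG.Targets

set_option autoImplicit false

/-!
# Products of hyperlogarithms (job SHUF, MP_5d33ca_ag)
-/

namespace Pool.Agent.PLG

open Finset
open scoped BigOperators

namespace SHUF_

variable {ι : Type}

theorem ok_tail {x : Option ι} {w : List (Option ι)} (h : ok (x :: w)) : ok w := by
  cases w with
  | nil => trivial
  | cons y l => exact h

theorem ok_cons {x : Option ι} {w : List (Option ι)} (hw : w ≠ []) (h : ok w) : ok (x :: w) := by
  cases w with
  | nil => exact absurd rfl hw
  | cons y l => exact h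

theorem ok_none {w : List (Option ι)} (h : ok (none :: w)) : w ≠ [] := by
  rintro rfl
  exact h rfl

theorem coeff_zero_In (c : ι → ℕ) (x : Option ι) (f : PowerSeries ℚ) :
    PowerSeries.coeff 0 (In c x f) = 0 := by
  cases x <;> simp [In]

theorem coeff_zero_L (c : ι → ℕ) {w : List (Option ι)} (hw : w ≠ []) :
    PowerSeries.coeff 0 (L c w) = 0 := by
  cases w with
  | nil => exact absurd rfl hw
  | cons x l => exact coeff_zero_In c x _

/-- `In c x` is linear -/
noncomputable def InL (c : ι → ℕ) (x : Option ι) : PowerSeries ℚ →ₗ[ℚ] PowerSeries ℚ where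
  toFun := In c x
  map_add' f g := by
    ext n
    cases x with
    | none => simp [In, add_div]
    | some i => simp [In, add_mul, Finset.sum_add_distrib, add_div]
  map_smul' r f := by
    ext n
    cases x with
    | none => simp [In, mul_div_assoc]
    | some i => simp [In, mul_assoc, ← Finset.mul_sum, mul_div_assoc]

/-- the span of the hyperlogarithms of the nonempty admissible words of length at most `n` -/
noncomputable def Ap (c : ι → ℕ) (n : ℕ) : Submodule ℚ (PowerSeries ℚ) :=
  Submodule.span ℚ {f | ∃ w : List (Option ι), w ≠ [] ∧ ok w ∧ w.length ≤ n ∧ f = L c w}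

theorem L_mem {c : ι → ℕ} {n : ℕ} {w : List (Option ι)} (h1 : w ≠ []) (h2 : ok w)
    (h3 : w.length ≤ n) : L c w ∈ Ap c n :=
  Submodule.subset_span ⟨w, h1, h2, h3, rfl⟩

theorem In_mem {c : ι → ℕ} {n : ℕ} (x : Option ι) {f : PowerSeries ℚ} (hf : f ∈ Ap c n) :
    In c x f ∈ Ap c (n + 1) := by
  have h : Submodule.map (InL c x) (Ap c n) ≤ Ap c (n + 1) := by
    rw [Ap, Submodule.map_span, Submodule.span_le]
    rintro _ ⟨_, ⟨w, h1, h2, h3, rfl⟩, rfl⟩
    exact Submodule.subset_span ⟨x :: w, by simp, ok_cons h1 h2, by simpa using h3, rfl⟩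
  exact h ⟨f, hf, rfl⟩

theorem TT_ne [Fintype ι] [DecidableEq ι] (c : ι → ℕ) : ((TT c : Polynomial ℚ) : PowerSeries ℚ) ≠ 0 := by
  rw [Ne, Polynomial.coe_eq_zero_iff, TT]
  refine mul_ne_zero Polynomial.X_ne_zero (Finset.prod_ne_zero_iff.2 fun i _ h => ?_)
  have := congrArg (Polynomial.coeff · 0) h
  simp at this

/-- the product formula -/
theorem prod_eq [Fintype ι] [DecidableEq ι] (h1 : T_IN) (c : ι → ℕ) (x y : Option ι)
    (u v : List (Option ι)) (hu : ok (x :: u)) (hv : ok (y :: v)) :
    L c (x :: u) * L c (y :: v) =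
      In c x (L c u * L c (y :: v)) + In c y (L c (x :: u) * L c v) := by
  have zu : PowerSeries.constantCoeff (L c (x :: u)) = 0 := by
    rw [← PowerSeries.coeff_zero_eq_constantCoeff_apply]
    exact coeff_zero_L c (by simp)
  have zv : PowerSeries.constantCoeff (L c (y :: v)) = 0 := by
    rw [← PowerSeries.coeff_zero_eq_constantCoeff_apply]
    exact coeff_zero_L c (by simp)
  have du := (h1 ι c x (L c u) (fun hx => coeff_zero_L c (ok_none (hx ▸ hu)))).2
  have dv := (h1 ι c y (L c v) (fun hy => coeff_zero_L c (ok_none (hy ▸ hv)))).2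
  have ex := (h1 ι c x (L c u * L c (y :: v)) (fun _ => by
    rw [PowerSeries.coeff_zero_eq_constantCoeff_apply, map_mul, zv, mul_zero])).2
  have ey := (h1 ι c y (L c (x :: u) * L c v) (fun _ => by
    rw [PowerSeries.coeff_zero_eq_constantCoeff_apply, map_mul, zu, zero_mul])).2
  refine PowerSeries.derivative.ext ?_ ?_
  · refine mul_left_cancel₀ (TT_ne c) ?_
    rw [map_add, mul_add, ex, ey, Derivation.leibniz, smul_eq_mul, smul_eq_mul, mul_add]
    have du' : (TT c : PowerSeries ℚ) * PowerSeries.derivative ℚ (L c (x :: u)) =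
        (Tx c x : PowerSeries ℚ) * L c u := du
    have dv' : (TT c : PowerSeries ℚ) * PowerSeries.derivative ℚ (L c (y :: v)) =
        (Tx c y : PowerSeries ℚ) * L c v := dv
    calc (TT c : PowerSeries ℚ) * (L c (x :: u) * PowerSeries.derivative ℚ (L c (y :: v))) +
          (TT c : PowerSeries ℚ) * (L c (y :: v) * PowerSeries.derivative ℚ (L c (x :: u)))
        = L c (x :: u) * ((TT c : PowerSeries ℚ) * PowerSeries.derivative ℚ (L c (y :: v))) +
          L c (y :: v) * ((TT c : PowerSeries ℚ) * PowerSeries.derivative ℚ (L c (x :: u))) := by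
          ring
      _ = _ := by rw [du', dv']; ring
  · rw [map_mul, map_add, zu, zero_mul, ← PowerSeries.coeff_zero_eq_constantCoeff_apply,
      ← PowerSeries.coeff_zero_eq_constantCoeff_apply, coeff_zero_In, coeff_zero_In, add_zero]

theorem core [Fintype ι] [DecidableEq ι] (h1 : T_IN) (c : ι → ℕ) : ∀ (n : ℕ)
    (u v : List (Option ι)), u.length + v.length ≤ n → ok u → ok v → (u ≠ [] ∨ v ≠ []) →
    L c u * L c v ∈ Ap c (u.length + v.length) := by
  intro n
  induction n with
  | zero =>
    intro u v hn _ _ hne
    have e1 : u = [] := List.length_eq_zero_iff.1 (by omega)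
    have e2 : v = [] := List.length_eq_zero_iff.1 (by omega)
    rcases hne with h | h
    · exact absurd e1 h
    · exact absurd e2 h
  | succ n ih =>
    intro u v hn hu hv hne
    rcases u with _ | ⟨x, u⟩
    · have hv0 : v ≠ [] := by
        rcases hne with h | h
        · exact absurd rfl h
        · exact h
      have : L c ([] : List (Option ι)) * L c v = L c v := one_mul _
      rw [this]
      exact L_mem hv0 hv (by simp)
    rcases v with _ | ⟨y, v⟩
    · have : L c (x :: u) * L c ([] : List (Option ι)) = L c (x :: u) := mul_one _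
      rw [this]
      exact L_mem (by simp) hu (by simp)
    rw [prod_eq h1 c x y u v hu hv]
    simp only [List.length_cons] at hn
    have m1 := ih u (y :: v) (by simp only [List.length_cons]; omega) (ok_tail hu) hv
      (Or.inr (by simp))
    have m2 := ih (x :: u) v (by simp only [List.length_cons]; omega) hu (ok_tail hv)
      (Or.inl (by simp))
    have n1 := In_mem x m1
    have n2 := In_mem y m2
    have e1 : u.length + (y :: v).length + 1 = (x :: u).length + (y :: v).length := by
      simp only [List.length_cons]; omega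
    have e2 : (x :: u).length + v.length + 1 = (x :: u).length + (y :: v).length := by
      simp only [List.length_cons]; omega
    rw [e1] at n1
    rw [e2] at n2
    exact add_mem n1 n2

end SHUF_

open SHUF_

theorem p_SHUF (h1 : T_IN) : T_SHUF := by
  intro ι _ _ c u v hu hv
  by_cases h : u ≠ [] ∨ v ≠ []
  · refine Submodule.span_mono ?_ (core h1 c _ u v le_rfl hu hv h)
    rintro f ⟨w, _, h2, h3, h4⟩
    exact ⟨w, h2, h3, h4⟩
  · push Not at h
    obtain ⟨rfl, rfl⟩ := h
    exact Submodule.subset_span ⟨[], trivial, by simp, by simp [L]⟩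

end Pool.Agent.PLG
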