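import Pool.Agent.PLG.Targets

set_option autoImplicit false

/-!
# Siegel's lemma for the simultaneous approximation (job SIEG)
-/

namespace Pool.Agent.PLG

open Finset
open scoped BigOperators

namespace SIEG_

attribute [local instance] Matrix.seminormedAddCommGroup

theorem siegel {α β : Type} [Fintype α] [Fintype β] (A : Matrix α β ℤ) (X E : ℕ)
    (hX : 1 ≤ X) (hA : ∀ i j, |A i j| ≤ (X : ℤ))
    (h1 : Fintype.card α < Fintype.card β) (h2 : 0 < Fintype.card α)
    (h3 : Fintype.card α ≤ E * (Fintype.card β - Fintype.card α)) :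
    ∃ t : β → ℤ, t ≠ 0 ∧ A.mulVec t = 0 ∧ ∀ j, |t j| ≤ ((Fintype.card β * X : ℕ) : ℤ) ^ E := by
  obtain ⟨t, ht0, ht1, ht2⟩ := Int.Matrix.exists_ne_zero_int_vec_norm_le A h1 h2
  refine ⟨t, ht0, ht1, fun j => ?_⟩
  have hXr : (1 : ℝ) ≤ X := by exact_mod_cast hX
  have hn : (1 : ℝ) ≤ (Fintype.card β : ℝ) := by exact_mod_cast (by omega : 1 ≤ Fintype.card β)
  have hnorm : ‖A‖ ≤ (X : ℝ) := by
    rw [Matrix.norm_le_iff (by positivity)]
    intro i j
    rw [Int.norm_eq_abs]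
    exact_mod_cast hA i j
  have hmax : max 1 ‖A‖ ≤ (X : ℝ) := max_le hXr hnorm
  have hbase : (Fintype.card β : ℝ) * max 1 ‖A‖ ≤ (Fintype.card β : ℝ) * X :=
    mul_le_mul_of_nonneg_left hmax (by positivity)
  have hbase1 : (1 : ℝ) ≤ (Fintype.card β : ℝ) * X := by nlinarith
  have hdpos : (0 : ℝ) < (Fintype.card β : ℝ) - Fintype.card α := by
    rw [sub_pos]; exact_mod_cast h1
  have hexp : ((Fintype.card α : ℝ) / ((Fintype.card β : ℝ) - Fintype.card α)) ≤ (E : ℝ) := by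
    rw [div_le_iff₀ hdpos]
    have h4 : ((Fintype.card β - Fintype.card α : ℕ) : ℝ) =
        (Fintype.card β : ℝ) - Fintype.card α := by
      rw [Nat.cast_sub h1.le]
    rw [← h4]
    exact_mod_cast h3
  have hexp0 : 0 ≤ ((Fintype.card α : ℝ) / ((Fintype.card β : ℝ) - Fintype.card α)) := by
    positivity
  have h5 : ‖t‖ ≤ ((Fintype.card β : ℝ) * X) ^ E := by
    refine ht2.trans ?_
    calc _ ≤ ((Fintype.card β : ℝ) * X) ^
          ((Fintype.card α : ℝ) / ((Fintype.card β : ℝ) - Fintype.card α)) :=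
          Real.rpow_le_rpow (by positivity) hbase hexp0
      _ ≤ ((Fintype.card β : ℝ) * X) ^ (E : ℝ) :=
          Real.rpow_le_rpow_of_exponent_le hbase1 hexp
      _ = _ := Real.rpow_natCast _ _
  have h6 := (norm_le_pi_norm t j).trans h5
  rw [Int.norm_eq_abs] at h6
  exact_mod_cast h6

theorem lcm_ne_zero (n : ℕ) : (Nat.lcmUpto n : ℚ) ≠ 0 := by
  have h : Nat.lcmUpto n ≠ 0 := (Nat.lcmUpto_pos n).ne'
  exact_mod_cast h

/-- the polynomial with coefficients `t` -/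
noncomputable def QQ {m : ℕ} (t : Fin (m + 1) → ℤ) : Polynomial ℚ :=
  ∑ i : Fin (m + 1), Polynomial.C (t i : ℚ) * Polynomial.X ^ (i : ℕ)

theorem coeff_QQ {m : ℕ} (t : Fin (m + 1) → ℤ) (s : ℕ) :
    (QQ t).coeff s = if h : s < m + 1 then (t ⟨s, h⟩ : ℚ) else 0 := by
  unfold QQ
  rw [Polynomial.finsetSum_coeff]
  simp only [Polynomial.coeff_C_mul, Polynomial.coeff_X_pow]
  split_ifs with h
  · rw [Finset.sum_eq_single ⟨s, h⟩]
    · simp
    · intro b _ hb
      rw [if_neg, mul_zero]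
      intro h2
      exact hb (Fin.ext h2.symm)
    · intro h2
      exact absurd (Finset.mem_univ _) h2
  · refine Finset.sum_eq_zero fun i _ => ?_
    rw [if_neg, mul_zero]
    intro h2
    exact h (by rw [h2]; exact i.isLt)

theorem natDegree_QQ {m : ℕ} (t : Fin (m + 1) → ℤ) : (QQ t).natDegree < m + 1 := by
  rw [Nat.lt_succ_iff, Polynomial.natDegree_le_iff_coeff_eq_zero]
  intro s hs
  rw [coeff_QQ, dif_neg (by omega)]

/-- coefficient of the product with a power series -/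
theorem coeff_QQ_mul {m : ℕ} (t : Fin (m + 1) → ℤ) (f : PowerSeries ℚ) (s : ℕ) (hs : m ≤ s) :
    PowerSeries.coeff s ((QQ t : PowerSeries ℚ) * f) =
      ∑ i : Fin (m + 1), (t i : ℚ) * PowerSeries.coeff (s - i) f := by
  rw [PowerSeries.coeff_mul, Finset.Nat.sum_antidiagonal_eq_sum_range_succ_mk]
  have h1 : ∑ k ∈ range (s.succ), (PowerSeries.coeff k) (QQ t : PowerSeries ℚ) *
      PowerSeries.coeff (s - k) f =
      ∑ k ∈ range (m + 1), (PowerSeries.coeff k) (QQ t : PowerSeries ℚ) *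
        PowerSeries.coeff (s - k) f := by
    symm
    refine Finset.sum_subset (fun k hk => ?_) fun k _ hk => ?_
    · rw [Finset.mem_range] at hk ⊢
      omega
    · rw [Finset.mem_range] at hk
      rw [Polynomial.coeff_coe, coeff_QQ, dif_neg hk, zero_mul]
  refine h1.trans ?_
  rw [Finset.sum_range]
  refine Finset.sum_congr rfl fun i _ => ?_
  rw [Polynomial.coeff_coe, coeff_QQ, dif_pos i.isLt]

/-- integrality of low coefficients of products -/
theorem int_coeff_mul {m : ℕ} (t : Fin (m + 1) → ℤ) (f : PowerSeries ℚ) (c : ℚ)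
    (hf : ∀ s, s ≤ m → ∃ x : ℤ, c * PowerSeries.coeff s f = x) (s : ℕ) (hs : s ≤ m) :
    ∃ x : ℤ, c * PowerSeries.coeff s ((QQ t : PowerSeries ℚ) * f) = x := by
  rw [PowerSeries.coeff_mul, Finset.mul_sum]
  have h : ∀ p ∈ Finset.HasAntidiagonal.antidiagonal s, ∃ x : ℤ,
      c * ((PowerSeries.coeff p.1) (QQ t : PowerSeries ℚ) * (PowerSeries.coeff p.2) f) = x := by
    intro p hp
    rw [Finset.HasAntidiagonal.mem_antidiagonal] at hp
    obtain ⟨x, hx⟩ := hf p.2 (by omega)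
    rw [Polynomial.coeff_coe, coeff_QQ, dif_pos (by omega)]
    refine ⟨t ⟨p.1, by omega⟩ * x, ?_⟩
    rw [Int.cast_mul, ← hx]
    ring
  choose! x hx using h
  refine ⟨∑ p ∈ Finset.HasAntidiagonal.antidiagonal s, x p, ?_⟩
  rw [Int.cast_sum]
  exact Finset.sum_congr rfl hx


theorem card_ne (ι : Type) [Finite ι] (W : ℕ) :
    Nat.card {w : Wd ι W // w.1 ≠ []} = Fintype.card (Wd ι W) - 1 := by
  classical
  obtain ⟨e, he⟩ : ∃ e : Wd ι W, e.1 = [] := ⟨⟨[], Nat.zero_le _, trivial⟩, rfl⟩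
  have h : Nat.card {w : Wd ι W // w.1 ≠ []} = Fintype.card {w : Wd ι W // w ≠ e} := by
    rw [← Nat.card_eq_fintype_card]
    refine Nat.card_congr (Equiv.subtypeEquivRight fun w => ?_)
    constructor
    · intro h h2
      exact h (by rw [h2, he])
    · intro h h2
      exact h (Subtype.ext (h2.trans he.symm))
  rw [h, Fintype.card_subtype_compl]
  congr 1

end SIEG_

open SIEG_ in
theorem p_SIEG (h1 : T_COEF) (h2 : T_LCM) : T_SIEG := by
  classical
  intro ι _ _ c W A Λ n M hMM hM hA ha hL hn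
  set m := (M - 1) * Λ * n with hm
  set σ := m + 1 + (Λ - 1) * n with hσ
  have hcoef := h1 ι c A hA ha
  have hz : ∃ z : List (Option ι) → ℕ → ℤ, ∀ w s, w.length ≤ W → s ≤ σ →
      (Nat.lcmUpto σ : ℚ) ^ W * PowerSeries.coeff s (L c w) = z w s := by
    have : ∀ (w : List (Option ι)) (s : ℕ), ∃ x : ℤ, w.length ≤ W → s ≤ σ →
        (Nat.lcmUpto σ : ℚ) ^ W * PowerSeries.coeff s (L c w) = x := by
      intro w s
      by_cases hs : w.length ≤ W ∧ s ≤ σ
      · obtain ⟨x, hx⟩ := (hcoef w).2 W σ s hs.1 hs.2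
        exact ⟨x, fun _ _ => hx⟩
      · exact ⟨0, fun h h' => absurd ⟨h, h'⟩ hs⟩
    choose z hz using this
    exact ⟨z, hz⟩
  obtain ⟨z, hz⟩ := hz
  obtain ⟨X, hX⟩ : ∃ X : ℕ, X = (220 ^ W * A) ^ σ := ⟨_, rfl⟩
  have hX1 : 1 ≤ X := by
    rw [hX]
    exact Nat.one_le_iff_ne_zero.2 (by positivity)
  have hzb : ∀ w s, w.length ≤ W → s ≤ σ → |z w s| ≤ (X : ℤ) := by
    intro w s hw hs
    rw [hX]
    have e1 : (|z w s| : ℚ) = (Nat.lcmUpto σ : ℚ) ^ W * |PowerSeries.coeff s (L c w)| := by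
      rw [← hz w s hw hs, abs_mul, abs_of_nonneg (by positivity)]
    have e2 : (Nat.lcmUpto σ : ℚ) ≤ 220 ^ σ := by exact_mod_cast h2 σ
    have hA1 : (1 : ℚ) ≤ (A : ℚ) := by exact_mod_cast hA
    have e3 : (|z w s| : ℚ) ≤ ((220 : ℚ) ^ W * (A : ℚ)) ^ σ := by
      have e4 : ((220 : ℚ) ^ W) ^ σ = (220 ^ σ) ^ W := by
        rw [← pow_mul, ← pow_mul, mul_comm W σ]
      rw [e1, mul_pow, e4]
      exact mul_le_mul (pow_le_pow_left₀ (by positivity) e2 _)
        (((hcoef w).1 s).trans (pow_le_pow_right₀ hA1 hs)) (abs_nonneg _) (by positivity)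
    exact_mod_cast e3
  -- the linear system
  set Mat : Matrix ({w : Wd ι W // w.1 ≠ []} × Fin ((Λ - 1) * n)) (Fin (m + 1)) ℤ :=
    fun p i => z p.1.1.1 (m + 1 + p.2 - i) with hMat
  have hcardα : Fintype.card ({w : Wd ι W // w.1 ≠ []} × Fin ((Λ - 1) * n)) =
      (M - 1) * ((Λ - 1) * n) := by
    rw [Fintype.card_prod, Fintype.card_fin, ← Nat.card_eq_fintype_card, card_ne, ← hMM]
  have hcardβ : Fintype.card (Fin (m + 1)) = m + 1 := Fintype.card_fin _
  obtain ⟨M', hM'⟩ : ∃ M', M = M' + 2 := ⟨M - 2, by omega⟩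
  obtain ⟨L', hL'⟩ : ∃ L', Λ = L' + 2 := ⟨Λ - 2, by omega⟩
  obtain ⟨n', hn'⟩ : ∃ n', n = n' + 1 := ⟨n - 1, by omega⟩
  have e1 : M - 1 = M' + 1 := by omega
  have e2 : Λ - 1 = L' + 1 := by omega
  have hlt : Fintype.card ({w : Wd ι W // w.1 ≠ []} × Fin ((Λ - 1) * n)) <
      Fintype.card (Fin (m + 1)) := by
    rw [hcardα, hcardβ, hm, e1, e2, hL']
    nlinarith [Nat.zero_le ((M' + 1) * n)]
  have hpos : 0 < Fintype.card ({w : Wd ι W // w.1 ≠ []} × Fin ((Λ - 1) * n)) := by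
    rw [hcardα, e1, e2, hn']
    positivity
  have hE : Fintype.card ({w : Wd ι W // w.1 ≠ []} × Fin ((Λ - 1) * n)) ≤
      Λ * (Fintype.card (Fin (m + 1)) -
        Fintype.card ({w : Wd ι W // w.1 ≠ []} × Fin ((Λ - 1) * n))) := by
    have e3 : Fintype.card (Fin (m + 1)) -
        Fintype.card ({w : Wd ι W // w.1 ≠ []} × Fin ((Λ - 1) * n)) = (M - 1) * n + 1 := by
      rw [hcardα, hcardβ, hm, e1, e2, hL']
      rw [Nat.sub_eq_iff_eq_add]
      · ring
      · nlinarith [Nat.zero_le ((M' + 1) * n)]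
    rw [e3, hcardα, e1, e2, hL']
    nlinarith [Nat.zero_le ((M' + 1) * n), Nat.zero_le ((M' + 1) * n * L')]
  have hMb : ∀ p i, |Mat p i| ≤ (X : ℤ) := by
    intro p i
    exact hzb _ _ p.1.1.2.1 (by have := p.2.isLt; omega)
  obtain ⟨t, ht0, ht1, ht2⟩ := siegel Mat X Λ hX1 hMb hlt hpos hE
  have hL0 : L c ([] : List (Option ι)) = 1 := rfl
  have hP0 : PowerSeries.trunc (m + 1) ((QQ t : PowerSeries ℚ) * L c []) = QQ t := by
    rw [hL0, mul_one]
    exact PowerSeries.trunc_coe_eq_self (natDegree_QQ t)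
  refine ⟨fun w => PowerSeries.trunc (m + 1) ((QQ t : PowerSeries ℚ) * L c w), ⟨?_, ?_, ?_⟩,
    ?_, ?_⟩
  · show PowerSeries.trunc (m + 1) ((QQ t : PowerSeries ℚ) * L c []) ≠ 0
    rw [hP0]
    intro h0
    refine ht0 (funext fun i => ?_)
    have h3 := coeff_QQ t i
    rw [h0, Polynomial.coeff_zero, dif_pos i.isLt] at h3
    have h4 : (t i : ℚ) = 0 := h3.symm
    exact_mod_cast h4
  · intro w _ _
    exact Nat.lt_succ_iff.1 (PowerSeries.natDegree_trunc_lt _ _)
  · intro w hw hok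
    show (PowerSeries.X : PowerSeries ℚ) ^ σ ∣
      ((PowerSeries.trunc (m + 1) ((QQ t : PowerSeries ℚ) * L c []) : Polynomial ℚ) :
        PowerSeries ℚ) * L c w -
      ((PowerSeries.trunc (m + 1) ((QQ t : PowerSeries ℚ) * L c w) : Polynomial ℚ) :
        PowerSeries ℚ)
    rw [hP0, PowerSeries.X_pow_dvd_iff]
    intro s hs
    rw [map_sub, Polynomial.coeff_coe, PowerSeries.coeff_trunc]
    split_ifs with h3
    · exact sub_self _
    · rw [sub_zero]
      by_cases hJ : w = []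
      · rw [hJ, hL0, mul_one, Polynomial.coeff_coe, coeff_QQ, dif_neg h3]
      · have h4 : (Nat.lcmUpto σ : ℚ) ^ W *
            PowerSeries.coeff s ((QQ t : PowerSeries ℚ) * L c w) = 0 := by
          rw [coeff_QQ_mul t _ s (by omega), Finset.mul_sum]
          have h5 := congrFun ht1 (⟨⟨w, hw, hok⟩, hJ⟩, ⟨s - (m + 1), by omega⟩)
          rw [Matrix.mulVec, dotProduct] at h5
          have h6 : ((∑ i, Mat (⟨⟨w, hw, hok⟩, hJ⟩, ⟨s - (m + 1), by omega⟩) i * t i : ℤ) : ℚ)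
              = 0 := by
            rw [h5]; rfl
          rw [← h6, Int.cast_sum]
          refine Finset.sum_congr rfl fun i _ => ?_
          have h7 : Mat (⟨⟨w, hw, hok⟩, hJ⟩, ⟨s - (m + 1), by omega⟩) i = z w (s - i) := by
            rw [hMat]
            show z w (m + 1 + (s - (m + 1)) - i) = z w (s - i)
            congr 2
            omega
          rw [h7, Int.cast_mul, ← hz w (s - i) hw (by omega)]
          ring
        exact (mul_eq_zero.1 h4).resolve_left (pow_ne_zero _ (lcm_ne_zero σ))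
  · intro s
    show |(PowerSeries.trunc (m + 1) ((QQ t : PowerSeries ℚ) * L c [])).coeff s| ≤ _
    rw [hP0, coeff_QQ]
    split_ifs with h3
    · have h4 := ht2 ⟨s, h3⟩
      have h5 : (Fintype.card (Fin (m + 1)) * X) ^ Λ ≤
          (4 * 220 ^ W * A) ^ (σ * Λ) := by
        rw [pow_mul, hX]
        refine Nat.pow_le_pow_left ?_ Λ
        rw [hcardβ]
        have h6 : m + 1 ≤ 2 ^ σ := le_trans (by omega : m + 1 ≤ σ) (Nat.lt_two_pow_self).le
        calc (m + 1) * (220 ^ W * A) ^ σ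
            ≤ 2 ^ σ * (220 ^ W * A) ^ σ := Nat.mul_le_mul_right _ h6
          _ ≤ 4 ^ σ * (220 ^ W * A) ^ σ :=
            Nat.mul_le_mul_right _ (Nat.pow_le_pow_left (by norm_num) _)
          _ = (4 * 220 ^ W * A) ^ σ := by
            rw [← mul_pow]
            congr 1
            ring
      have h6 : |t ⟨s, h3⟩| ≤ (((4 * 220 ^ W * A) ^ (σ * Λ) : ℕ) : ℤ) := by
        refine h4.trans ?_
        exact_mod_cast h5
      exact_mod_cast h6
    · rw [abs_zero]
      positivity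
  · intro w hw hok s
    show ∃ x : ℤ, _ * (PowerSeries.trunc (m + 1) ((QQ t : PowerSeries ℚ) * L c w)).coeff s = x
    rw [PowerSeries.coeff_trunc]
    split_ifs with h3
    · exact int_coeff_mul t (L c w) _ (fun s hs => (hcoef w).2 W m s hw hs) s (by omega)
    · exact ⟨0, by simp⟩

end Pool.Agent.PLG
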