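import Pool.Agent.PLG.Targets
import Pool.Agent.KBD.ZE

set_option autoImplicit false

/-! Polylogarithms, bounded degree: Chebyshev bound and the zero estimate. -/

namespace Pool.Agent.PLG

open Finset

theorem p_LCM : T_LCM := KBD.p_LCM

theorem p_ZE (h1 : T_NONZ) (h2 : T_ORD0) (h3 : T_ORD1) (h4 : T_DEG) : T_ZE := by
  intro ι _ _ c W m σ K0 z0 P lam hc hc1 hz0 hP hlam hk
  set M := Fintype.card (Wd ι W) with hM
  have hM1 : 1 ≤ M := Fintype.card_pos_iff.mpr ⟨⟨[], Nat.zero_le _, trivial⟩⟩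
  have hW := h1 ι c W P hc hc1 hP.ne
  have d0 := h2 ι c W m σ P hP
  have d1 := h3 ι c W K0 z0 P lam hz0 hlam hk
  have dg := h4 ι c W m P hP.deg
  rw [← hM] at d0 d1 dg
  have hco : IsCoprime (Polynomial.X ^ ((M - 1) * σ) : Polynomial ℚ)
      ((Polynomial.X - Polynomial.C z0) ^ (K0 + 1 - (M - 1))) := by
    apply IsCoprime.pow
    have := Polynomial.isCoprime_X_sub_C_of_isUnit_sub (R := ℚ) (a := 0) (b := z0)
      (by simpa using hz0.ne')
    simpa using this
  have hdvd := hco.mul_dvd d0 d1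
  have hdeg := Polynomial.natDegree_le_of_dvd hdvd hW
  rw [Polynomial.natDegree_mul (pow_ne_zero _ Polynomial.X_ne_zero)
    (pow_ne_zero _ (Polynomial.X_sub_C_ne_zero z0)), Polynomial.natDegree_pow,
    Polynomial.natDegree_pow, Polynomial.natDegree_X, Polynomial.natDegree_X_sub_C,
    mul_one, mul_one] at hdeg
  have h5 := hdeg.trans dg
  have h6 : M ≤ M ^ 2 := by nlinarith
  have h7 : (Fintype.card ι + 2) * M ^ 2 = (Fintype.card ι + 1) * M ^ 2 + M ^ 2 := by ring
  rw [h7]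
  omega

end Pool.Agent.PLG
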