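import Pool.Agent.PLG.RES
import Pool.Agent.PLG.ABS
import Pool.Agent.PLG.IN
import Pool.Agent.PLG.LI
import Pool.Agent.PLG.NONZ
import Pool.Agent.PLG.GAU
import Pool.Agent.PLG.ORD0
import Pool.Agent.PLG.ORD1
import Pool.Agent.PLG.DEG
import Pool.Agent.PLG.ZE
import Pool.Agent.PLG.COEF
import Pool.Agent.PLG.SIEG
import Pool.Agent.PLG.DEN
import Pool.Agent.PLG.AN
import Pool.Agent.PLG.H
import Pool.Agent.PLG.SHUF
import Pool.Agent.PLG.LIN
import Pool.Agent.PLG.FIND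
import Pool.Agent.PLG.EVAL
import Pool.Agent.PLG.VAL
import Pool.Agent.PLG.GP
import Pool.Agent.PLG.ELIM1
import Pool.Agent.PLG.ELIM
import Pool.Agent.PLG.SHIFT
import Pool.Agent.PLG.ONE
import Pool.Agent.PLG.MULTI
import Pool.Agent.KAA.PI

set_option autoImplicit false

/-!
# Almost all polylogarithm motives have no period relation of bounded degree, of any height

Fix distinct nonzero integers `ρ_1, ..., ρ_g` and a weight `s`.  The (mixed Tate) polylogarithm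
motives at the points `ρ_l / t` have the periods `2 π i`, `log (ρ_l / t)` and
`Li_j (ρ_l / t)`, `1 ≤ j ≤ s`.  For every finite family `θ` of complex numbers (for instance
`θ = (2 π i, log |ρ_1|, ..., log |ρ_g|)`, or all periods of a fixed motive), every degree `D` and
all but `O(T^(n - 1/K))` tuples `(t_1, ..., t_n)` of positive integers `≤ T`, the numbers
`log t_i`, `Li_j (ρ_l / t_i)` satisfy no polynomial relation over `ℤ[θ]` of degree `≤ D`,
whatever the size of its coefficients.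
-/

namespace Pool.Agent.PLG.PolylogDegree

open Finset

/-- The polynomial `P(θ, y)` in the variables `y_v` (`v ∈ σ`), obtained from
`P ∈ ℤ[x_i, y_v : i ∈ κ, v ∈ σ]` by putting `x = θ`. -/
noncomputable def specialise {κ σ : Type} (θ : κ → ℂ) (P : MvPolynomial (κ ⊕ σ) ℤ) :
    MvPolynomial σ ℂ :=
  MvPolynomial.aeval (Sum.elim (fun i => MvPolynomial.C (θ i)) MvPolynomial.X) P

/-- `v = (v_τ)`, `τ ∈ σ`, satisfies a nontrivial polynomial relation over `ℤ[θ]` of degree `≤ D`: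
there is an integer polynomial `P` of total degree at most `D` (and with arbitrary coefficients)
such that the polynomial `P(θ, y)` is not zero and `P(θ, v) = 0`. -/
def HasRelation {κ σ : Type} (D : ℕ) (θ : κ → ℂ) (v : σ → ℂ) : Prop :=
  ∃ P : MvPolynomial (κ ⊕ σ) ℤ, P.totalDegree ≤ D ∧ specialise θ P ≠ 0 ∧
    MvPolynomial.aeval (Sum.elim θ v) P = 0

/-- The polylogarithm `Li_j(x) = ∑_(m ≥ 1) x^m / m^j`. -/
noncomputable def Li (j : ℕ) (x : ℝ) : ℝ := ∑' m : ℕ, x ^ (m + 1) / ((m : ℝ) + 1) ^ j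

/-- The periods of the points `t_1, ..., t_n`: `log t_i` at the place `(i, none)` and
`Li_(j+1) (ρ_l / t_i)` at the place `(i, some (l, j))`, `0 ≤ j < s`. -/
noncomputable def periods {g n : ℕ} (s : ℕ) (ρ : Fin g → ℤ) (t : Fin n → ℕ) :
    Fin n × Option (Fin g × Fin s) → ℂ
  | (i, none) => (Real.log (t i) : ℂ)
  | (i, some (l, j)) => (Li ((j : ℕ) + 1) ((ρ l : ℝ) / t i) : ℂ)

/-- If `θ` is algebraically independent over `ℤ`, then `P(θ, y)` is nonzero for every nonzero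
`P`. -/
theorem specialise_ne_zero {k : ℕ} {σ : Type} (θ : Fin k → ℂ) (hθ : AlgebraicIndependent ℤ θ)
    (P : MvPolynomial (Fin k ⊕ σ) ℤ) (hP : P ≠ 0) : specialise θ P ≠ 0 := by
  let F : MvPolynomial (Fin k ⊕ σ) ℤ →ₐ[ℤ] MvPolynomial σ ℂ :=
    ((MvPolynomial.mapAlgHom (σ := σ)
      (MvPolynomial.aeval θ : MvPolynomial (Fin k) ℤ →ₐ[ℤ] ℂ)).comp
      ((MvPolynomial.sumAlgEquiv ℤ σ (Fin k)).toAlgHom)).comp
      (MvPolynomial.rename Sum.swap)
  have hF : F = MvPolynomial.aeval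
      (Sum.elim (fun i => MvPolynomial.C (θ i)) MvPolynomial.X) := by
    apply MvPolynomial.algHom_ext
    intro i
    rcases i with i | i
    · simp [F]
    · simp [F]
  have h1 : specialise θ P = F P := by rw [hF]; rfl
  rw [h1]
  intro h0
  have hinj : Function.Injective F := by
    have hi1 : Function.Injective (MvPolynomial.map (σ := σ)
        ((MvPolynomial.aeval θ : MvPolynomial (Fin k) ℤ →ₐ[ℤ] ℂ) : MvPolynomial (Fin k) ℤ →+* ℂ)) :=
      MvPolynomial.map_injective _ hθ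
    have hi2 : Function.Injective (MvPolynomial.rename (R := ℤ)
        (Sum.swap : Fin k ⊕ σ → σ ⊕ Fin k)) :=
      MvPolynomial.rename_injective _ (Equiv.sumComm _ _).injective
    intro a b hab
    apply hi2
    apply (MvPolynomial.sumAlgEquiv ℤ σ (Fin k)).injective
    exact hi1 hab
  exact hP (hinj (by rw [h0, map_zero]))

/-- Lindemann: `2 π i` is transcendental; so `specialise_ne_zero` applies to `k = 1`,
`θ = 2 π i`. -/
theorem algInd_two_pi_I :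
    AlgebraicIndependent ℤ (fun _ : Fin 1 => (2 * Real.pi * Complex.I : ℂ)) := by
  rw [algebraicIndependent_unique_type_iff]
  intro h
  obtain ⟨p, hp, hp0⟩ := h
  exact KAA.tPI p hp hp0

theorem periods_eq {g n : ℕ} (s : ℕ) (ρ : Fin g → ℤ) (t : Fin n → ℕ) :
    periods s ρ t = fun v : Fin n × Option (Fin g × Fin s) => PLG.per s ρ (t v.1) v.2 := by
  funext v
  rcases v with ⟨i, _ | ⟨l, j⟩⟩
  · rfl
  · rfl

theorem final (hmain : PLG.T_MULTI) (g s n k D R : ℕ) (ρ : Fin g → ℤ)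
    (hρ : Function.Injective ρ) (hρR : ∀ l, ρ l ≠ 0 ∧ |ρ l| ≤ R) : ∃ K : ℕ, 1 ≤ K ∧
    ∀ (T : ℕ) (θ : Fin k → ℂ), 1 ≤ T →
      ({t : Fin n → ℕ | (∀ i, R < t i ∧ t i ≤ T) ∧
        HasRelation D θ (periods s ρ t)}.ncard : ℝ) ≤ K * (T : ℝ) ^ ((n : ℝ) - 1 / (K : ℝ)) := by
  obtain ⟨K, hK, h⟩ := hmain g s R ρ hρ hρR n (Fin k) D
  refine ⟨K, hK, fun T θ hT => ?_⟩
  have h1 := h T θ hT
  have h2 : {t : Fin n → ℕ | (∀ i, R < t i ∧ t i ≤ T) ∧ HasRelation D θ (periods s ρ t)} =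
      {t : Fin n → ℕ | (∀ i, R < t i ∧ t i ≤ T) ∧
        PLG.HasRel D θ (fun v : Fin n × Option (Fin g × Fin s) =>
          PLG.per s ρ (t v.1) v.2)} := by
    ext t
    rw [Set.mem_setOf_eq, Set.mem_setOf_eq, periods_eq]
    exact Iff.rfl
  rw [h2]
  exact h1

/-- Let `ρ_1, ..., ρ_g` be distinct integers with `0 < |ρ_l| ≤ R`, and `s, n, k, D` natural
numbers.  There is `K` such that for all `T ≥ 1` and all `θ ∈ ℂ^k`, at most `K · T^(n - 1/K)`
tuples `t ∈ (R, T]^n` are such that the `n (1 + g s)` numbers `log t_i`, `Li_j (ρ_l / t_i)`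
(`1 ≤ i ≤ n`, `1 ≤ l ≤ g`, `1 ≤ j ≤ s`) satisfy a nontrivial polynomial relation over `ℤ[θ]` of
degree at most `D`. -/
theorem result (g s n k D R : ℕ) (ρ : Fin g → ℤ) (hρ : Function.Injective ρ)
    (hρR : ∀ l, ρ l ≠ 0 ∧ |ρ l| ≤ R) : ∃ K : ℕ, 1 ≤ K ∧
    ∀ (T : ℕ) (θ : Fin k → ℂ), 1 ≤ T →
      ({t : Fin n → ℕ | (∀ i, R < t i ∧ t i ≤ T) ∧
        HasRelation D θ (periods s ρ t)}.ncard : ℝ) ≤ K * (T : ℝ) ^ ((n : ℝ) - 1 / (K : ℝ)) := by
  have hABS := PLG.p_ABS PLG.p_RES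
  have hNONZ := PLG.p_NONZ hABS
  have hORD0 := PLG.p_ORD0 PLG.p_IN
  have hORD1 := PLG.p_ORD1 PLG.p_GAU
  have hZE := PLG.p_ZE hNONZ hORD0 hORD1 PLG.p_DEG
  have hSIEG := PLG.p_SIEG PLG.p_COEF PLG.p_LCM
  have hAN := PLG.p_AN PLG.p_GAU PLG.p_IN PLG.p_COEF
  have hH := PLG.p_H hZE PLG.p_LCM hSIEG PLG.p_DEN hAN
  have hLI := PLG.p_LI hABS PLG.p_IN
  have hLIN := PLG.p_LIN (PLG.p_SHUF PLG.p_IN)
  have hFIND := PLG.p_FIND PLG.p_IN hLI hLIN
  have hGP := PLG.p_GP hH hLIN hFIND PLG.p_EVAL PLG.p_VAL PLG.p_COEF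
  have hELIM := PLG.p_ELIM PLG.p_ELIM1
  exact final (PLG.p_MULTI (PLG.p_ONE hGP hELIM PLG.p_SHIFT)) g s n k D R ρ hρ hρR

end Pool.Agent.PLG.PolylogDegree
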