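import Pool.Agent.PLG.Targets

set_option autoImplicit false

/-!
# PLG-RES: a combination of the forms is not the derivative of a rational function
-/

namespace Pool.Agent.PLG

open Finset Polynomial
open scoped BigOperators

namespace RES_

theorem fac (ζ : ℚ) (p : ℚ[X]) (hp : p ≠ 0) : ∃ (u : ℕ) (U : ℚ[X]), p = (X - C ζ) ^ u * U ∧
    U.eval ζ ≠ 0 := by
  refine ⟨p.rootMultiplicity ζ, p /ₘ (X - C ζ) ^ p.rootMultiplicity ζ, ?_, ?_⟩
  · exact (pow_mul_divByMonic_rootMultiplicity_eq p ζ).symm
  · exact eval_divByMonic_pow_rootMultiplicity_ne_zero ζ hp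

theorem wr (ζ : ℚ) (n u : ℕ) (V U : ℚ[X]) :
    (X - C ζ) * (((X - C ζ) ^ n * V) * derivative ((X - C ζ) ^ u * U) -
      derivative ((X - C ζ) ^ n * V) * ((X - C ζ) ^ u * U)) =
    (X - C ζ) ^ (n + u) * (((u : ℚ[X]) - (n : ℚ[X])) * V * U +
      (X - C ζ) * (V * derivative U - derivative V * U)) := by
  have h : ∀ k : ℕ, (X - C ζ) * derivative ((X - C ζ : ℚ[X]) ^ k) = (k : ℚ[X]) * (X - C ζ) ^ k := by
    intro k
    rw [derivative_pow]
    rcases k with _ | k
    · simp
    · simp only [Nat.add_sub_cancel, derivative_sub, derivative_X, derivative_C, sub_zero, mul_one,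
        pow_succ]
      simp only [map_natCast]
      ring
  have hu := h u
  have hn := h n
  rw [derivative_mul, derivative_mul, pow_add]
  linear_combination ((X - C ζ) ^ n * V * U) * hu - ((X - C ζ) ^ u * V * U) * hn

theorem core (ζ : ℚ) (That S V F : ℚ[X]) (h1 : That.eval ζ ≠ 0) (h2 : S.eval ζ ≠ 0) (hV : V ≠ 0)
    (h : (X - C ζ) * That * (V * derivative F - derivative V * F) = V ^ 2 * S) : False := by
  have hS : S ≠ 0 := by
    rintro rfl
    simp at h2
  have hF : F ≠ 0 := by
    rintro rfl
    simp only [derivative_zero, mul_zero, sub_zero] at h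
    have := mul_ne_zero (pow_ne_zero 2 hV) hS
    exact this h.symm
  obtain ⟨n, V1, rfl, hV1⟩ := fac ζ V hV
  obtain ⟨u, U1, rfl, hU1⟩ := fac ζ F hF
  have hp : (X - C ζ : ℚ[X]) ≠ 0 := X_sub_C_ne_zero ζ
  have h' : That * ((X - C ζ) ^ (n + u) * (((u : ℚ[X]) - (n : ℚ[X])) * V1 * U1 +
      (X - C ζ) * (V1 * derivative U1 - derivative V1 * U1))) =
      (X - C ζ) ^ (2 * n) * (V1 ^ 2 * S) := by
    rw [← wr]
    linear_combination h
  rcases lt_or_ge u n with hun | hun
  · obtain ⟨k, rfl⟩ := Nat.exists_eq_add_of_lt hun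
    have e : (X - C ζ : ℚ[X]) ^ (2 * (u + k + 1)) =
        (X - C ζ) ^ (u + k + 1 + u) * (X - C ζ) ^ (k + 1) := by
      rw [← pow_add]
      congr 1
      omega
    rw [e] at h'
    have h3 : That * ((((u : ℚ[X]) - ((u + k + 1 : ℕ) : ℚ[X])) * V1 * U1 +
      (X - C ζ) * (V1 * derivative U1 - derivative V1 * U1))) =
      (X - C ζ) ^ (k + 1) * (V1 ^ 2 * S) := by
      refine mul_left_cancel₀ (pow_ne_zero (u + k + 1 + u) hp) ?_
      linear_combination h'
    have h4 := congrArg (eval ζ) h3
    simp only [eval_mul, eval_add, eval_sub, eval_X, eval_C, sub_self, zero_mul, add_zero,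
      eval_pow, zero_pow (Nat.succ_ne_zero k), eval_natCast] at h4
    have h5 : ((u : ℚ) - ((u + k + 1 : ℕ) : ℚ)) ≠ 0 := by
      push_cast
      have : (0 : ℚ) ≤ k := Nat.cast_nonneg k
      intro h6
      linarith
    exact mul_ne_zero h1 (mul_ne_zero (mul_ne_zero h5 hV1) hU1) h4
  · obtain ⟨k, rfl⟩ := Nat.exists_eq_add_of_le hun
    have e : (X - C ζ : ℚ[X]) ^ (n + (n + k)) = (X - C ζ) ^ (2 * n) * (X - C ζ) ^ k := by
      rw [← pow_add]
      congr 1
      omega
    rw [e] at h'
    have h3 : That * ((X - C ζ) ^ k * ((((n + k : ℕ) : ℚ[X]) - (n : ℚ[X])) * V1 * U1 +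
      (X - C ζ) * (V1 * derivative U1 - derivative V1 * U1))) = V1 ^ 2 * S := by
      refine mul_left_cancel₀ (pow_ne_zero (2 * n) hp) ?_
      linear_combination h'
    have h4 := congrArg (eval ζ) h3
    have h5 : (V1 ^ 2 * S).eval ζ ≠ 0 := by
      rw [eval_mul, eval_pow]
      exact mul_ne_zero (pow_ne_zero 2 hV1) h2
    apply h5
    rw [← h4]
    rcases k with _ | k
    · simp
    · simp

end RES_

open RES_

theorem p_RES : T_RES := by
  intro ι _ _ c hc hc1 V F e hV h
  by_contra hne
  obtain ⟨x, hx⟩ := Function.ne_iff.mp hne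
  have hcpos : ∀ i, (0 : ℚ) < c i := fun i => by exact_mod_cast hc1 i
  cases x with
  | none =>
    refine core 0 (Tx c none) (∑ x, Polynomial.C (e x) * Tx c x) V F ?_ ?_ hV ?_
    · simp [Tx, eval_prod]
    · rw [eval_finsetSum, Fintype.sum_option]
      simp only [Tx]
      rw [Finset.sum_eq_zero]
      · simp only [Pi.zero_apply] at hx
        simpa [eval_prod] using hx
      · intro i _
        simp
    · rw [← h]
      simp only [TT, Tx, map_zero, sub_zero]
  | some i =>
    have hi : (c i : ℚ) ≠ 0 := ne_of_gt (hcpos i)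
    have hl : ∀ l, l ≠ i → (1 + (c l : ℚ) * (-1 / c i)) ≠ 0 := by
      intro l hl h0
      apply hl
      apply hc
      have : (c i : ℚ) - c l = 0 := by
        field_simp at h0
        linarith
      exact_mod_cast (sub_eq_zero.mp this).symm
    have hprod : (eval (-1 / (c i : ℚ)) (∏ l ∈ univ.erase i,
        (1 + Polynomial.C (c l : ℚ) * Polynomial.X))) ≠ 0 := by
      rw [eval_prod, Finset.prod_ne_zero_iff]
      intro l hl'
      simpa using hl l (Finset.ne_of_mem_erase hl')
    have hz : ∀ p : ι → ℚ[X], eval (-1 / (c i : ℚ)) ((1 + Polynomial.C (c i : ℚ) * Polynomial.X) *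
        ∏ l ∈ univ.erase i, p l) = 0 := by
      intro p
      rw [eval_mul]
      have : eval (-1 / (c i : ℚ)) (1 + Polynomial.C (c i : ℚ) * Polynomial.X) = 0 := by
        simp only [eval_add, eval_one, eval_mul, eval_C, eval_X]
        field_simp
        ring
      rw [this, zero_mul]
    refine core (-1 / (c i : ℚ)) (Polynomial.X * (Polynomial.C (c i : ℚ) * ∏ l ∈ univ.erase i,
        (1 + Polynomial.C (c l : ℚ) * Polynomial.X))) (∑ x, Polynomial.C (e x) * Tx c x) V F
        ?_ ?_ hV ?_
    · rw [eval_mul, eval_mul, eval_X, eval_C]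
      refine mul_ne_zero ?_ (mul_ne_zero hi hprod)
      exact div_ne_zero (by norm_num) hi
    · rw [eval_finsetSum, Finset.sum_eq_single (some i)]
      · simp only [Tx]
        rw [eval_mul, eval_mul, eval_mul, eval_X, eval_C, eval_C]
        refine mul_ne_zero hx (mul_ne_zero ?_ (mul_ne_zero hi hprod))
        exact div_ne_zero (by norm_num) hi
      · intro y _ hy
        rw [eval_mul]
        cases y with
        | none =>
          simp only [Tx]
          rw [← Finset.mul_prod_erase univ _ (Finset.mem_univ i), hz, mul_zero]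
        | some l =>
          have hli : l ≠ i := fun h => hy (by rw [h])
          simp only [Tx]
          rw [← Finset.mul_prod_erase (univ.erase l) _
            (Finset.mem_erase.mpr ⟨hli.symm, Finset.mem_univ i⟩)]
          have h0 : eval (-1 / (c i : ℚ)) (1 + Polynomial.C (c i : ℚ) * Polynomial.X) = 0 := by
            simp only [eval_add, eval_one, eval_mul, eval_C, eval_X]
            field_simp
            ring
          simp only [eval_mul, h0, zero_mul, mul_zero]
      · intro h'
        exact absurd (Finset.mem_univ _) h'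
    · rw [← h]
      simp only [TT]
      rw [← Finset.mul_prod_erase univ _ (Finset.mem_univ i)]
      have : (X - Polynomial.C (-1 / (c i : ℚ))) * Polynomial.C (c i : ℚ) =
          (1 + Polynomial.C (c i : ℚ) * Polynomial.X : ℚ[X]) := by
        rw [sub_mul, ← C_mul, div_mul_cancel₀ _ hi]
        simp
        ring
      rw [← this]
      ring

end Pool.Agent.PLG
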