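import Mathlib

set_option autoImplicit false

/-!
# Polylogarithm motives: relations of bounded degree and arbitrary height (MP_5d33ca_ag)

Definitions and exact targets. The complete proofs are in `Blueprint.lean.txt`.
-/

namespace Pool.Agent.PLG

open Finset
open scoped BigOperators

/-! ## Words and hyperlogarithms -/

/-- The letters are `none` (the form `dz/z`) and `some i` (the form `c_i dz / (1 + c_i z)`).
A word is admissible if its last letter is not `none`. -/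
def ok {ι : Type} : List (Option ι) → Prop
  | [] => True
  | [x] => x ≠ none
  | _ :: y :: l => ok (y :: l)

/-- admissible words of length at most `W` -/
def Wd (ι : Type) (W : ℕ) : Type := {w : List (Option ι) // w.length ≤ W ∧ ok w}

instance Wd.finite (ι : Type) [Finite ι] (W : ℕ) : Finite (Wd ι W) :=
  ((List.finite_length_le (Option ι) W).subset
    (fun _ h => h.1 : {w : List (Option ι) | w.length ≤ W ∧ ok w} ⊆ _)).to_subtype

noncomputable instance Wd.fintype (ι : Type) [Finite ι] (W : ℕ) : Fintype (Wd ι W) :=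
  Fintype.ofFinite _

noncomputable instance Wd.decEq (ι : Type) (W : ℕ) : DecidableEq (Wd ι W) := Classical.decEq _

/-- the primitive of `f dz/z` (if `f` has no constant term), of `f c_i dz / (1 + c_i z)` -/
noncomputable def In {ι : Type} (c : ι → ℕ) : Option ι → PowerSeries ℚ → PowerSeries ℚ
  | none, f => PowerSeries.mk fun n => PowerSeries.coeff n f / (n : ℚ)
  | some i, f => PowerSeries.mk fun n =>
      (∑ j ∈ range n, PowerSeries.coeff j f * ((c i : ℚ) * (-(c i : ℚ)) ^ (n - 1 - j))) / (n : ℚ)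

/-- the hyperlogarithm of a word (outermost letter first) -/
noncomputable def L {ι : Type} (c : ι → ℕ) : List (Option ι) → PowerSeries ℚ
  | [] => 1
  | x :: w => In c x (L c w)

/-- the value of a power series at a real number -/
noncomputable def val (f : PowerSeries ℚ) (x : ℝ) : ℝ :=
  ∑' n, ((PowerSeries.coeff n f : ℚ) : ℝ) * x ^ n

section

variable {ι : Type} [Fintype ι] [DecidableEq ι]

/-- `T = z ∏ (1 + c_i z)` -/
noncomputable def TT (c : ι → ℕ) : Polynomial ℚ :=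
  Polynomial.X * ∏ i, (1 + Polynomial.C (c i : ℚ) * Polynomial.X)

/-- `T` times the form of a letter -/
noncomputable def Tx (c : ι → ℕ) : Option ι → Polynomial ℚ
  | none => ∏ i, (1 + Polynomial.C (c i : ℚ) * Polynomial.X)
  | some i => Polynomial.X * (Polynomial.C (c i : ℚ) *
      ∏ l ∈ univ.erase i, (1 + Polynomial.C (c l : ℚ) * Polynomial.X))

/-- the connection, on families indexed by words -/
noncomputable def nb (c : ι → ℕ) (V : List (Option ι) → Polynomial ℚ) :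
    List (Option ι) → Polynomial ℚ
  | [] => TT c * Polynomial.derivative (V [])
  | x :: w => TT c * Polynomial.derivative (V (x :: w)) - Tx c x * V w

/-- the iterates of the connection -/
noncomputable def VV (c : ι → ℕ) (P : List (Option ι) → Polynomial ℚ) :
    ℕ → List (Option ι) → Polynomial ℚ
  | 0 => P
  | (k + 1) => nb c (VV c P k)

/-- a numbering of the words by `0, 1, ..., M-1` -/
noncomputable def num {W : ℕ} (K : Wd ι W) : ℕ := (Fintype.equivFin (Wd ι W) K : ℕ)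

/-- the determinant of the first `M` vectors -/
noncomputable def WW (W : ℕ) (c : ι → ℕ) (P : List (Option ι) → Polynomial ℚ) : Polynomial ℚ :=
  Matrix.det (Matrix.of fun (K w : Wd ι W) => VV c P (num K) w.1)

/-- simultaneous approximation: `P_w = Q L_w + O(z^σ)`, `Q = P_∅` -/
structure Pade (c : ι → ℕ) (W m σ : ℕ) (P : List (Option ι) → Polynomial ℚ) : Prop where
  ne : P [] ≠ 0
  deg : ∀ w, w.length ≤ W → ok w → (P w).natDegree ≤ m
  ord : ∀ w, w.length ≤ W → ok w → (PowerSeries.X : PowerSeries ℚ) ^ σ ∣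
    (P [] : PowerSeries ℚ) * L c w - (P w : PowerSeries ℚ)

open Classical in
/-- extension by zero -/
noncomputable def ex {W : ℕ} (F : Wd ι W → Polynomial ℚ) (w : List (Option ι)) : Polynomial ℚ :=
  if h : w.length ≤ W ∧ ok w then F ⟨w, h⟩ else 0

/-- the dual connection -/
noncomputable def dl {W : ℕ} (c : ι → ℕ) (F : Wd ι W → Polynomial ℚ) (w : Wd ι W) :
    Polynomial ℚ :=
  TT c * Polynomial.derivative (F w) + ∑ x : Option ι, Tx c x * ex F (x :: w.1)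

end

/-! ## The gauge at a point -/

section

variable {ι : Type} {K : Type} [Field K]

/-- the primitive of `- b dy / (1 + b y) f` -/
noncomputable def Im (b : K) (f : PowerSeries K) : PowerSeries K :=
  PowerSeries.mk fun n =>
    (-(∑ j ∈ range n, PowerSeries.coeff j f * (b * (-b) ^ (n - 1 - j)))) / (n : K)

/-- the entries of the inverse of the local fundamental matrix -/
noncomputable def Sg (b : Option ι → K) : List (Option ι) → PowerSeries K
  | [] => 1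
  | x :: l => Im (b x) (Sg b l)

/-- `gg V l w = ∑_(w = u ++ v) Sg (reverse u ++ l) * V v` -/
noncomputable def gg (b : Option ι → K) (V : List (Option ι) → PowerSeries K) :
    List (Option ι) → List (Option ι) → PowerSeries K
  | l, [] => Sg b l * V []
  | l, x :: w => Sg b l * V (x :: w) + gg b V (x :: l) w

/-- the connection for families of power series -/
noncomputable def nbs (t : PowerSeries K) (tx : Option ι → PowerSeries K)
    (V : List (Option ι) → PowerSeries K) : List (Option ι) → PowerSeries K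
  | [] => t * PowerSeries.derivative K (V [])
  | x :: w => t * PowerSeries.derivative K (V (x :: w)) - tx x * V w

end

/-- the forms at `z0` are `b dy / (1 + b y)`, `y = z - z0` -/
def bb {ι : Type} (c : ι → ℕ) (z0 : ℚ) : Option ι → ℚ
  | none => 1 / z0
  | some i => (c i : ℚ) / (1 + c i * z0)

/-- Taylor expansion of a polynomial at `z0`, as a power series -/
noncomputable def ty (z0 : ℚ) (p : Polynomial ℚ) : PowerSeries ℚ :=
  ((Polynomial.taylor z0 p : Polynomial ℚ) : PowerSeries ℚ)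

/-- the gauge at `z0` -/
noncomputable def g0 {ι : Type} (c : ι → ℕ) (z0 : ℚ) (P : List (Option ι) → Polynomial ℚ)
    (w : List (Option ι)) : PowerSeries ℚ :=
  gg (bb c z0) (fun v => ty z0 (P v)) [] w

/-- `k`-th Taylor coefficient at `z0` in the gauge at `z0` -/
noncomputable def pk {ι : Type} (c : ι → ℕ) (z0 : ℚ) (P : List (Option ι) → Polynomial ℚ) (k : ℕ)
    (w : List (Option ι)) : ℚ :=
  PowerSeries.coeff k (g0 c z0 P w)

/-! ## Targets: linear independence over `ℚ(z)` -/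

/-- A1 (residues) a combination of the forms is not the derivative of a rational function -/
def T_RES : Prop := ∀ (ι : Type) [Fintype ι] [DecidableEq ι] (c : ι → ℕ), Function.Injective c →
  (∀ i, 1 ≤ c i) → ∀ (V F : Polynomial ℚ) (e : Option ι → ℚ), V ≠ 0 →
  TT c * (V * Polynomial.derivative F - Polynomial.derivative V * F) =
    V ^ 2 * ∑ x, Polynomial.C (e x) * Tx c x → e = 0

/-- A2 (from A1) -/
def T_ABS : Prop := ∀ (ι : Type) [Fintype ι] [DecidableEq ι] (c : ι → ℕ) (W : ℕ),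
  Function.Injective c → (∀ i, 1 ≤ c i) →
  ∀ N : Submodule (Polynomial ℚ) (Wd ι W → Polynomial ℚ), (∀ F ∈ N, dl c F ∈ N) →
  (∀ F ∈ N, (∀ w : Wd ι W, w.1 ≠ [] → F w = 0) → F = 0) → ∀ F ∈ N, F = 0

/-- A3 the differential equation of the primitives -/
def T_IN : Prop := ∀ (ι : Type) [Fintype ι] [DecidableEq ι] (c : ι → ℕ) (x : Option ι)
  (f : PowerSeries ℚ), (x = none → PowerSeries.coeff 0 f = 0) →
  PowerSeries.coeff 0 (In c x f) = 0 ∧
  (TT c : PowerSeries ℚ) * PowerSeries.derivative ℚ (In c x f) = (Tx c x : PowerSeries ℚ) * f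

/-- A4 (from A2, A3) the hyperlogarithms are linearly independent over `ℚ(z)` -/
def T_LI : Prop := ∀ (ι : Type) [Fintype ι] [DecidableEq ι] (c : ι → ℕ) (W : ℕ),
  Function.Injective c → (∀ i, 1 ≤ c i) → ∀ F : Wd ι W → Polynomial ℚ,
  ∑ w, (F w : PowerSeries ℚ) * L c w.1 = 0 → F = 0

/-! ## Targets: zero estimate -/

/-- Z1 (from A2) the determinant does not vanish -/
def T_NONZ : Prop := ∀ (ι : Type) [Fintype ι] [DecidableEq ι] (c : ι → ℕ) (W : ℕ)
  (P : List (Option ι) → Polynomial ℚ), Function.Injective c → (∀ i, 1 ≤ c i) → P [] ≠ 0 →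
  WW W c P ≠ 0

/-- Z2 in the gauge the connection is the derivative -/
def T_GAU : Prop := ∀ (K : Type) [Field K] [CharZero K] (ι : Type) (b : Option ι → K)
  (t : PowerSeries K) (tx : Option ι → PowerSeries K),
  (∀ x, tx x * (1 + PowerSeries.C (b x) * PowerSeries.X) = PowerSeries.C (b x) * t) →
  ∀ (V : List (Option ι) → PowerSeries K) (w : List (Option ι)),
  t * PowerSeries.derivative K (gg b V [] w) = gg b (nbs t tx V) [] w

/-- Z3 (from A3) order at zero -/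
def T_ORD0 : Prop := ∀ (ι : Type) [Fintype ι] [DecidableEq ι] (c : ι → ℕ) (W m σ : ℕ)
  (P : List (Option ι) → Polynomial ℚ), Pade c W m σ P →
  (Polynomial.X : Polynomial ℚ) ^ ((Fintype.card (Wd ι W) - 1) * σ) ∣ WW W c P

/-- Z4 (from Z2) order at `z0` -/
def T_ORD1 : Prop := ∀ (ι : Type) [Fintype ι] [DecidableEq ι] (c : ι → ℕ) (W K0 : ℕ) (z0 : ℚ)
  (P : List (Option ι) → Polynomial ℚ) (lam : Wd ι W → ℚ), 0 < z0 → lam ≠ 0 →
  (∀ k, k ≤ K0 → ∑ w, lam w * pk c z0 P k w.1 = 0) →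
  (Polynomial.X - Polynomial.C z0) ^ (K0 + 1 - (Fintype.card (Wd ι W) - 1)) ∣ WW W c P

/-- Z5 degree -/
def T_DEG : Prop := ∀ (ι : Type) [Fintype ι] [DecidableEq ι] (c : ι → ℕ) (W m : ℕ)
  (P : List (Option ι) → Polynomial ℚ),
  (∀ w, w.length ≤ W → ok w → (P w).natDegree ≤ m) →
  (WW W c P).natDegree ≤ Fintype.card (Wd ι W) * m +
    (Fintype.card ι + 1) * Fintype.card (Wd ι W) ^ 2

/-- Z6 (from Z1, Z3, Z4, Z5) zero estimate -/
def T_ZE : Prop := ∀ (ι : Type) [Fintype ι] [DecidableEq ι] (c : ι → ℕ) (W m σ K0 : ℕ) (z0 : ℚ)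
  (P : List (Option ι) → Polynomial ℚ) (lam : Wd ι W → ℚ), Function.Injective c →
  (∀ i, 1 ≤ c i) → 0 < z0 → Pade c W m σ P → lam ≠ 0 →
  (∀ k, k ≤ K0 → ∑ w, lam w * pk c z0 P k w.1 = 0) →
  (Fintype.card (Wd ι W) - 1) * σ + K0 ≤ Fintype.card (Wd ι W) * m +
    (Fintype.card ι + 2) * Fintype.card (Wd ι W) ^ 2

/-! ## Targets: construction and sizes -/

/-- S1 Chebyshev -/
def T_LCM : Prop := ∀ n : ℕ, Nat.lcmUpto n ≤ 220 ^ n

/-- S2 coefficients of the hyperlogarithms -/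
def T_COEF : Prop := ∀ (ι : Type) (c : ι → ℕ) (A : ℕ), 1 ≤ A → (∀ i, c i ≤ A) →
  ∀ w : List (Option ι), (∀ s, |PowerSeries.coeff s (L c w)| ≤ (A : ℚ) ^ s) ∧
  ∀ W S s, w.length ≤ W → s ≤ S → ∃ x : ℤ,
    (Nat.lcmUpto S : ℚ) ^ W * PowerSeries.coeff s (L c w) = x

/-- S3 (from S1, S2) Siegel's lemma; `m = (M-1) Λ n`, `σ = m + 1 + (Λ-1) n` -/
def T_SIEG : Prop := ∀ (ι : Type) [Fintype ι] [DecidableEq ι] (c : ι → ℕ) (W A Λ n M : ℕ),
  M = Fintype.card (Wd ι W) → 2 ≤ M → 1 ≤ A → (∀ i, c i ≤ A) → 2 ≤ Λ → 1 ≤ n →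
  ∃ P : List (Option ι) → Polynomial ℚ,
  Pade c W ((M - 1) * Λ * n) ((M - 1) * Λ * n + 1 + (Λ - 1) * n) P ∧
  (∀ s, |(P []).coeff s| ≤
    ((4 * 220 ^ W * A : ℕ) : ℚ) ^ (((M - 1) * Λ * n + 1 + (Λ - 1) * n) * Λ)) ∧
  ∀ w, w.length ≤ W → ok w → ∀ s, ∃ x : ℤ,
    (Nat.lcmUpto ((M - 1) * Λ * n) : ℚ) ^ W * (P w).coeff s = x

/-- S4 denominators -/
def T_DEN : Prop := ∀ (ι : Type) [Fintype ι] [DecidableEq ι] (c : ι → ℕ) (W m k N : ℕ)
  (P : List (Option ι) → Polynomial ℚ), 1 ≤ N →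
  (∀ w, w.length ≤ W → ok w → (P w).natDegree ≤ m) →
  (∀ w, w.length ≤ W → ok w → ∀ s, ∃ x : ℤ, (Nat.lcmUpto m : ℚ) ^ W * (P w).coeff s = x) →
  ∀ w, w.length ≤ W → ok w → ∃ x : ℤ,
    ((N : ℚ) ^ m * (Nat.lcmUpto m : ℚ) ^ W * (Nat.lcmUpto k : ℚ) ^ W *
      (∏ i, ((N : ℚ) + c i)) ^ k) * pk c (1 / (N : ℚ)) P k w = x

/-- S5 (from Z2, A3, S2) smallness -/
def T_AN : Prop := ∀ (ι : Type) [Fintype ι] [DecidableEq ι] (c : ι → ℕ) (W A N m σ : ℕ) (H : ℝ)
  (P : List (Option ι) → Polynomial ℚ), 1 ≤ A → (∀ i, c i ≤ A) → 4 * A ≤ N → Pade c W m σ P →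
  m < σ → (∀ s, |((P []).coeff s : ℝ)| ≤ H) → ∀ (k : ℕ) (w : List (Option ι)),
  w.length ≤ W → ok w →
  |((Polynomial.taylor (1 / (N : ℚ)) (P [])).coeff k : ℝ) * val (L c w) (1 / (N : ℝ)) -
      (pk c (1 / (N : ℚ)) P k w : ℝ)| ≤
    2 * (W + 1) * (k + 1) * (m + 1) * H * (N : ℝ) ^ k * (2 * (A : ℝ) / N) ^ σ

/-- S6 (from Z6, S1, S3, S4, S5) the values of the hyperlogarithms at `1/N` are linearly
independent -/
def T_H : Prop := ∀ (ι : Type) [Fintype ι] [DecidableEq ι] (W : ℕ), ∃ E : ℕ, 1 ≤ E ∧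
  ∀ (A N : ℕ) (c : ι → ℕ), 1 ≤ A → Function.Injective c → (∀ i, 1 ≤ c i ∧ c i ≤ A) →
  (880 * A) ^ E ≤ N → ∀ lam : Wd ι W → ℤ,
  ∑ w, (lam w : ℝ) * val (L c w.1) (1 / (N : ℝ)) = 0 → lam = 0

/-! ## Targets: polylogarithms -/

/-- (from A3) products of hyperlogarithms -/
def T_SHUF : Prop := ∀ (ι : Type) [Fintype ι] [DecidableEq ι] (c : ι → ℕ)
  (u v : List (Option ι)), ok u → ok v → L c u * L c v ∈
    Submodule.span ℚ {f | ∃ w : List (Option ι), ok w ∧ w.length ≤ u.length + v.length ∧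
      f = L c w}

/-- letters for `r` points and `g` numerators -/
abbrev Lt (r g : ℕ) : Type := Fin r × Option (Fin g)

/-- names of the functions: `(i, none)` for `log (1 + a_i z)`, `(i, some (l, j))` for
`Li_(j+1) (ρ_l z / (1 + a_i z))` -/
abbrev Fx (r g s : ℕ) : Type := Fin r × Option (Fin g × Fin s)

/-- `Li_(j+1) (ρ_l z / (1 + a_i z))` as a power series, for `c (i, none) = a_i` and
`c (i, some l) = a_i - ρ_l` -/
noncomputable def yy {r g : ℕ} (c : Lt r g → ℕ) (i : Fin r) (l : Fin g) : ℕ → PowerSeries ℚ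
  | 0 => L c [some (i, none)] - L c [some (i, some l)]
  | (j + 1) => In c none (yy c i l j) - In c (some (i, none)) (yy c i l j)

/-- the functions -/
noncomputable def fn {r g s : ℕ} (c : Lt r g → ℕ) : Fx r g s → PowerSeries ℚ
  | (i, none) => L c [some (i, none)]
  | (i, some (l, j)) => yy c i l j

/-- the letters `a_i` and `a_i - ρ_l` -/
def cc {r g : ℕ} (a : Fin r → ℕ) (ρ : Fin g → ℤ) : Lt r g → ℕ
  | (i, none) => a i
  | (i, some l) => ((a i : ℤ) - ρ l).toNat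

/-- the polylogarithm -/
noncomputable def Li (j : ℕ) (x : ℝ) : ℝ := ∑' n : ℕ, x ^ (n + 1) / ((n : ℝ) + 1) ^ j

/-- P1 (from the product formula) polynomials in the functions are combinations of words -/
def T_LIN : Prop := ∀ (r g s B W : ℕ) (c : Lt r g → ℕ), B * (r * (1 + g * (s * s))) ≤ W →
  ∀ Q : MvPolynomial (Fx r g s) ℚ, (∀ v, Q.degreeOf v ≤ B) →
  ∃ lam : Wd (Lt r g) W → ℚ, MvPolynomial.aeval (fn c) Q = ∑ w, lam w • L c w.1

/-- P2 (from A3, A4, P1) the functions are algebraically independent -/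
def T_FIND : Prop := ∀ (r g s : ℕ) (c : Lt r g → ℕ), Function.Injective c → (∀ i, 1 ≤ c i) →
  ∀ Q : MvPolynomial (Fx r g s) ℚ, MvPolynomial.aeval (fn c) Q = 0 → Q = 0

/-- P3 evaluation is multiplicative -/
def T_EVAL : Prop := ∀ (r g s A : ℕ) (c : Lt r g → ℕ) (x : ℝ), 1 ≤ A → (∀ i, c i ≤ A) → 0 ≤ x →
  A * x < 1 → ∀ Q : MvPolynomial (Fx r g s) ℤ,
  val (MvPolynomial.aeval (fn c) Q) x = MvPolynomial.aeval (fun v => val (fn c v) x) Q

/-- P4 the functions are the polylogarithms -/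
def T_VAL : Prop := ∀ (r g A R0 N : ℕ) (a : Fin r → ℕ) (ρ : Fin g → ℤ),
  (∀ l, ρ l ≠ 0 ∧ |ρ l| ≤ R0) → (∀ i, R0 < a i ∧ a i ≤ A) → 4 * (A + R0) ≤ N →
  ∀ i : Fin r, val (L (cc a ρ) [some (i, none)]) (1 / (N : ℝ)) = Real.log (1 + (a i : ℝ) / N) ∧
  ∀ (l : Fin g) (j : ℕ), val (yy (cc a ρ) i l j) (1 / (N : ℝ)) =
    Li (j + 1) ((ρ l : ℝ) / (N + a i))

/-- the values at `1/N` -/
noncomputable def vals {r g s : ℕ} (a : Fin r → ℕ) (ρ : Fin g → ℤ) (N : ℕ) : Fx r g s → ℝ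
  | (i, none) => Real.log (1 + (a i : ℝ) / N)
  | (i, some (l, j)) => Li ((j : ℕ) + 1) ((ρ l : ℝ) / (N + a i))

/-- P5 (from S6, P1, P2, P3, P4) the values are algebraically independent in bounded degree -/
def T_GP : Prop := ∀ (r g s B R0 : ℕ) (ρ : Fin g → ℤ), Function.Injective ρ →
  (∀ l, ρ l ≠ 0 ∧ |ρ l| ≤ R0) → ∃ E : ℕ, 1 ≤ E ∧
  ∀ (A N : ℕ) (a : Fin r → ℕ), 1 ≤ A → Function.Injective a →
  (∀ i, (2 * R0 + 1) ∣ a i ∧ 1 ≤ a i ∧ a i ≤ A) → (880 * (A + R0)) ^ E ≤ N →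
  ∀ Q : MvPolynomial (Fx r g s) ℤ, (∀ v, Q.degreeOf v ≤ B) →
  MvPolynomial.aeval (vals a ρ N) Q = 0 → Q = 0

/-! ## Targets: elimination and counting -/

/-- the polynomial `P(θ, y)` -/
noncomputable def spec {κ σ : Type} (θ : κ → ℂ) (P : MvPolynomial (κ ⊕ σ) ℤ) : MvPolynomial σ ℂ :=
  MvPolynomial.aeval (Sum.elim (fun i => MvPolynomial.C (θ i)) MvPolynomial.X) P

/-- `v` satisfies a nontrivial polynomial relation over `ℤ[θ]` of degree at most `D` -/
def HasRel {κ σ : Type} (D : ℕ) (θ : κ → ℂ) (v : σ → ℂ) : Prop :=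
  ∃ P : MvPolynomial (κ ⊕ σ) ℤ, P.totalDegree ≤ D ∧ spec θ P ≠ 0 ∧
    MvPolynomial.aeval (Sum.elim θ v) P = 0

/-- N0 a relation that is monic up to a nonzero factor, in a suitable variable -/
def T_ELIM1 : Prop := ∀ (κ σ : Type) (D : ℕ) (θ : κ → ℂ) (x : σ → ℂ), HasRel D θ x →
  ∃ (j : σ) (e : ℕ) (C : ℕ → MvPolynomial (κ ⊕ σ) ℤ), 1 ≤ e ∧ e ≤ D ∧
    (∀ h, (C h).totalDegree ≤ D ∧ (C h).degreeOf (Sum.inr j) = 0) ∧
    ∑ h ∈ range (e + 1), MvPolynomial.aeval (Sum.elim θ x) (C h) * x j ^ h = 0 ∧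
    MvPolynomial.aeval (Sum.elim θ x) (C e) ≠ 0

/-- N1 (from N0) elimination -/
def T_ELIM : Prop := ∀ (κ σ : Type) [Fintype κ] [Fintype σ] [DecidableEq σ] (D r : ℕ),
  Fintype.card κ < r → ∃ B : ℕ, ∀ (θ : κ → ℂ) (x : Fin r → σ → ℂ), (∀ i, HasRel D θ (x i)) →
  ∃ Q : MvPolynomial (Fin r × σ) ℤ, Q ≠ 0 ∧ (∀ v, Q.degreeOf v ≤ B) ∧
    MvPolynomial.aeval (fun v => x v.1 v.2) Q = 0

/-- N2 translation of one variable -/
def T_SHIFT : Prop := ∀ (κ σ : Type) (D : ℕ) (θ : κ → ℂ) (μ : ℂ) (v : Option σ → ℂ),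
  HasRel D θ v → HasRel D (fun i : Option κ => Option.elim i μ θ)
    (fun i : Option σ => Option.elim i (v none - μ) (fun t => v (some t)))

/-- the periods of one point -/
noncomputable def per {g : ℕ} (s : ℕ) (ρ : Fin g → ℤ) (t : ℕ) : Option (Fin g × Fin s) → ℂ
  | none => (Real.log t : ℂ)
  | some (l, j) => (Li ((j : ℕ) + 1) ((ρ l : ℝ) / t) : ℂ)

/-- N3 (from P5, N1, N2) one point -/
def T_ONE : Prop := ∀ (g s R0 : ℕ) (ρ : Fin g → ℤ), Function.Injective ρ →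
  (∀ l, ρ l ≠ 0 ∧ |ρ l| ≤ R0) → ∀ (κ : Type) [Fintype κ] (D : ℕ), ∃ K : ℕ, 1 ≤ K ∧
  ∀ (T : ℕ) (θ : κ → ℂ), 1 ≤ T →
  (({t : ℕ | (R0 < t ∧ t ≤ T) ∧ HasRel D θ (per s ρ t)}).ncard : ℝ) ≤
    K * (T : ℝ) ^ (1 - 1 / (K : ℝ))

/-- N4 (from N3) several points -/
def T_MULTI : Prop := ∀ (g s R0 : ℕ) (ρ : Fin g → ℤ), Function.Injective ρ →
  (∀ l, ρ l ≠ 0 ∧ |ρ l| ≤ R0) → ∀ (n : ℕ) (κ : Type) [Fintype κ] (D : ℕ), ∃ K : ℕ, 1 ≤ K ∧
  ∀ (T : ℕ) (θ : κ → ℂ), 1 ≤ T →
  (({t : Fin n → ℕ | (∀ i, R0 < t i ∧ t i ≤ T) ∧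
    HasRel D θ (fun v : Fin n × Option (Fin g × Fin s) => per s ρ (t v.1) v.2)}).ncard : ℝ) ≤
    K * (T : ℝ) ^ ((n : ℝ) - 1 / (K : ℝ))

end Pool.Agent.PLG
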